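import Pool.Agent.H773R2.UG.Defs3

/-! A40: no critical role. -/

namespace H773Y

open Finset Pool.Agent.Results.MP_9dddc4_co.UkExponent H773X

theorem A40_mono {r : ℕ} {D : Finset (Fin r) → ℝ} (h : SupM D) (A : Finset (Fin r)) (c : Fin r) :
    ∀ C : Finset (Fin r), c ∉ A ∪ C → mg D c A ≤ mg D c (A ∪ C) := by
  intro C
  induction C using Finset.induction_on with
  | empty => intro _; simp
  | insert b C hb ih =>
    intro hc
    rw [union_insert] at hc ⊢
    rw [mem_insert, not_or] at hc
    refine (ih hc.2).trans ?_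
    by_cases hbA : b ∈ A ∪ C
    · rw [insert_eq_of_mem hbA]
    · have := h.2.2 (A ∪ C) c b hc.2 hbA hc.1
      unfold mg
      linarith

theorem A40_mono' {r : ℕ} {D : Finset (Fin r) → ℝ} (h : SupM D) {A B : Finset (Fin r)}
    (hAB : A ⊆ B) {c : Fin r} (hc : c ∉ B) : mg D c A ≤ mg D c B := by
  have := A40_mono h A c B
  rw [union_eq_right.2 hAB] at this
  exact this hc

theorem A40_nonneg {r : ℕ} {D : Finset (Fin r) → ℝ} (h : SupM D) (a : Fin r) : 0 ≤ D {a} := by
  have := h.2.1 ∅ a
  rw [h.1] at this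
  simpa using this

theorem A40_mg_nonneg {r : ℕ} {D : Finset (Fin r) → ℝ} (h : SupM D) (a : Fin r)
    (A : Finset (Fin r)) : 0 ≤ mg D a A := by
  have := h.2.1 A a
  unfold mg
  linarith

/-- the main estimate for the last element `w` -/
theorem A40_last {r : ℕ} {D : Finset (Fin r) → ℝ} (h : SupM D) {a w : Fin r} (haw : a ≠ w) :
    mg D a {w} ≤ D {a} + mg D w (univ.erase w) := by
  have h1 : mg D w {a} ≤ mg D w (univ.erase w) := by
    apply A40_mono' h
    · intro b hb
      rw [mem_singleton] at hb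
      rw [hb, mem_erase]
      exact ⟨haw, mem_univ _⟩
    · exact notMem_erase w univ
  have h2 := A40_nonneg h w
  have h3 : (insert a {w} : Finset (Fin r)) = insert w {a} := pair_comm a w
  unfold mg at h1 ⊢
  rw [h3]
  linarith

theorem A40 : S_A40 := by
  intro d D hd1 hd2 hS hDu hc
  -- the second condition always holds
  have hsec : ∀ x y c : Fin 4, c ≠ x → c ≠ y → mg D c {x, y} ≤ d - 1 / 2 := by
    intro x y c hx hy
    refine le_trans (A40_mono' hS (B := univ.erase c) ?_ (notMem_erase c univ)) (hc c)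
    intro b hb
    rw [mem_insert, mem_singleton] at hb
    rw [mem_erase]
    refine ⟨?_, mem_univ _⟩
    rintro rfl
    rcases hb with hb | hb
    · exact hx hb
    · exact hy hb
  obtain ⟨x, -, hx⟩ := exists_max_image (univ : Finset (Fin 4)) (fun x => D {x}) ⟨0, mem_univ _⟩
  have hx' : ∀ a, D {a} ≤ D {x} := fun a => hx a (mem_univ a)
  have c1 : ((univ : Finset (Fin 4)).erase x).card = 3 := by
    rw [card_erase_of_mem (mem_univ x)]; simp
  obtain ⟨y, hyx, hy⟩ := exists_max_image ((univ : Finset (Fin 4)).erase x)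
    (fun y => mg D y {x}) (card_pos.1 (by omega))
  have c2 : (((univ : Finset (Fin 4)).erase x).erase y).card = 2 := by
    rw [card_erase_of_mem hyx, c1]
  obtain ⟨z, hz1, hz⟩ := exists_max_image (((univ : Finset (Fin 4)).erase x).erase y)
    (fun y => mg D y {x}) (card_pos.1 (by omega))
  have c3 : ((((univ : Finset (Fin 4)).erase x).erase y).erase z).card = 1 := by
    rw [card_erase_of_mem hz1, c2]
  obtain ⟨w, hw⟩ := card_eq_one.1 c3
  have hw1 : w ∈ (((univ : Finset (Fin 4)).erase x).erase y).erase z := by rw [hw]; simp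
  have hwall : ∀ b : Fin 4, b ≠ x → b ≠ y → b ≠ z → b = w := by
    intro b h1 h2 h3
    have : b ∈ (((univ : Finset (Fin 4)).erase x).erase y).erase z :=
      mem_erase.2 ⟨h3, mem_erase.2 ⟨h2, mem_erase.2 ⟨h1, mem_univ _⟩⟩⟩
    rw [hw] at this
    exact mem_singleton.1 this
  have hyx' : y ≠ x := (mem_erase.1 hyx).1
  have hzy : z ≠ y := (mem_erase.1 hz1).1
  have hzx : z ≠ x := (mem_erase.1 (mem_erase.1 hz1).2).1
  have hwz : w ≠ z := (mem_erase.1 hw1).1
  have hwy : w ≠ y := (mem_erase.1 (mem_erase.1 hw1).2).1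
  have hwx : w ≠ x := (mem_erase.1 (mem_erase.1 (mem_erase.1 hw1).2).2).1
  have hzmax : mg D z {x} ≤ mg D y {x} := hy z (mem_erase.2 ⟨hzx, mem_univ _⟩)
  have hwmax : mg D w {x} ≤ mg D z {x} :=
    hz w (mem_erase.2 ⟨hwy, mem_erase.2 ⟨hwx, mem_univ _⟩⟩)
  have hew : (univ : Finset (Fin 4)).erase w = insert z (insert y {x}) := by
    ext b
    simp only [mem_erase, mem_univ, and_true, mem_insert, mem_singleton]
    constructor
    · intro hb
      by_contra hcon
      push Not at hcon
      exact hb (hwall b hcon.2.2 hcon.2.1 hcon.1)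
    · rintro (rfl | rfl | rfl)
      · exact hwz.symm
      · exact hwy.symm
      · exact hwx.symm
  have hsum : D {x} + mg D y {x} + mg D z (insert y {x}) + mg D w (univ.erase w) ≤ d := by
    have e1 : insert w ((univ : Finset (Fin 4)).erase w) = univ := insert_erase (mem_univ w)
    have : D {x} + mg D y {x} + mg D z (insert y {x}) + mg D w (univ.erase w) = D univ := by
      unfold mg
      rw [e1, hew]
      ring
    linarith
  have hzz : mg D z {x} ≤ mg D z (insert y {x}) := by
    apply A40_mono' hS (subset_insert _ _)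
    rw [mem_insert, mem_singleton, not_or]
    exact ⟨hzy, hzx⟩
  have hz0 := A40_mg_nonneg hS z (insert y {x})
  have lx := A40_last hS hwx.symm
  have ly := A40_last hS hwy.symm
  have lz := A40_last hS hwz.symm
  have dy := hx' y
  have dz := hx' z
  by_cases ha : 3 / 4 < mg D y {x}
  · refine ⟨w, z, hwz, by linarith, fun c hc1 hc2 => ⟨?_, hsec w z c hc1 hc2⟩⟩
    by_cases hcx : c = x
    · subst hcx; linarith
    · by_cases hcy : c = y
      · subst hcy; linarith
      · exact absurd (hwall c hcx hcy hc2) hc1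
  · push Not at ha
    by_cases hb : d - 3 / 4 < mg D z {x}
    · refine ⟨w, x, hwx, by linarith, fun c hc1 hc2 => ⟨?_, hsec w x c hc1 hc2⟩⟩
      by_cases hcy : c = y
      · subst hcy; linarith
      · by_cases hcz : c = z
        · subst hcz; linarith
        · exact absurd (hwall c hc2 hcy hcz) hc1
    · push Not at hb
      refine ⟨x, y, hyx'.symm, ha, fun c hc1 hc2 => ⟨?_, hsec x y c hc1 hc2⟩⟩
      by_cases hcz : c = z
      · subst hcz; linarith
      · have := hwall c hc1 hc2 hcz
        subst this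
        linarith

end H773Y
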