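import Pool.Agent.H773R2.UG.Defs3

set_option autoImplicit false
set_option linter.unusedVariables false

namespace H773Y

open Finset Pool.Agent.Results.MP_9dddc4_co.UkExponent H773X

/-- the real inequalities behind `A41` -/
lemma A41_real (d B Y Z W BY BZ BW YZ YW ZW BYZ BYW BZW YZW U : ℝ)
    (hd1 : 9 / 8 ≤ d) (hd2 : d ≤ 3 / 2) (hU : U ≤ d)
    (hB : 0 ≤ B) (hY : 0 ≤ Y) (hZ : 0 ≤ Z) (hW : 0 ≤ W)
    (by1 : B ≤ BY) (by2 : Y ≤ BY) (bz1 : B ≤ BZ) (bz2 : Z ≤ BZ) (bw1 : B ≤ BW) (bw2 : W ≤ BW)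
    (yz1 : Y ≤ YZ) (yz2 : Z ≤ YZ) (yw1 : Y ≤ YW) (yw2 : W ≤ YW) (zw1 : Z ≤ ZW) (zw2 : W ≤ ZW)
    (t1 : BY ≤ BYZ) (t2 : BZ ≤ BYZ) (t3 : YZ ≤ BYZ) (t4 : BY ≤ BYW) (t5 : BW ≤ BYW)
    (t6 : YW ≤ BYW) (t7 : BZ ≤ BZW) (t8 : BW ≤ BZW) (t9 : ZW ≤ BZW) (t10 : YZ ≤ YZW)
    (t11 : YW ≤ YZW) (t12 : ZW ≤ YZW)
    (b1 : BY + BZ ≤ BYZ + B) (b2 : BY + BW ≤ BYW + B) (b3 : BZ + BW ≤ BZW + B)
    (y1 : BY + YZ ≤ BYZ + Y) (y2 : BY + YW ≤ BYW + Y) (y3 : YZ + YW ≤ YZW + Y)
    (z1 : BZ + YZ ≤ BYZ + Z) (z2 : BZ + ZW ≤ BZW + Z) (z3 : YZ + ZW ≤ YZW + Z)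
    (w1 : BW + YW ≤ BYW + W) (w2 : BW + ZW ≤ BZW + W) (w3 : YW + ZW ≤ YZW + W)
    (p1 : BYZ + BYW ≤ U + BY) (p2 : BYZ + BZW ≤ U + BZ) (p3 : BYW + BZW ≤ U + BW)
    (p4 : BYZ + YZW ≤ U + YZ) (p5 : BYW + YZW ≤ U + YW) (p6 : BZW + YZW ≤ U + ZW)
    (hb : d - 1 / 2 < U - YZW) (hy : U - BZW ≤ d - 1 / 2) (hz : U - BYW ≤ d - 1 / 2)
    (hw : U - BYZ ≤ d - 1 / 2) (o1 : BZ ≤ BY) (o2 : BW ≤ BZ) :
    (BY - Y ≤ 3 / 4 ∧ YZ - Y ≤ d - 3 / 4 ∧ BYZ - BY ≤ d - 1 / 2 ∧ YW - Y ≤ d - 3 / 4 ∧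
      BYW - BY ≤ d - 1 / 2) ∨
    (BZ - Z ≤ 3 / 4 ∧ YZ - Z ≤ d - 3 / 4 ∧ BYZ - BZ ≤ d - 1 / 2 ∧ ZW - Z ≤ d - 3 / 4 ∧
      BZW - BZ ≤ d - 1 / 2) ∨
    (BW - W ≤ 3 / 4 ∧ YW - W ≤ d - 3 / 4 ∧ BYW - BW ≤ d - 1 / 2 ∧ ZW - W ≤ d - 3 / 4 ∧
      BZW - BW ≤ d - 1 / 2) ∨
    (BY - B ≤ 3 / 4 ∧ BZ - B ≤ d - 3 / 4 ∧ BYZ - BY ≤ d - 1 / 2 ∧ BW - B ≤ d - 3 / 4 ∧
      BYW - BY ≤ d - 1 / 2) ∨
    (ZW - W ≤ 3 / 4 ∧ YW - W ≤ d - 3 / 4 ∧ YZW - ZW ≤ d - 1 / 2 ∧ BW - W ≤ d - 3 / 4 ∧
      BZW - ZW ≤ d - 1 / 2) := by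
  by_cases h1 : d - 3 / 4 < BZ - B
  · by_cases h2 : d - 3 / 4 < YW - W
    · left
      refine ⟨?_, ?_, ?_, ?_, ?_⟩
      · linarith
      · by_contra hcon
        push Not at hcon
        linarith
      · linarith
      · linarith
      · linarith
    · by_cases h3 : d - 3 / 4 < ZW - W
      · right; left
        refine ⟨?_, ?_, ?_, ?_, ?_⟩
        · linarith
        · by_contra hcon
          push Not at hcon
          linarith
        · linarith
        · linarith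
        · linarith
      · right; right; left
        push Not at h2 h3
        refine ⟨?_, h2, ?_, h3, ?_⟩
        · linarith
        · linarith
        · linarith
  · push Not at h1
    by_cases h2 : BY - B ≤ 3 / 4
    · right; right; right; left
      refine ⟨h2, h1, ?_, ?_, ?_⟩ <;> linarith
    · right; right; right; right
      push Not at h2
      refine ⟨?_, ?_, ?_, ?_, ?_⟩
      · linarith
      · linarith
      · linarith
      · linarith
      · linarith

/-- the goal from one choice -/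
lemma A41_mk (d : ℝ) (D : Finset (Fin 4) → ℝ) (x y c1 c2 : Fin 4)
    (hall : ∀ c, c = x ∨ c = y ∨ c = c1 ∨ c = c2) (hxy : x ≠ y)
    (h0 : D {y, x} - D {x} ≤ 3 / 4)
    (h1 : D {c1, x} - D {x} ≤ d - 3 / 4) (h2 : D {c1, x, y} - D {x, y} ≤ d - 1 / 2)
    (h3 : D {c2, x} - D {x} ≤ d - 3 / 4) (h4 : D {c2, x, y} - D {x, y} ≤ d - 1 / 2) :
    Goal4 d D := by
  refine ⟨x, y, hxy, h0, ?_⟩
  intro c hcx hcy
  rcases hall c with h | h | h | h
  · exact absurd h hcx
  · exact absurd h hcy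
  · subst h; exact ⟨h1, h2⟩
  · subst h; exact ⟨h3, h4⟩

lemma A41_all : ∀ b y z w : Fin 4, b ≠ y → b ≠ z → b ≠ w → y ≠ z → y ≠ w → z ≠ w →
    ∀ c : Fin 4, c = b ∨ c = y ∨ c = z ∨ c = w := by decide

lemma A41_ex : ∀ b : Fin 4, ∃ p q r : Fin 4, b ≠ p ∧ b ≠ q ∧ b ≠ r ∧
    p ≠ q ∧ p ≠ r ∧ q ≠ r := by decide

/-- sorted version of `A41` -/
lemma A41_sorted (d : ℝ) (D : Finset (Fin 4) → ℝ) (b y z w : Fin 4)
    (hby : b ≠ y) (hbz : b ≠ z) (hbw : b ≠ w) (hyz : y ≠ z) (hyw : y ≠ w) (hzw : z ≠ w)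
    (hd1 : 9 / 8 ≤ d) (hd2 : d ≤ 3 / 2) (hS : SupM D) (hU : D univ ≤ d)
    (hb : d - 1 / 2 < mg D b (univ.erase b))
    (hc : ∀ c, c ≠ b → mg D c (univ.erase c) ≤ d - 1 / 2)
    (o1 : D {b, z} ≤ D {b, y}) (o2 : D {b, w} ≤ D {b, z}) : Goal4 d D := by
  obtain ⟨h0, hm, hs⟩ := hS
  have hall : ∀ c : Fin 4, c = b ∨ c = y ∨ c = z ∨ c = w :=
    A41_all b y z w hby hbz hbw hyz hyw hzw
  have hu : (univ : Finset (Fin 4)) = {b, y, z, w} := by
    ext t; simp only [mem_univ, mem_insert, mem_singleton, true_iff]; exact hall t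
  have eb : (univ : Finset (Fin 4)).erase b = {y, z, w} := by
    ext t; have := hall t
    simp only [mem_erase, mem_univ, and_true, mem_insert, mem_singleton]
    constructor
    · intro h; tauto
    · rintro (h | h | h) <;> subst h
      · exact hby.symm
      · exact hbz.symm
      · exact hbw.symm
  have ey : (univ : Finset (Fin 4)).erase y = {b, z, w} := by
    ext t; have := hall t
    simp only [mem_erase, mem_univ, and_true, mem_insert, mem_singleton]
    constructor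
    · intro h; tauto
    · rintro (h | h | h) <;> subst h
      · exact hby
      · exact hyz.symm
      · exact hyw.symm
  have ez : (univ : Finset (Fin 4)).erase z = {b, y, w} := by
    ext t; have := hall t
    simp only [mem_erase, mem_univ, and_true, mem_insert, mem_singleton]
    constructor
    · intro h; tauto
    · rintro (h | h | h) <;> subst h
      · exact hbz
      · exact hyz
      · exact hzw.symm
  have ew : (univ : Finset (Fin 4)).erase w = {b, y, z} := by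
    ext t; have := hall t
    simp only [mem_erase, mem_univ, and_true, mem_insert, mem_singleton]
    constructor
    · intro h; tauto
    · rintro (h | h | h) <;> subst h
      · exact hbw
      · exact hyw
      · exact hzw
  have mgb : mg D b (univ.erase b) = D univ - D {y, z, w} := by
    unfold mg; rw [Finset.insert_erase (mem_univ b), eb]
  have mgy : mg D y (univ.erase y) = D univ - D {b, z, w} := by
    unfold mg; rw [Finset.insert_erase (mem_univ y), ey]
  have mgz : mg D z (univ.erase z) = D univ - D {b, y, w} := by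
    unfold mg; rw [Finset.insert_erase (mem_univ z), ez]
  have mgw : mg D w (univ.erase w) = D univ - D {b, y, z} := by
    unfold mg; rw [Finset.insert_erase (mem_univ w), ew]
  have hy' := hc y hby.symm
  have hz' := hc z hbz.symm
  have hw' := hc w hbw.symm
  rw [mgb] at hb
  rw [mgy] at hy'
  rw [mgz] at hz'
  rw [mgw] at hw'
  -- equalities of sets
  have c1 : ({y, b} : Finset (Fin 4)) = {b, y} := Finset.pair_comm _ _
  have c2 : ({z, b} : Finset (Fin 4)) = {b, z} := Finset.pair_comm _ _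
  have c3 : ({w, b} : Finset (Fin 4)) = {b, w} := Finset.pair_comm _ _
  have c4 : ({z, y} : Finset (Fin 4)) = {y, z} := Finset.pair_comm _ _
  have c5 : ({w, y} : Finset (Fin 4)) = {y, w} := Finset.pair_comm _ _
  have c6 : ({w, z} : Finset (Fin 4)) = {z, w} := Finset.pair_comm _ _
  have tri : ∀ p q r : Fin 4, ({q, p, r} : Finset (Fin 4)) = {p, q, r} := fun p q r =>
    Finset.insert_comm _ _ _
  have tri2 : ∀ p q r : Fin 4, ({p, r, q} : Finset (Fin 4)) = {p, q, r} := fun p q r => by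
    rw [Finset.pair_comm]
  have rot : ∀ p q r : Fin 4, ({q, r, p} : Finset (Fin 4)) = {p, q, r} := fun p q r => by
    rw [Finset.pair_comm r p, Finset.insert_comm]
  have m0 : ∀ a, 0 ≤ D {a} := by
    intro a; have := hm ∅ a; rw [h0] at this; simpa using this
  have m1 : ∀ a c, D {c} ≤ D {a, c} := fun a c => hm {c} a
  have m2 : ∀ a p q, D {p, q} ≤ D {a, p, q} := fun a p q => hm {p, q} a
  have s1 : ∀ a c e, a ≠ e → c ≠ e → a ≠ c → D {a, e} + D {c, e} ≤ D {a, c, e} + D {e} := by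
    intro a c e h1 h2 h3
    exact hs {e} a c (by simpa using h1) (by simpa using h2) h3
  have s2 : ∀ a c p q, a ≠ p → a ≠ q → c ≠ p → c ≠ q → a ≠ c →
      D {a, p, q} + D {c, p, q} ≤ D {a, c, p, q} + D {p, q} := by
    intro a c p q h1 h2 h3 h4 h5
    refine hs {p, q} a c ?_ ?_ h5
    · simp [h1, h2]
    · simp [h3, h4]
  have key := A41_real d (D {b}) (D {y}) (D {z}) (D {w}) (D {b, y}) (D {b, z}) (D {b, w})
    (D {y, z}) (D {y, w}) (D {z, w}) (D {b, y, z}) (D {b, y, w}) (D {b, z, w}) (D {y, z, w})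
    (D univ) hd1 hd2 hU (m0 b) (m0 y) (m0 z) (m0 w)
    (by rw [← c1]; exact m1 y b) (m1 b y) (by rw [← c2]; exact m1 z b) (m1 b z)
    (by rw [← c3]; exact m1 w b) (m1 b w)
    (by rw [← c4]; exact m1 z y) (m1 y z) (by rw [← c5]; exact m1 w y) (m1 y w)
    (by rw [← c6]; exact m1 w z) (m1 z w)
    (by have := m2 z b y; rwa [tri, tri2] at this)
    (by have := m2 y b z; rwa [tri] at this) (m2 b y z)
    (by have := m2 w b y; rwa [tri, tri2] at this)
    (by have := m2 y b w; rwa [tri] at this) (m2 b y w)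
    (by have := m2 w b z; rwa [tri, tri2] at this)
    (by have := m2 z b w; rwa [tri] at this) (m2 b z w)
    (by have := m2 w y z; rwa [tri, tri2] at this)
    (by have := m2 z y w; rwa [tri] at this) (m2 y z w)
    (by have := s1 y z b hby.symm hbz.symm hyz; rwa [rot b y z, c1, c2] at this)
    (by have := s1 y w b hby.symm hbw.symm hyw; rwa [rot b y w, c1, c3] at this)
    (by have := s1 z w b hbz.symm hbw.symm hzw; rwa [rot b z w, c2, c3] at this)
    (by have := s1 b z y hby hyz.symm hbz; rwa [tri2 b y z, c4] at this)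
    (by have := s1 b w y hby hyw.symm hbw; rwa [tri2 b y w, c5] at this)
    (by have := s1 z w y hyz.symm hyw.symm hzw; rwa [rot y z w, c4, c5] at this)
    (by have := s1 b y z hbz hyz hby; exact this)
    (by have := s1 b w z hbz hzw.symm hbw; rwa [tri2 b z w, c6] at this)
    (by have := s1 y w z hyz hzw.symm hyw; rwa [tri2 y z w, c6] at this)
    (by have := s1 b y w hbw hyw hby; exact this)
    (by have := s1 b z w hbw hzw hbz; exact this)
    (by have := s1 y z w hyw hzw hyz; exact this)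
    ?_ ?_ ?_ ?_ ?_ ?_ hb hy' hz' hw' o1 o2
  · rcases key with k | k | k | k | k
    · obtain ⟨k1, k2, k3, k4, k5⟩ := k
      refine A41_mk d D y b z w ?_ hby.symm k1 ?_ ?_ ?_ ?_
      · intro c; have := hall c; tauto
      · rw [c4]; exact k2
      · rw [c1, tri, tri2]; exact k3
      · rw [c5]; exact k4
      · rw [c1, tri, tri2]; exact k5
    · obtain ⟨k1, k2, k3, k4, k5⟩ := k
      refine A41_mk d D z b y w ?_ hbz.symm k1 ?_ ?_ ?_ ?_
      · intro c; have := hall c; tauto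
      · exact k2
      · rw [c2, tri]; exact k3
      · rw [c6]; exact k4
      · rw [c2, tri, tri2]; exact k5
    · obtain ⟨k1, k2, k3, k4, k5⟩ := k
      refine A41_mk d D w b y z ?_ hbw.symm k1 ?_ ?_ ?_ ?_
      · intro c; have := hall c; tauto
      · exact k2
      · rw [c3, tri]; exact k3
      · exact k4
      · rw [c3, tri]; exact k5
    · obtain ⟨k1, k2, k3, k4, k5⟩ := k
      refine A41_mk d D b y z w ?_ hby ?_ ?_ ?_ ?_ ?_
      · intro c; have := hall c; tauto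
      · rw [c1]; exact k1
      · rw [c2]; exact k2
      · rw [tri, tri2]; exact k3
      · rw [c3]; exact k4
      · rw [tri, tri2]; exact k5
    · obtain ⟨k1, k2, k3, k4, k5⟩ := k
      refine A41_mk d D w z y b ?_ hzw.symm k1 ?_ ?_ ?_ ?_
      · intro c; have := hall c; tauto
      · exact k2
      · rw [c6]; exact k3
      · exact k4
      · rw [c6]; exact k5
  · -- BYZ + BYW ≤ U + BY
    have := s2 z w b y hbz.symm hyz.symm hbw.symm hyw.symm hzw
    have e1 : ({z, w, b, y} : Finset (Fin 4)) = univ := by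
      rw [hu]; ext t; simp only [mem_insert, mem_singleton]; tauto
    rw [e1, tri b z y, tri2 b y z, tri b w y, tri2 b y w] at this
    exact this
  · have := s2 y w b z hby.symm hyz hbw.symm hzw.symm hyw
    have e1 : ({y, w, b, z} : Finset (Fin 4)) = univ := by
      rw [hu]; ext t; simp only [mem_insert, mem_singleton]; tauto
    rw [e1, tri b y z, tri b w z, tri2 b z w] at this
    exact this
  · have := s2 y z b w hby.symm hyw hbz.symm hzw hyz
    have e1 : ({y, z, b, w} : Finset (Fin 4)) = univ := by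
      rw [hu]; ext t; simp only [mem_insert, mem_singleton]; tauto
    rw [e1, tri b y w, tri b z w] at this
    exact this
  · have := s2 b w y z hby hbz hyw.symm hzw.symm hbw
    have e1 : ({b, w, y, z} : Finset (Fin 4)) = univ := by
      rw [hu]; ext t; simp only [mem_insert, mem_singleton]; tauto
    rw [e1, tri y w z, tri2 y z w] at this
    exact this
  · have := s2 b z y w hby hbw hyz.symm hzw hbz
    have e1 : ({b, z, y, w} : Finset (Fin 4)) = univ := by
      rw [hu]; ext t; simp only [mem_insert, mem_singleton]; tauto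
    rw [e1, tri y z w] at this
    exact this
  · have := s2 b y z w hbz hbw hyz hyw hby
    have e1 : ({b, y, z, w} : Finset (Fin 4)) = univ := hu.symm
    rw [e1] at this
    exact this

theorem A41 : S_A41 := by
  intro d D b hd1 hd2 hS hU hb hc
  obtain ⟨p, q, r, hbp, hbq, hbr, hpq, hpr, hqr⟩ := A41_ex b
  rcases le_total (D {b, p}) (D {b, q}) with h1 | h1 <;>
  rcases le_total (D {b, q}) (D {b, r}) with h2 | h2 <;>
  rcases le_total (D {b, p}) (D {b, r}) with h3 | h3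
  · exact A41_sorted d D b r q p hbr hbq hbp hqr.symm hpr.symm hpq.symm hd1 hd2 hS hU hb hc h2 h1
  · exact A41_sorted d D b r q p hbr hbq hbp hqr.symm hpr.symm hpq.symm hd1 hd2 hS hU hb hc h2 h1
  · exact A41_sorted d D b q r p hbq hbr hbp hqr hpq.symm hpr.symm hd1 hd2 hS hU hb hc h2 h3
  · exact A41_sorted d D b q p r hbq hbp hbr hpq.symm hqr hpr hd1 hd2 hS hU hb hc h1 h3
  · exact A41_sorted d D b r p q hbr hbp hbq hpr.symm hqr.symm hpq hd1 hd2 hS hU hb hc h3 h1
  · exact A41_sorted d D b p r q hbp hbr hbq hpr hpq hqr.symm hd1 hd2 hS hU hb hc h3 h2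
  · exact A41_sorted d D b p q r hbp hbq hbr hpq hpr hqr hd1 hd2 hS hU hb hc h1 h2
  · exact A41_sorted d D b p q r hbp hbq hbr hpq hpr hqr hd1 hd2 hS hU hb hc h1 h2

end H773Y
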