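import Pool.Agent.H773R2.UG.Defs3

/-! A42: at least two critical roles. -/

set_option linter.unusedVariables false

namespace H773Y

open Finset

theorem A42_perm_sup {D : Finset (Fin 4) → ℝ} (e : Equiv.Perm (Fin 4)) (hS : SupM D) :
    SupM (fun A => D (A.image e)) := by
  refine ⟨by simp [hS.1], fun A a => ?_, fun A a b ha hb hab => ?_⟩
  · simp only [image_insert]
    exact hS.2.1 _ _
  · simp only [image_insert]
    refine hS.2.2 _ _ _ ?_ ?_ ?_
    · simpa using ha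
    · simpa using hb
    · simpa using hab

theorem A42_perm_goal {d : ℝ} {D : Finset (Fin 4) → ℝ} (e : Equiv.Perm (Fin 4))
    (h : Goal4 d (fun A => D (A.image e))) : Goal4 d D := by
  obtain ⟨x, y, hxy, h1, h2⟩ := h
  refine ⟨e x, e y, fun h => hxy (e.injective h), ?_, fun c hcx hcy => ?_⟩
  · have h3 : D (({x} : Finset (Fin 4)).image e) = D {e x} := by rw [image_singleton]
    have h4 : D ((insert y ({x} : Finset (Fin 4))).image e) = D (insert (e y) {e x}) := by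
      rw [image_insert, image_singleton]
    unfold mg at h1 ⊢
    rw [← h3, ← h4]
    exact h1
  · obtain ⟨c', rfl⟩ := e.surjective c
    have h3 := h2 c' (fun h => hcx (by rw [h])) (fun h => hcy (by rw [h]))
    have h4 : D (({x} : Finset (Fin 4)).image e) = D {e x} := by rw [image_singleton]
    have h5 : D ((insert c' ({x} : Finset (Fin 4))).image e) = D (insert (e c') {e x}) := by
      rw [image_insert, image_singleton]
    have h6 : D (({x, y} : Finset (Fin 4)).image e) = D {e x, e y} := by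
      rw [image_insert, image_singleton]
    have h7 : D ((insert c' ({x, y} : Finset (Fin 4))).image e) = D (insert (e c') {e x, e y}) := by
      rw [image_insert, image_insert, image_singleton]
    unfold mg at h3 ⊢
    rw [← h4, ← h5, ← h6, ← h7]
    exact h3

theorem A42_sm {D : Finset (Fin 4) → ℝ} (hS : SupM D) (A : Finset (Fin 4)) (a b : Fin 4)
    (X Y Z : Finset (Fin 4)) (h : a ∉ A ∧ b ∉ A ∧ a ≠ b ∧ insert a A = X ∧ insert b A = Y ∧
      insert a (insert b A) = Z) : D X + D Y ≤ D Z + D A := by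
  obtain ⟨h1, h2, h3, rfl, rfl, rfl⟩ := h
  exact hS.2.2 A a b h1 h2 h3

theorem A42_mo {D : Finset (Fin 4) → ℝ} (hS : SupM D) (A : Finset (Fin 4)) (a : Fin 4)
    (X : Finset (Fin 4)) (h : insert a A = X) : D A ≤ D X := by
  subst h
  exact hS.2.1 A a

theorem A42_goal {d : ℝ} {D : Finset (Fin 4) → ℝ} (x y c₁ c₂ : Fin 4)
    (h : x ≠ y ∧ ∀ c, c ≠ x → c ≠ y → c = c₁ ∨ c = c₂) (X Y X₁ X₂ Y₁ Y₂ : Finset (Fin 4))
    (hs : {x} = X ∧ insert y {x} = Y ∧ insert c₁ {x} = X₁ ∧ insert c₂ {x} = X₂ ∧ {x, y} = Y ∧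
      insert c₁ {x, y} = Y₁ ∧ insert c₂ {x, y} = Y₂) (h0 : D Y - D X ≤ 3 / 4)
    (h1 : D X₁ - D X ≤ d - 3 / 4) (h2 : D Y₁ - D Y ≤ d - 1 / 2)
    (h3 : D X₂ - D X ≤ d - 3 / 4) (h4 : D Y₂ - D Y ≤ d - 1 / 2) : Goal4 d D := by
  obtain ⟨e1, e2, e3, e4, e5, e6, e7⟩ := hs
  refine ⟨x, y, h.1, ?_, fun c hx hy => ?_⟩
  · unfold mg
    rw [e2, e1]; exact h0
  · rcases h.2 c hx hy with rfl | rfl
    · unfold mg
      rw [e3, e6, e5, e1]; exact ⟨h1, h2⟩
    · unfold mg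
      rw [e4, e7, e5, e1]; exact ⟨h3, h4⟩

/-- one role critical at both others -/
theorem A42_sub1 {d : ℝ} {D : Finset (Fin 4) → ℝ} (hd : 9 / 8 ≤ d) (hd2 : d ≤ 3 / 2) (hS : SupM D)
    (hu : D {0, 1, 2, 3} ≤ d) (hb : D {1, 2, 3} < 1 / 2) (hb' : D {0, 2, 3} < 1 / 2)
    (hw : d - 3 / 4 < D {0, 2} - D {2}) (hz : d - 3 / 4 < D {0, 3} - D {3}) : Goal4 d D := by
  have h0 := hS.1
  have s1 := A42_sm hS ∅ 0 1 {0} {1} {0, 1} (by decide)
  have s2 := A42_sm hS {2} 0 1 {0, 2} {1, 2} {0, 1, 2} (by decide)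
  have s3 := A42_sm hS {3} 0 1 {0, 3} {1, 3} {0, 1, 3} (by decide)
  have s4 := A42_sm hS {2, 3} 0 1 {0, 2, 3} {1, 2, 3} {0, 1, 2, 3} (by decide)
  have s5 := A42_sm hS ∅ 0 2 {0} {2} {0, 2} (by decide)
  have s6 := A42_sm hS {1} 0 2 {0, 1} {1, 2} {0, 1, 2} (by decide)
  have s7 := A42_sm hS {3} 0 2 {0, 3} {2, 3} {0, 2, 3} (by decide)
  have s8 := A42_sm hS {1, 3} 0 2 {0, 1, 3} {1, 2, 3} {0, 1, 2, 3} (by decide)
  have s9 := A42_sm hS ∅ 0 3 {0} {3} {0, 3} (by decide)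
  have s10 := A42_sm hS {1} 0 3 {0, 1} {1, 3} {0, 1, 3} (by decide)
  have s11 := A42_sm hS {2} 0 3 {0, 2} {2, 3} {0, 2, 3} (by decide)
  have s12 := A42_sm hS {1, 2} 0 3 {0, 1, 2} {1, 2, 3} {0, 1, 2, 3} (by decide)
  have s13 := A42_sm hS ∅ 1 2 {1} {2} {1, 2} (by decide)
  have s14 := A42_sm hS {0} 1 2 {0, 1} {0, 2} {0, 1, 2} (by decide)
  have s15 := A42_sm hS {3} 1 2 {1, 3} {2, 3} {1, 2, 3} (by decide)
  have s16 := A42_sm hS {0, 3} 1 2 {0, 1, 3} {0, 2, 3} {0, 1, 2, 3} (by decide)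
  have s17 := A42_sm hS ∅ 1 3 {1} {3} {1, 3} (by decide)
  have s18 := A42_sm hS {0} 1 3 {0, 1} {0, 3} {0, 1, 3} (by decide)
  have s19 := A42_sm hS {2} 1 3 {1, 2} {2, 3} {1, 2, 3} (by decide)
  have s20 := A42_sm hS {0, 2} 1 3 {0, 1, 2} {0, 2, 3} {0, 1, 2, 3} (by decide)
  have s21 := A42_sm hS ∅ 2 3 {2} {3} {2, 3} (by decide)
  have s22 := A42_sm hS {0} 2 3 {0, 2} {0, 3} {0, 2, 3} (by decide)
  have s23 := A42_sm hS {1} 2 3 {1, 2} {1, 3} {1, 2, 3} (by decide)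
  have s24 := A42_sm hS {0, 1} 2 3 {0, 1, 2} {0, 1, 3} {0, 1, 2, 3} (by decide)
  have m1 := A42_mo hS ∅ 0 {0} (by decide)
  have m2 := A42_mo hS ∅ 1 {1} (by decide)
  have m3 := A42_mo hS ∅ 2 {2} (by decide)
  have m4 := A42_mo hS ∅ 3 {3} (by decide)
  have m5 := A42_mo hS {0} 1 {0, 1} (by decide)
  have m6 := A42_mo hS {0} 2 {0, 2} (by decide)
  have m7 := A42_mo hS {0} 3 {0, 3} (by decide)
  have m8 := A42_mo hS {1} 0 {0, 1} (by decide)
  have m9 := A42_mo hS {1} 2 {1, 2} (by decide)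
  have m10 := A42_mo hS {1} 3 {1, 3} (by decide)
  have m11 := A42_mo hS {2} 0 {0, 2} (by decide)
  have m12 := A42_mo hS {2} 1 {1, 2} (by decide)
  have m13 := A42_mo hS {2} 3 {2, 3} (by decide)
  have m14 := A42_mo hS {3} 0 {0, 3} (by decide)
  have m15 := A42_mo hS {3} 1 {1, 3} (by decide)
  have m16 := A42_mo hS {3} 2 {2, 3} (by decide)
  have m17 := A42_mo hS {0, 1} 2 {0, 1, 2} (by decide)
  have m18 := A42_mo hS {0, 1} 3 {0, 1, 3} (by decide)
  have m19 := A42_mo hS {0, 2} 1 {0, 1, 2} (by decide)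
  have m20 := A42_mo hS {0, 2} 3 {0, 2, 3} (by decide)
  have m21 := A42_mo hS {0, 3} 1 {0, 1, 3} (by decide)
  have m22 := A42_mo hS {0, 3} 2 {0, 2, 3} (by decide)
  have m23 := A42_mo hS {1, 2} 0 {0, 1, 2} (by decide)
  have m24 := A42_mo hS {1, 2} 3 {1, 2, 3} (by decide)
  have m25 := A42_mo hS {1, 3} 0 {0, 1, 3} (by decide)
  have m26 := A42_mo hS {1, 3} 2 {1, 2, 3} (by decide)
  have m27 := A42_mo hS {2, 3} 0 {0, 2, 3} (by decide)
  have m28 := A42_mo hS {2, 3} 1 {1, 2, 3} (by decide)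
  have m29 := A42_mo hS {0, 1, 2} 3 {0, 1, 2, 3} (by decide)
  have m30 := A42_mo hS {0, 1, 3} 2 {0, 1, 2, 3} (by decide)
  have m31 := A42_mo hS {0, 2, 3} 1 {0, 1, 2, 3} (by decide)
  have m32 := A42_mo hS {1, 2, 3} 0 {0, 1, 2, 3} (by decide)
  by_cases c1 : D {0, 1} - D {0} ≤ d - 3 / 4
  · by_cases c2 : D {0, 1, 2} - D {0, 2} ≤ d - 1 / 2
    · exact A42_goal 0 2 1 3 (by decide) {0} {0, 2} {0, 1} {0, 3} {0, 1, 2}
        {0, 2, 3} (by decide) (by linarith) (by linarith) (by linarith) (by linarith) (by linarith)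
    · by_cases c3 : D {0, 1, 3} - D {0, 3} ≤ d - 1 / 2
      · exact A42_goal 0 3 1 2 (by decide) {0} {0, 3} {0, 1} {0, 2} {0, 1, 3}
          {0, 2, 3} (by decide) (by linarith) (by linarith) (by linarith) (by linarith) (by linarith)
      · exfalso
        linarith
  · exact A42_goal 0 1 2 3 (by decide) {0} {0, 1} {0, 2} {0, 3} {0, 1, 2}
      {0, 1, 3} (by decide) (by linarith) (by linarith) (by linarith) (by linarith) (by linarith)

/-- two roles critical at different roles -/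
theorem A42_sub2 {d : ℝ} {D : Finset (Fin 4) → ℝ} (hd : 9 / 8 ≤ d) (hd2 : d ≤ 3 / 2) (hS : SupM D)
    (hu : D {0, 1, 2, 3} ≤ d) (hb : D {1, 2, 3} < 1 / 2) (hb' : D {0, 2, 3} < 1 / 2)
    (hw : d - 3 / 4 < D {0, 2} - D {2}) (hz : d - 3 / 4 < D {1, 3} - D {3})
    (hw' : D {1, 2} - D {2} ≤ d - 3 / 4) (hz' : D {0, 3} - D {3} ≤ d - 3 / 4) :
    Goal4 d D := by
  have h0 := hS.1
  have s1 := A42_sm hS ∅ 0 1 {0} {1} {0, 1} (by decide)
  have s2 := A42_sm hS {2} 0 1 {0, 2} {1, 2} {0, 1, 2} (by decide)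
  have s3 := A42_sm hS {3} 0 1 {0, 3} {1, 3} {0, 1, 3} (by decide)
  have s4 := A42_sm hS {2, 3} 0 1 {0, 2, 3} {1, 2, 3} {0, 1, 2, 3} (by decide)
  have s5 := A42_sm hS ∅ 0 2 {0} {2} {0, 2} (by decide)
  have s6 := A42_sm hS {1} 0 2 {0, 1} {1, 2} {0, 1, 2} (by decide)
  have s7 := A42_sm hS {3} 0 2 {0, 3} {2, 3} {0, 2, 3} (by decide)
  have s8 := A42_sm hS {1, 3} 0 2 {0, 1, 3} {1, 2, 3} {0, 1, 2, 3} (by decide)
  have s9 := A42_sm hS ∅ 0 3 {0} {3} {0, 3} (by decide)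
  have s10 := A42_sm hS {1} 0 3 {0, 1} {1, 3} {0, 1, 3} (by decide)
  have s11 := A42_sm hS {2} 0 3 {0, 2} {2, 3} {0, 2, 3} (by decide)
  have s12 := A42_sm hS {1, 2} 0 3 {0, 1, 2} {1, 2, 3} {0, 1, 2, 3} (by decide)
  have s13 := A42_sm hS ∅ 1 2 {1} {2} {1, 2} (by decide)
  have s14 := A42_sm hS {0} 1 2 {0, 1} {0, 2} {0, 1, 2} (by decide)
  have s15 := A42_sm hS {3} 1 2 {1, 3} {2, 3} {1, 2, 3} (by decide)
  have s16 := A42_sm hS {0, 3} 1 2 {0, 1, 3} {0, 2, 3} {0, 1, 2, 3} (by decide)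
  have s17 := A42_sm hS ∅ 1 3 {1} {3} {1, 3} (by decide)
  have s18 := A42_sm hS {0} 1 3 {0, 1} {0, 3} {0, 1, 3} (by decide)
  have s19 := A42_sm hS {2} 1 3 {1, 2} {2, 3} {1, 2, 3} (by decide)
  have s20 := A42_sm hS {0, 2} 1 3 {0, 1, 2} {0, 2, 3} {0, 1, 2, 3} (by decide)
  have s21 := A42_sm hS ∅ 2 3 {2} {3} {2, 3} (by decide)
  have s22 := A42_sm hS {0} 2 3 {0, 2} {0, 3} {0, 2, 3} (by decide)
  have s23 := A42_sm hS {1} 2 3 {1, 2} {1, 3} {1, 2, 3} (by decide)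
  have s24 := A42_sm hS {0, 1} 2 3 {0, 1, 2} {0, 1, 3} {0, 1, 2, 3} (by decide)
  have m1 := A42_mo hS ∅ 0 {0} (by decide)
  have m2 := A42_mo hS ∅ 1 {1} (by decide)
  have m3 := A42_mo hS ∅ 2 {2} (by decide)
  have m4 := A42_mo hS ∅ 3 {3} (by decide)
  have m5 := A42_mo hS {0} 1 {0, 1} (by decide)
  have m6 := A42_mo hS {0} 2 {0, 2} (by decide)
  have m7 := A42_mo hS {0} 3 {0, 3} (by decide)
  have m8 := A42_mo hS {1} 0 {0, 1} (by decide)
  have m9 := A42_mo hS {1} 2 {1, 2} (by decide)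
  have m10 := A42_mo hS {1} 3 {1, 3} (by decide)
  have m11 := A42_mo hS {2} 0 {0, 2} (by decide)
  have m12 := A42_mo hS {2} 1 {1, 2} (by decide)
  have m13 := A42_mo hS {2} 3 {2, 3} (by decide)
  have m14 := A42_mo hS {3} 0 {0, 3} (by decide)
  have m15 := A42_mo hS {3} 1 {1, 3} (by decide)
  have m16 := A42_mo hS {3} 2 {2, 3} (by decide)
  have m17 := A42_mo hS {0, 1} 2 {0, 1, 2} (by decide)
  have m18 := A42_mo hS {0, 1} 3 {0, 1, 3} (by decide)
  have m19 := A42_mo hS {0, 2} 1 {0, 1, 2} (by decide)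
  have m20 := A42_mo hS {0, 2} 3 {0, 2, 3} (by decide)
  have m21 := A42_mo hS {0, 3} 1 {0, 1, 3} (by decide)
  have m22 := A42_mo hS {0, 3} 2 {0, 2, 3} (by decide)
  have m23 := A42_mo hS {1, 2} 0 {0, 1, 2} (by decide)
  have m24 := A42_mo hS {1, 2} 3 {1, 2, 3} (by decide)
  have m25 := A42_mo hS {1, 3} 0 {0, 1, 3} (by decide)
  have m26 := A42_mo hS {1, 3} 2 {1, 2, 3} (by decide)
  have m27 := A42_mo hS {2, 3} 0 {0, 2, 3} (by decide)
  have m28 := A42_mo hS {2, 3} 1 {1, 2, 3} (by decide)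
  have m29 := A42_mo hS {0, 1, 2} 3 {0, 1, 2, 3} (by decide)
  have m30 := A42_mo hS {0, 1, 3} 2 {0, 1, 2, 3} (by decide)
  have m31 := A42_mo hS {0, 2, 3} 1 {0, 1, 2, 3} (by decide)
  have m32 := A42_mo hS {1, 2, 3} 0 {0, 1, 2, 3} (by decide)
  by_cases c1 : D {0} ≤ 2 * (d - 3 / 4) - 1 / 2
  · exact A42_goal 3 1 0 2 (by decide) {3} {1, 3} {0, 3} {2, 3} {0, 1, 3}
      {1, 2, 3} (by decide) (by linarith) (by linarith) (by linarith) (by linarith) (by linarith)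
  · by_cases c2 : D {1} ≤ 2 * (d - 3 / 4) - 1 / 2
    · exact A42_goal 2 0 1 3 (by decide) {2} {0, 2} {1, 2} {2, 3} {0, 1, 2}
        {0, 2, 3} (by decide) (by linarith) (by linarith) (by linarith) (by linarith) (by linarith)
    · exact A42_goal 0 1 2 3 (by decide) {0} {0, 1} {0, 2} {0, 3} {0, 1, 2}
        {0, 1, 3} (by decide) (by linarith) (by linarith) (by linarith) (by linarith) (by linarith)

/-- the easy case -/
theorem A42_sub0 {d : ℝ} {D : Finset (Fin 4) → ℝ} (hd : 9 / 8 ≤ d) (hd2 : d ≤ 3 / 2) (hS : SupM D)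
    (hb : D {1, 2, 3} < 1 / 2) (hb' : D {0, 2, 3} < 1 / 2)
    (hw : D {0, 2} - D {2} ≤ d - 3 / 4) (hz : D {1, 2} - D {2} ≤ d - 3 / 4) : Goal4 d D := by
  have h0 := hS.1
  have s1 := A42_sm hS ∅ 0 1 {0} {1} {0, 1} (by decide)
  have s2 := A42_sm hS {2} 0 1 {0, 2} {1, 2} {0, 1, 2} (by decide)
  have s3 := A42_sm hS {3} 0 1 {0, 3} {1, 3} {0, 1, 3} (by decide)
  have s4 := A42_sm hS {2, 3} 0 1 {0, 2, 3} {1, 2, 3} {0, 1, 2, 3} (by decide)
  have s5 := A42_sm hS ∅ 0 2 {0} {2} {0, 2} (by decide)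
  have s6 := A42_sm hS {1} 0 2 {0, 1} {1, 2} {0, 1, 2} (by decide)
  have s7 := A42_sm hS {3} 0 2 {0, 3} {2, 3} {0, 2, 3} (by decide)
  have s8 := A42_sm hS {1, 3} 0 2 {0, 1, 3} {1, 2, 3} {0, 1, 2, 3} (by decide)
  have s9 := A42_sm hS ∅ 0 3 {0} {3} {0, 3} (by decide)
  have s10 := A42_sm hS {1} 0 3 {0, 1} {1, 3} {0, 1, 3} (by decide)
  have s11 := A42_sm hS {2} 0 3 {0, 2} {2, 3} {0, 2, 3} (by decide)
  have s12 := A42_sm hS {1, 2} 0 3 {0, 1, 2} {1, 2, 3} {0, 1, 2, 3} (by decide)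
  have s13 := A42_sm hS ∅ 1 2 {1} {2} {1, 2} (by decide)
  have s14 := A42_sm hS {0} 1 2 {0, 1} {0, 2} {0, 1, 2} (by decide)
  have s15 := A42_sm hS {3} 1 2 {1, 3} {2, 3} {1, 2, 3} (by decide)
  have s16 := A42_sm hS {0, 3} 1 2 {0, 1, 3} {0, 2, 3} {0, 1, 2, 3} (by decide)
  have s17 := A42_sm hS ∅ 1 3 {1} {3} {1, 3} (by decide)
  have s18 := A42_sm hS {0} 1 3 {0, 1} {0, 3} {0, 1, 3} (by decide)
  have s19 := A42_sm hS {2} 1 3 {1, 2} {2, 3} {1, 2, 3} (by decide)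
  have s20 := A42_sm hS {0, 2} 1 3 {0, 1, 2} {0, 2, 3} {0, 1, 2, 3} (by decide)
  have s21 := A42_sm hS ∅ 2 3 {2} {3} {2, 3} (by decide)
  have s22 := A42_sm hS {0} 2 3 {0, 2} {0, 3} {0, 2, 3} (by decide)
  have s23 := A42_sm hS {1} 2 3 {1, 2} {1, 3} {1, 2, 3} (by decide)
  have s24 := A42_sm hS {0, 1} 2 3 {0, 1, 2} {0, 1, 3} {0, 1, 2, 3} (by decide)
  have m1 := A42_mo hS ∅ 0 {0} (by decide)
  have m2 := A42_mo hS ∅ 1 {1} (by decide)
  have m3 := A42_mo hS ∅ 2 {2} (by decide)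
  have m4 := A42_mo hS ∅ 3 {3} (by decide)
  have m5 := A42_mo hS {0} 1 {0, 1} (by decide)
  have m6 := A42_mo hS {0} 2 {0, 2} (by decide)
  have m7 := A42_mo hS {0} 3 {0, 3} (by decide)
  have m8 := A42_mo hS {1} 0 {0, 1} (by decide)
  have m9 := A42_mo hS {1} 2 {1, 2} (by decide)
  have m10 := A42_mo hS {1} 3 {1, 3} (by decide)
  have m11 := A42_mo hS {2} 0 {0, 2} (by decide)
  have m12 := A42_mo hS {2} 1 {1, 2} (by decide)
  have m13 := A42_mo hS {2} 3 {2, 3} (by decide)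
  have m14 := A42_mo hS {3} 0 {0, 3} (by decide)
  have m15 := A42_mo hS {3} 1 {1, 3} (by decide)
  have m16 := A42_mo hS {3} 2 {2, 3} (by decide)
  have m17 := A42_mo hS {0, 1} 2 {0, 1, 2} (by decide)
  have m18 := A42_mo hS {0, 1} 3 {0, 1, 3} (by decide)
  have m19 := A42_mo hS {0, 2} 1 {0, 1, 2} (by decide)
  have m20 := A42_mo hS {0, 2} 3 {0, 2, 3} (by decide)
  have m21 := A42_mo hS {0, 3} 1 {0, 1, 3} (by decide)
  have m22 := A42_mo hS {0, 3} 2 {0, 2, 3} (by decide)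
  have m23 := A42_mo hS {1, 2} 0 {0, 1, 2} (by decide)
  have m24 := A42_mo hS {1, 2} 3 {1, 2, 3} (by decide)
  have m25 := A42_mo hS {1, 3} 0 {0, 1, 3} (by decide)
  have m26 := A42_mo hS {1, 3} 2 {1, 2, 3} (by decide)
  have m27 := A42_mo hS {2, 3} 0 {0, 2, 3} (by decide)
  have m28 := A42_mo hS {2, 3} 1 {1, 2, 3} (by decide)
  have m29 := A42_mo hS {0, 1, 2} 3 {0, 1, 2, 3} (by decide)
  have m30 := A42_mo hS {0, 1, 3} 2 {0, 1, 2, 3} (by decide)
  have m31 := A42_mo hS {0, 2, 3} 1 {0, 1, 2, 3} (by decide)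
  have m32 := A42_mo hS {1, 2, 3} 0 {0, 1, 2, 3} (by decide)
  exact A42_goal 2 3 0 1 (by decide) {2} {2, 3} {0, 2} {1, 2} {0, 2, 3}
    {1, 2, 3} (by decide) (by linarith) (by linarith) (by linarith) (by linarith) (by linarith)

theorem A42_core {d : ℝ} {D : Finset (Fin 4) → ℝ} (hd : 9 / 8 ≤ d) (hd2 : d ≤ 3 / 2) (hS : SupM D)
    (hu : D {0, 1, 2, 3} ≤ d) (hb : D {1, 2, 3} < 1 / 2) (hb' : D {0, 2, 3} < 1 / 2) :
    Goal4 d D := by
  -- the exchange of two roles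
  have hex : ∀ (i j : Fin 4), SupM (fun A => D (A.image (Equiv.swap i j))) := fun i j =>
    A42_perm_sup _ hS
  by_cases a1 : D {0, 2} - D {2} ≤ d - 3 / 4
  · by_cases a2 : D {1, 2} - D {2} ≤ d - 3 / 4
    · exact A42_sub0 hd hd2 hS hb hb' a1 a2
    · by_cases a3 : D {1, 3} - D {3} ≤ d - 3 / 4
      · by_cases a4 : D {0, 3} - D {3} ≤ d - 3 / 4
        · -- exchange `2` and `3`
          refine A42_perm_goal (Equiv.swap 2 3) (A42_sub0 hd hd2 (hex 2 3) ?_ ?_ ?_ ?_)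
          · rw [show (({1, 2, 3} : Finset (Fin 4)).image (Equiv.swap 2 3)) = {1, 2, 3} by decide]; exact hb
          · rw [show (({0, 2, 3} : Finset (Fin 4)).image (Equiv.swap 2 3)) = {0, 2, 3} by decide]; exact hb'
          · rw [show (({0, 2} : Finset (Fin 4)).image (Equiv.swap 2 3)) = {0, 3} by decide, show (({2} : Finset (Fin 4)).image (Equiv.swap 2 3)) = {3} by decide]; exact a4
          · rw [show (({1, 2} : Finset (Fin 4)).image (Equiv.swap 2 3)) = {1, 3} by decide, show (({2} : Finset (Fin 4)).image (Equiv.swap 2 3)) = {3} by decide]; exact a3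
        · -- exchange `2` and `3`
          refine A42_perm_goal (Equiv.swap 2 3) (A42_sub2 hd hd2 (hex 2 3) ?_ ?_ ?_ ?_ ?_ ?_ ?_)
          · rw [show (({0, 1, 2, 3} : Finset (Fin 4)).image (Equiv.swap 2 3)) = {0, 1, 2, 3} by decide]; exact hu
          · rw [show (({1, 2, 3} : Finset (Fin 4)).image (Equiv.swap 2 3)) = {1, 2, 3} by decide]; exact hb
          · rw [show (({0, 2, 3} : Finset (Fin 4)).image (Equiv.swap 2 3)) = {0, 2, 3} by decide]; exact hb'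
          · rw [show (({0, 2} : Finset (Fin 4)).image (Equiv.swap 2 3)) = {0, 3} by decide, show (({2} : Finset (Fin 4)).image (Equiv.swap 2 3)) = {3} by decide]; exact not_le.1 a4
          · rw [show (({1, 3} : Finset (Fin 4)).image (Equiv.swap 2 3)) = {1, 2} by decide, show (({3} : Finset (Fin 4)).image (Equiv.swap 2 3)) = {2} by decide]; exact not_le.1 a2
          · rw [show (({1, 2} : Finset (Fin 4)).image (Equiv.swap 2 3)) = {1, 3} by decide, show (({2} : Finset (Fin 4)).image (Equiv.swap 2 3)) = {3} by decide]; exact a3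
          · rw [show (({0, 3} : Finset (Fin 4)).image (Equiv.swap 2 3)) = {0, 2} by decide, show (({3} : Finset (Fin 4)).image (Equiv.swap 2 3)) = {2} by decide]; exact a1
      · -- exchange `0` and `1`
        refine A42_perm_goal (Equiv.swap 0 1) (A42_sub1 hd hd2 (hex 0 1) ?_ ?_ ?_ ?_ ?_)
        · rw [show (({0, 1, 2, 3} : Finset (Fin 4)).image (Equiv.swap 0 1)) = {0, 1, 2, 3} by decide]; exact hu
        · rw [show (({1, 2, 3} : Finset (Fin 4)).image (Equiv.swap 0 1)) = {0, 2, 3} by decide]; exact hb'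
        · rw [show (({0, 2, 3} : Finset (Fin 4)).image (Equiv.swap 0 1)) = {1, 2, 3} by decide]; exact hb
        · rw [show (({0, 2} : Finset (Fin 4)).image (Equiv.swap 0 1)) = {1, 2} by decide, show (({2} : Finset (Fin 4)).image (Equiv.swap 0 1)) = {2} by decide]; exact not_le.1 a2
        · rw [show (({0, 3} : Finset (Fin 4)).image (Equiv.swap 0 1)) = {1, 3} by decide, show (({3} : Finset (Fin 4)).image (Equiv.swap 0 1)) = {3} by decide]; exact not_le.1 a3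
  · by_cases a3 : D {0, 3} - D {3} ≤ d - 3 / 4
    · by_cases a4 : D {1, 3} - D {3} ≤ d - 3 / 4
      · -- exchange `2` and `3`
        refine A42_perm_goal (Equiv.swap 2 3) (A42_sub0 hd hd2 (hex 2 3) ?_ ?_ ?_ ?_)
        · rw [show (({1, 2, 3} : Finset (Fin 4)).image (Equiv.swap 2 3)) = {1, 2, 3} by decide]; exact hb
        · rw [show (({0, 2, 3} : Finset (Fin 4)).image (Equiv.swap 2 3)) = {0, 2, 3} by decide]; exact hb'
        · rw [show (({0, 2} : Finset (Fin 4)).image (Equiv.swap 2 3)) = {0, 3} by decide, show (({2} : Finset (Fin 4)).image (Equiv.swap 2 3)) = {3} by decide]; exact a3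
        · rw [show (({1, 2} : Finset (Fin 4)).image (Equiv.swap 2 3)) = {1, 3} by decide, show (({2} : Finset (Fin 4)).image (Equiv.swap 2 3)) = {3} by decide]; exact a4
      · by_cases a2 : D {1, 2} - D {2} ≤ d - 3 / 4
        · exact A42_sub2 hd hd2 hS hu hb hb' (not_le.1 a1) (not_le.1 a4) a2 a3
        · -- exchange `0` and `1`
          refine A42_perm_goal (Equiv.swap 0 1) (A42_sub1 hd hd2 (hex 0 1) ?_ ?_ ?_ ?_ ?_)
          · rw [show (({0, 1, 2, 3} : Finset (Fin 4)).image (Equiv.swap 0 1)) = {0, 1, 2, 3} by decide]; exact hu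
          · rw [show (({1, 2, 3} : Finset (Fin 4)).image (Equiv.swap 0 1)) = {0, 2, 3} by decide]; exact hb'
          · rw [show (({0, 2, 3} : Finset (Fin 4)).image (Equiv.swap 0 1)) = {1, 2, 3} by decide]; exact hb
          · rw [show (({0, 2} : Finset (Fin 4)).image (Equiv.swap 0 1)) = {1, 2} by decide, show (({2} : Finset (Fin 4)).image (Equiv.swap 0 1)) = {2} by decide]; exact not_le.1 a2
          · rw [show (({0, 3} : Finset (Fin 4)).image (Equiv.swap 0 1)) = {1, 3} by decide, show (({3} : Finset (Fin 4)).image (Equiv.swap 0 1)) = {3} by decide]; exact not_le.1 a4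
    · exact A42_sub1 hd hd2 hS hu hb hb' (not_le.1 a1) (not_le.1 a3)

theorem A42 : S_A42 := by
  intro d D b b' hd hd2 hS hu hbb hb hb'
  -- a permutation with `e 0 = b`, `e 1 = b'`
  obtain ⟨e, he0, he1⟩ : ∃ e : Equiv.Perm (Fin 4), e 0 = b ∧ e 1 = b' := by
    have key : ∀ b b' : Fin 4, b ≠ b' →
        (Equiv.swap (Equiv.swap 0 b 1) b' * Equiv.swap 0 b : Equiv.Perm (Fin 4)) 0 = b ∧
        (Equiv.swap (Equiv.swap 0 b 1) b' * Equiv.swap 0 b : Equiv.Perm (Fin 4)) 1 = b' := by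
      decide
    exact ⟨_, key b b' hbb⟩
  refine A42_perm_goal e (A42_core hd hd2 (A42_perm_sup e hS) ?_ ?_ ?_)
  · show D (({0, 1, 2, 3} : Finset (Fin 4)).image e) ≤ d
    have h1 : ({0, 1, 2, 3} : Finset (Fin 4)) = univ := by decide
    rw [h1, image_univ_of_surjective e.surjective]
    exact hu
  · show D (({1, 2, 3} : Finset (Fin 4)).image e) < 1 / 2
    have h1 : ({1, 2, 3} : Finset (Fin 4)) = univ.erase 0 := by decide
    rw [h1, image_erase e.injective, image_univ_of_surjective e.surjective, he0]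
    unfold mg at hb
    rw [insert_erase (mem_univ b)] at hb
    linarith
  · show D (({0, 2, 3} : Finset (Fin 4)).image e) < 1 / 2
    have h1 : ({0, 2, 3} : Finset (Fin 4)) = univ.erase 1 := by decide
    rw [h1, image_erase e.injective, image_univ_of_surjective e.surjective, he1]
    unfold mg at hb'
    rw [insert_erase (mem_univ b')] at hb'
    linarith

end H773Y
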