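import Pool.Agent.H773R2.UG.Defs

/-! COMT: containing the same tree gives common subfamilies. -/

namespace H773Y

open Finset Pool.Agent.Results.MP_9dddc4_co.UkExponent H773X

theorem COMT_perm {n r : ℕ} (t : Fin r → ℕ) (φ ψ : Fin r → (Fin r → ℕ) → Fin n)
    (a1 : ∀ j, ∀ q ∈ Idx r t, ∀ q' ∈ Idx r t, (∀ l ≤ j, q l = q' l) → φ j q = φ j q')
    (a2 : ∀ j j', ∀ q ∈ Idx r t, ∀ q' ∈ Idx r t, φ j q = φ j' q' → j = j' ∧ ∀ l ≤ j, q l = q' l)
    (b1 : ∀ j, ∀ q ∈ Idx r t, ∀ q' ∈ Idx r t, (∀ l ≤ j, q l = q' l) → ψ j q = ψ j q')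
    (b2 : ∀ j j', ∀ q ∈ Idx r t, ∀ q' ∈ Idx r t, ψ j q = ψ j' q' →
      j = j' ∧ ∀ l ≤ j, q l = q' l) :
    ∃ σ : Equiv.Perm (Fin n), ∀ j, ∀ q ∈ Idx r t, σ (φ j q) = ψ j q := by
  classical
  set f : Fin n → Fin n := fun x =>
    if h : ∃ y : Fin r × (Fin r → ℕ), y.2 ∈ Idx r t ∧ φ y.1 y.2 = x then
      ψ (Classical.choose h).1 (Classical.choose h).2 else x with hf
  have hfx : ∀ j, ∀ q ∈ Idx r t, f (φ j q) = ψ j q := by
    intro j q hq
    have h : ∃ y : Fin r × (Fin r → ℕ), y.2 ∈ Idx r t ∧ φ y.1 y.2 = φ j q := ⟨(j, q), hq, rfl⟩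
    have hs := Classical.choose_spec h
    have h1 : f (φ j q) = ψ (Classical.choose h).1 (Classical.choose h).2 := by
      rw [hf]
      exact dif_pos h
    rw [h1]
    obtain ⟨e1, e2⟩ := a2 _ _ _ hs.1 _ hq hs.2
    rw [b1 _ _ hs.1 q hq e2, e1]
  set V : Finset (Fin n) := (univ ×ˢ Idx r t).image (fun y : Fin r × (Fin r → ℕ) => φ y.1 y.2)
    with hV
  obtain ⟨σ, hσ⟩ := exists_perm_extend V f (by
    intro x hx y hy hxy
    simp only [hV, coe_image, Set.mem_image, mem_coe, mem_product, mem_univ, true_and,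
      Prod.exists] at hx hy
    obtain ⟨j, q, hq, rfl⟩ := hx
    obtain ⟨j', q', hq', rfl⟩ := hy
    rw [hfx j q hq, hfx j' q' hq'] at hxy
    obtain ⟨e1, e2⟩ := b2 _ _ _ hq _ hq' hxy
    subst e1
    exact a1 _ _ hq _ hq' e2)
  refine ⟨σ, fun j q hq => ?_⟩
  rw [hσ, hfx j q hq]
  rw [hV, mem_image]
  exact ⟨(j, q), by simp [hq], rfl⟩

theorem COMT : S_COMT := by
  intro k n r t H hk hr hc
  choose φ h1 h2 h3 using hc
  have hσ : ∀ i, ∃ σ : Equiv.Perm (Fin n), ∀ j, ∀ q ∈ Idx r t,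
      σ (φ ⟨0, hk⟩ j q) = φ i j q := fun i =>
    COMT_perm t _ _ (h1 ⟨0, hk⟩) (h2 ⟨0, hk⟩) (h1 i) (h2 i)
  choose σ hσ using hσ
  refine ⟨(Idx r t).image (fun q => univ.image (fun j => φ ⟨0, hk⟩ j q)), σ, ?_, ?_⟩
  · rw [card_image_of_injOn]
    · unfold Idx
      rw [Fintype.card_piFinset]
      simp
    · intro q hq q' hq' he
      have hq := mem_coe.1 hq
      have hq' := mem_coe.1 hq'
      dsimp only at he
      have hl : φ ⟨0, hk⟩ ⟨r - 1, by omega⟩ q ∈ univ.image (fun j => φ ⟨0, hk⟩ j q') := by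
        rw [← he]
        exact mem_image_of_mem _ (mem_univ _)
      rw [mem_image] at hl
      obtain ⟨j', _, hj'⟩ := hl
      obtain ⟨e1, e2⟩ := h2 _ _ _ _ hq' _ hq hj'
      funext l
      symm
      apply e2
      rw [e1, Fin.le_def]
      have := l.2
      simp only
      omega
  · intro i e he
    unfold img at he
    rw [mem_image] at he
    obtain ⟨e', he', rfl⟩ := he
    rw [mem_image] at he'
    obtain ⟨q, hq, rfl⟩ := he'
    rw [image_image]
    have h4 : (univ.image (σ i ∘ fun j => φ ⟨0, hk⟩ j q) : Finset (Fin n)) =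
        univ.image (fun j => φ i j q) := by
      apply image_congr
      intro j _
      exact hσ i j q hq
    rw [h4]
    exact h3 i q hq

end H773Y
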