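import Pool.Agent.H773R2.UG.Defs6

/-! Task COSK: common sunflowers in `k` hypergraphs (adapted from COS of helper287). -/

set_option linter.unusedVariables false

namespace H773Y

open Finset Pool.Agent.Results.MP_9dddc4_co.UkExponent H773X
open H773W (SF)

open Classical in
theorem COSK_bound (h2 : H773W.S_SFB) (h3 : H773W.S_SFN) (n r a s : ℕ) (H : ES n)
    (hr : IsRGraph r H) (hs : s ≤ n)
    (hD : a + 1 ≤ ((range r).filter (fun i => ¬ SF H i (s + 1))).card) :
    H.card ≤ r.factorial * s ^ (a + 1) * n ^ (r - a - 1) := by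
  set c : ℕ → ℕ := fun i => if ¬ SF H i (s + 1) then s else n with hc
  have h4 : ∀ i < r, ¬ SF H i (c i + 1) := by
    intro i hi hSF
    by_cases hi' : ¬ SF H i (s + 1)
    · have e : c i = s := by rw [hc]; exact if_pos hi'
      rw [e] at hSF
      exact hi' hSF
    · have e : c i = n := by rw [hc]; exact if_neg hi'
      rw [e] at hSF
      have := (h3 n r i (n + 1) H hr hi).1 hSF
      omega
  have h5 := h2 n r H c hr h4
  refine h5.trans ?_
  rw [mul_assoc]
  refine Nat.mul_le_mul_left _ ?_
  have h6 : ∏ i ∈ range r, c i =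
      s ^ ((range r).filter (fun i => ¬ SF H i (s + 1))).card *
      n ^ ((range r).filter (fun i => ¬ ¬ SF H i (s + 1))).card := by
    rw [hc, Finset.prod_ite, Finset.prod_const, Finset.prod_const]
  have h7 : ((range r).filter (fun i => ¬ SF H i (s + 1))).card +
      ((range r).filter (fun i => ¬ ¬ SF H i (s + 1))).card = r := by
    rw [Finset.card_filter_add_card_filter_not, Finset.card_range]
  rw [h6]
  set p := ((range r).filter (fun i => ¬ SF H i (s + 1))).card
  set q := ((range r).filter (fun i => ¬ ¬ SF H i (s + 1))).card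
  obtain ⟨p', hp'⟩ : ∃ p', p = a + 1 + p' := ⟨p - (a + 1), by omega⟩
  have hb : p' + q = r - a - 1 := by omega
  calc s ^ p * n ^ q = s ^ (a + 1) * (s ^ p' * n ^ q) := by rw [hp', pow_add]; ring
    _ ≤ s ^ (a + 1) * (n ^ p' * n ^ q) :=
        Nat.mul_le_mul_left _ (Nat.mul_le_mul_right _ (Nat.pow_le_pow_left hs p'))
    _ = s ^ (a + 1) * n ^ (r - a - 1) := by rw [← pow_add, hb]

open Classical in
theorem COSK (h1 : S_SFK) (h2 : H773W.S_SFB) (h3 : H773W.S_SFN) : S_COSK := by
  intro n r k a e H hk he har hR hcard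
  have hr : 0 < r := by omega
  have hne : ∀ j, (H j).Nonempty := fun j => by
    rw [← Finset.card_pos, hcard j]; exact he
  set Q : ℕ → Prop := fun s => ∃ i < r, ∀ j, SF (H j) i s with hQ
  have hQ1 : Q 1 := ⟨0, hr, fun j => (h3 n r 0 1 (H j) (hR j) hr).2.2 (hne j)⟩
  have hQn : ∀ s, Q s → s ≤ n := by
    rintro s ⟨i, hi, hSF⟩
    exact (h3 n r i s (H ⟨0, hk⟩) (hR _) hi).1 (hSF _)
  have hn1 : 1 ≤ n := hQn 1 hQ1
  set s := Nat.findGreatest Q n with hs
  have hQs : Q s := Nat.findGreatest_spec hn1 hQ1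
  have hs1 : 1 ≤ s := Nat.le_findGreatest hn1 hQ1
  have hsn : s ≤ n := hQn s hQs
  have hQs1 : ¬ Q (s + 1) := fun h =>
    Nat.findGreatest_is_greatest (Nat.lt_succ_self s) (hQn _ h) h
  refine ⟨s, hs1, ?_, ?_⟩
  · obtain ⟨i, hi, hij⟩ := hQs
    exact h1 n r i s k H hk hR hij
  · by_contra hcon
    have hD : ∀ j, ((range r).filter (fun i => ¬ SF (H j) i (s + 1))).card ≤ a := by
      intro j
      by_contra hj
      apply hcon
      rw [← hcard j]
      exact COSK_bound h2 h3 n r a s (H j) (hR j) hsn (by omega)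
    have hun : range r ⊆ (univ : Finset (Fin k)).biUnion
        (fun j => (range r).filter (fun i => ¬ SF (H j) i (s + 1))) := by
      intro i hi
      rw [Finset.mem_biUnion]
      by_contra hno
      push Not at hno
      apply hQs1
      refine ⟨i, Finset.mem_range.1 hi, fun j => ?_⟩
      by_contra hj
      exact hno j (Finset.mem_univ _) (Finset.mem_filter.2 ⟨hi, hj⟩)
    have hc := (Finset.card_le_card hun).trans
      (Finset.card_biUnion_le_card_mul _ _ a fun j _ => hD j)
    rw [Finset.card_range, Finset.card_univ, Fintype.card_fin, mul_comm] at hc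
    omega

end H773Y
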