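import Pool.Agent.H773R2.UG.Defs

set_option autoImplicit false

namespace H773Y

open Finset Pool.Agent.Results.MP_9dddc4_co.UkExponent H773X

theorem DHA_BB (r n : ℕ) (hr : 1 ≤ r) : 1 ≤ BB r n := by
  unfold BB
  omega

theorem DHA_KK (r n : ℕ) (hr : 1 ≤ r) : 1 ≤ KK r n := by
  have h := DHA_BB r n hr
  unfold KK LamB
  have h1 : 0 < 2 ^ (r + 2) * BB r n ^ 2 ^ r := by positivity
  exact h1

theorem DHA_GG (r n : ℕ) (hr : 1 ≤ r) : 1 ≤ GG r n := by
  have h := DHA_KK r n hr
  unfold GG
  have h1 : 0 < 2 * r ^ 2 * KK r n := by positivity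
  exact h1

theorem DHA : S_DHA := by
  intro r n M hn hr hM hM0 hMn hMK
  have hL : 0 < Real.log n := Real.log_pos (by exact_mod_cast (by omega : 1 < n))
  have hK : 0 ≤ Real.log (KK r n) := Real.log_nonneg (by exact_mod_cast DHA_KK r n hr)
  have hG : 0 ≤ Real.log (GG r n) := Real.log_nonneg (by exact_mod_cast DHA_GG r n hr)
  have hKpos : (0 : ℝ) < KK r n := by exact_mod_cast DHA_KK r n hr
  have hMpos : ∀ B, (0 : ℝ) < M B := fun B => by exact_mod_cast hM B
  have hnpos : (0 : ℝ) < n := by exact_mod_cast (by omega : 0 < n)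
  refine ⟨?_, ?_, ?_⟩
  · unfold Dh
    simp [hM0]
  · intro A a
    by_cases ha : a ∈ A
    · rw [Finset.insert_eq_of_mem ha]
    · unfold Dh
      rw [Finset.card_insert_of_notMem ha]
      apply div_le_div_of_nonneg_right _ hL.le
      have h1 : Real.log (M (insert a A)) ≤ Real.log n + Real.log (M A) := by
        rw [← Real.log_mul hnpos.ne' (hMpos A).ne']
        apply Real.log_le_log (hMpos _)
        exact_mod_cast hMn A a
      push_cast
      have hc : (0 : ℝ) ≤ A.card := Nat.cast_nonneg _
      nlinarith [mul_nonneg hc hK]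
  · intro A a b ha hb hab
    have hab' : a ∉ insert b A := by
      simp [hab, ha]
    unfold Dh
    rw [← add_div, ← add_div]
    rw [Finset.card_insert_of_notMem ha, Finset.card_insert_of_notMem hab',
      Finset.card_insert_of_notMem hb]
    apply div_le_div_of_nonneg_right _ hL.le
    have h1 : Real.log (M (insert a (insert b A))) + Real.log (M A) ≤
        3 * Real.log (KK r n) + (Real.log (M (insert a A)) + Real.log (M (insert b A))) := by
      rw [← Real.log_mul (hMpos _).ne' (hMpos _).ne', ← Real.log_mul (hMpos _).ne' (hMpos _).ne']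
      have h2 : 3 * Real.log (KK r n) = Real.log ((KK r n : ℝ) ^ 3) := by
        rw [Real.log_pow]; norm_num
      rw [h2, ← Real.log_mul (by positivity) (mul_pos (hMpos _) (hMpos _)).ne']
      apply Real.log_le_log (mul_pos (hMpos _) (hMpos _))
      exact_mod_cast hMK A a b ha hb hab
    push_cast
    nlinarith

end H773Y
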