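import Pool.Agent.H773R2.UG.Defs

set_option autoImplicit false

namespace H773Y

open Finset Pool.Agent.Results.MP_9dddc4_co.UkExponent H773X

theorem DHB_BB (r n : ℕ) (hr : 1 ≤ r) : 1 ≤ BB r n := by
  unfold BB
  omega

theorem DHB_KK (r n : ℕ) (hr : 1 ≤ r) : 1 ≤ KK r n := by
  have h := DHB_BB r n hr
  unfold KK LamB
  have h1 : 0 < 2 ^ (r + 2) * BB r n ^ 2 ^ r := by positivity
  exact h1

theorem DHB_GG (r n : ℕ) (hr : 1 ≤ r) : 1 ≤ GG r n := by
  have h := DHB_KK r n hr
  unfold GG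
  have h1 : 0 < 2 * r ^ 2 * KK r n := by positivity
  exact h1

theorem DHB : S_DHB := by
  intro r n M A x s t b hn hr hM hx ht htb hmg
  have hL : 0 < Real.log n := Real.log_pos (by exact_mod_cast (by omega : 1 < n))
  have hK : 0 ≤ Real.log (KK r n) := Real.log_nonneg (by exact_mod_cast DHB_KK r n hr)
  have hGpos : (0 : ℝ) < GG r n := by exact_mod_cast DHB_GG r n hr
  have hMpos : ∀ B, (0 : ℝ) < M B := fun B => by exact_mod_cast hM B
  have hnpos : (0 : ℝ) < n := by exact_mod_cast (by omega : 0 < n)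
  have hc : (0 : ℝ) ≤ A.card := Nat.cast_nonneg _
  have htpos : ∀ l, (0 : ℝ) < t l := fun l => by exact_mod_cast ht l
  have hprod : Real.log (∏ l ∈ s, (t l : ℝ)) ≤ Real.log n * ∑ l ∈ s, b l := by
    rw [Real.log_prod (fun l _ => (htpos l).ne'), Finset.mul_sum]
    apply Finset.sum_le_sum
    intro l _
    have h1 := Real.log_le_log (htpos l) (htb l)
    rw [Real.log_rpow hnpos] at h1
    linarith
  have hpp : (0 : ℝ) < ∏ l ∈ s, (t l : ℝ) := Finset.prod_pos (fun l _ => htpos l)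
  have h2 : Real.log n * mg (Dh r n M) x A ≤ Real.log n * (1 - ∑ l ∈ s, b l) :=
    mul_le_mul_of_nonneg_left hmg hL.le
  have h3 : Real.log n * mg (Dh r n M) x A = Real.log n - Real.log (M (insert x A)) +
      Real.log (M A) + (2 * A.card + 1) * (3 * Real.log (KK r n)) + Real.log (GG r n) := by
    unfold mg Dh
    rw [Finset.card_insert_of_notMem hx]
    push_cast
    field_simp
    ring
  rw [h3] at h2
  have h4 : Real.log (GG r n * (∏ l ∈ s, (t l : ℝ)) * M A) ≤ Real.log (M (insert x A)) := by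
    rw [Real.log_mul (mul_pos hGpos hpp).ne' (hMpos _).ne', Real.log_mul hGpos.ne' hpp.ne']
    nlinarith [mul_nonneg hc hK]
  have h5 := (Real.log_le_log_iff (mul_pos (mul_pos hGpos hpp) (hMpos _)) (hMpos _)).1 h4
  have h6 : ((GG r n * (∏ l ∈ s, t l) * M A : ℕ) : ℝ) ≤ ((M (insert x A) : ℕ) : ℝ) := by
    push_cast
    exact h5
  exact_mod_cast h6

end H773Y
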