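import Pool.Agent.H773R2.UK.Defs

/-! The exponent of `U_k(n,r)` for `k ≥ r`, and a larger lower bound for `k < r`: definitions and
the statements of all tasks. -/

set_option linter.unusedVariables false

namespace H773Y

open Finset Pool.Agent.Results.MP_9dddc4_co.UkExponent H773X

/-! ### Regular sets of tuples -/

/-- projection of a tuple to the roles in `B` -/
def pr {r n : ℕ} (B : Finset (Fin r)) (p : Fin r → Fin n) : {x // x ∈ B} → Fin n :=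
  fun i => p i.1

/-- number of `B`-projections -/
def mB {r n : ℕ} (S : Tp r n) (B : Finset (Fin r)) : ℕ := (S.image (pr B)).card

/-- degree of the `B`-projection of `p` -/
def dB {r n : ℕ} (S : Tp r n) (B : Finset (Fin r)) (p : Fin r → Fin n) : ℕ :=
  (S.filter (fun q => pr B q = pr B p)).card

/-- number of classes of all degree statistics -/
def LamB (r n : ℕ) : ℕ := (BB r n) ^ (2 ^ r)

/-- regularity constant -/
def KK (r n : ℕ) : ℕ := 2 ^ (r + 2) * LamB r n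

/-- embedding constant -/
def GG (r n : ℕ) : ℕ := 2 * r ^ 2 * KK r n

/-- the polylogarithmic factor -/
def ZG (r n : ℕ) : ℕ := r ^ r * LamB r n * (KK r n) ^ (3 * r ^ 2) * (GG r n) ^ r

/-- `S` is regular: all degrees of `B`-projections are about `N / M B` -/
def Reg {r n : ℕ} (S : Tp r n) (N : ℕ) (M : Finset (Fin r) → ℕ) : Prop :=
  1 ≤ N ∧ S.Nonempty ∧ (∀ B, 1 ≤ M B) ∧
    ∀ B, ∀ p ∈ S, N ≤ 2 ^ (r + 1) * M B * dB S B p ∧ dB S B p * M B ≤ 2 * LamB r n * N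

/-- REA: pigeonhole over the dyadic classes of all degrees -/
def S_REA : Prop := ∀ (r n : ℕ) (S : Tp r n), 1 ≤ n → S.Nonempty →
  ∃ S1 : Tp r n, S1 ⊆ S ∧ S1.Nonempty ∧ S.card ≤ LamB r n * S1.card ∧
    ∀ B, ∀ p ∈ S1, dB S1 B p * mB S1 B ≤ 2 * LamB r n * S1.card

/-- REB: cleaning -/
def S_REB : Prop := ∀ (r n : ℕ) (S : Tp r n), S.Nonempty →
  ∃ S' : Tp r n, S' ⊆ S ∧ S'.Nonempty ∧
    ∀ B, ∀ p ∈ S', S.card ≤ 2 ^ (r + 1) * mB S B * dB S' B p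

/-- REG: regularisation -/
def S_REG : Prop := ∀ (r n : ℕ) (S : Tp r n), 1 ≤ n → S.Nonempty →
  ∃ (S' : Tp r n) (N : ℕ) (M : Finset (Fin r) → ℕ), S' ⊆ S ∧ Reg S' N M ∧
    S.card ≤ LamB r n * N ∧ M ∅ = 1 ∧ M univ = N ∧ ∀ A a, M (insert a A) ≤ n * M A

/-- SUP: approximate supermodularity -/
def S_SUP : Prop := ∀ (r n : ℕ) (S : Tp r n) (N : ℕ) (M : Finset (Fin r) → ℕ), Reg S N M →
  ∀ A a b, a ∉ A → b ∉ A → a ≠ b →
    M (insert a (insert b A)) * M A ≤ (KK r n) ^ 3 * (M (insert a A) * M (insert b A))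

/-! ### Trees -/

/-- the first `p` roles of the ordering `a` -/
def pre {r : ℕ} (a : Fin r → Fin r) (p : ℕ) : Finset (Fin r) :=
  (univ.filter (fun i : Fin r => (i : ℕ) < p)).image a

/-- index set of the edges of the tree `T(t)` -/
def Idx (r : ℕ) (t : Fin r → ℕ) : Finset (Fin r → ℕ) := Fintype.piFinset (fun l => range (t l))

/-- `H` contains the tree `T(t)`: the edges are indexed by `Idx r t`, the vertex of level `j` of the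
edge `q` depends exactly on the numbers `q l`, `l ≤ j` -/
def ContainsT {n : ℕ} (H : ES n) (r : ℕ) (t : Fin r → ℕ) : Prop :=
  ∃ φ : Fin r → (Fin r → ℕ) → Fin n,
    (∀ j, ∀ q ∈ Idx r t, ∀ q' ∈ Idx r t, (∀ l ≤ j, q l = q' l) → φ j q = φ j q') ∧
    (∀ j j', ∀ q ∈ Idx r t, ∀ q' ∈ Idx r t, φ j q = φ j' q' → j = j' ∧ ∀ l ≤ j, q l = q' l) ∧
    (∀ q ∈ Idx r t, (univ.image (fun j => φ j q) : Finset (Fin n)) ∈ H)

/-- COMT: containing the same tree gives common subfamilies -/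
def S_COMT : Prop := ∀ (k n r : ℕ) (t : Fin r → ℕ) (H : Fin k → ES n), 0 < k → 1 ≤ r →
  (∀ i, ContainsT (H i) r t) → Common H (∏ l, t l)

/-- a copy of the tree `T(t)` in `S`, with the roles in the order `a` -/
def TreeIn {r n : ℕ} (S : Tp r n) (a : Fin r → Fin r) (t : Fin r → ℕ) : Prop :=
  ∃ w : (Fin r → ℕ) → (Fin r → Fin n), (∀ q ∈ Idx r t, w q ∈ S) ∧
    ∀ q ∈ Idx r t, ∀ q' ∈ Idx r t, ∀ j, (w q (a j) = w q' (a j) ↔ ∀ l ≤ j, q l = q' l)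

/-- TIC: a tree in `S` is a tree in `H` -/
def S_TIC : Prop := ∀ (r n : ℕ) (H : ES n) (f : Fin n → Fin r) (S : Tp r n) (a : Fin r → Fin r)
  (t : Fin r → ℕ), (∀ p ∈ S, ∀ c, f (p c) = c) →
  (∀ p ∈ S, (univ.image p : Finset (Fin n)) ∈ H) → Function.Bijective a → TreeIn S a t →
  ContainsT H r t

/-- the property proved by downward induction on `p` -/
def EmbAt {r n : ℕ} (S : Tp r n) (a : Fin r → Fin r) (t : Fin r → ℕ) (p : ℕ) : Prop :=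
  ∀ v ∈ S, ∀ Bad : Tp r n,
    2 * r * (S.filter (fun q => pr (pre a p) q = pr (pre a p) v ∧ q ∈ Bad)).card ≤
      p * dB S (pre a p) v →
    ∃ w : (Fin r → ℕ) → (Fin r → Fin n),
      (∀ q ∈ Idx r t, w q ∈ S ∧ w q ∉ Bad ∧ pr (pre a p) (w q) = pr (pre a p) v) ∧
      ∀ q ∈ Idx r t, ∀ q' ∈ Idx r t, ∀ j : Fin r, p ≤ (j : ℕ) →
        (w q (a j) = w q' (a j) ↔ ∀ l : Fin r, p ≤ (l : ℕ) → l ≤ j → q l = q' l)

/-- EMS: the step of the embedding -/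
def S_EMS : Prop := ∀ (r n : ℕ) (S : Tp r n) (N : ℕ) (M : Finset (Fin r) → ℕ)
  (a : Fin r → Fin r) (t : Fin r → ℕ) (p : Fin r), Reg S N M → Function.Bijective a →
  (∀ l, 1 ≤ t l) →
  (∀ j : Fin r, p ≤ j → 2 ≤ t p →
    GG r n * (∏ l ∈ Icc p j, t l) * M (pre a p) ≤ M (insert (a j) (pre a p))) →
  EmbAt S a t ((p : ℕ) + 1) → EmbAt S a t (p : ℕ)

/-- EMB: embedding of `T(t)` -/
def S_EMB : Prop := ∀ (r n : ℕ) (S : Tp r n) (N : ℕ) (M : Finset (Fin r) → ℕ)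
  (a : Fin r → Fin r) (t : Fin r → ℕ), 1 ≤ r → Reg S N M → Function.Bijective a →
  (∀ l, 1 ≤ t l) →
  (∀ p j : Fin r, p ≤ j → 2 ≤ t p →
    GG r n * (∏ l ∈ Icc p j, t l) * M (pre a p) ≤ M (insert (a j) (pre a p))) →
  TreeIn S a t

/-! ### The ordering lemma -/

/-- marginal -/
noncomputable def mg {r : ℕ} (D : Finset (Fin r) → ℝ) (a : Fin r) (A : Finset (Fin r)) : ℝ :=
  D (insert a A) - D A

/-- `D` is supermodular, monotone, zero at the empty set -/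
def SupM {r : ℕ} (D : Finset (Fin r) → ℝ) : Prop :=
  D ∅ = 0 ∧ (∀ A a, D A ≤ D (insert a A)) ∧
    ∀ A a b, a ∉ A → b ∉ A → a ≠ b →
      D (insert a A) + D (insert b A) ≤ D (insert a (insert b A)) + D A

/-- the shape `b` fits `D` -/
def Fits {r : ℕ} (D : Finset (Fin r) → ℝ) (b : Fin r → ℝ) : Prop :=
  ∃ a : Fin r → Fin r, Function.Bijective a ∧ ∀ p j : Fin r, p ≤ j → 0 < b p →
    mg D (a j) (pre a p) ≤ 1 - ∑ l ∈ Icc p j, b l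

/-- greedy order starting with `x` -/
def Grd {r : ℕ} (D : Finset (Fin r) → ℝ) (a : Fin r → Fin r) (x : Fin r) : Prop :=
  Function.Bijective a ∧ (∀ i : Fin r, (i : ℕ) = 0 → a i = x) ∧
    ∀ p j : Fin r, p ≤ j → (1 ≤ (p : ℕ) ∨ ∀ y, D {y} ≤ D {x}) →
      mg D (a j) (pre a p) ≤ mg D (a p) (pre a p)

/-- GRE: greedy orders exist -/
def S_GRE : Prop := ∀ (r : ℕ) (D : Finset (Fin r) → ℝ) (x : Fin r), ∃ a, Grd D a x

/-- GRB: the averaging bound for greedy orders -/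
def S_GRB : Prop := ∀ (r : ℕ) (D : Finset (Fin r) → ℝ) (a : Fin r → Fin r) (x : Fin r), SupM D →
  Grd D a x → ∀ p j : Fin r, p ≤ j → (1 ≤ (p : ℕ) ∨ ∀ y, D {y} ≤ D {x}) →
    (((j : ℕ) : ℝ) - ((p : ℕ) : ℝ) + 1) * mg D (a j) (pre a p) ≤ D univ - D (pre a p)

/-- the inner step of the shape -/
noncomputable def be (r : ℕ) (θ η : ℝ) : ℝ := (η - |θ|) / ((r : ℝ) - 2)

/-- the shape of the middle range -/
noncomputable def shp (r : ℕ) (θ η : ℝ) : Fin r → ℝ := fun l =>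
  if (l : ℕ) = 0 ∨ (l : ℕ) = r - 1 then max θ 0 else be r θ η

/-- admissible parameters of the middle range -/
def Adm (r : ℕ) (θ η : ℝ) : Prop :=
  4 ≤ r ∧ 0 ≤ η ∧ η ≤ ((r : ℝ) - 1) / ((r : ℝ) + 1) ∧ -η ≤ θ ∧ ((r : ℝ) - 1) * θ ≤ η

/-- SHP: partial sums of the shape -/
def S_SHP : Prop := ∀ (r : ℕ) (θ η : ℝ) (p j : Fin r), 4 ≤ r → p ≤ j →
  ∑ l ∈ Icc p j, shp r θ η l =
    (((j : ℕ) : ℝ) - ((p : ℕ) : ℝ) + 1) * be r θ η +
      (if (p : ℕ) = 0 then max θ 0 - be r θ η else 0) +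
      (if (j : ℕ) = r - 1 then max θ 0 - be r θ η else 0)

/-- ONM: numerical facts -/
def S_ONM : Prop := ∀ (r : ℕ) (θ η : ℝ), Adm r θ η →
  0 ≤ be r θ η ∧ be r θ η + η ≤ 1 ∧ 3 * be r θ η ≤ 1 + θ ∧
  (∀ l : ℕ, 5 ≤ r → 2 ≤ l → l ≤ r - 2 → 1 - θ ≤ l * (1 - l * be r θ η)) ∧
  (∀ l : ℕ, 2 ≤ l → l ≤ r - 1 → 1 - θ ≤ l * (1 - max θ 0 - ((l : ℝ) - 1) * be r θ η)) ∧
  (0 ≤ θ → ((r : ℝ) - 1) * be r θ η ≤ 1 - θ) ∧ (0 ≤ θ → r * η ≤ ((r : ℝ) - 1) * (1 - θ))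

/-- OC2: two critical roles -/
def S_OC2 : Prop := ∀ (r : ℕ) (θ η : ℝ) (D : Finset (Fin r) → ℝ) (x y : Fin r), Adm r θ η →
  SupM D → D univ ≤ 1 - θ → x ≠ y →
  1 - be r θ η < mg D x (univ.erase x) → 1 - be r θ η < mg D y (univ.erase y) →
  Fits D (shp r θ η)

/-- OCG: at most one critical role, the greedy order fits -/
def S_OCG : Prop := ∀ (r : ℕ) (θ η : ℝ) (D : Finset (Fin r) → ℝ) (x : Fin r) (a : Fin r → Fin r),
  Adm r θ η → SupM D → D univ ≤ 1 - θ → Grd D a x →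
  (∀ y, y ≠ x → mg D y (univ.erase y) ≤ 1 - be r θ η) →
  (1 - be r θ η < mg D x (univ.erase x) ∨ ∀ y, D {y} ≤ D {x}) →
  (5 ≤ r ∨ ∀ i : Fin r, (i : ℕ) = 2 → mg D (a i) {x} ≤ 1 - 2 * be r θ η) →
  Fits D (shp r θ η)

/-- OF4: at most one critical role, `r = 4`, the greedy order does not fit -/
def S_OF4 : Prop := ∀ (θ η : ℝ) (D : Finset (Fin 4) → ℝ) (x : Fin 4) (a : Fin 4 → Fin 4),
  Adm 4 θ η → SupM D → D univ ≤ 1 - θ → Grd D a x →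
  (1 - be 4 θ η < mg D x (univ.erase x) ∨ ∀ y, D {y} ≤ D {x}) →
  1 - 2 * be 4 θ η < mg D (a 2) {x} →
  Fits D (shp 4 θ η)

/-- ORM: the middle range -/
def S_ORM : Prop := ∀ (r : ℕ) (θ η : ℝ) (D : Finset (Fin r) → ℝ), Adm r θ η → SupM D →
  D univ ≤ 1 - θ → Fits D (shp r θ η)

/-- ORU: the uniform range -/
def S_ORU : Prop := ∀ (r : ℕ) (θ η : ℝ) (D : Finset (Fin r) → ℝ), 1 ≤ r → 0 ≤ η →
  η ≤ ((r : ℝ) - 1) * θ → r * η ≤ ((r : ℝ) - 1) * (1 - θ) → SupM D → D univ ≤ 1 - θ →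
  Fits D (fun _ => (θ + η) / r)

/-- the gap -/
noncomputable def et (r k : ℕ) : ℝ := ((r : ℝ) - 1) ^ 2 / (r * k - 1)

/-- ORD: the ordering lemma -/
def S_ORD : Prop := ∀ (r k : ℕ) (d : ℝ), 4 ≤ r → r ≤ k → r * et r k / ((r : ℝ) - 1) ≤ d →
  d ≤ 1 + et r k → ∃ b : Fin r → ℝ, (∀ l, 0 ≤ b l) ∧ ∑ l, b l = 1 - d + et r k ∧
    ∀ D : Finset (Fin r) → ℝ, SupM D → D univ ≤ d → Fits D b

/-! ### Assembly of the upper bound -/

/-- the normalised defect function of a regular set -/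
noncomputable def Dh (r n : ℕ) (M : Finset (Fin r) → ℕ) (I : Finset (Fin r)) : ℝ :=
  ((I.card : ℝ) * Real.log n - Real.log (M I) + (I.card : ℝ) ^ 2 * (3 * Real.log (KK r n)) +
    (I.card : ℝ) * Real.log (GG r n)) / Real.log n

/-- DHA: `Dh` is supermodular -/
def S_DHA : Prop := ∀ (r n : ℕ) (M : Finset (Fin r) → ℕ), 2 ≤ n → 1 ≤ r → (∀ B, 1 ≤ M B) →
  M ∅ = 1 → (∀ A a, M (insert a A) ≤ n * M A) →
  (∀ A a b, a ∉ A → b ∉ A → a ≠ b →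
    M (insert a (insert b A)) * M A ≤ (KK r n) ^ 3 * (M (insert a A) * M (insert b A))) →
  SupM (Dh r n M)

/-- DHB: back to natural numbers -/
def S_DHB : Prop := ∀ (r n : ℕ) (M : Finset (Fin r) → ℕ) (A : Finset (Fin r)) (x : Fin r)
  (s : Finset (Fin r)) (t : Fin r → ℕ) (b : Fin r → ℝ), 2 ≤ n → 1 ≤ r → (∀ B, 1 ≤ M B) → x ∉ A →
  (∀ l, 1 ≤ t l) → (∀ l, (t l : ℝ) ≤ (n : ℝ) ^ (b l)) →
  mg (Dh r n M) x A ≤ 1 - ∑ l ∈ s, b l → GG r n * (∏ l ∈ s, t l) * M A ≤ M (insert x A)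

/-- UNG: the unavoidable tree -/
def S_UNG : Prop := ∀ r k n e : ℕ, 4 ≤ r → r ≤ k → 2 ≤ n →
  (ZG r n : ℝ) * (n : ℝ) ^ (bt r k) ≤ e → (e : ℝ) ≤ (n : ℝ) ^ ((r : ℝ) * bt r k / (r - 1)) →
  ∃ t : Fin r → ℕ, (∀ l, 1 ≤ t l) ∧
    (e : ℝ) ≤ 2 ^ r * (ZG r n : ℝ) * (n : ℝ) ^ (bt r k) * ((∏ l, t l : ℕ) : ℝ) ∧
    ∀ H : ES n, IsRGraph r H → H.card = e → ContainsT H r t

/-- LOGG: the polylogarithmic factor -/
def S_LOGG : Prop := ∀ r : ℕ, 3 ≤ r → ∃ (C : ℝ) (D : ℕ), 0 < C ∧ ∀ n : ℕ, 2 ≤ n →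
  2 ^ r * (ZG r n : ℝ) * (1 + r * Real.log n) ≤ C * (Real.log n) ^ D

/-- UPG: the upper bound for `k ≥ r` -/
def S_UPG : Prop := ∀ r k : ℕ, 4 ≤ r → r ≤ k → ∃ (C : ℝ) (D : ℕ), 0 < C ∧
  ∀ n : ℕ, 2 ≤ n → (U k n r : ℝ) ≤ C * (n : ℝ) ^ (bt r k) * (Real.log n) ^ D

/-! ### The lower bound for `k < r` -/

/-- LCS: disjoint cliques against a star over a random `(r-1)`-graph and random `r`-graphs -/
def S_LCS : Prop := ∀ r n m q T l : ℕ, 3 ≤ r → 1 ≤ l → 1 ≤ m → q * m ≤ n → 0 < T →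
  m ^ (r - 1) ≤ n ^ (r - 2) → m ^ ((r - 1) * (l + 1)) * n ≤ T * n ^ ((r - 1) * l) →
  n ^ (m * l + 1) < 2 ^ T → q * m.choose r ≤ U (l + 1) n r * T

/-- LOS: the lower bound for `k < r` -/
def S_LOS : Prop := ∀ r k : ℕ, 3 ≤ r → 2 ≤ k → k < r → ∃ c : ℝ, 0 < c ∧ ∀ᶠ n : ℕ in Filter.atTop,
  c * (n : ℝ) ^ (((r : ℝ) - 1) ^ 2 * (k - 1) / (((r : ℝ) - 1) * k - 1)) / Real.log n ≤ (U k n r : ℝ)

end H773Y
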