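import Pool.Agent.H773R2.UG.Defs

/-! The exponent of `U_3(n,4)`: statements of the tasks. -/

set_option linter.unusedVariables false

namespace H773Y

open Finset Pool.Agent.Results.MP_9dddc4_co.UkExponent H773X

/-- the goal of the ordering lemma for `r = 4`, `k = 3` -/
def Goal4 (d : ℝ) (D : Finset (Fin 4) → ℝ) : Prop :=
  ∃ x y : Fin 4, x ≠ y ∧ mg D y {x} ≤ 3 / 4 ∧
    ∀ c, c ≠ x → c ≠ y → mg D c {x} ≤ d - 3 / 4 ∧ mg D c {x, y} ≤ d - 1 / 2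

/-- A40: no critical role -/
def S_A40 : Prop := ∀ (d : ℝ) (D : Finset (Fin 4) → ℝ), 9 / 8 ≤ d → d ≤ 3 / 2 → SupM D →
  D univ ≤ d → (∀ c, mg D c (univ.erase c) ≤ d - 1 / 2) → Goal4 d D

/-- A41: exactly one critical role -/
def S_A41 : Prop := ∀ (d : ℝ) (D : Finset (Fin 4) → ℝ) (b : Fin 4), 9 / 8 ≤ d → d ≤ 3 / 2 →
  SupM D → D univ ≤ d → d - 1 / 2 < mg D b (univ.erase b) →
  (∀ c, c ≠ b → mg D c (univ.erase c) ≤ d - 1 / 2) → Goal4 d D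

/-- A42: at least two critical roles -/
def S_A42 : Prop := ∀ (d : ℝ) (D : Finset (Fin 4) → ℝ) (b b' : Fin 4), 9 / 8 ≤ d → d ≤ 3 / 2 →
  SupM D → D univ ≤ d → b ≠ b' → d - 1 / 2 < mg D b (univ.erase b) →
  d - 1 / 2 < mg D b' (univ.erase b') → Goal4 d D

/-- SF4: a sunflower with kernel of size one -/
def S_SF4 : Prop := ∀ (d : ℝ) (D : Finset (Fin 4) → ℝ), 3 / 2 ≤ d → SupM D → D univ ≤ d →
  ∃ x : Fin 4, ∀ c, c ≠ x → mg D c {x} ≤ d - 3 / 4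

/-- OA3: the ordering lemma for `r = 4`, `k = 3` -/
def S_OA3 : Prop := ∀ d : ℝ, 9 / 8 ≤ d → d ≤ 7 / 4 →
  ∃ b : Fin 4 → ℝ, (∀ l, 0 ≤ b l) ∧ ∑ l, b l = 7 / 4 - d ∧
    ∀ D : Finset (Fin 4) → ℝ, SupM D → D univ ≤ d → Fits D b

/-- UN3: the unavoidable tree for `r = 4`, `k = 3` -/
def S_UN3 : Prop := ∀ n e : ℕ, 2 ≤ n →
  (ZG 4 n : ℝ) * (n : ℝ) ^ ((9 : ℝ) / 4) ≤ e → (e : ℝ) ≤ (n : ℝ) ^ ((23 : ℝ) / 8) →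
  ∃ t : Fin 4 → ℕ, (∀ l, 1 ≤ t l) ∧
    (e : ℝ) ≤ 2 ^ 4 * (ZG 4 n : ℝ) * (n : ℝ) ^ ((9 : ℝ) / 4) * ((∏ l, t l : ℕ) : ℝ) ∧
    ∀ H : ES n, IsRGraph 4 H → H.card = e → ContainsT H 4 t

/-- UP3: the upper bound for `U_3(n,4)` -/
def S_UP3 : Prop := ∃ (C : ℝ) (D : ℕ), 0 < C ∧
  ∀ n : ℕ, 2 ≤ n → (U 3 n 4 : ℝ) ≤ C * (n : ℝ) ^ ((9 : ℝ) / 4) * (Real.log n) ^ D

end H773Y
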