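import Pool.Agent.H773R2.UG.Defs3

/-! The exponent of `U_{r-1}(n,r)`: statements of the tasks. -/

set_option linter.unusedVariables false

namespace H773Y

open Finset Pool.Agent.Results.MP_9dddc4_co.UkExponent H773X

/-- the inner step of the shape for `k = r-1` -/
noncomputable def bk (r : ℕ) (e : ℝ) : ℝ := (((r : ℝ) - 2) / r - e) / ((r : ℝ) - 3)

/-- the largest step -/
noncomputable def mk (r : ℕ) (e : ℝ) : ℝ := max (bk r e) (1 / (r : ℝ))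

/-- `1 - ` total of the shape -/
noncomputable def rk (r : ℕ) (e : ℝ) : ℝ := 1 / (r : ℝ) + e

/-- the shape for `k = r-1` -/
noncomputable def sk (r : ℕ) (e : ℝ) : Fin r → ℝ := fun l =>
  if (l : ℕ) = 0 ∨ (l : ℕ) = r - 1 then 0 else if (l : ℕ) = 2 then 1 / (r : ℝ) else bk r e

/-- admissible parameters -/
def Adk (r : ℕ) (e : ℝ) : Prop :=
  5 ≤ r ∧ 1 / ((r : ℝ) * ((r : ℝ) - 2)) ≤ e ∧ e ≤ ((r : ℝ) - 2) / r

/-- KNM: numerical facts -/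
def S_KNM : Prop := ∀ (r : ℕ) (e : ℝ), Adk r e →
  0 ≤ bk r e ∧ mk r e ≤ 2 / r ∧ 2 * mk r e ≤ 3 / r + e ∧ e + mk r e + bk r e + 1 / r ≤ 1 ∧
  mk r e ≤ 1 / r + bk r e ∧
  (∀ l : ℕ, 2 ≤ l → l ≤ r - 3 → 1 + e ≤ l * (1 - 1 / r - ((l : ℝ) - 1) * bk r e)) ∧
  1 + e ≤ ((r : ℝ) - 1) * rk r e ∧ 1 + e ≤ ((r : ℝ) - 2) * (rk r e + bk r e) ∧
  (∀ l : ℕ, 2 ≤ l → l ≤ r - 4 → 1 + e ≤ l * (1 - l * bk r e)) ∧
  (∀ l : ℕ, 2 ≤ l → l ≤ r - 3 → 1 + e ≤ l * (1 - ((l : ℝ) - 1) * bk r e)) ∧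
  1 / r + ((r : ℝ) - 3) * bk r e = 1 - rk r e

/-- KSH: partial sums of the shape -/
def S_KSH : Prop := ∀ (r : ℕ) (e : ℝ) (p j : Fin r), 5 ≤ r → p ≤ j →
  ∑ l ∈ Icc p j, sk r e l =
    (((j : ℕ) : ℝ) - ((p : ℕ) : ℝ) + 1) * bk r e +
      (if (p : ℕ) = 0 then - bk r e else 0) + (if (j : ℕ) = r - 1 then - bk r e else 0) +
      (if (p : ℕ) ≤ 2 ∧ 2 ≤ (j : ℕ) then 1 / (r : ℝ) - bk r e else 0)

/-- greedy from position `m` on -/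
def Grm {r : ℕ} (D : Finset (Fin r) → ℝ) (a : Fin r → Fin r) (m : ℕ) : Prop :=
  Function.Bijective a ∧
    ∀ p j : Fin r, m ≤ (p : ℕ) → p ≤ j → mg D (a j) (pre a p) ≤ mg D (a p) (pre a p)

/-- GRM: greedy continuation of the first `m` values of `c` -/
def S_GRM : Prop := ∀ (r m : ℕ) (D : Finset (Fin r) → ℝ) (c : Fin r → Fin r),
  Function.Bijective c → ∃ a, Grm D a m ∧ ∀ i : Fin r, (i : ℕ) < m → a i = c i

/-- GBM: the averaging bound -/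
def S_GBM : Prop := ∀ (r m : ℕ) (D : Finset (Fin r) → ℝ) (a : Fin r → Fin r), SupM D →
  Grm D a m → ∀ p j : Fin r, m ≤ (p : ℕ) → p ≤ j →
    (((j : ℕ) : ℝ) - ((p : ℕ) : ℝ) + 1) * mg D (a j) (pre a p) ≤ D univ - D (pre a p)

/-- KGP: in the greedy range all conditions hold except possibly `(p,j) = (1,r-2)` -/
def S_KGP : Prop := ∀ (r m : ℕ) (e : ℝ) (D : Finset (Fin r) → ℝ) (a : Fin r → Fin r),
  Adk r e → SupM D → D univ ≤ 1 + e → 1 ≤ m → Grm D a m →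
  (∀ j : Fin r, m ≤ (j : ℕ) → mg D (a j) (pre a j) ≤ 1 - mk r e) →
  ∀ p j : Fin r, m ≤ (p : ℕ) → p ≤ j → 0 < sk r e p → ((p : ℕ) = 1 → (j : ℕ) ≠ r - 2) →
    mg D (a j) (pre a p) ≤ 1 - ∑ l ∈ Icc p j, sk r e l

/-- KC0: no critical role -/
def S_KC0 : Prop := ∀ (r : ℕ) (e : ℝ) (D : Finset (Fin r) → ℝ), Adk r e → SupM D →
  D univ ≤ 1 + e → (∀ y, mg D y (univ.erase y) ≤ 1 - mk r e) → Fits D (sk r e)

/-- KC1: exactly one critical role -/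
def S_KC1 : Prop := ∀ (r : ℕ) (e : ℝ) (D : Finset (Fin r) → ℝ) (x : Fin r), Adk r e → SupM D →
  D univ ≤ 1 + e → 1 - mk r e < mg D x (univ.erase x) →
  (∀ y, y ≠ x → mg D y (univ.erase y) ≤ 1 - mk r e) → Fits D (sk r e)

/-- KC2: two critical roles at the end -/
def S_KC2 : Prop := ∀ (r : ℕ) (e : ℝ) (D : Finset (Fin r) → ℝ) (x b b' : Fin r), Adk r e →
  SupM D → D univ ≤ 1 + e → x ≠ b → x ≠ b' → b ≠ b' →
  1 - mk r e < mg D b (univ.erase b) → 1 - mk r e < mg D b' (univ.erase b') →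
  mg D b {x} ≤ rk r e → mg D b' {x} ≤ rk r e → Fits D (sk r e)

/-- KC3: two critical roles at the positions `1, 2` -/
def S_KC3 : Prop := ∀ (r : ℕ) (e : ℝ) (D : Finset (Fin r) → ℝ) (w b b' : Fin r), Adk r e →
  SupM D → D univ ≤ 1 + e → w ≠ b → w ≠ b' → b ≠ b' →
  1 - mk r e < mg D b (univ.erase b) → 1 - mk r e < mg D b' (univ.erase b') →
  rk r e < mg D b {w} →
  (∀ c, c ≠ w → c ≠ b → c ≠ b' → ∀ A : Finset (Fin r), w ∈ A → b ∈ A → b' ∈ A → c ∉ A →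
    mg D c A ≤ 1 - mk r e) → Fits D (sk r e)

/-- KCX: at least two critical roles -/
def S_KCX : Prop := ∀ (r : ℕ) (e : ℝ) (D : Finset (Fin r) → ℝ) (b b' : Fin r), Adk r e →
  SupM D → D univ ≤ 1 + e → b ≠ b' →
  1 - mk r e < mg D b (univ.erase b) → 1 - mk r e < mg D b' (univ.erase b') → Fits D (sk r e)

/-- KSF: sunflowers with kernel of size one -/
def S_KSF : Prop := ∀ (r : ℕ) (e : ℝ) (D : Finset (Fin r) → ℝ), 4 ≤ r →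
  ((r : ℝ) - 2) / r ≤ e → SupM D → D univ ≤ 1 + e →
  Fits D (fun l => if (l : ℕ) = 1 then ((r : ℝ) - 1) / r - e else 0)

/-- ORK: the ordering lemma for `k = r-1` -/
def S_ORK : Prop := ∀ (r : ℕ) (d : ℝ), 4 ≤ r → 1 + 1 / ((r : ℝ) * ((r : ℝ) - 2)) ≤ d →
  d ≤ 1 + ((r : ℝ) - 1) / r → ∃ b : Fin r → ℝ, (∀ l, 0 ≤ b l) ∧
    ∑ l, b l = 1 - d + ((r : ℝ) - 1) / r ∧
    ∀ D : Finset (Fin r) → ℝ, SupM D → D univ ≤ d → Fits D b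

/-- UNX: the unavoidable tree from an ordering lemma -/
def S_UNX : Prop := ∀ (r n e : ℕ) (β dl : ℝ), 1 ≤ r → 2 ≤ n →
  (∀ d : ℝ, dl ≤ d → d ≤ r - β → ∃ b : Fin r → ℝ, (∀ l, 0 ≤ b l) ∧ ∑ l, b l = r - d - β ∧
    ∀ D : Finset (Fin r) → ℝ, SupM D → D univ ≤ d → Fits D b) →
  (ZG r n : ℝ) * (n : ℝ) ^ β ≤ e → (e : ℝ) ≤ (n : ℝ) ^ ((r : ℝ) - dl) →
  ∃ t : Fin r → ℕ, (∀ l, 1 ≤ t l) ∧
    (e : ℝ) ≤ 2 ^ r * (ZG r n : ℝ) * (n : ℝ) ^ β * ((∏ l, t l : ℕ) : ℝ) ∧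
    ∀ H : ES n, IsRGraph r H → H.card = e → ContainsT H r t

/-- UPK: the upper bound for `k = r-1` -/
def S_UPK : Prop := ∀ r : ℕ, 4 ≤ r → ∃ (C : ℝ) (D : ℕ), 0 < C ∧ ∀ n : ℕ, 2 ≤ n →
  (U (r - 1) n r : ℝ) ≤ C * (n : ℝ) ^ (((r : ℝ) - 1) ^ 2 / r) * (Real.log n) ^ D

end H773Y
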