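import Pool.Agent.H773R2.UG.Defs

/-! The general lower bound for `U_k(n,r)` (star with a kernel of size `a`) and the overlay upper
bound: statements of the tasks. -/

set_option linter.unusedVariables false

namespace H773Y

open Finset Pool.Agent.Results.MP_9dddc4_co.UkExponent H773X

/-- the exponent of the lower bound with a kernel of size `a` -/
noncomputable def ea (r k a : ℕ) : ℝ :=
  ((r : ℝ) - 1) * ((k : ℝ) - 1) * ((r : ℝ) - a) / (((r : ℝ) - a) * k - 1)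

/-- PKR: a random packing of `m`-sets: every `a`-set lies in at most `lam` blocks -/
def S_PKR : Prop := ∀ n a m p lam : ℕ, 1 ≤ a → a ≤ m → 1 ≤ p → m * p ≤ n →
  n ^ a < (lam + 1).factorial →
  ∃ B : Fin (p ^ a) → Finset (Fin n), (∀ b, (B b).card = m) ∧
    ∀ Y : Finset (Fin n), Y.card = a → (univ.filter (fun b => Y ⊆ B b)).card ≤ lam

/-- GLU: the union bound: a random star with kernel `X` and random `r`-graphs contain no copy of a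
large star with a kernel of size `a` on `m` vertices -/
def S_GLU : Prop := ∀ (r a n m T l e : ℕ) (X : Finset (Fin n)), a ≤ r → r ≤ m → 0 < T →
  X.card = a → e ≤ (n - a).choose (r - a) →
  (m.choose a * (((m - a).choose (r - a)).choose T * (n ^ m) ^ (l + 1))) * (e ^ T) ^ (l + 1) <
    ((n - a).choose (r - a)) ^ T * ((n.choose r) ^ T) ^ l →
  ∃ G : Fin (l + 1) → ES n, (∀ i, IsRGraph r (G i)) ∧ (∀ i, (G i).card = e) ∧
    (∀ f ∈ G 0, X ⊆ f) ∧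
    ∀ (x0 : Finset (Fin m)) (F : ES m) (τ : Fin (l + 1) → Fin m → Fin n), x0.card = a →
      (∀ f ∈ F, x0 ⊆ f ∧ f.card = r) → F.card = T → (∀ i, (img (τ i) F).card = T) →
      ∃ i, ¬ img (τ i) F ⊆ G i

/-- GLC: the combinatorial lower bound -/
def S_GLC : Prop := ∀ (r a n m T l lam q : ℕ) (B : Fin q → Finset (Fin n)), 1 ≤ a → a ≤ r →
  r ≤ m → a ≤ n → 0 < T → (∀ b, (B b).card = m) →
  (∀ Y : Finset (Fin n), Y.card = a → (univ.filter (fun b => Y ⊆ B b)).card ≤ lam) →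
  q * m.choose r ≤ (n - a).choose (r - a) →
  (m.choose a * (((m - a).choose (r - a)).choose T * (n ^ m) ^ (l + 1))) *
      ((q * m.choose r) ^ T) ^ (l + 1) < ((n - a).choose (r - a)) ^ T * ((n.choose r) ^ T) ^ l →
  q * m.choose r ≤ U (l + 2) n r * (lam * lam * T)

/-- GA1: the inequalities of sizes -/
def S_GA1 : Prop := ∀ r a n m p T l : ℕ, 1 ≤ a → a < r → r ≤ m → 2 * r ≤ n → 1 ≤ p → m * p ≤ n →
  0 < T →
  (2 * r) ^ (r - a) * (n ^ a * m ^ (r - a)) ≤ n ^ (r - a) →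
  n ^ (m * (l + 1) + a) < 2 ^ T →
  6 * m ^ (r - a) * (n ^ a * m ^ (r - a)) ^ (l + 1) * (2 * r) ^ (r - a + r * l) ≤
    T * n ^ (r - a + r * l) →
  p ^ a * m.choose r ≤ (n - a).choose (r - a) ∧
  (m.choose a * (((m - a).choose (r - a)).choose T * (n ^ m) ^ (l + 1))) *
      ((p ^ a * m.choose r) ^ T) ^ (l + 1) < ((n - a).choose (r - a)) ^ T * ((n.choose r) ^ T) ^ l

/-- GA2: the choice of `m`, `p`, `T` -/
def S_GA2 : Prop := ∀ r l a : ℕ, 1 ≤ a → a * (l + 2) + 1 ≤ r → ∃ c : ℝ, 0 < c ∧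
  ∀ᶠ n : ℕ in Filter.atTop, ∃ m p T : ℕ, 1 ≤ p ∧ r ≤ m ∧ 2 * r ≤ n ∧ m * p ≤ n ∧ 0 < T ∧
    (2 * r) ^ (r - a) * (n ^ a * m ^ (r - a)) ≤ n ^ (r - a) ∧
    n ^ (m * (l + 1) + a) < 2 ^ T ∧
    6 * m ^ (r - a) * (n ^ a * m ^ (r - a)) ^ (l + 1) * (2 * r) ^ (r - a + r * l) ≤
      T * n ^ (r - a + r * l) ∧
    c * (n : ℝ) ^ (ea r (l + 2) a) / Real.log n * T ≤ ((p ^ a * m.choose r : ℕ) : ℝ)

/-- GA3: the choice of the multiplicity -/
def S_GA3 : Prop := ∀ a : ℕ, ∃ C : ℝ, 0 < C ∧ ∀ n : ℕ, 3 ≤ n →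
  ∃ lam : ℕ, n ^ a < (lam + 1).factorial ∧ (lam : ℝ) ≤ C * Real.log n

/-- GLB: the general lower bound -/
def S_GLB : Prop := ∀ r k a : ℕ, 1 ≤ a → 2 ≤ k → a * k + 1 ≤ r → ∃ c : ℝ, 0 < c ∧
  ∀ᶠ n : ℕ in Filter.atTop, c * (n : ℝ) ^ (ea r k a) / (Real.log n) ^ 3 ≤ (U k n r : ℝ)

/-- EAM: the exponent of the lower bound increases with `a` and stays close to `r(k-1)/k` -/
def S_EAM : Prop := ∀ r k a : ℕ, 2 ≤ k → 2 ≤ r → a * k + 1 ≤ r →
  (∀ b : ℕ, b < a → ea r k b < ea r k a) ∧ ea r k 0 = bt r k ∧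
    (r : ℝ) * (k - 1) / k - ea r k a < (k - 1) / k ∧ ea r k a ≤ (r : ℝ) * (k - 1) / k

/-- OVB: the overlay upper bound -/
def S_OVB : Prop := ∀ r k : ℕ, 1 ≤ r → 2 ≤ k → ∃ C : ℝ, 0 < C ∧ ∀ n : ℕ, 2 ≤ n →
  (U k n r : ℝ) ≤ C * (n : ℝ) ^ ((r : ℝ) * (k - 1) / k) * Real.log n

end H773Y
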