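import Pool.Agent.H773R2.UG.Defs5
import Pool.Agent.H773R2.UR.Defs

/-! Upper bounds for `U_k(n,r)`, `k < r`, by common sunflowers: statements of the tasks. -/

set_option linter.unusedVariables false

namespace H773Y

open Finset Pool.Agent.Results.MP_9dddc4_co.UkExponent H773X

/-- the exponent of the upper bound -/
noncomputable def ub (r k a : ℕ) : ℝ :=
  ((r : ℝ) - 1) * ((k : ℝ) - 1) * ((a : ℝ) + 1) / (((a : ℝ) + 1) * k - 1)

/-- SFK: common sunflower in `k` hypergraphs -/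
def S_SFK : Prop := ∀ (n r i c k : ℕ) (H : Fin k → Finset (Finset (Fin n))), 0 < k →
  (∀ j, IsRGraph r (H j)) → (∀ j, H773W.SF (H j) i c) → Common H c

/-- COSK: common sunflowers in `k` hypergraphs -/
def S_COSK : Prop := ∀ (n r k a e : ℕ) (H : Fin k → Finset (Finset (Fin n))), 1 ≤ k → 1 ≤ e →
  a * k + 1 ≤ r → (∀ j, IsRGraph r (H j)) → (∀ j, (H j).card = e) →
  ∃ s : ℕ, 1 ≤ s ∧ Common H s ∧ e ≤ r.factorial * s ^ (a + 1) * n ^ (r - a - 1)

/-- UBK: the upper bound -/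
def S_UBK : Prop := ∀ r k a : ℕ, 2 ≤ k → a * k + 1 ≤ r → ∃ C : ℝ, 0 < C ∧ ∀ n : ℕ, 2 ≤ n →
  (U k n r : ℝ) ≤ C * (n : ℝ) ^ (ub r k a) * Real.log n

/-- UBM: comparison of the exponents -/
def S_UBM : Prop := ∀ r k a : ℕ, 2 ≤ k → 2 ≤ r → a * k + 1 ≤ r →
  ea r k a ≤ ub r k a ∧ (r ≤ (a + 1) * k → ub r k a ≤ (r : ℝ) * (k - 1) / k) ∧
    (r = 2 * a + 1 → ea r k a = ub r k a)

end H773Y
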