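import Pool.Agent.H773R2.UG.Defs5

set_option linter.unusedVariables false

namespace H773Y

open Finset Pool.Agent.Results.MP_9dddc4_co.UkExponent H773X

theorem t_EAM : S_EAM := by
  intro r k a hk hr hak
  have hk' : (2 : ℝ) ≤ k := by exact_mod_cast hk
  have hr' : (2 : ℝ) ≤ r := by exact_mod_cast hr
  have hak' : (a : ℝ) * k + 1 ≤ r := by exact_mod_cast hak
  have ha0 : (0 : ℝ) ≤ a := Nat.cast_nonneg a
  have hu1 : (1 : ℝ) ≤ r - a := by nlinarith
  have hden : 0 < ((r : ℝ) - a) * k - 1 := by nlinarith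
  have hrk : 0 < ((r : ℝ) - 1) * ((k : ℝ) - 1) := mul_pos (by linarith) (by linarith)
  refine ⟨?_, ?_, ?_, ?_⟩
  · intro b hb
    have hb' : (b : ℝ) + 1 ≤ a := by exact_mod_cast hb
    have hden2 : 0 < ((r : ℝ) - b) * k - 1 := by nlinarith
    unfold ea
    rw [div_lt_div_iff₀ hden2 hden]
    have e : ((r : ℝ) - 1) * ((k : ℝ) - 1) * ((r : ℝ) - a) * (((r : ℝ) - b) * k - 1) -
        ((r : ℝ) - 1) * ((k : ℝ) - 1) * ((r : ℝ) - b) * (((r : ℝ) - a) * k - 1) =
        ((r : ℝ) - 1) * ((k : ℝ) - 1) * (a - b) := by ring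
    have h2 : 0 < ((r : ℝ) - 1) * ((k : ℝ) - 1) * ((a : ℝ) - b) := mul_pos hrk (by linarith)
    linarith
  · unfold ea bt
    push_cast
    simp only [sub_zero]
    congr 1 <;> ring
  · have h1 : ((r : ℝ) - 1) * ((k : ℝ) - 1) / k < ea r k a := by
      unfold ea
      rw [div_lt_div_iff₀ (by linarith) hden]
      nlinarith
    have e : (r : ℝ) * (k - 1) / k - ((r : ℝ) - 1) * ((k : ℝ) - 1) / k = (k - 1) / k := by
      field_simp; ring
    linarith
  · unfold ea
    rw [div_le_div_iff₀ hden (by linarith)]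
    have h3 : (a : ℝ) * k ≤ r * (k - 1) := by nlinarith
    have e : (r : ℝ) * (k - 1) * (((r : ℝ) - a) * k - 1) -
        ((r : ℝ) - 1) * ((k : ℝ) - 1) * ((r : ℝ) - a) * k =
        (k - 1) * (r * (k - 1) - a * k) := by ring
    have h4 : 0 ≤ ((k : ℝ) - 1) * (r * (k - 1) - a * k) := mul_nonneg (by linarith) (by linarith)
    linarith

end H773Y
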