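import Pool.Agent.H773R2.UG.Defs

/-! Task EMB: embedding of `T(t)`, from the step. -/

namespace H773Y

open Finset Pool.Agent.Results.MP_9dddc4_co.UkExponent H773X

lemma EMB_pre {r : ℕ} (a : Fin r → Fin r) (ha : Function.Bijective a) : pre a r = univ := by
  ext x
  obtain ⟨y, hy⟩ := ha.2 x
  simp only [pre, mem_image, mem_filter, mem_univ, true_and, iff_true]
  exact ⟨y, y.2, hy⟩

lemma EMB_pr {r n : ℕ} (B : Finset (Fin r)) (hB : B = univ) (p q : Fin r → Fin n) :
    pr B p = pr B q ↔ p = q := by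
  subst hB
  constructor
  · intro h
    funext i
    exact congrFun h ⟨i, mem_univ i⟩
  · rintro rfl
    rfl

lemma EMB_base {r n : ℕ} (S : Tp r n) (a : Fin r → Fin r) (t : Fin r → ℕ) (hr : 1 ≤ r)
    (ha : Function.Bijective a) : EmbAt S a t r := by
  intro v hv Bad hBad
  have hpr : ∀ p q : Fin r → Fin n, pr (pre a r) p = pr (pre a r) q ↔ p = q :=
    EMB_pr _ (EMB_pre a ha)
  have h1 : dB S (pre a r) v = 1 := by
    unfold dB
    rw [Finset.card_eq_one]
    refine ⟨v, ?_⟩
    ext q
    simp only [mem_filter, mem_singleton, hpr]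
    constructor
    · exact fun h => h.2
    · rintro rfl
      exact ⟨hv, rfl⟩
  have hvB : v ∉ Bad := by
    intro hmem
    have h2 : 1 ≤ (S.filter (fun q => pr (pre a r) q = pr (pre a r) v ∧ q ∈ Bad)).card := by
      rw [Nat.one_le_iff_ne_zero, Finset.card_ne_zero]
      exact ⟨v, mem_filter.2 ⟨hv, rfl, hmem⟩⟩
    rw [h1] at hBad
    have h3 : 2 * r * 1 ≤ 2 * r * (S.filter (fun q => pr (pre a r) q = pr (pre a r) v ∧
        q ∈ Bad)).card := Nat.mul_le_mul_left _ h2
    omega
  refine ⟨fun _ => v, fun q _ => ⟨hv, hvB, rfl⟩, ?_⟩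
  intro q _ q' _ j hj
  have := j.2
  omega

theorem EMB (h : S_EMS) : S_EMB := by
  intro r n S N M a t hr hReg ha ht hyp
  have all : ∀ m : ℕ, m ≤ r → EmbAt S a t (r - m) := by
    intro m
    induction m with
    | zero =>
      intro _
      rw [Nat.sub_zero]
      exact EMB_base S a t hr ha
    | succ m ih =>
      intro hm
      have hp : r - (m + 1) < r := by omega
      have h1 := ih (by omega)
      have h2 : r - m = ((⟨r - (m + 1), hp⟩ : Fin r) : ℕ) + 1 := by
        simp only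
        omega
      rw [h2] at h1
      exact h r n S N M a t ⟨r - (m + 1), hp⟩ hReg ha ht (fun j hj h2 => hyp _ j hj h2) h1
  have h0 := all r le_rfl
  rw [Nat.sub_self] at h0
  obtain ⟨v, hv⟩ := hReg.2.1
  obtain ⟨w, hw1, hw2⟩ := h0 v hv ∅ (by simp)
  refine ⟨w, fun q hq => (hw1 q hq).1, fun q hq q' hq' j => ?_⟩
  rw [hw2 q hq q' hq' j (Nat.zero_le _)]
  constructor
  · intro h l hl
    exact h l (Nat.zero_le _) hl
  · intro h l _ hl
    exact h l hl

end H773Y
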