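import Pool.Agent.H773R2.UG.Defs

/-! EMS: the step of the embedding of the tree `T(t)`. -/

namespace H773Y

open Finset Pool.Agent.Results.MP_9dddc4_co.UkExponent H773X

theorem EMS_pr_iff {r n : ℕ} (B : Finset (Fin r)) (q q' : Fin r → Fin n) :
    pr B q = pr B q' ↔ ∀ x ∈ B, q x = q' x := by
  constructor
  · intro h x hx
    exact congrFun h ⟨x, hx⟩
  · intro h
    funext i
    exact h i.1 i.2

theorem EMS_pr_insert {r n : ℕ} (B : Finset (Fin r)) (x : Fin r) (q q' : Fin r → Fin n) :
    pr (insert x B) q = pr (insert x B) q' ↔ pr B q = pr B q' ∧ q x = q' x := by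
  rw [EMS_pr_iff, EMS_pr_iff]
  constructor
  · intro h
    exact ⟨fun y hy => h y (mem_insert_of_mem hy), h x (mem_insert_self _ _)⟩
  · rintro ⟨h1, h2⟩ y hy
    rcases mem_insert.mp hy with rfl | hy
    · exact h2
    · exact h1 y hy

theorem EMS_pre_succ {r : ℕ} (a : Fin r → Fin r) (p : Fin r) :
    pre a ((p : ℕ) + 1) = insert (a p) (pre a (p : ℕ)) := by
  ext x
  unfold pre
  simp only [mem_image, mem_filter, mem_univ, true_and, mem_insert]
  constructor
  · rintro ⟨i, hi, rfl⟩
    rcases Nat.lt_or_ge (i : ℕ) (p : ℕ) with h | h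
    · exact Or.inr ⟨i, h, rfl⟩
    · left
      have : i = p := Fin.ext (by omega)
      rw [this]
  · rintro (rfl | ⟨i, hi, rfl⟩)
    · exact ⟨p, by omega, rfl⟩
    · exact ⟨i, by omega, rfl⟩

/-- number of tuples of a class with the value at `x` in `U` -/
theorem EMS_count {r n : ℕ} (S : Tp r n) (A : Finset (Fin r)) (x : Fin r) (v : Fin r → Fin n)
    (U : Finset (Fin n)) (C M' : ℕ) (h : ∀ q ∈ S, dB S (insert x A) q * M' ≤ C) :
    (S.filter (fun q => pr A q = pr A v ∧ q x ∈ U)).card * M' ≤ U.card * C := by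
  have e1 : (S.filter (fun q => pr A q = pr A v ∧ q x ∈ U)).card =
      ∑ u ∈ U, ((S.filter (fun q => pr A q = pr A v ∧ q x ∈ U)).filter (fun q => q x = u)).card := by
    apply card_eq_sum_card_fiberwise
    intro q hq
    have hq' := mem_coe.mp hq
    rw [mem_filter] at hq'
    exact hq'.2.2
  rw [e1, sum_mul, card_eq_sum_ones, sum_mul]
  apply sum_le_sum
  intro u hu
  rw [one_mul]
  rcases ((S.filter (fun q => pr A q = pr A v ∧ q x ∈ U)).filter
    (fun q => q x = u)).eq_empty_or_nonempty with h0 | ⟨q0, hq0⟩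
  · rw [h0, card_empty, zero_mul]
    exact Nat.zero_le _
  · rw [mem_filter, mem_filter] at hq0
    refine le_trans (Nat.mul_le_mul_right _ (card_le_card ?_)) (h q0 hq0.1.1)
    intro q hq
    rw [mem_filter, mem_filter] at hq
    rw [mem_filter]
    refine ⟨hq.1.1, ?_⟩
    rw [EMS_pr_insert]
    exact ⟨hq.1.2.1.trans hq0.1.2.1.symm, hq.2.trans hq0.2.symm⟩

/-- averaging over the classes of the next level -/
theorem EMS_avg {r n : ℕ} (S : Tp r n) (A : Finset (Fin r)) (x : Fin r) (v : Fin r → Fin n)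
    (Bd : Tp r n) (c1 c2 : ℕ) (hv : v ∈ S)
    (h : c1 * (S.filter (fun q => pr A q = pr A v ∧ q ∈ Bd)).card ≤ c2 * dB S A v) :
    ∃ v' ∈ S, pr A v' = pr A v ∧
      c1 * (S.filter (fun q => pr (insert x A) q = pr (insert x A) v' ∧ q ∈ Bd)).card ≤
        c2 * dB S (insert x A) v' := by
  by_contra hcon
  push Not at hcon
  set X := S.filter (fun q => pr A q = pr A v) with hX
  have e1 : X.card = ∑ u ∈ X.image (fun q => q x), (X.filter (fun q => q x = u)).card :=
    card_eq_sum_card_fiberwise (fun q hq => mem_coe.mpr (mem_image_of_mem _ (mem_coe.mp hq)))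
  have e2 : (X.filter (fun q => q ∈ Bd)).card =
      ∑ u ∈ X.image (fun q => q x), ((X.filter (fun q => q ∈ Bd)).filter (fun q => q x = u)).card :=
    card_eq_sum_card_fiberwise (fun q hq => mem_coe.mpr
      (mem_image_of_mem _ (mem_filter.mp (mem_coe.mp hq)).1))
  have e3 : S.filter (fun q => pr A q = pr A v ∧ q ∈ Bd) = X.filter (fun q => q ∈ Bd) := by
    rw [hX, filter_filter]
  have hvX : v ∈ X := by
    rw [hX, mem_filter]
    exact ⟨hv, rfl⟩
  have hlt : ∑ u ∈ X.image (fun q => q x), c2 * (X.filter (fun q => q x = u)).card <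
      ∑ u ∈ X.image (fun q => q x),
        c1 * ((X.filter (fun q => q ∈ Bd)).filter (fun q => q x = u)).card := by
    apply sum_lt_sum_of_nonempty
    · exact ⟨v x, mem_image_of_mem _ hvX⟩
    · intro u hu
      obtain ⟨v', hv', rfl⟩ := mem_image.mp hu
      have hv'' := hv'
      rw [hX, mem_filter] at hv''
      have h1 := hcon v' hv''.1 hv''.2
      have e4 : dB S (insert x A) v' = (X.filter (fun q => q x = v' x)).card := by
        unfold dB
        congr 1
        ext q
        rw [mem_filter, mem_filter, hX, mem_filter, EMS_pr_insert, hv''.2]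
        tauto
      have e5 : S.filter (fun q => pr (insert x A) q = pr (insert x A) v' ∧ q ∈ Bd) =
          (X.filter (fun q => q ∈ Bd)).filter (fun q => q x = v' x) := by
        ext q
        rw [mem_filter, mem_filter, mem_filter, hX, mem_filter, EMS_pr_insert, hv''.2]
        tauto
      rw [e4, e5] at h1
      exact h1
  rw [← mul_sum, ← mul_sum, ← e1, ← e2] at hlt
  rw [e3] at h
  have e6 : dB S A v = X.card := rfl
  rw [e6] at h
  omega

/-- the arithmetic of one level -/
theorem EMS_arith {r N MA MI Lam dA c P KKK GGG : ℕ} (hK : 0 < KKK) (hMA : 0 < MA) (hP : 0 < P)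
    (hKK : KKK = 2 ^ (r + 2) * Lam) (hGG : GGG = 2 * r ^ 2 * KKK)
    (h1 : c * MI ≤ P * (2 * Lam * N)) (h2 : GGG * P * MA ≤ MI)
    (h3 : N ≤ 2 ^ (r + 1) * MA * dA) : 2 * r * r * c ≤ dA := by
  have h4 : c * (GGG * P * MA) ≤ P * (2 * Lam * (2 ^ (r + 1) * MA * dA)) :=
    (Nat.mul_le_mul_left c h2).trans (h1.trans
      (Nat.mul_le_mul_left P (Nat.mul_le_mul_left _ h3)))
  have e1 : c * (GGG * P * MA) = (P * MA * KKK) * (2 * r * r * c) := by
    rw [hGG]; ring
  have e2 : P * (2 * Lam * (2 ^ (r + 1) * MA * dA)) = (P * MA * KKK) * dA := by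
    rw [hKK]; ring
  rw [e1, e2] at h4
  exact Nat.le_of_mul_le_mul_left h4 (Nat.mul_pos (Nat.mul_pos hP hMA) hK)

/-- the partial families -/
def EMS_St {r n : ℕ} (S : Tp r n) (a : Fin r → Fin r) (t : Fin r → ℕ) (p : Fin r)
    (v : Fin r → Fin n) (Bad : Tp r n) (i : ℕ) : Prop :=
  ∃ (vs : ℕ → (Fin r → Fin n)) (ws : ℕ → (Fin r → ℕ) → (Fin r → Fin n)),
    (∀ i' < i, vs i' ∈ S ∧ pr (pre a p) (vs i') = pr (pre a p) v) ∧
    (∀ i' < i, ∀ q ∈ Idx r t, ws i' q ∈ S ∧ ws i' q ∉ Bad ∧
      pr (pre a ((p : ℕ) + 1)) (ws i' q) = pr (pre a ((p : ℕ) + 1)) (vs i')) ∧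
    (∀ i' < i, ∀ q ∈ Idx r t, ∀ q' ∈ Idx r t, ∀ j : Fin r, (p : ℕ) + 1 ≤ (j : ℕ) →
      (ws i' q (a j) = ws i' q' (a j) ↔
        ∀ l : Fin r, (p : ℕ) + 1 ≤ (l : ℕ) → l ≤ j → q l = q' l)) ∧
    (∀ i1 < i, ∀ i2 < i, i1 ≠ i2 → ∀ q ∈ Idx r t, ∀ q' ∈ Idx r t, ∀ j : Fin r, p ≤ j →
      ws i1 q (a j) ≠ ws i2 q' (a j))

theorem EMS_idx {r : ℕ} {t : Fin r → ℕ} {q : Fin r → ℕ} : q ∈ Idx r t ↔ ∀ l, q l < t l := by
  unfold Idx
  rw [Fintype.mem_piFinset]
  simp only [mem_range]

/-- number of used vertices -/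
theorem EMS_used {r n : ℕ} (a : Fin r → Fin r) (t : Fin r → ℕ) (p j : Fin r) (hpj : p ≤ j)
    (ht : ∀ l, 1 ≤ t l) (i : ℕ) (hi : i ≤ t p) (vs : ℕ → (Fin r → Fin n))
    (ws : ℕ → (Fin r → ℕ) → (Fin r → Fin n))
    (h2 : ∀ i' < i, ∀ q ∈ Idx r t,
      pr (pre a ((p : ℕ) + 1)) (ws i' q) = pr (pre a ((p : ℕ) + 1)) (vs i'))
    (h3 : ∀ i' < i, ∀ q ∈ Idx r t, ∀ q' ∈ Idx r t, ∀ j : Fin r, (p : ℕ) + 1 ≤ (j : ℕ) →
      (ws i' q (a j) = ws i' q' (a j) ↔
        ∀ l : Fin r, (p : ℕ) + 1 ≤ (l : ℕ) → l ≤ j → q l = q' l)) :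
    ((range i ×ˢ Idx r t).image (fun x => ws x.1 x.2 (a j))).card ≤ ∏ l ∈ Icc p j, t l := by
  set Q : Finset (Fin r → ℕ) :=
    Fintype.piFinset (fun l => if l ∈ Icc p j then range (t l) else {0}) with hQ
  have hcard : Q.card = ∏ l ∈ Icc p j, t l := by
    rw [hQ, Fintype.card_piFinset]
    have : ∀ l : Fin r, (if l ∈ Icc p j then range (t l) else {0}).card =
        if l ∈ Icc p j then t l else 1 := by
      intro l
      split_ifs
      · exact card_range _
      · exact card_singleton _
    rw [prod_congr rfl (fun l _ => this l), prod_ite_mem, univ_inter]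
  rw [← hcard]
  refine le_trans (card_le_card ?_) (card_image_le (f := fun κ => ws (κ p) κ (a j)))
  intro u hu
  obtain ⟨⟨i', q⟩, hx, rfl⟩ := mem_image.mp hu
  rw [mem_product, mem_range] at hx
  obtain ⟨hi', hq⟩ := hx
  simp only at hi' hq
  have hq1 := EMS_idx.mp hq
  set κ : Fin r → ℕ := fun l => if l = p then i' else if l ∈ Icc p j then q l else 0 with hκ
  have hκp : κ p = i' := by rw [hκ]; simp
  have hκQ : κ ∈ Q := by
    rw [hQ, Fintype.mem_piFinset]
    intro l
    by_cases h : l ∈ Icc p j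
    · rw [if_pos h, mem_range]
      by_cases h' : l = p
      · rw [h', hκp]; omega
      · have : κ l = q l := by
          rw [hκ]
          simp only [if_neg h', if_pos h]
        rw [this]
        exact hq1 l
    · rw [if_neg h, mem_singleton]
      have h' : l ≠ p := by
        rintro rfl
        exact h (mem_Icc.mpr ⟨le_rfl, hpj⟩)
      rw [hκ]
      simp only [if_neg h', if_neg h]
  have hκI : κ ∈ Idx r t := by
    rw [EMS_idx]
    intro l
    have h := Fintype.mem_piFinset.mp hκQ l
    by_cases h' : l ∈ Icc p j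
    · rw [if_pos h', mem_range] at h
      exact h
    · rw [if_neg h', mem_singleton] at h
      rw [h]
      exact ht l
  rw [mem_image]
  refine ⟨κ, hκQ, ?_⟩
  simp only
  rw [hκp]
  rcases hpj.eq_or_lt with h | h
  · subst h
    have e1 := (EMS_pr_iff _ _ _).mp (h2 i' hi' κ hκI) (a p)
      (by rw [EMS_pre_succ]; exact mem_insert_self _ _)
    have e2 := (EMS_pr_iff _ _ _).mp (h2 i' hi' q hq) (a p)
      (by rw [EMS_pre_succ]; exact mem_insert_self _ _)
    rw [e1, e2]
  · rw [h3 i' hi' κ hκI q hq j (by have := Fin.lt_def.mp h; omega)]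
    intro l hl1 hl2
    have hlp : l ≠ p := by
      rintro rfl
      omega
    have hlm : l ∈ Icc p j := mem_Icc.mpr ⟨Fin.le_def.mpr (by omega), hl2⟩
    rw [hκ]
    simp only [if_neg hlp, if_pos hlm]

theorem EMS : S_EMS := by
  intro r n S N M a t p hReg ha ht hM hE v hv Bad hBad
  obtain ⟨hN, hSne, hM1, hreg⟩ := hReg
  have hr : 0 < r := lt_of_le_of_lt (Nat.zero_le _) p.2
  have hLam : 0 < LamB r n := by
    unfold LamB BB
    positivity
  have hKK : 0 < KK r n := by
    unfold KK
    positivity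
  have hstep : ∀ i ≤ t p, EMS_St S a t p v Bad i := by
    intro i
    induction i with
    | zero =>
      intro _
      refine ⟨fun _ => v, fun _ _ => v, ?_, ?_, ?_, ?_⟩
      · intro i' h; omega
      · intro i' h; omega
      · intro i' h; omega
      · intro i' h; omega
    | succ i ih =>
      intro hi
      obtain ⟨vs, ws, h1, h2, h3, h4⟩ := ih (by omega)
      set Used : Fin r → Finset (Fin n) :=
        fun j => (range i ×ˢ Idx r t).image (fun x => ws x.1 x.2 (a j)) with hUsed
      set Bad' : Tp r n := Bad ∪ S.filter (fun q => ∃ j : Fin r, p ≤ j ∧ q (a j) ∈ Used j)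
        with hBad'
      have hc : ∀ j : Fin r, p ≤ j →
          2 * r * r * (S.filter (fun q => pr (pre a p) q = pr (pre a p) v ∧ q (a j) ∈ Used j)).card ≤
            dB S (pre a p) v := by
        intro j hj
        rcases Nat.eq_zero_or_pos i with h0 | hpos
        · have hU : Used j = ∅ := by
            rw [hUsed]
            simp only [h0, range_zero, empty_product, image_empty]
          have : S.filter (fun q => pr (pre a p) q = pr (pre a p) v ∧ q (a j) ∈ Used j) = ∅ := by
            rw [hU]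
            apply filter_false_of_mem
            rintro q _ ⟨_, h⟩
            exact notMem_empty _ h
          rw [this, card_empty, mul_zero]
          exact Nat.zero_le _
        · have hcnt := EMS_count S (pre a p) (a j) v (Used j) (2 * LamB r n * N)
            (M (insert (a j) (pre a p))) (fun q hq => (hreg _ q hq).2)
          have hUc : (Used j).card ≤ ∏ l ∈ Icc p j, t l :=
            EMS_used a t p j hj ht i (by omega) vs ws (fun i' hi' q hq => (h2 i' hi' q hq).2.2) h3
          exact EMS_arith hKK (hM1 _) (prod_pos fun l _ => ht l) rfl rfl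
            (hcnt.trans (Nat.mul_le_mul_right _ hUc)) (hM j hj (by omega)) (hreg _ v hv).1
      have hsum : 2 * r * ∑ j ∈ univ.filter (fun j : Fin r => p ≤ j),
          (S.filter (fun q => pr (pre a p) q = pr (pre a p) v ∧ q (a j) ∈ Used j)).card ≤
            dB S (pre a p) v := by
        apply Nat.le_of_mul_le_mul_left _ hr
        calc r * (2 * r * ∑ j ∈ univ.filter (fun j : Fin r => p ≤ j),
          (S.filter (fun q => pr (pre a p) q = pr (pre a p) v ∧ q (a j) ∈ Used j)).card) =
          ∑ j ∈ univ.filter (fun j : Fin r => p ≤ j), 2 * r * r *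
          (S.filter (fun q => pr (pre a p) q = pr (pre a p) v ∧ q (a j) ∈ Used j)).card := by
              rw [← mul_sum]; ring
          _ ≤ ∑ j ∈ univ.filter (fun j : Fin r => p ≤ j), dB S (pre a p) v :=
              sum_le_sum fun j hj => hc j (mem_filter.mp hj).2
          _ = (univ.filter (fun j : Fin r => p ≤ j)).card * dB S (pre a p) v := by
              rw [sum_const, smul_eq_mul]
          _ ≤ r * dB S (pre a p) v := by
              apply Nat.mul_le_mul_right
              refine (card_filter_le _ _).trans ?_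
              rw [card_univ, Fintype.card_fin]
      have hsub : (S.filter (fun q => pr (pre a p) q = pr (pre a p) v ∧ q ∈ Bad')).card ≤
          (S.filter (fun q => pr (pre a p) q = pr (pre a p) v ∧ q ∈ Bad)).card +
          ∑ j ∈ univ.filter (fun j : Fin r => p ≤ j),
          (S.filter (fun q => pr (pre a p) q = pr (pre a p) v ∧ q (a j) ∈ Used j)).card := by
        refine le_trans (card_le_card ?_) ((card_union_le _ _).trans
          (Nat.add_le_add_left (card_biUnion_le (s := univ.filter (fun j : Fin r => p ≤ j))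
            (t := fun j => S.filter (fun q => pr (pre a p) q = pr (pre a p) v ∧ q (a j) ∈ Used j)))
            _))
        intro q hq
        rw [mem_filter] at hq
        rw [mem_union, mem_filter, mem_biUnion]
        obtain ⟨hqS, hq1, hq2⟩ := hq
        rw [hBad', mem_union, mem_filter] at hq2
        rcases hq2 with hq2 | ⟨_, j, hj, hju⟩
        · exact Or.inl ⟨hqS, hq1, hq2⟩
        · exact Or.inr ⟨j, by rw [mem_filter]; exact ⟨mem_univ _, hj⟩, by
            rw [mem_filter]; exact ⟨hqS, hq1, hju⟩⟩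
      have hB' : 2 * r * (S.filter (fun q => pr (pre a p) q = pr (pre a p) v ∧ q ∈ Bad')).card ≤
          ((p : ℕ) + 1) * dB S (pre a p) v := by
        calc 2 * r * (S.filter (fun q => pr (pre a p) q = pr (pre a p) v ∧ q ∈ Bad')).card ≤
            2 * r * ((S.filter (fun q => pr (pre a p) q = pr (pre a p) v ∧ q ∈ Bad)).card +
          ∑ j ∈ univ.filter (fun j : Fin r => p ≤ j),
          (S.filter (fun q => pr (pre a p) q = pr (pre a p) v ∧ q (a j) ∈ Used j)).card) :=
              Nat.mul_le_mul_left _ hsub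
          _ = 2 * r * (S.filter (fun q => pr (pre a p) q = pr (pre a p) v ∧ q ∈ Bad)).card +
            2 * r * ∑ j ∈ univ.filter (fun j : Fin r => p ≤ j),
          (S.filter (fun q => pr (pre a p) q = pr (pre a p) v ∧ q (a j) ∈ Used j)).card := by ring
          _ ≤ (p : ℕ) * dB S (pre a p) v + dB S (pre a p) v := Nat.add_le_add hBad hsum
          _ = ((p : ℕ) + 1) * dB S (pre a p) v := by ring
      obtain ⟨v', hv'S, hv'A, hv'B⟩ := EMS_avg S (pre a p) (a p) v Bad' _ _ hv hB'
      rw [← EMS_pre_succ] at hv'B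
      obtain ⟨w, hw1, hw2⟩ := hE v' hv'S Bad' hv'B
      refine ⟨fun i' => if i' = i then v' else vs i', fun i' => if i' = i then w else ws i',
        ?_, ?_, ?_, ?_⟩
      · intro i' hi'
        simp only
        by_cases h : i' = i
        · rw [if_pos h]; exact ⟨hv'S, hv'A⟩
        · rw [if_neg h]; exact h1 i' (by omega)
      · intro i' hi' q hq
        simp only
        by_cases h : i' = i
        · rw [if_pos h, if_pos h]
          obtain ⟨ha1, ha2, ha3⟩ := hw1 q hq
          exact ⟨ha1, fun hb => ha2 (by rw [hBad']; exact mem_union_left _ hb), ha3⟩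
        · rw [if_neg h, if_neg h]; exact h2 i' (by omega) q hq
      · intro i' hi' q hq q' hq' j hj
        simp only
        by_cases h : i' = i
        · rw [if_pos h]; exact hw2 q hq q' hq' j hj
        · rw [if_neg h]; exact h3 i' (by omega) q hq q' hq' j hj
      · have hnew : ∀ i' < i, ∀ q ∈ Idx r t, ∀ q' ∈ Idx r t, ∀ j : Fin r, p ≤ j →
            w q (a j) ≠ ws i' q' (a j) := by
          intro i' hi' q hq q' hq' j hj heq
          obtain ⟨ha1, ha2, _⟩ := hw1 q hq
          apply ha2
          rw [hBad', mem_union, mem_filter]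
          refine Or.inr ⟨ha1, j, hj, ?_⟩
          rw [heq, hUsed]
          simp only [mem_image, mem_product, mem_range]
          exact ⟨(i', q'), ⟨hi', hq'⟩, rfl⟩
        intro i1 hi1 i2 hi2 hne q hq q' hq' j hj
        simp only
        by_cases hh1 : i1 = i
        · have hh2 : i2 ≠ i := fun h => hne (hh1.trans h.symm)
          rw [if_pos hh1, if_neg hh2]
          exact hnew i2 (by omega) q hq q' hq' j hj
        · rw [if_neg hh1]
          by_cases hh2 : i2 = i
          · rw [if_pos hh2]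
            exact (hnew i1 (by omega) q' hq' q hq j hj).symm
          · rw [if_neg hh2]
            exact h4 i1 (by omega) i2 (by omega) hne q hq q' hq' j hj
  obtain ⟨vs, ws, h1, h2, h3, h4⟩ := hstep (t p) le_rfl
  have hvp : ∀ i < t p, ∀ q ∈ Idx r t, ws i q (a p) = vs i (a p) := by
    intro i hi q hq
    exact (EMS_pr_iff _ _ _).mp (h2 i hi q hq).2.2 (a p)
      (by rw [EMS_pre_succ]; exact mem_insert_self _ _)
  refine ⟨fun q => ws (q p) q, ?_, ?_⟩
  · intro q hq
    have hqp := EMS_idx.mp hq p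
    obtain ⟨ha1, ha2, ha3⟩ := h2 (q p) hqp q hq
    refine ⟨ha1, ha2, ?_⟩
    rw [EMS_pre_succ, EMS_pr_insert] at ha3
    exact ha3.1.trans (h1 (q p) hqp).2
  · intro q hq q' hq' j hj
    simp only
    have hqp := EMS_idx.mp hq p
    have hqp' := EMS_idx.mp hq' p
    by_cases h : q p = q' p
    · rw [← h]
      rcases Nat.lt_or_ge (p : ℕ) (j : ℕ) with hlt | hge
      · rw [h3 (q p) hqp q hq q' hq' j hlt]
        constructor
        · intro h' l hl1 hl2
          rcases Nat.lt_or_ge (p : ℕ) (l : ℕ) with h5 | h5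
          · exact h' l h5 hl2
          · have : l = p := Fin.ext (by omega)
            rw [this]; exact h
        · intro h' l hl1 hl2
          exact h' l (by omega) hl2
      · have hjp : j = p := Fin.ext (by omega)
        subst hjp
        rw [hvp _ hqp q hq, hvp _ hqp q' hq']
        refine ⟨fun _ l hl1 hl2 => ?_, fun _ => rfl⟩
        have : l = j := Fin.ext (by have := Fin.le_def.mp hl2; omega)
        rw [this]; exact h
    · constructor
      · intro h'
        exact absurd h' (h4 (q p) hqp (q' p) hqp' h q hq q' hq' j (Fin.le_def.mpr hj))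
      · intro h'
        exact absurd (h' p le_rfl (Fin.le_def.mpr hj)) h

end H773Y
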