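import Pool.Agent.H773R2.UG.Defs5

/-!
# GA1: the inequalities of sizes
-/

set_option linter.unusedVariables false

namespace H773Y

open Finset Pool.Agent.Results.MP_9dddc4_co.UkExponent H773X

theorem GA1_choose {n N j r : ℕ} (hj : j ≤ r) (h : n ≤ 2 * (N + 1 - j)) :
    n ^ j ≤ (2 * r) ^ j * N.choose j := by
  have h1 : (N + 1 - j) ^ j ≤ N.descFactorial j := Nat.pow_sub_le_descFactorial N j
  rw [Nat.descFactorial_eq_factorial_mul_choose] at h1
  have h2 : j.factorial ≤ r ^ j := (Nat.factorial_le_pow j).trans (Nat.pow_le_pow_left hj j)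
  calc n ^ j ≤ (2 * (N + 1 - j)) ^ j := Nat.pow_le_pow_left h j
    _ = 2 ^ j * (N + 1 - j) ^ j := by rw [mul_pow]
    _ ≤ 2 ^ j * (j.factorial * N.choose j) := Nat.mul_le_mul_left _ h1
    _ ≤ 2 ^ j * (r ^ j * N.choose j) := Nat.mul_le_mul_left _ (Nat.mul_le_mul_right _ h2)
    _ = (2 * r) ^ j * N.choose j := by rw [mul_pow]; ring

theorem GA1_choose_le (m k : ℕ) : m.choose k ≤ m ^ k := by
  have h1 : m.choose k ≤ m.descFactorial k := by
    rw [Nat.descFactorial_eq_factorial_mul_choose]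
    exact Nat.le_mul_of_pos_left _ (Nat.factorial_pos k)
  exact h1.trans (Nat.descFactorial_le_pow m k)

theorem GA1 : S_GA1 := by
  intro r a n m p T l ha har hrm hrn hp hmp hT h1 h2 h3
  have hr : 0 < r := by omega
  have hm : 0 < m := by omega
  have hn : 0 < n := by omega
  have hmn : m ≤ n := le_trans (Nat.le_mul_of_pos_right m hp) hmp
  set E := n ^ a * m ^ (r - a) with hE
  set e := p ^ a * m.choose r with he
  set R' := (n - a).choose (r - a) with hR'
  set R := n.choose r with hR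
  set A := (m - a).choose (r - a) with hA
  have heE : e ≤ E := by
    calc e ≤ p ^ a * m ^ r := Nat.mul_le_mul_left _ (GA1_choose_le m r)
      _ = (m * p) ^ a * m ^ (r - a) := by
        have : m ^ r = m ^ a * m ^ (r - a) := by rw [← pow_add]; congr 1; omega
        rw [this, mul_pow]
        ring
      _ ≤ n ^ a * m ^ (r - a) := Nat.mul_le_mul_right _ (Nat.pow_le_pow_left hmp a)
  have hc1 : n ^ (r - a) ≤ (2 * r) ^ (r - a) * R' :=
    GA1_choose (Nat.sub_le r a) (by omega)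
  have hc2 : n ^ r ≤ (2 * r) ^ r * R := GA1_choose le_rfl (by omega)
  have h2r : 0 < (2 * r) ^ (r - a) := Nat.pow_pos (by omega)
  refine ⟨heE.trans (Nat.le_of_mul_le_mul_left (h1.trans hc1) h2r), ?_⟩
  have hmain : 6 * m ^ (r - a) * E ^ (l + 1) ≤ T * R' * R ^ l := by
    have h2r' : 0 < (2 * r) ^ (r - a + r * l) := Nat.pow_pos (by omega)
    apply Nat.le_of_mul_le_mul_right _ h2r'
    refine h3.trans ?_
    calc T * n ^ (r - a + r * l) = T * (n ^ (r - a) * (n ^ r) ^ l) := by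
          rw [pow_add, pow_mul]
      _ ≤ T * (((2 * r) ^ (r - a) * R') * ((2 * r) ^ r * R) ^ l) :=
          Nat.mul_le_mul_left _ (Nat.mul_le_mul hc1 (Nat.pow_le_pow_left hc2 l))
      _ = T * R' * R ^ l * (2 * r) ^ (r - a + r * l) := by
          rw [mul_pow, pow_add, pow_mul]
          ring
  have key : ((m.choose a * (A.choose T * (n ^ m) ^ (l + 1))) * (e ^ T) ^ (l + 1) : ℝ) <
      (R' : ℝ) ^ T * ((R : ℝ) ^ T) ^ l := by
    have hTr : (0 : ℝ) < T := by exact_mod_cast hT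
    have hnr : (0 : ℝ) < n := by exact_mod_cast hn
    have hmr : (0 : ℝ) < m := by exact_mod_cast hm
    have hEr : (0 : ℝ) < E := by
      have : 0 < E := Nat.mul_pos (Nat.pow_pos hn) (Nat.pow_pos hm)
      exact_mod_cast this
    have heEr : (e : ℝ) ≤ E := by exact_mod_cast heE
    have hca : (m.choose a : ℝ) ≤ (n : ℝ) ^ a := by
      exact_mod_cast (GA1_choose_le m a).trans (Nat.pow_le_pow_left hmn a)
    have hAr : (A : ℝ) ≤ (m : ℝ) ^ (r - a) := by
      exact_mod_cast (GA1_choose_le (m - a) (r - a)).trans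
        (Nat.pow_le_pow_left (Nat.sub_le m a) (r - a))
    have c1 := choose_le_three A T
    have c5 : (n : ℝ) ^ (m * (l + 1) + a) < 2 ^ T := by exact_mod_cast h2
    have hTT : (0 : ℝ) < (T : ℝ) ^ T := by positivity
    have hmainr : 6 * (m : ℝ) ^ (r - a) * (E : ℝ) ^ (l + 1) ≤ T * R' * (R : ℝ) ^ l := by
      exact_mod_cast hmain
    have c1' : (A.choose T : ℝ) * (T : ℝ) ^ T ≤ (3 * (m : ℝ) ^ (r - a)) ^ T := by
      refine c1.trans ?_
      gcongr
    rw [← mul_lt_mul_iff_left₀ hTT]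
    calc ((m.choose a * (A.choose T * (n ^ m) ^ (l + 1))) * (e ^ T) ^ (l + 1) : ℝ) * (T : ℝ) ^ T
        = m.choose a * ((n : ℝ) ^ m) ^ (l + 1) * ((A.choose T : ℝ) * T ^ T) *
            ((e : ℝ) ^ T) ^ (l + 1) := by ring
      _ ≤ (n : ℝ) ^ a * ((n : ℝ) ^ m) ^ (l + 1) * (3 * (m : ℝ) ^ (r - a)) ^ T *
            ((E : ℝ) ^ T) ^ (l + 1) := by
          gcongr
      _ = (n : ℝ) ^ (m * (l + 1) + a) *
            ((3 * (m : ℝ) ^ (r - a)) ^ T * ((E : ℝ) ^ T) ^ (l + 1)) := by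
          rw [pow_add (n : ℝ) (m * (l + 1)), pow_mul (n : ℝ)]
          ring
      _ < 2 ^ T * ((3 * (m : ℝ) ^ (r - a)) ^ T * ((E : ℝ) ^ T) ^ (l + 1)) := by
          gcongr
      _ = (6 * (m : ℝ) ^ (r - a) * (E : ℝ) ^ (l + 1)) ^ T := by
          rw [show 6 * (m : ℝ) ^ (r - a) * (E : ℝ) ^ (l + 1) =
            2 * ((3 * (m : ℝ) ^ (r - a)) * (E : ℝ) ^ (l + 1)) by ring, mul_pow 2,
            mul_pow (3 * (m : ℝ) ^ (r - a)), ← pow_mul (E : ℝ), ← pow_mul (E : ℝ),
            mul_comm T (l + 1)]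
      _ ≤ (T * R' * (R : ℝ) ^ l) ^ T := by
          gcongr
      _ = (R' : ℝ) ^ T * ((R : ℝ) ^ T) ^ l * T ^ T := by
          rw [mul_pow, mul_pow, ← pow_mul, ← pow_mul, mul_comm T l]
          ring
  exact_mod_cast key

end H773Y
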