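import Pool.Agent.H773R2.UG.Defs

set_option autoImplicit false

namespace H773Y

open Pool.Agent.Results.MP_9dddc4_co.UkExponent

open Filter

theorem LOS_log (n : ℕ) (hn : 3 ≤ n) : ((Nat.log 2 n : ℕ) : ℝ) + 1 ≤ 3 * Real.log n := by
  have hn0 : (0 : ℝ) < n := by positivity
  have h1 : (1 : ℝ) ≤ Real.log n := by
    rw [Real.le_log_iff_exp_le hn0]
    have h3 : (3 : ℝ) ≤ n := by exact_mod_cast hn
    have := Real.exp_one_lt_d9
    linarith
  have h2 : (2 : ℝ) ^ (Nat.log 2 n) ≤ n := by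
    exact_mod_cast Nat.pow_log_le_self 2 (by omega)
  have h3 : (Nat.log 2 n : ℝ) * Real.log 2 ≤ Real.log n := by
    rw [← Real.log_pow]
    exact Real.log_le_log (by positivity) h2
  have h4 : (0.69 : ℝ) < Real.log 2 := by
    have := Real.log_two_gt_d9
    linarith
  have h5 : (0 : ℝ) ≤ (Nat.log 2 n : ℝ) := by positivity
  nlinarith

theorem LOS (h : S_LCS) : S_LOS := by
  intro r k hr hk hkr
  obtain ⟨l, rfl⟩ : ∃ l, k = l + 1 := ⟨k - 1, by omega⟩
  have hl : 1 ≤ l := by omega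
  have hlr : l + 2 ≤ r := by omega
  have hrR : (3 : ℝ) ≤ r := by exact_mod_cast hr
  have hlR : (1 : ℝ) ≤ l := by exact_mod_cast hl
  have hlrR : (l : ℝ) + 2 ≤ r := by exact_mod_cast hlr
  obtain ⟨e, he⟩ : ∃ e, e + 1 = (r - 1) * (l + 1) := by
    refine ⟨(r - 1) * (l + 1) - 1, ?_⟩
    have : 0 < (r - 1) * (l + 1) := Nat.mul_pos (by omega) (by omega)
    omega
  obtain ⟨f, hf⟩ : ∃ f, f + 1 = (r - 1) * l := by
    refine ⟨(r - 1) * l - 1, ?_⟩
    have : 0 < (r - 1) * l := Nat.mul_pos (by omega) (by omega)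
    omega
  have hr1 : ((r - 1 : ℕ) : ℝ) = (r : ℝ) - 1 := by
    rw [Nat.cast_sub (by omega)]; simp
  have hr2 : ((r - 2 : ℕ) : ℝ) = (r : ℝ) - 2 := by
    rw [Nat.cast_sub (by omega)]; simp
  have heR : (e : ℝ) = ((r : ℝ) - 1) * (l + 1) - 1 := by
    have : ((e + 1 : ℕ) : ℝ) = (((r - 1) * (l + 1) : ℕ) : ℝ) := by rw [he]
    push_cast at this
    rw [hr1] at this
    linarith
  have hfR : (f : ℝ) = ((r : ℝ) - 1) * l - 1 := by
    have : ((f + 1 : ℕ) : ℝ) = (((r - 1) * l : ℕ) : ℝ) := by rw [hf]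
    push_cast at this
    rw [hr1] at this
    linarith
  have hfpos : (1 : ℝ) ≤ f := by rw [hfR]; nlinarith
  have hepos : (0 : ℝ) < e := by rw [heR]; nlinarith
  set μ : ℝ := (f : ℝ) / e with hμ
  have hμ0 : 0 < μ := div_pos (by linarith) hepos
  have hμe : μ * e = f := div_mul_cancel₀ _ hepos.ne'
  have hμ1 : μ < 1 := by
    rw [hμ, div_lt_one hepos, heR, hfR]; nlinarith
  have hμr : μ * ((r : ℝ) - 1) ≤ (r : ℝ) - 2 := by
    rw [hμ, div_mul_eq_mul_div, div_le_iff₀ hepos, heR, hfR]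
    nlinarith [mul_nonneg (by linarith : (0 : ℝ) ≤ (r : ℝ) - 1) (by linarith : (0 : ℝ) ≤ (r : ℝ) - 2 - l)]
  have hE : 1 + ((r : ℝ) - 2) * μ =
      ((r : ℝ) - 1) ^ 2 * (((l + 1 : ℕ) : ℝ) - 1) / (((r : ℝ) - 1) * ((l + 1 : ℕ) : ℝ) - 1) := by
    push_cast
    have h1 : ((r : ℝ) - 1) * (l + 1) - 1 = e := heR.symm
    rw [h1, eq_div_iff hepos.ne']
    have : (1 + ((r : ℝ) - 2) * μ) * e = e + ((r : ℝ) - 2) * (μ * e) := by ring
    rw [this, hμe, heR, hfR]
    ring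
  set c : ℝ := 1 / (2 * (2 ^ r * (r.factorial : ℝ)) * 2 ^ (r - 2) * (3 * (l + 1))) with hc
  have hcpos : 0 < c := by
    rw [hc]; positivity
  refine ⟨c, hcpos, ?_⟩
  have t1 : Tendsto (fun n : ℕ => (n : ℝ) ^ μ) atTop atTop :=
    (tendsto_rpow_atTop hμ0).comp tendsto_natCast_atTop_atTop
  have t2 : Tendsto (fun n : ℕ => (n : ℝ) ^ (1 - μ)) atTop atTop :=
    (tendsto_rpow_atTop (by linarith)).comp tendsto_natCast_atTop_atTop
  filter_upwards [eventually_ge_atTop 3, t1.eventually_ge_atTop (2 * r + 2 : ℝ),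
    t2.eventually_ge_atTop (2 : ℝ)] with n hn3 hn1 hn2
  have hnR : (3 : ℝ) ≤ n := by exact_mod_cast hn3
  have hn0 : (0 : ℝ) < n := by linarith
  have hn1' : (1 : ℝ) ≤ n := by linarith
  set m : ℕ := ⌊(n : ℝ) ^ μ⌋₊ with hm
  have hm_le : (m : ℝ) ≤ (n : ℝ) ^ μ := Nat.floor_le (by positivity)
  have hm_gt : (n : ℝ) ^ μ < m + 1 := Nat.lt_floor_add_one _
  have hm_half : (n : ℝ) ^ μ / 2 ≤ m := by linarith
  have hm2r : 2 * r ≤ m := by
    have : (2 * r : ℝ) ≤ m := by linarith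
    exact_mod_cast this
  have hm1 : 1 ≤ m := by omega
  have hmR : (1 : ℝ) ≤ m := by exact_mod_cast hm1
  have hmn : 2 * (m : ℝ) ≤ n := by
    have h1 : (n : ℝ) ^ μ * (n : ℝ) ^ (1 - μ) = n := by
      rw [← Real.rpow_add hn0]; simp
    have h2 : (n : ℝ) ^ μ * 2 ≤ n := by
      calc (n : ℝ) ^ μ * 2 ≤ (n : ℝ) ^ μ * (n : ℝ) ^ (1 - μ) := by
            apply mul_le_mul_of_nonneg_left hn2; positivity
        _ = n := h1
    linarith
  set q : ℕ := n / m with hq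
  have hqm : q * m ≤ n := Nat.div_mul_le_self n m
  have hqm2 : (n : ℝ) / 2 ≤ q * m := by
    have h1 : n < (q + 1) * m := by
      have := Nat.lt_mul_div_succ n hm1
      rw [mul_comm] at this
      simpa [hq] using this
    have h2 : (n : ℝ) < (q + 1) * m := by exact_mod_cast h1
    nlinarith
  set T : ℕ := (m * l + 1) * (Nat.log 2 n + 1) with hT
  have hTpos : 0 < T := by positivity
  have hTm : m ≤ T := by
    rw [hT]
    calc m ≤ m * l + 1 := by
          have h0 := Nat.mul_le_mul_left m hl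
          omega
      _ = (m * l + 1) * 1 := by ring
      _ ≤ (m * l + 1) * (Nat.log 2 n + 1) := Nat.mul_le_mul_left _ (by omega)
  have h4 : m ^ (r - 1) ≤ n ^ (r - 2) := by
    have : (m : ℝ) ^ (r - 1) ≤ (n : ℝ) ^ (r - 2) := by
      calc (m : ℝ) ^ (r - 1) ≤ ((n : ℝ) ^ μ) ^ (r - 1) := by gcongr
        _ = (n : ℝ) ^ (μ * ((r : ℝ) - 1)) := by
            rw [← Real.rpow_natCast, ← Real.rpow_mul hn0.le, hr1]
        _ ≤ (n : ℝ) ^ ((r : ℝ) - 2) := Real.rpow_le_rpow_of_exponent_le hn1' hμr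
        _ = (n : ℝ) ^ (r - 2) := by rw [← hr2, Real.rpow_natCast]
    exact_mod_cast this
  have hme : m ^ e ≤ n ^ f := by
    have : (m : ℝ) ^ e ≤ (n : ℝ) ^ f := by
      calc (m : ℝ) ^ e ≤ ((n : ℝ) ^ μ) ^ e := by gcongr
        _ = (n : ℝ) ^ (μ * (e : ℝ)) := by
            rw [← Real.rpow_natCast, ← Real.rpow_mul hn0.le]
        _ = (n : ℝ) ^ f := by rw [hμe, Real.rpow_natCast]
    exact_mod_cast this
  have h5 : m ^ ((r - 1) * (l + 1)) * n ≤ T * n ^ ((r - 1) * l) := by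
    rw [← he, ← hf]
    calc m ^ (e + 1) * n = m ^ e * (m * n) := by ring
      _ ≤ n ^ f * (m * n) := Nat.mul_le_mul_right _ hme
      _ = m * n ^ (f + 1) := by ring
      _ ≤ T * n ^ (f + 1) := Nat.mul_le_mul_right _ hTm
  have h6 : n ^ (m * l + 1) < 2 ^ T := by
    rw [hT, mul_comm (m * l + 1), pow_mul]
    exact Nat.pow_lt_pow_left (Nat.lt_pow_succ_log_self (by norm_num) n) (by omega)
  have key := h r n m q T l hr hl hm1 hqm hTpos h4 h5 h6
  have keyR : (q : ℝ) * (m.choose r : ℝ) ≤ (U (l + 1) n r : ℝ) * T := by exact_mod_cast key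
  have hlog : 0 < Real.log n := Real.log_pos (by linarith)
  have hU0 : (0 : ℝ) ≤ (U (l + 1) n r : ℝ) := by positivity
  have hTle : (T : ℝ) ≤ m * (l + 1) * (3 * Real.log n) := by
    rw [hT]
    push_cast
    have h1 := LOS_log n hn3
    have h2 : (m : ℝ) * l + 1 ≤ m * (l + 1) := by nlinarith
    exact mul_le_mul h2 h1 (by positivity) (by positivity)
  have hchoose : ((m : ℝ) / 2) ^ r ≤ r.factorial * (m.choose r : ℝ) := by
    have h1 : ((m + 1 - r : ℕ) : ℝ) ^ r ≤ r.factorial * (m.choose r : ℝ) := by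
      have := Nat.pow_sub_le_descFactorial m r
      rw [Nat.descFactorial_eq_factorial_mul_choose] at this
      exact_mod_cast this
    refine le_trans ?_ h1
    have h2 : (m : ℝ) / 2 ≤ ((m + 1 - r : ℕ) : ℝ) := by
      rw [Nat.cast_sub (by omega)]
      have : (2 * r : ℝ) ≤ m := by exact_mod_cast hm2r
      push_cast
      linarith
    gcongr
  rw [← hE, div_le_iff₀ hlog]
  have hpow : (n : ℝ) ^ (1 + ((r : ℝ) - 2) * μ) = n * ((n : ℝ) ^ μ) ^ (r - 2) := by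
    rw [Real.rpow_add hn0, Real.rpow_one, mul_comm ((r : ℝ) - 2) μ, Real.rpow_mul hn0.le, ← hr2,
      Real.rpow_natCast]
  rw [hpow]
  have hF : (0 : ℝ) < r.factorial := by positivity
  have hstep : (n : ℝ) / 2 * ((m : ℝ) / 2) ^ r / r.factorial ≤
      (U (l + 1) n r : ℝ) * Real.log n * (3 * (l + 1)) * (m * m) := by
    calc (n : ℝ) / 2 * ((m : ℝ) / 2) ^ r / r.factorial
        ≤ (q * m) * (r.factorial * (m.choose r : ℝ)) / r.factorial := by gcongr
      _ = (q * (m.choose r : ℝ)) * m := by field_simp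
      _ ≤ ((U (l + 1) n r : ℝ) * T) * m := by gcongr
      _ ≤ ((U (l + 1) n r : ℝ) * (m * (l + 1) * (3 * Real.log n))) * m := by gcongr
      _ = _ := by ring
  have hsplit : ((m : ℝ) / 2) ^ r = (m : ℝ) ^ (r - 2) * (m * m) / 2 ^ r := by
    rw [div_pow]
    congr 1
    rw [← sq, ← pow_add]
    congr 1
    omega
  rw [hsplit] at hstep
  have hmm : (0 : ℝ) < m * m := by positivity
  have hstep2 : (n : ℝ) / 2 * ((m : ℝ) ^ (r - 2) / 2 ^ r) / r.factorial ≤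
      (U (l + 1) n r : ℝ) * Real.log n * (3 * (l + 1)) := by
    have : (n : ℝ) / 2 * ((m : ℝ) ^ (r - 2) * (m * m) / 2 ^ r) / r.factorial =
        ((n : ℝ) / 2 * ((m : ℝ) ^ (r - 2) / 2 ^ r) / r.factorial) * (m * m) := by ring
    rw [this] at hstep
    exact le_of_mul_le_mul_right hstep hmm
  have hm3 : ((n : ℝ) ^ μ) ^ (r - 2) / 2 ^ (r - 2) ≤ (m : ℝ) ^ (r - 2) := by
    rw [← div_pow]
    gcongr
  have hstep3 : (n : ℝ) / 2 * ((((n : ℝ) ^ μ) ^ (r - 2) / 2 ^ (r - 2)) / 2 ^ r) / r.factorial ≤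
      (U (l + 1) n r : ℝ) * Real.log n * (3 * (l + 1)) := by
    refine le_trans ?_ hstep2
    gcongr
  have h3l : (0 : ℝ) < 3 * (l + 1) := by positivity
  have hfin : c * (n * ((n : ℝ) ^ μ) ^ (r - 2)) =
      ((n : ℝ) / 2 * ((((n : ℝ) ^ μ) ^ (r - 2) / 2 ^ (r - 2)) / 2 ^ r) / r.factorial) / (3 * (l + 1)) := by
    rw [hc]
    field_simp
  rw [hfin, div_le_iff₀ h3l]
  exact hstep3

end H773Y
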