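import Pool.Agent.H773R2.UG.Defs5
import Pool.Agent.H773R2.UG.LOS

set_option autoImplicit false

namespace H773Y

open Pool.Agent.Results.MP_9dddc4_co.UkExponent

open Filter

theorem GA2 : S_GA2 := by
  intro r l a ha har
  have h2a : 2 * a + 1 ≤ r := by nlinarith
  have hr3 : 3 ≤ r := by omega
  obtain ⟨b, hb⟩ : ∃ b, r = a + b := ⟨r - a, by omega⟩
  have hba : r - a = b := by omega
  have hab : a + 1 ≤ b := by omega
  -- exponents
  have hf1 : r + 1 ≤ b * (l + 2) := by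
    have : a * (l + 2) + b * (l + 2) = r * (l + 2) := by rw [hb]; ring
    nlinarith
  obtain ⟨f, hf⟩ : ∃ f, f + r = b * (l + 2) := ⟨b * (l + 2) - r, by omega⟩
  obtain ⟨e, he⟩ : ∃ e, e + 1 = b * (l + 2) := ⟨b * (l + 2) - 1, by omega⟩
  have hf0 : 1 ≤ f := by omega
  have he0 : 1 ≤ e := by omega
  have hrR : (3 : ℝ) ≤ r := by exact_mod_cast hr3
  have haR : (1 : ℝ) ≤ a := by exact_mod_cast ha
  have hbR : (r : ℝ) = a + b := by exact_mod_cast hb
  have hlR : (0 : ℝ) ≤ l := Nat.cast_nonneg l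
  have hfR : (f : ℝ) = b * (l + 2) - r := by
    have : ((f + r : ℕ) : ℝ) = ((b * (l + 2) : ℕ) : ℝ) := by rw [hf]
    push_cast at this
    linarith
  have heR : (e : ℝ) = b * (l + 2) - 1 := by
    have : ((e + 1 : ℕ) : ℝ) = ((b * (l + 2) : ℕ) : ℝ) := by rw [he]
    push_cast at this
    linarith
  have hfpos : (1 : ℝ) ≤ f := by exact_mod_cast hf0
  have hepos : (0 : ℝ) < e := by exact_mod_cast he0
  have harR : (a : ℝ) * (l + 2) + 1 ≤ r := by exact_mod_cast har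
  obtain ⟨μ, hμ⟩ : ∃ μ : ℝ, μ = (f : ℝ) / e := ⟨_, rfl⟩
  have hμ0 : 0 < μ := by rw [hμ]; exact div_pos (by linarith) hepos
  have hμe : μ * e = f := by rw [hμ]; exact div_mul_cancel₀ _ hepos.ne'
  have hμ1 : μ < 1 := by
    rw [hμ, div_lt_one hepos, heR, hfR]; linarith
  have hμr : μ * (b : ℝ) ≤ (b : ℝ) - a := by
    rw [hμ, div_mul_eq_mul_div, div_le_iff₀ hepos]
    have h1 : (a : ℝ) * e ≤ ((r : ℝ) - 1) * b := by
      rw [heR]
      have h2 : (a : ℝ) * (l + 2) * b ≤ (r - 1) * b :=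
        mul_le_mul_of_nonneg_right (by linarith) (Nat.cast_nonneg b)
      nlinarith
    have h3 : (f : ℝ) = e - (r - 1) := by rw [hfR, heR]; ring
    rw [h3]
    nlinarith
  have hE : (a : ℝ) + ((b : ℝ) - 1) * μ = ea r (l + 2) a := by
    unfold ea
    have h1 : ((r : ℝ) - a) * ((l + 2 : ℕ) : ℝ) - 1 = e := by
      rw [heR, hbR]; push_cast; ring
    rw [h1, eq_div_iff hepos.ne']
    have h2 : ((a : ℝ) + ((b : ℝ) - 1) * μ) * e = a * e + ((b : ℝ) - 1) * (μ * e) := by ring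
    rw [h2, hμe, heR, hfR, hbR]
    push_cast
    ring
  obtain ⟨δ, hδ⟩ : ∃ δ : ℝ, δ = 1 / (6 * (2 * (r : ℝ)) ^ (r * (l + 1))) := ⟨_, rfl⟩
  have h2r1 : (1 : ℝ) ≤ 2 * r := by linarith
  have hpw1 : (1 : ℝ) ≤ (2 * (r : ℝ)) ^ (r * (l + 1)) := one_le_pow₀ h2r1
  have hδ0 : 0 < δ := by rw [hδ]; positivity
  have hδ1 : δ ≤ 1 := by
    rw [hδ, div_le_one (by positivity)]
    linarith
  have hδr : 2 * (r : ℝ) * δ ≤ 1 := by
    rw [hδ, mul_one_div, div_le_one (by positivity)]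
    have h1 : (2 * (r : ℝ)) ^ 1 ≤ (2 * (r : ℝ)) ^ (r * (l + 1)) :=
      pow_le_pow_right₀ h2r1 (Nat.mul_pos (by omega) (by omega))
    rw [pow_one] at h1
    linarith
  have hδ6 : 6 * (2 * (r : ℝ)) ^ (b + r * l) * δ ≤ 1 := by
    rw [hδ, mul_one_div, div_le_one (by positivity)]
    have h1 : (2 * (r : ℝ)) ^ (b + r * l) ≤ (2 * (r : ℝ)) ^ (r * (l + 1)) := by
      refine pow_le_pow_right₀ h2r1 ?_
      have : r * (l + 1) = r * l + r := by ring
      omega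
    linarith
  obtain ⟨c, hc⟩ : ∃ c : ℝ, c = (δ / 2) ^ (b - 1) /
      (3 * ((l : ℝ) + 1 + a) * (2 ^ (a + r) * (r.factorial : ℝ))) := ⟨_, rfl⟩
  have hcpos : 0 < c := by rw [hc]; positivity
  refine ⟨c, hcpos, ?_⟩
  have t1 : Tendsto (fun n : ℕ => δ * (n : ℝ) ^ μ) atTop atTop :=
    ((tendsto_rpow_atTop hμ0).comp tendsto_natCast_atTop_atTop).const_mul_atTop hδ0
  have t2 : Tendsto (fun n : ℕ => (n : ℝ) ^ (1 - μ)) atTop atTop :=
    (tendsto_rpow_atTop (by linarith)).comp tendsto_natCast_atTop_atTop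
  filter_upwards [eventually_ge_atTop (2 * r), t1.eventually_ge_atTop (2 * r + 2 : ℝ),
    t2.eventually_ge_atTop (2 : ℝ)] with n hn2r hn1 hn2
  have hn3 : 3 ≤ n := by omega
  have hnR : (3 : ℝ) ≤ n := by exact_mod_cast hn3
  have hn0 : (0 : ℝ) < n := by linarith
  have hn1' : (1 : ℝ) ≤ n := by linarith
  obtain ⟨m, hm⟩ : ∃ m : ℕ, m = ⌊δ * (n : ℝ) ^ μ⌋₊ := ⟨_, rfl⟩
  have hm_le : (m : ℝ) ≤ δ * (n : ℝ) ^ μ := by rw [hm]; exact Nat.floor_le (by positivity)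
  have hm_gt : δ * (n : ℝ) ^ μ < m + 1 := by rw [hm]; exact Nat.lt_floor_add_one _
  have hm_half : δ * (n : ℝ) ^ μ / 2 ≤ m := by linarith
  have hm2r : 2 * r ≤ m := by
    have : (2 * r : ℝ) ≤ m := by linarith
    exact_mod_cast this
  have hm1 : 1 ≤ m := by omega
  have hmR : (1 : ℝ) ≤ m := by exact_mod_cast hm1
  have hmn : 2 * (m : ℝ) ≤ n := by
    have h1 : (n : ℝ) ^ μ * (n : ℝ) ^ (1 - μ) = n := by
      rw [← Real.rpow_add hn0]; simp
    have h2 : (n : ℝ) ^ μ * 2 ≤ n := by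
      calc (n : ℝ) ^ μ * 2 ≤ (n : ℝ) ^ μ * (n : ℝ) ^ (1 - μ) := by
            apply mul_le_mul_of_nonneg_left hn2; positivity
        _ = n := h1
    have h3 : δ * (n : ℝ) ^ μ ≤ 1 * (n : ℝ) ^ μ := mul_le_mul_of_nonneg_right hδ1 (by positivity)
    linarith
  have hmn' : m ≤ n := by
    have : (m : ℝ) ≤ n := by linarith
    exact_mod_cast this
  obtain ⟨p, hp⟩ : ∃ p : ℕ, p = n / m := ⟨_, rfl⟩
  have hpm : m * p ≤ n := by rw [hp]; exact Nat.mul_div_le n m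
  have hp1 : 1 ≤ p := by rw [hp]; exact Nat.div_pos hmn' (by omega)
  have hpm2 : (n : ℝ) / 2 ≤ p * m := by
    have h1 : n < m * (p + 1) := by
      rw [hp]; exact Nat.lt_mul_div_succ n hm1
    have h2 : (n : ℝ) < m * (p + 1) := by exact_mod_cast h1
    nlinarith
  obtain ⟨T, hT⟩ : ∃ T : ℕ, T = (m * (l + 1) + a) * (Nat.log 2 n + 1) := ⟨_, rfl⟩
  have hTpos : 0 < T := by rw [hT]; positivity
  have hTm : m ≤ T := by
    rw [hT]
    calc m = m * 1 := (mul_one m).symm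
      _ ≤ m * (l + 1) := Nat.mul_le_mul_left _ (by omega)
      _ ≤ (m * (l + 1) + a) * 1 := by omega
      _ ≤ (m * (l + 1) + a) * (Nat.log 2 n + 1) := Nat.mul_le_mul_left _ (by omega)
  refine ⟨m, p, T, hp1, by omega, hn2r, hpm, hTpos, ?_, ?_, ?_, ?_⟩
  · -- H1
    rw [hba]
    have h1 : (2 * (r : ℝ)) ^ b * ((n : ℝ) ^ a * (m : ℝ) ^ b) ≤ (n : ℝ) ^ b := by
      have h2 : (m : ℝ) ^ b ≤ δ ^ b * (n : ℝ) ^ (b - a) := by
        calc (m : ℝ) ^ b ≤ (δ * (n : ℝ) ^ μ) ^ b := by gcongr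
          _ = δ ^ b * (n : ℝ) ^ (μ * (b : ℝ)) := by
            rw [mul_pow, ← Real.rpow_natCast ((n : ℝ) ^ μ) b, ← Real.rpow_mul hn0.le]
          _ ≤ δ ^ b * (n : ℝ) ^ ((b : ℝ) - a) := by
            gcongr
          _ = δ ^ b * (n : ℝ) ^ (b - a) := by
            rw [← Real.rpow_natCast (n : ℝ) (b - a), Nat.cast_sub (by omega)]
      calc (2 * (r : ℝ)) ^ b * ((n : ℝ) ^ a * (m : ℝ) ^ b)
          ≤ (2 * (r : ℝ)) ^ b * ((n : ℝ) ^ a * (δ ^ b * (n : ℝ) ^ (b - a))) := by gcongr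
        _ = (2 * (r : ℝ) * δ) ^ b * ((n : ℝ) ^ a * (n : ℝ) ^ (b - a)) := by
          rw [mul_pow (2 * (r : ℝ)) δ]; ring
        _ = (2 * (r : ℝ) * δ) ^ b * (n : ℝ) ^ b := by
          rw [← pow_add, show a + (b - a) = b by omega]
        _ ≤ 1 * (n : ℝ) ^ b := by
          gcongr
          exact pow_le_one₀ (by positivity) hδr
        _ = (n : ℝ) ^ b := one_mul _
    exact_mod_cast h1
  · -- H2
    rw [hT, mul_comm (m * (l + 1) + a), pow_mul]
    exact Nat.pow_lt_pow_left (Nat.lt_pow_succ_log_self (by norm_num) n) (by omega)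
  · -- H3
    rw [hba]
    have hme : (m : ℝ) ^ e ≤ δ * (n : ℝ) ^ f := by
      calc (m : ℝ) ^ e ≤ (δ * (n : ℝ) ^ μ) ^ e := by gcongr
        _ = δ ^ e * (n : ℝ) ^ (μ * (e : ℝ)) := by
            rw [mul_pow, ← Real.rpow_natCast ((n : ℝ) ^ μ) e, ← Real.rpow_mul hn0.le]
        _ = δ ^ e * (n : ℝ) ^ f := by rw [hμe, Real.rpow_natCast]
        _ ≤ δ ^ 1 * (n : ℝ) ^ f := by
          refine mul_le_mul_of_nonneg_right ?_ (by positivity)
          exact pow_le_pow_of_le_one hδ0.le hδ1 he0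
        _ = δ * (n : ℝ) ^ f := by rw [pow_one]
    have h1 : 6 * (m : ℝ) ^ b * ((n : ℝ) ^ a * (m : ℝ) ^ b) ^ (l + 1) * (2 * (r : ℝ)) ^ (b + r * l) ≤
        T * (n : ℝ) ^ (b + r * l) := by
      have h2 : 6 * (m : ℝ) ^ b * ((n : ℝ) ^ a * (m : ℝ) ^ b) ^ (l + 1) *
          (2 * (r : ℝ)) ^ (b + r * l) =
          6 * (2 * (r : ℝ)) ^ (b + r * l) * (m * (n : ℝ) ^ (a * (l + 1))) * (m : ℝ) ^ e := by
        have h3 : (m : ℝ) ^ b * ((m : ℝ) ^ b) ^ (l + 1) = (m : ℝ) ^ e * m := by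
          rw [← pow_mul, ← pow_add, ← pow_succ]
          congr 1
          rw [he]; ring
        rw [mul_pow, ← pow_mul]
        calc 6 * (m : ℝ) ^ b * ((n : ℝ) ^ (a * (l + 1)) * ((m : ℝ) ^ b) ^ (l + 1)) *
              (2 * (r : ℝ)) ^ (b + r * l)
            = 6 * (2 * (r : ℝ)) ^ (b + r * l) * (n : ℝ) ^ (a * (l + 1)) *
              ((m : ℝ) ^ b * ((m : ℝ) ^ b) ^ (l + 1)) := by ring
          _ = _ := by rw [h3]; ring
      rw [h2]
      have h4 : a * (l + 1) + f = b + r * l := by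
        have h5 : f + r + a * (l + 1) = b * (l + 2) + a * (l + 1) := by rw [hf]
        have h6 : b * (l + 2) + a * (l + 1) = b + r * l + r := by rw [hb]; ring
        omega
      calc 6 * (2 * (r : ℝ)) ^ (b + r * l) * (m * (n : ℝ) ^ (a * (l + 1))) * (m : ℝ) ^ e
          ≤ 6 * (2 * (r : ℝ)) ^ (b + r * l) * (m * (n : ℝ) ^ (a * (l + 1))) *
            (δ * (n : ℝ) ^ f) := by gcongr
        _ = (6 * (2 * (r : ℝ)) ^ (b + r * l) * δ) * (m * ((n : ℝ) ^ (a * (l + 1)) * (n : ℝ) ^ f)) := by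
          ring
        _ = (6 * (2 * (r : ℝ)) ^ (b + r * l) * δ) * (m * (n : ℝ) ^ (b + r * l)) := by
          rw [← pow_add, h4]
        _ ≤ 1 * (m * (n : ℝ) ^ (b + r * l)) := by gcongr
        _ = m * (n : ℝ) ^ (b + r * l) := one_mul _
        _ ≤ T * (n : ℝ) ^ (b + r * l) := by
          have : (m : ℝ) ≤ T := by exact_mod_cast hTm
          gcongr
    exact_mod_cast h1
  · -- LAST
    have hlog : 0 < Real.log n := Real.log_pos (by linarith)
    have hTle : (T : ℝ) ≤ m * ((l : ℝ) + 1 + a) * (3 * Real.log n) := by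
      rw [hT]
      push_cast
      have h1 := LOS_log n hn3
      have h2 : (m : ℝ) * (l + 1) + a ≤ m * ((l : ℝ) + 1 + a) := by nlinarith
      exact mul_le_mul h2 h1 (by positivity) (by positivity)
    have hchoose : ((m : ℝ) / 2) ^ r ≤ r.factorial * (m.choose r : ℝ) := by
      have h1 : ((m + 1 - r : ℕ) : ℝ) ^ r ≤ r.factorial * (m.choose r : ℝ) := by
        have := Nat.pow_sub_le_descFactorial m r
        rw [Nat.descFactorial_eq_factorial_mul_choose] at this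
        exact_mod_cast this
      refine le_trans ?_ h1
      have h2 : (m : ℝ) / 2 ≤ ((m + 1 - r : ℕ) : ℝ) := by
        rw [Nat.cast_sub (by omega)]
        have : (2 * r : ℝ) ≤ m := by exact_mod_cast hm2r
        push_cast
        linarith
      gcongr
    have hm0 : (0 : ℝ) < m := by linarith
    have hF : (0 : ℝ) < r.factorial := by positivity
    have hpow : (n : ℝ) ^ (ea r (l + 2) a) = (n : ℝ) ^ a * ((n : ℝ) ^ μ) ^ (b - 1) := by
      rw [← hE, Real.rpow_add hn0, Real.rpow_natCast, mul_comm ((b : ℝ) - 1) μ,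
        Real.rpow_mul hn0.le, ← Real.rpow_natCast ((n : ℝ) ^ μ) (b - 1), Nat.cast_sub (by omega),
        Nat.cast_one]
    have hm3 : (δ / 2) ^ (b - 1) * ((n : ℝ) ^ μ) ^ (b - 1) ≤ (m : ℝ) ^ (b - 1) := by
      rw [← mul_pow]
      refine pow_le_pow_left₀ (by positivity) ?_ _
      linarith
    have hpa : ((n : ℝ) / (2 * m)) ^ a ≤ (p : ℝ) ^ a := by
      refine pow_le_pow_left₀ (by positivity) ?_ _
      rw [div_le_iff₀ (by positivity)]
      linarith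
    push_cast
    -- the left side
    have hL : c * (n : ℝ) ^ (ea r (l + 2) a) / Real.log n * T ≤
        c * (3 * ((l : ℝ) + 1 + a)) * ((n : ℝ) ^ a * ((n : ℝ) ^ μ) ^ (b - 1)) * m := by
      rw [hpow]
      calc c * ((n : ℝ) ^ a * ((n : ℝ) ^ μ) ^ (b - 1)) / Real.log n * T
          ≤ c * ((n : ℝ) ^ a * ((n : ℝ) ^ μ) ^ (b - 1)) / Real.log n *
            (m * ((l : ℝ) + 1 + a) * (3 * Real.log n)) := by gcongr
        _ = c * (3 * ((l : ℝ) + 1 + a)) * ((n : ℝ) ^ a * ((n : ℝ) ^ μ) ^ (b - 1)) * m := by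
          field_simp
    refine hL.trans ?_
    have hR : ((n : ℝ) / (2 * m)) ^ a * (((m : ℝ) / 2) ^ r / r.factorial) ≤
        (p : ℝ) ^ a * (m.choose r : ℝ) := by
      refine mul_le_mul hpa ?_ (by positivity) (by positivity)
      rw [div_le_iff₀ hF]
      linarith
    refine le_trans ?_ hR
    have hsplit : ((n : ℝ) / (2 * m)) ^ a * (((m : ℝ) / 2) ^ r / r.factorial) =
        (n : ℝ) ^ a * ((m : ℝ) ^ (b - 1) * m) / (2 ^ (a + r) * r.factorial) := by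
      have h1 : (m : ℝ) ^ r = (m : ℝ) ^ a * ((m : ℝ) ^ (b - 1) * m) := by
        rw [← pow_succ, show b - 1 + 1 = b by omega, ← pow_add, ← hb]
      rw [div_pow, div_pow, mul_pow, h1, pow_add]
      field_simp
    rw [hsplit, le_div_iff₀ (by positivity)]
    have hcm : c * (3 * ((l : ℝ) + 1 + a)) * (2 ^ (a + r) * (r.factorial : ℝ)) = (δ / 2) ^ (b - 1) := by
      rw [hc]
      field_simp
    calc c * (3 * ((l : ℝ) + 1 + a)) * ((n : ℝ) ^ a * ((n : ℝ) ^ μ) ^ (b - 1)) * m *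
          (2 ^ (a + r) * (r.factorial : ℝ))
        = (c * (3 * ((l : ℝ) + 1 + a)) * (2 ^ (a + r) * (r.factorial : ℝ))) *
          ((n : ℝ) ^ μ) ^ (b - 1) * ((n : ℝ) ^ a * m) := by ring
      _ = ((δ / 2) ^ (b - 1) * ((n : ℝ) ^ μ) ^ (b - 1)) * ((n : ℝ) ^ a * m) := by rw [hcm]
      _ ≤ (m : ℝ) ^ (b - 1) * ((n : ℝ) ^ a * m) := by gcongr
      _ = (n : ℝ) ^ a * ((m : ℝ) ^ (b - 1) * m) := by ring

end H773Y
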