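import Pool.Agent.H773R2.UG.Defs5

/-! GA3 (helper666): the choice of the multiplicity. -/

set_option autoImplicit false

namespace H773Y

theorem GA3_fact (m : ℕ) : 3 ^ m < (m + 3).factorial := by
  induction m with
  | zero => decide
  | succ m ih =>
    have h : (m + 1 + 3).factorial = (m + 4) * (m + 3).factorial := Nat.factorial_succ (m + 3)
    rw [h, pow_succ, mul_comm]
    exact Nat.mul_lt_mul_of_le_of_lt (by omega) ih (by omega)

theorem GA3 : S_GA3 := by
  intro a
  refine ⟨a + 3, by positivity, fun n hn => ?_⟩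
  have hn0 : (0 : ℝ) < n := by
    have : 0 < n := by omega
    exact_mod_cast this
  have hn3 : (3 : ℝ) ≤ n := by exact_mod_cast hn
  have he3 : Real.exp 1 ≤ 3 := by
    have := Real.exp_one_lt_d9
    linarith
  have hlog : 1 ≤ Real.log n := by
    rw [Real.le_log_iff_exp_le hn0]
    linarith
  set m : ℕ := ⌈(a : ℝ) * Real.log n⌉₊ with hm
  have hm1 : (a : ℝ) * Real.log n ≤ m := Nat.le_ceil _
  have hm2 : (m : ℝ) < (a : ℝ) * Real.log n + 1 := Nat.ceil_lt_add_one (by positivity)
  refine ⟨m + 2, ?_, ?_⟩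
  · have h1 : (n : ℝ) ^ a ≤ 3 ^ m := by
      calc (n : ℝ) ^ a = Real.exp ((a : ℝ) * Real.log n) := by
            rw [Real.exp_nat_mul, Real.exp_log hn0]
        _ ≤ Real.exp m := Real.exp_le_exp.2 hm1
        _ = Real.exp 1 ^ m := by rw [← Real.exp_nat_mul, mul_one]
        _ ≤ 3 ^ m := pow_le_pow_left₀ (Real.exp_pos 1).le he3 m
    have h2 : n ^ a ≤ 3 ^ m := by exact_mod_cast h1
    exact lt_of_le_of_lt h2 (GA3_fact m)
  · push_cast
    nlinarith

end H773Y
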