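import Pool.Agent.H773R2.UG.Defs

/-! GRB: the averaging bound for greedy orders. -/

set_option linter.unusedVariables false

namespace H773Y

open Finset Pool.Agent.Results.MP_9dddc4_co.UkExponent H773X

theorem GRB_mono {r : ℕ} {D : Finset (Fin r) → ℝ} (hD : SupM D) (A : Finset (Fin r))
    (C : Finset (Fin r)) : D A ≤ D (A ∪ C) := by
  induction C using Finset.induction_on with
  | empty => rw [Finset.union_empty]
  | insert c C _ ih =>
    rw [Finset.union_insert]
    exact ih.trans (hD.2.1 _ _)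

theorem GRB_mg {r : ℕ} {D : Finset (Fin r) → ℝ} (hD : SupM D) (z : Fin r) (A : Finset (Fin r))
    (C : Finset (Fin r)) (hz : z ∉ A ∪ C) : mg D z A ≤ mg D z (A ∪ C) := by
  induction C using Finset.induction_on with
  | empty => rw [Finset.union_empty]
  | insert c C _ ih =>
    rw [Finset.union_insert] at hz ⊢
    have hz1 : z ∉ A ∪ C := fun h => hz (Finset.mem_insert_of_mem h)
    have hzc : z ≠ c := fun h => hz (h ▸ Finset.mem_insert_self _ _)
    refine (ih hz1).trans ?_
    by_cases hc : c ∈ A ∪ C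
    · rw [Finset.insert_eq_of_mem hc]
    · have h := hD.2.2 (A ∪ C) z c hz1 hc hzc
      unfold mg
      linarith

theorem GRB_mg' {r : ℕ} {D : Finset (Fin r) → ℝ} (hD : SupM D) (z : Fin r)
    {A B : Finset (Fin r)} (hAB : A ⊆ B) (hz : z ∉ B) : mg D z A ≤ mg D z B := by
  have h := GRB_mg hD z A B (by rwa [Finset.union_eq_right.2 hAB])
  rwa [Finset.union_eq_right.2 hAB] at h

theorem GRB_pre {r : ℕ} (a : Fin r → Fin r) (i : Fin r) :
    pre a ((i : ℕ) + 1) = insert (a i) (pre a (i : ℕ)) := by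
  unfold pre
  rw [← Finset.image_insert]
  congr 1
  ext k
  simp only [Finset.mem_filter, Finset.mem_univ, true_and, Finset.mem_insert, Fin.ext_iff]
  omega

theorem GRB_pre_mono {r : ℕ} (a : Fin r → Fin r) {p q : ℕ} (h : p ≤ q) : pre a p ⊆ pre a q := by
  unfold pre
  apply Finset.image_subset_image
  intro k hk
  simp only [Finset.mem_filter, Finset.mem_univ, true_and] at hk ⊢
  omega

theorem GRB_notMem {r : ℕ} {a : Fin r → Fin r} (ha : Function.Injective a) {i : ℕ} {j : Fin r}
    (h : i ≤ (j : ℕ)) : a j ∉ pre a i := by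
  unfold pre
  intro hm
  obtain ⟨k, hk, hkj⟩ := Finset.mem_image.1 hm
  have := ha hkj
  subst this
  simp only [Finset.mem_filter, Finset.mem_univ, true_and] at hk
  omega

theorem GRB_step {r : ℕ} {D : Finset (Fin r) → ℝ} {a : Fin r → Fin r} {x : Fin r} (hD : SupM D)
    (hG : Grd D a x) (p j : Fin r) (hx : 1 ≤ (p : ℕ) ∨ ∀ y, D {y} ≤ D {x}) (m : ℕ) :
    (p : ℕ) + m ≤ (j : ℕ) + 1 →
      (m : ℝ) * mg D (a j) (pre a p) ≤ D (pre a ((p : ℕ) + m)) - D (pre a p) := by
  induction m with
  | zero => intro _; simp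
  | succ m ih =>
    intro h
    have h1 := ih (by omega)
    have hlt : (p : ℕ) + m < r := by omega
    let i : Fin r := ⟨(p : ℕ) + m, hlt⟩
    have hi : (i : ℕ) = (p : ℕ) + m := rfl
    have h2 : mg D (a j) (pre a i) ≤ mg D (a i) (pre a i) := by
      apply hG.2.2 i j
      · rw [Fin.le_def, hi]
        omega
      · rcases hx with hx | hx
        · left
          rw [hi]
          omega
        · exact Or.inr hx
    have h3 : mg D (a j) (pre a p) ≤ mg D (a j) (pre a i) :=
      GRB_mg' hD _ (GRB_pre_mono a (by rw [hi]; omega))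
        (GRB_notMem hG.1.1 (by rw [hi]; omega))
    have h4 : D (pre a ((p : ℕ) + (m + 1))) = mg D (a i) (pre a i) + D (pre a ((p : ℕ) + m)) := by
      have h5 := GRB_pre a i
      rw [hi] at h5
      rw [← add_assoc, h5]
      unfold mg
      rw [hi]
      ring
    rw [h4]
    push_cast
    linarith

theorem GRB : S_GRB := by
  intro r D a x hD hG p j hpj hx
  have hpj' : (p : ℕ) ≤ (j : ℕ) := hpj
  have h := GRB_step hD hG p j hx ((j : ℕ) - (p : ℕ) + 1) (by omega)
  have h1 : D (pre a ((p : ℕ) + ((j : ℕ) - (p : ℕ) + 1))) ≤ D univ := by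
    have h2 := GRB_mono hD (pre a ((p : ℕ) + ((j : ℕ) - (p : ℕ) + 1))) univ
    rwa [Finset.union_eq_right.2 (Finset.subset_univ _)] at h2
  push_cast [Nat.cast_sub hpj'] at h
  linarith

end H773Y
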