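import Pool.Agent.H773R2.UG.Defs4
import Pool.Agent.H773R2.UG.GRB

/-! GBM: the averaging bound for orders which are greedy from position `m` on. -/

set_option linter.unusedVariables false

namespace H773Y

open Finset Pool.Agent.Results.MP_9dddc4_co.UkExponent H773X

theorem GBM_step {r : ℕ} {D : Finset (Fin r) → ℝ} {a : Fin r → Fin r} {m0 : ℕ} (hD : SupM D)
    (hG : Grm D a m0) (p j : Fin r) (hx : m0 ≤ (p : ℕ)) (m : ℕ) :
    (p : ℕ) + m ≤ (j : ℕ) + 1 →
      (m : ℝ) * mg D (a j) (pre a p) ≤ D (pre a ((p : ℕ) + m)) - D (pre a p) := by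
  induction m with
  | zero => intro _; simp
  | succ m ih =>
    intro h
    have h1 := ih (by omega)
    have hlt : (p : ℕ) + m < r := by omega
    let i : Fin r := ⟨(p : ℕ) + m, hlt⟩
    have hi : (i : ℕ) = (p : ℕ) + m := rfl
    have h2 : mg D (a j) (pre a i) ≤ mg D (a i) (pre a i) := by
      apply hG.2 i j
      · rw [hi]
        omega
      · rw [Fin.le_def, hi]
        omega
    have h3 : mg D (a j) (pre a p) ≤ mg D (a j) (pre a i) :=
      GRB_mg' hD _ (GRB_pre_mono a (by rw [hi]; omega))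
        (GRB_notMem hG.1.1 (by rw [hi]; omega))
    have h4 : D (pre a ((p : ℕ) + (m + 1))) = mg D (a i) (pre a i) + D (pre a ((p : ℕ) + m)) := by
      have h5 := GRB_pre a i
      rw [hi] at h5
      rw [← add_assoc, h5]
      unfold mg
      rw [hi]
      ring
    rw [h4]
    push_cast
    linarith

theorem GBM : S_GBM := by
  intro r m D a hD hG p j hx hpj
  have hpj' : (p : ℕ) ≤ (j : ℕ) := hpj
  have h := GBM_step hD hG p j hx ((j : ℕ) - (p : ℕ) + 1) (by omega)
  have h1 : D (pre a ((p : ℕ) + ((j : ℕ) - (p : ℕ) + 1))) ≤ D univ := by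
    have h2 := GRB_mono hD (pre a ((p : ℕ) + ((j : ℕ) - (p : ℕ) + 1))) univ
    rwa [Finset.union_eq_right.2 (Finset.subset_univ _)] at h2
  push_cast [Nat.cast_sub hpj'] at h
  linarith

end H773Y
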