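import Pool.Agent.H773R2.UG.Defs5

namespace H773Y

open Finset Pool.Agent.Results.MP_9dddc4_co.UkExponent H773X

theorem GLB_real (c C L E T P U lam : ℝ) (hC : 0 < C) (hL : 0 < L) (hT : 0 < T) (hU : 0 ≤ U)
    (hlam0 : 0 ≤ lam) (hlam : lam ≤ C * L) (h1 : c * E / L * T ≤ P)
    (h2 : P ≤ U * (lam * lam * T)) : c / C ^ 2 * E / L ^ 3 ≤ U := by
  have h3 : lam * lam ≤ (C * L) * (C * L) := mul_le_mul hlam hlam hlam0 (by positivity)
  have h4 : c * E / L * T ≤ U * ((C * L) * (C * L)) * T := by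
    calc c * E / L * T ≤ U * (lam * lam * T) := h1.trans h2
      _ = U * (lam * lam) * T := by ring
      _ ≤ U * ((C * L) * (C * L)) * T :=
        mul_le_mul_of_nonneg_right (mul_le_mul_of_nonneg_left h3 hU) hT.le
  have h5 : c * E / L ≤ U * ((C * L) * (C * L)) := le_of_mul_le_mul_right h4 hT
  have h6 : c / C ^ 2 * E / L ^ 3 = (c * E / L) / (C ^ 2 * L ^ 2) := by
    field_simp
  rw [h6, div_le_iff₀ (by positivity)]
  calc c * E / L ≤ U * ((C * L) * (C * L)) := h5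
    _ = U * (C ^ 2 * L ^ 2) := by ring

theorem GLB (h1 : S_PKR) (h2 : S_GLC) (h3 : S_GA1) (h4 : S_GA2) (h5 : S_GA3) : S_GLB := by
  intro r k a ha hk hr
  obtain ⟨l, rfl⟩ : ∃ l, k = l + 2 := ⟨k - 2, by omega⟩
  obtain ⟨c, hc, hev⟩ := h4 r l a ha hr
  obtain ⟨C, hC, hlam⟩ := h5 a
  have har : a < r := by nlinarith
  refine ⟨c / C ^ 2, by positivity, ?_⟩
  filter_upwards [hev, Filter.eventually_ge_atTop 3] with n hn hn3
  obtain ⟨m, p, T, hp, hrm, hrn, hmp, hT, i1, i2, i3, hb⟩ := hn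
  obtain ⟨lam, hl1, hl2⟩ := hlam n hn3
  obtain ⟨B, hB1, hB2⟩ := h1 n a m p lam ha (by omega) hp hmp hl1
  obtain ⟨j1, j2⟩ := h3 r a n m p T l ha har hrm hrn hp hmp hT i1 i2 i3
  have hG := h2 r a n m T l lam (p ^ a) B ha har.le hrm (by omega) hT hB1 hB2 j1 j2
  have hG' : ((p ^ a * m.choose r : ℕ) : ℝ) ≤ (U (l + 2) n r : ℝ) * ((lam : ℝ) * lam * T) := by
    exact_mod_cast hG
  have hn1 : (1 : ℝ) < n := by exact_mod_cast (show 1 < n by omega)
  exact GLB_real c C (Real.log n) ((n : ℝ) ^ (ea r (l + 2) a)) T _ _ lam hC (Real.log_pos hn1)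
    (by exact_mod_cast hT) (Nat.cast_nonneg _) (Nat.cast_nonneg _) hl2 hb hG'

end H773Y
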