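import Pool.Agent.H773R2.UG.Defs5

/-! Task GLC: the combinatorial lower bound with a kernel of size `a`. -/

set_option linter.unusedVariables false

namespace H773Y

open Finset Pool.Agent.Results.MP_9dddc4_co.UkExponent H773X

/-- pull back of a set contained in the range of an injective map -/
theorem GLC_pull {m n : ℕ} (ι : Fin m → Fin n) (S : Finset (Fin n))
    (hS : ∀ y ∈ S, ∃ x, ι x = y) : (univ.filter (fun x => ι x ∈ S)).image ι = S := by
  ext y
  rw [mem_image]
  constructor
  · rintro ⟨x, hx, rfl⟩
    exact (mem_filter.1 hx).2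
  · intro hy
    obtain ⟨x, rfl⟩ := hS y hy
    exact ⟨x, mem_filter.2 ⟨mem_univ _, hy⟩, rfl⟩

/-- double counting -/
theorem GLC_double {r a n m lam q : ℕ} (B : Fin q → Finset (Fin n)) (har : a ≤ r)
    (hB : ∀ b, (B b).card = m)
    (hlam : ∀ Y : Finset (Fin n), Y.card = a → (univ.filter (fun b => Y ⊆ B b)).card ≤ lam) :
    q * m.choose r ≤ lam * (univ.biUnion (fun b => powersetCard r (B b))).card := by
  classical
  set H0 := univ.biUnion (fun b => powersetCard r (B b)) with hH0
  have h1 : ∑ b : Fin q, (powersetCard r (B b)).card = q * m.choose r := by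
    rw [sum_congr rfl (fun b _ => by rw [card_powersetCard, hB b]), sum_const, card_univ,
      Fintype.card_fin, smul_eq_mul]
  have h2 : ∀ b : Fin q, (powersetCard r (B b)).card =
      ∑ f ∈ H0, if f ⊆ B b then 1 else 0 := by
    intro b
    rw [← card_filter]
    congr 1
    ext f
    rw [mem_filter, mem_powersetCard]
    constructor
    · rintro ⟨h3, h4⟩
      exact ⟨mem_biUnion.2 ⟨b, mem_univ _, mem_powersetCard.2 ⟨h3, h4⟩⟩, h3⟩
    · rintro ⟨h3, h4⟩
      obtain ⟨b', _, hb'⟩ := mem_biUnion.1 h3
      exact ⟨h4, (mem_powersetCard.1 hb').2⟩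
  rw [← h1, sum_congr rfl (fun b _ => h2 b), sum_comm]
  have h5 : ∀ f ∈ H0, (∑ b : Fin q, if f ⊆ B b then 1 else 0) ≤ lam := by
    intro f hf
    obtain ⟨b', _, hb'⟩ := mem_biUnion.1 hf
    have hfc := (mem_powersetCard.1 hb').2
    obtain ⟨Y, hYf, hYc⟩ := exists_subset_card_eq (show a ≤ f.card by omega)
    rw [← card_filter]
    refine le_trans (card_le_card ?_) (hlam Y hYc)
    intro b hb
    rw [mem_filter] at hb ⊢
    exact ⟨hb.1, hYf.trans hb.2⟩
  calc ∑ f ∈ H0, (∑ b : Fin q, if f ⊆ B b then 1 else 0) ≤ ∑ f ∈ H0, lam := sum_le_sum h5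
    _ = lam * H0.card := by rw [sum_const, smul_eq_mul, mul_comm]

theorem GLC (h : S_GLU) : S_GLC := by
  classical
  intro r a n m T l lam q B ha1 har hrm han hT hB hlam hqe hineq
  set H0 : ES n := univ.biUnion (fun b => powersetCard r (B b)) with hH0
  set e := H0.card with he
  have he2 : q * m.choose r ≤ lam * e := GLC_double B har hB hlam
  have he1 : e ≤ q * m.choose r := by
    refine le_trans card_biUnion_le ?_
    rw [sum_congr rfl (fun b _ => by rw [card_powersetCard, hB b]), sum_const, card_univ,
      Fintype.card_fin, smul_eq_mul]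
  obtain ⟨X, _, hX⟩ := exists_subset_card_eq (s := (univ : Finset (Fin n))) (n := a)
    (by rw [card_univ, Fintype.card_fin]; exact han)
  obtain ⟨G, hG1, hGe, hGX, hGbad⟩ := h r a n m T l e X har hrm hT hX (he1.trans hqe) (by
    refine lt_of_le_of_lt (Nat.mul_le_mul_left _ ?_) hineq
    exact Nat.pow_le_pow_left (Nat.pow_le_pow_left he1 T) (l + 1))
  have key : e ≤ U (l + 2) n r * (lam * T) := by
    refine le_U_mul (Fin.cons H0 G) ?_ e (lam * T) (Nat.succ_pos _) ?_ ?_
    · intro i
      induction i using Fin.cases with
      | zero =>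
        simp only [Fin.cons_zero]
        intro f hf
        obtain ⟨b, _, hb⟩ := mem_biUnion.1 hf
        exact (mem_powersetCard.1 hb).2
      | succ i => simp only [Fin.cons_succ]; exact hG1 i
    · intro i
      induction i using Fin.cases with
      | zero => simp only [Fin.cons_zero]; exact he.symm
      | succ i => simp only [Fin.cons_succ]; exact hGe i
    · intro s hs
      by_contra hcon
      push Not at hcon
      obtain ⟨F0, σ, hF0, hσ⟩ := hs
      have hz0 : img (σ 0) F0 ⊆ H0 := by
        have := hσ 0
        simpa only [Fin.cons_zero] using this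
      have hzs : ∀ i : Fin (l + 1), img (σ i.succ) F0 ⊆ G i := by
        intro i
        have := hσ i.succ
        simpa only [Fin.cons_succ] using this
      -- the kernel
      set Y : Finset (Fin n) := X.image (fun x => σ 0 ((σ (Fin.succ 0)).symm x)) with hY
      have hYc : Y.card = a := by
        rw [hY, card_image_of_injective, hX]
        intro x y hxy
        exact (σ (Fin.succ 0)).symm.injective ((σ 0).injective hxy)
      have hYf : ∀ f ∈ F0, Y ⊆ f.image (σ 0) := by
        intro f hf y hy
        rw [hY, mem_image] at hy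
        obtain ⟨x, hx, rfl⟩ := hy
        have h3 : f.image (σ (Fin.succ 0)) ∈ G 0 := hzs 0 (mem_image_of_mem _ hf)
        obtain ⟨z, hz, rfl⟩ := mem_image.1 (hGX _ h3 hx)
        rw [Equiv.symm_apply_apply]
        exact mem_image_of_mem _ hz
      have hblock : ∀ f, f ∈ F0 → ∃ b, f.image (σ 0) ⊆ B b := by
        intro f hf
        obtain ⟨b, _, hb⟩ := mem_biUnion.1 (hz0 (mem_image_of_mem _ hf))
        exact ⟨b, (mem_powersetCard.1 hb).1⟩
      have hq0 : 0 < q := by
        have : 0 < F0.card := by omega
        obtain ⟨f, hf⟩ := card_pos.1 this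
        obtain ⟨b, _⟩ := hblock f hf
        exact lt_of_le_of_lt (Nat.zero_le _) b.2
      set bf : Finset (Fin n) → Fin q := fun f =>
        if hf : f ∈ F0 then Classical.choose (hblock f hf) else ⟨0, hq0⟩ with hbf
      have hbf1 : ∀ f ∈ F0, f.image (σ 0) ⊆ B (bf f) := by
        intro f hf
        simp only [hbf, dif_pos hf]
        exact Classical.choose_spec (hblock f hf)
      obtain ⟨b, hb, hbT⟩ := exists_lt_card_fiber_of_mul_lt_card_of_maps_to (s := F0)
        (t := univ.filter (fun b => Y ⊆ B b)) (f := bf) (n := T)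
        (fun f hf => mem_filter.2 ⟨mem_univ _, (hYf f hf).trans (hbf1 f hf)⟩) (by
          have := Nat.mul_le_mul_right T (hlam Y hYc)
          omega)
      obtain ⟨F1, hF1, hF1c⟩ := exists_subset_card_eq (le_of_lt hbT)
      have hF1F : F1 ⊆ F0 := hF1.trans (filter_subset _ _)
      have hF1B : ∀ f ∈ F1, f.image (σ 0) ⊆ B b := by
        intro f hf
        have h3 := mem_filter.1 (hF1 hf)
        rw [← h3.2]
        exact hbf1 f h3.1
      have hYB : Y ⊆ B b := (mem_filter.1 hb).2
      -- the embedding of the block
      set ι : Fin m → Fin n := ⇑((B b).orderEmbOfFin (hB b)) with hι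
      have hιinj : Function.Injective ι := ((B b).orderEmbOfFin (hB b)).injective
      have hιr : ∀ y ∈ B b, ∃ x, ι x = y := by
        intro y hy
        have h3 : y ∈ Set.range ι := by
          rw [hι, Finset.range_orderEmbOfFin]
          exact hy
        exact h3
      have hF1r : ∀ f ∈ F1, (f.image (σ 0)).card = r := by
        intro f hf
        obtain ⟨b', _, hb'⟩ := mem_biUnion.1 (hz0 (mem_image_of_mem _ (hF1F hf)))
        exact (mem_powersetCard.1 hb').2
      set F := (powersetCard r (univ : Finset (Fin m))).filter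
        (fun f => f.image ι ∈ img (σ 0) F1) with hF
      have hFimg : img ι F = img (σ 0) F1 := by
        ext f
        constructor
        · intro hf
          obtain ⟨g, hg, rfl⟩ := mem_image.1 hf
          exact (mem_filter.1 hg).2
        · intro hf
          obtain ⟨f', hf', hff'⟩ := mem_image.1 hf
          have hff : f'.image (σ 0) = f := hff'
          have h3 : (univ.filter (fun x => ι x ∈ f)).image ι = f := by
            apply GLC_pull
            intro y hy
            apply hιr
            rw [← hff] at hy
            exact hF1B f' hf' hy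
          refine mem_image.2 ⟨univ.filter (fun x => ι x ∈ f), ?_, h3⟩
          rw [hF, mem_filter, mem_powersetCard]
          refine ⟨⟨subset_univ _, ?_⟩, ?_⟩
          · rw [← card_image_of_injective _ hιinj, h3, ← hff]
            exact hF1r f' hf'
          · rw [h3]; exact hf
      set x0 : Finset (Fin m) := univ.filter (fun x => ι x ∈ Y) with hx0
      have hx0i : x0.image ι = Y := GLC_pull ι Y (fun y hy => hιr y (hYB hy))
      have hx0c : x0.card = a := by
        rw [← card_image_of_injective _ hιinj, hx0i, hYc]
      have hFx : ∀ f ∈ F, x0 ⊆ f ∧ f.card = r := by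
        intro f hf
        rw [hF, mem_filter, mem_powersetCard] at hf
        refine ⟨?_, hf.1.2⟩
        intro x hx
        obtain ⟨f', hf', hff'⟩ := mem_image.1 hf.2
        have hff : f'.image (σ 0) = f.image ι := hff'
        have h3 : ι x ∈ f.image ι := by
          rw [← hff]
          exact hYf f' (hF1F hf') (mem_filter.1 hx).2
        obtain ⟨z, hz, hzx⟩ := mem_image.1 h3
        rwa [← hιinj hzx]
      have hFc : F.card = T := by
        rw [← img_card_inj hιinj, hFimg, img_card_inj (σ 0).injective, hF1c]
      have hD : ∀ i : Fin (l + 1), img (fun x => σ i.succ ((σ 0).symm (ι x))) F =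
          img (σ i.succ) F1 := by
        intro i
        have e1 : (fun x => σ i.succ ((σ 0).symm (ι x)))
            = (fun y => σ i.succ ((σ 0).symm y)) ∘ ι := rfl
        rw [e1, ← img_img, hFimg, img_img]
        congr 1
        funext x
        simp
      obtain ⟨i, hi⟩ := hGbad x0 F (fun i x => σ i.succ ((σ 0).symm (ι x))) hx0c hFx hFc
        (fun i => by
          show (img (fun x => σ i.succ ((σ 0).symm (ι x))) F).card = T
          rw [hD i, img_card_inj (σ _).injective, hF1c])
      apply hi
      show img (fun x => σ i.succ ((σ 0).symm (ι x))) F ⊆ G i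
      rw [hD i]
      exact subset_trans (img_subset_img _ hF1F) (hzs i)
  calc q * m.choose r ≤ lam * e := he2
    _ ≤ lam * (U (l + 2) n r * (lam * T)) := Nat.mul_le_mul_left _ key
    _ = U (l + 2) n r * (lam * lam * T) := by ring

end H773Y
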