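import Pool.Agent.H773R2.UG.Defs

/-! Task LCS: disjoint cliques against a star and random `r`-graphs. -/

set_option linter.unusedVariables false

namespace H773Y

open Finset Pool.Agent.Results.MP_9dddc4_co.UkExponent

theorem LCS_union {α : Type*} [DecidableEq α] {l : ℕ} (Ω : Fin l → Finset α) (e T : ℕ)
    (heN : ∀ i, e ≤ (Ω i).card) (J : Finset (Fin l → Finset α))
    (hJ : ∀ D ∈ J, ∀ i, D i ⊆ Ω i ∧ (D i).card = T)
    (hlt : J.card * (e ^ T) ^ l < ∏ i, (Ω i).card ^ T) :
    ∃ G : Fin l → Finset α, (∀ i, G i ⊆ Ω i ∧ (G i).card = e) ∧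
      ∀ D ∈ J, ∃ i, ¬ D i ⊆ G i := by
  classical
  set S := Fintype.piFinset (fun i : Fin l => Finset.powersetCard e (Ω i)) with hS
  have hSc : S.card = ∏ i, (Ω i).card.choose e := by
    rw [hS, Fintype.card_piFinset]
    simp
  set P := ∏ i, (Ω i).card ^ T with hP
  set Bad := J.biUnion (fun D => Fintype.piFinset
    (fun i => (Finset.powersetCard e (Ω i)).filter (fun G => D i ⊆ G))) with hBad
  have hbadc : Bad.card * P ≤ J.card * (S.card * (e ^ T) ^ l) := by
    calc Bad.card * P
        ≤ (∑ D ∈ J, (Fintype.piFinset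
            (fun i => (Finset.powersetCard e (Ω i)).filter (fun G => D i ⊆ G))).card)
            * P := Nat.mul_le_mul_right _ Finset.card_biUnion_le
      _ = ∑ D ∈ J, (Fintype.piFinset
            (fun i => (Finset.powersetCard e (Ω i)).filter (fun G => D i ⊆ G))).card
            * P := by rw [Finset.sum_mul]
      _ ≤ ∑ D ∈ J, (S.card * (e ^ T) ^ l) := by
          apply Finset.sum_le_sum
          intro D hD
          rw [Fintype.card_piFinset, hSc, hP]
          have h2 : (∏ i, (Ω i).card.choose e) * (e ^ T) ^ l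
              = ∏ i : Fin l, ((Ω i).card.choose e * e ^ T) := by
            rw [Finset.prod_mul_distrib, Finset.prod_const, Finset.card_univ, Fintype.card_fin]
          rw [h2, ← Finset.prod_mul_distrib]
          apply Finset.prod_le_prod
          · intro i _; exact Nat.zero_le _
          · intro i _
            have h3 := count_superset (Ω i) (D i) e (heN i) (hJ D hD i).1
            rw [(hJ D hD i).2] at h3
            exact h3
      _ = J.card * (S.card * (e ^ T) ^ l) := by
          rw [Finset.sum_const, smul_eq_mul]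
  have hpos : 0 < S.card := by
    rw [hSc]
    exact Finset.prod_pos fun i _ => Nat.choose_pos (heN i)
  have hlt2 : Bad.card * P < S.card * P := by
    calc Bad.card * P ≤ J.card * (S.card * (e ^ T) ^ l) := hbadc
      _ = S.card * (J.card * (e ^ T) ^ l) := by ring
      _ < S.card * P := Nat.mul_lt_mul_of_pos_left hlt hpos
  have hlt3 : Bad.card < S.card := lt_of_mul_lt_mul_right hlt2 (Nat.zero_le _)
  obtain ⟨G, hG1, hG2⟩ := Finset.exists_mem_notMem_of_card_lt_card hlt3
  rw [hS, Fintype.mem_piFinset] at hG1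
  refine ⟨G, fun i => Finset.mem_powersetCard.1 (hG1 i), ?_⟩
  intro D hD
  by_contra hcon
  push Not at hcon
  apply hG2
  rw [hBad, Finset.mem_biUnion]
  refine ⟨D, hD, ?_⟩
  rw [Fintype.mem_piFinset]
  intro i
  rw [Finset.mem_filter]
  exact ⟨hG1 i, hcon i⟩

theorem LCS_desc {m n : ℕ} (hmn : m ≤ n) (r : ℕ) :
    m.descFactorial r * n ^ r ≤ n.descFactorial r * m ^ r := by
  induction r with
  | zero => simp
  | succ r ih =>
    rw [Nat.descFactorial_succ, Nat.descFactorial_succ, pow_succ, pow_succ]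
    have e1 : (m - r) * n ≤ (n - r) * m := by
      rw [Nat.sub_mul, Nat.sub_mul, mul_comm n m]
      exact Nat.sub_le_sub_left (Nat.mul_le_mul_left _ hmn) _
    calc (m - r) * m.descFactorial r * (n ^ r * n) = ((m - r) * n) * (m.descFactorial r * n ^ r) := by
          ring
      _ ≤ ((n - r) * m) * (n.descFactorial r * m ^ r) := Nat.mul_le_mul e1 ih
      _ = (n - r) * n.descFactorial r * (m ^ r * m) := by ring

theorem LCS_ratio {m n : ℕ} (hmn : m ≤ n) (r : ℕ) :
    m.choose r * n ^ r ≤ n.choose r * m ^ r := by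
  have h1 := LCS_desc hmn r
  rw [Nat.descFactorial_eq_factorial_mul_choose, Nat.descFactorial_eq_factorial_mul_choose,
    mul_assoc, mul_assoc] at h1
  exact Nat.le_of_mul_le_mul_left h1 (Nat.factorial_pos r)

theorem LCS_absorb {n r : ℕ} (hn : 1 ≤ n) (hr : 1 ≤ r) :
    r * n.choose r = n * (n - 1).choose (r - 1) := by
  obtain ⟨n, rfl⟩ := Nat.exists_eq_add_of_le hn
  obtain ⟨r, rfl⟩ := Nat.exists_eq_add_of_le hr
  have h := Nat.add_one_mul_choose_eq n r
  rw [Nat.add_sub_cancel_left, Nat.add_sub_cancel_left, Nat.add_comm 1 n, Nat.add_comm 1 r]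
  linarith

theorem LCS_ratio' {m n r : ℕ} (hm : 1 ≤ m) (hmn : m ≤ n) (hr : 1 ≤ r) :
    (m - 1).choose (r - 1) * n ^ (r - 1) ≤ (n - 1).choose (r - 1) * m ^ (r - 1) := by
  have h1 := LCS_ratio hmn r
  have h2 := LCS_absorb hm hr
  have h3 := LCS_absorb (hm.trans hmn) hr
  have h4 : (m * n) * ((m - 1).choose (r - 1) * n ^ (r - 1)) ≤
      (m * n) * ((n - 1).choose (r - 1) * m ^ (r - 1)) := by
    have e1 : n ^ r = n * n ^ (r - 1) := by
      rw [← pow_succ', Nat.sub_add_cancel hr]
    have e2 : m ^ r = m * m ^ (r - 1) := by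
      rw [← pow_succ', Nat.sub_add_cancel hr]
    calc (m * n) * ((m - 1).choose (r - 1) * n ^ (r - 1)) =
          (m * (m - 1).choose (r - 1)) * (n * n ^ (r - 1)) := by ring
      _ = r * (m.choose r * n ^ r) := by rw [← h2, ← e1]; ring
      _ ≤ r * (n.choose r * m ^ r) := Nat.mul_le_mul_left _ h1
      _ = (r * n.choose r) * (m * m ^ (r - 1)) := by rw [← e2]; ring
      _ = (m * n) * ((n - 1).choose (r - 1) * m ^ (r - 1)) := by rw [h3]; ring
  exact Nat.le_of_mul_le_mul_left h4 (Nat.mul_pos hm (hm.trans hmn))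

theorem LCS_six {m r : ℕ} (hr : 3 ≤ r) : 6 * (m - 1).choose (r - 1) ≤ r * m ^ (r - 1) := by
  have h1 : 6 ≤ r.factorial := Nat.factorial_le hr
  have h2 : r.factorial = r * (r - 1).factorial := (Nat.mul_factorial_pred (by omega)).symm
  calc 6 * (m - 1).choose (r - 1) ≤ r.factorial * (m - 1).choose (r - 1) :=
        Nat.mul_le_mul_right _ h1
    _ = r * ((r - 1).factorial * (m - 1).choose (r - 1)) := by rw [h2]; ring
    _ = r * (m - 1).descFactorial (r - 1) := by
        rw [Nat.descFactorial_eq_factorial_mul_choose]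
    _ ≤ r * (m - 1) ^ (r - 1) := Nat.mul_le_mul_left _ (Nat.descFactorial_le_pow _ _)
    _ ≤ r * m ^ (r - 1) := Nat.mul_le_mul_left _ (Nat.pow_le_pow_left (Nat.sub_le _ _) _)

/-- the number of edges is at most the size of the star -/
theorem LCS_e_le {r n m q : ℕ} (hr : 3 ≤ r) (hm : 1 ≤ m) (hmn : m ≤ n) (hq : q * m ≤ n)
    (h : m ^ (r - 1) ≤ n ^ (r - 2)) : q * m.choose r ≤ (n - 1).choose (r - 1) := by
  have hn : 1 ≤ n := hm.trans hmn
  have h1 := LCS_absorb hm (by omega : 1 ≤ r)
  have h2 := LCS_ratio' hm hmn (by omega : 1 ≤ r)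
  have h3 : n ^ (r - 1) = n * n ^ (r - 2) := by
    rw [← pow_succ']; congr 1; omega
  have h4 : (r * n ^ (r - 2)) * (q * m.choose r) ≤ (r * n ^ (r - 2)) * (n - 1).choose (r - 1) := by
    calc (r * n ^ (r - 2)) * (q * m.choose r) = q * (r * m.choose r) * n ^ (r - 2) := by ring
      _ = (q * m) * ((m - 1).choose (r - 1)) * n ^ (r - 2) := by rw [h1]; ring
      _ ≤ n * ((m - 1).choose (r - 1)) * n ^ (r - 2) := by gcongr
      _ = (m - 1).choose (r - 1) * n ^ (r - 1) := by rw [h3]; ring
      _ ≤ (n - 1).choose (r - 1) * m ^ (r - 1) := h2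
      _ ≤ (n - 1).choose (r - 1) * n ^ (r - 2) := Nat.mul_le_mul_left _ h
      _ ≤ r * ((n - 1).choose (r - 1) * n ^ (r - 2)) := Nat.le_mul_of_pos_left _ (by omega)
      _ = (r * n ^ (r - 2)) * (n - 1).choose (r - 1) := by ring
  exact Nat.le_of_mul_le_mul_left h4 (Nat.mul_pos (by omega) (Nat.pow_pos hn))

/-- the main inequality of sizes -/
theorem LCS_main {r n m q T l : ℕ} (hr : 3 ≤ r) (hm : 1 ≤ m) (hmn : m ≤ n) (hq : q * m ≤ n)
    (h : m ^ ((r - 1) * (l + 1 + 1)) * n ≤ T * n ^ ((r - 1) * (l + 1))) :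
    (6 * (m - 1).choose (r - 1) : ℝ) * ((q * m.choose r : ℕ) : ℝ) ^ (l + 1) ≤
      T * ((n - 1).choose (r - 1) : ℝ) * ((n.choose r : ℕ) : ℝ) ^ l := by
  have hn : 1 ≤ n := hm.trans hmn
  have hnr : (0 : ℝ) < n := by exact_mod_cast hn
  have hrr : (0 : ℝ) < r := by
    have : 0 < r := by omega
    exact_mod_cast this
  have h1 : (r : ℝ) * ((m.choose r : ℕ) : ℝ) = m * (((m - 1).choose (r - 1) : ℕ) : ℝ) := by
    exact_mod_cast LCS_absorb hm (by omega : 1 ≤ r)
  have h2 : (r : ℝ) * ((n.choose r : ℕ) : ℝ) = n * (((n - 1).choose (r - 1) : ℕ) : ℝ) := by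
    exact_mod_cast LCS_absorb hn (by omega : 1 ≤ r)
  have h3 : (((m - 1).choose (r - 1) : ℕ) : ℝ) * (n : ℝ) ^ (r - 1) ≤
      (((n - 1).choose (r - 1) : ℕ) : ℝ) * (m : ℝ) ^ (r - 1) := by
    exact_mod_cast LCS_ratio' hm hmn (by omega : 1 ≤ r)
  have h4 : 6 * (((m - 1).choose (r - 1) : ℕ) : ℝ) ≤ r * (m : ℝ) ^ (r - 1) := by
    exact_mod_cast LCS_six (m := m) hr
  have ha0 : (0 : ℝ) ≤ (((m - 1).choose (r - 1) : ℕ) : ℝ) := Nat.cast_nonneg _
  have hR0 : (0 : ℝ) ≤ (((n - 1).choose (r - 1) : ℕ) : ℝ) := Nat.cast_nonneg _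
  generalize (((m - 1).choose (r - 1) : ℕ) : ℝ) = a at *
  generalize (((n - 1).choose (r - 1) : ℕ) : ℝ) = R' at *
  have h5 : (m : ℝ) ^ ((r - 1) * (l + 1 + 1)) * n ≤ T * (n : ℝ) ^ ((r - 1) * (l + 1)) := by
    exact_mod_cast h
  have hqm : (q : ℝ) * m ≤ n := by exact_mod_cast hq
  have he : ((q * m.choose r : ℕ) : ℝ) ≤ n * a / r := by
    push_cast
    rw [le_div_iff₀ hrr]
    calc (q : ℝ) * (m.choose r : ℝ) * r = q * (r * (m.choose r : ℝ)) := by ring
      _ = (q * m) * a := by rw [h1]; ring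
      _ ≤ n * a := by gcongr
  have hR : ((n.choose r : ℕ) : ℝ) = n * R' / r := by
    rw [eq_div_iff hrr.ne', mul_comm]
    exact h2
  -- (6 a n / r) a^(l+1) ≤ T R'^(l+1)
  have h6 : 6 * a * n / r * a ^ (l + 1) ≤ T * R' ^ (l + 1) := by
    have hp : (0 : ℝ) < (n : ℝ) ^ ((r - 1) * (l + 1)) := by positivity
    rw [← mul_le_mul_iff_left₀ hp]
    calc 6 * a * n / r * a ^ (l + 1) * (n : ℝ) ^ ((r - 1) * (l + 1))
        = (6 * a) / r * n * (a * (n : ℝ) ^ (r - 1)) ^ (l + 1) := by
          rw [mul_pow a, ← pow_mul]; ring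
      _ ≤ (r * (m : ℝ) ^ (r - 1)) / r * n * (R' * (m : ℝ) ^ (r - 1)) ^ (l + 1) := by
          gcongr
      _ = R' ^ (l + 1) * ((m : ℝ) ^ ((r - 1) * (l + 1 + 1)) * n) := by
          rw [mul_div_cancel_left₀ _ hrr.ne', mul_pow R', ← pow_mul, mul_add (r - 1) (l + 1) 1,
            pow_add, mul_one]
          ring
      _ ≤ R' ^ (l + 1) * (T * (n : ℝ) ^ ((r - 1) * (l + 1))) := by gcongr
      _ = T * R' ^ (l + 1) * (n : ℝ) ^ ((r - 1) * (l + 1)) := by ring
  calc 6 * a * ((q * m.choose r : ℕ) : ℝ) ^ (l + 1)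
      ≤ 6 * a * (n * a / r) ^ (l + 1) := by gcongr
    _ = (6 * a * n / r * a ^ (l + 1)) * (n / r) ^ l := by
        rw [pow_succ (n * a / r), div_pow, mul_pow, div_pow]
        ring
    _ ≤ (T * R' ^ (l + 1)) * (n / r) ^ l := by gcongr
    _ = T * R' * (n * R' / r) ^ l := by
        rw [div_pow, div_pow, mul_pow]
        ring
    _ = T * R' * ((n.choose r : ℕ) : ℝ) ^ l := by rw [hR]

theorem LCS_count {r n m q T l : ℕ} (hr : 3 ≤ r) (hrm : r ≤ m) (hq0 : 1 ≤ q) (hmn : m ≤ n)
    (hq : q * m ≤ n) (hT : 0 < T)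
    (h1 : m ^ ((r - 1) * (l + 1 + 1)) * n ≤ T * n ^ ((r - 1) * (l + 1)))
    (h2 : n ^ (m * (l + 1) + 1) < 2 ^ T) :
    (m * ((((m - 1).choose (r - 1)).choose T) * (n ^ m) ^ (l + 1))) *
      ((q * m.choose r) ^ T) ^ (l + 1) <
      ((n - 1).choose (r - 1)) ^ T * ((n.choose r) ^ T) ^ l := by
  have hm : 1 ≤ m := by omega
  have hn : 1 ≤ n := hm.trans hmn
  have hmain := LCS_main (q := q) (T := T) (l := l) hr hm hmn hq h1
  set a := (m - 1).choose (r - 1) with ha
  set R' := (n - 1).choose (r - 1) with hR'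
  set e := q * m.choose r with he
  set R := n.choose r with hR
  have ha0 : 0 < a := Nat.choose_pos (by omega)
  have he0 : 0 < e := Nat.mul_pos hq0 (Nat.choose_pos hrm)
  have key : ((m * (a.choose T * (n ^ m) ^ (l + 1))) * (e ^ T) ^ (l + 1) : ℝ) <
      (R' : ℝ) ^ T * ((R : ℝ) ^ T) ^ l := by
    have hTr : (0 : ℝ) < T := by exact_mod_cast hT
    have hnr : (0 : ℝ) < n := by exact_mod_cast hn
    have har : (0 : ℝ) < a := by exact_mod_cast ha0
    have her : (0 : ℝ) < e := by exact_mod_cast he0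
    have hmnr : (m : ℝ) ≤ n := by exact_mod_cast hmn
    have c1 := choose_le_three a T
    have c5 : (n : ℝ) ^ (m * (l + 1) + 1) < 2 ^ T := by exact_mod_cast h2
    have hTT : (0 : ℝ) < (T : ℝ) ^ T := by positivity
    rw [← mul_lt_mul_iff_left₀ hTT]
    calc ((m * (a.choose T * (n ^ m) ^ (l + 1))) * (e ^ T) ^ (l + 1) : ℝ) * (T : ℝ) ^ T
        = m * ((n : ℝ) ^ m) ^ (l + 1) * ((a.choose T : ℝ) * T ^ T) * ((e : ℝ) ^ T) ^ (l + 1) := by
          ring
      _ ≤ n * ((n : ℝ) ^ m) ^ (l + 1) * (3 * a) ^ T * ((e : ℝ) ^ T) ^ (l + 1) := by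
          gcongr
      _ = (n : ℝ) ^ (m * (l + 1) + 1) * ((3 * a) ^ T * ((e : ℝ) ^ T) ^ (l + 1)) := by
          rw [pow_succ (n : ℝ) (m * (l + 1)), pow_mul (n : ℝ)]
          ring
      _ < 2 ^ T * ((3 * a) ^ T * ((e : ℝ) ^ T) ^ (l + 1)) := by
          gcongr
      _ = (6 * a * (e : ℝ) ^ (l + 1)) ^ T := by
          rw [mul_pow (6 * (a : ℝ)), show (6 : ℝ) * a = 2 * (3 * a) by ring, mul_pow 2 (3 * (a : ℝ)),
            ← pow_mul, ← pow_mul, mul_comm T (l + 1)]
          ring
      _ ≤ (T * R' * (R : ℝ) ^ l) ^ T := by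
          gcongr
      _ = (R' : ℝ) ^ T * ((R : ℝ) ^ T) ^ l * T ^ T := by
          rw [mul_pow, mul_pow, ← pow_mul, ← pow_mul, mul_comm T l]
          ring
  exact_mod_cast key

/-- degree of a vertex in the complete `r`-graph -/
theorem LCS_deg {m r : ℕ} (x : Fin m) :
    ((Finset.powersetCard r (Finset.univ : Finset (Fin m))).filter (fun f => x ∈ f)).card ≤
      (m - 1).choose (r - 1) := by
  classical
  have h1 : (Finset.powersetCard (r - 1) ((Finset.univ : Finset (Fin m)).erase x)).card =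
      (m - 1).choose (r - 1) := by
    rw [Finset.card_powersetCard, Finset.card_erase_of_mem (Finset.mem_univ x), Finset.card_fin]
  rw [← h1]
  refine Finset.card_le_card_of_injOn (fun f => f.erase x) ?_ ?_
  · intro f hf
    rw [Finset.mem_coe, Finset.mem_filter, Finset.mem_powersetCard] at hf
    rw [Finset.mem_coe, Finset.mem_powersetCard]
    refine ⟨Finset.erase_subset_erase x (Finset.subset_univ f), ?_⟩
    rw [Finset.card_erase_of_mem hf.2, hf.1.2]
  · intro f hf g hg hfg
    rw [Finset.mem_coe, Finset.mem_filter] at hf hg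
    have h2 : f.erase x = g.erase x := hfg
    rw [← Finset.insert_erase hf.2, h2, Finset.insert_erase hg.2]

/-- size of the star -/
theorem LCS_star {n r : ℕ} (c : Fin n) (hr : 1 ≤ r) :
    ((Finset.powersetCard r (Finset.univ : Finset (Fin n))).filter (fun f => c ∈ f)).card =
      (n - 1).choose (r - 1) := by
  classical
  refine le_antisymm (LCS_deg c) ?_
  have h1 : (Finset.powersetCard (r - 1) ((Finset.univ : Finset (Fin n)).erase c)).card =
      (n - 1).choose (r - 1) := by
    rw [Finset.card_powersetCard, Finset.card_erase_of_mem (Finset.mem_univ c), Finset.card_fin]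
  rw [← h1]
  have hc : ∀ f ∈ Finset.powersetCard (r - 1) ((Finset.univ : Finset (Fin n)).erase c), c ∉ f := by
    intro f hf hcf
    have := (Finset.mem_powersetCard.1 hf).1 hcf
    exact Finset.notMem_erase c _ this
  refine Finset.card_le_card_of_injOn (fun f => insert c f) ?_ ?_
  · intro f hf
    rw [Finset.mem_coe] at hf
    have h2 := hc f hf
    rw [Finset.mem_powersetCard] at hf
    rw [Finset.mem_coe, Finset.mem_filter, Finset.mem_powersetCard]
    refine ⟨⟨Finset.subset_univ _, ?_⟩, Finset.mem_insert_self _ _⟩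
    rw [Finset.card_insert_of_notMem h2, hf.2]
    omega
  · intro f hf g hg hfg
    rw [Finset.mem_coe] at hf hg
    have h2 : insert c f = insert c g := hfg
    rw [← Finset.erase_insert (hc f hf), h2, Finset.erase_insert (hc g hg)]

theorem LCS : S_LCS := by
  intro r n m q T l hr hl hm hq hT h0 h1 h2
  classical
  obtain ⟨l, rfl⟩ := Nat.exists_eq_add_of_le' hl
  by_cases hq0 : q = 0
  · subst hq0; simp
  have hq1 : 1 ≤ q := Nat.one_le_iff_ne_zero.2 hq0
  have hmn : m ≤ n := le_trans (Nat.le_mul_of_pos_left _ hq1) hq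
  by_cases hmr : m < r
  · rw [Nat.choose_eq_zero_of_lt hmr, mul_zero]; exact Nat.zero_le _
  push Not at hmr
  have hn : 1 ≤ n := hm.trans hmn
  have hr1 : 1 ≤ r := by omega
  have hcount := LCS_count hr hmr hq1 hmn hq hT h1 h2
  have hele := LCS_e_le hr hm hmn hq h0
  set e := q * m.choose r with he
  set c0 : Fin n := ⟨0, hn⟩ with hc0
  -- the blocks
  obtain ⟨ι, hιj⟩ : ∃ ι : Fin q → Fin m → Fin n, ∀ b b' x x', ι b x = ι b' x' → b = b' ∧ x = x' := by
    refine ⟨fun b x => Fin.castLE hq (finProdFinEquiv (b, x)), ?_⟩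
    intro b b' x x' h
    have h3 := finProdFinEquiv.injective (Fin.castLE_injective hq h)
    exact ⟨congrArg Prod.fst h3, congrArg Prod.snd h3⟩
  have hιinj : ∀ b, Function.Injective (ι b) := fun b x x' h => (hιj b b x x' h).2
  set K := Finset.powersetCard r (Finset.univ : Finset (Fin m)) with hK
  have hKc : K.card = m.choose r := by rw [hK, Finset.card_powersetCard, Finset.card_fin]
  set H0 : Finset (Finset (Fin n)) := Finset.univ.biUnion (fun b => img (ι b) K) with hH0
  have hH0c : H0.card = e := by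
    rw [hH0, Finset.card_biUnion]
    · rw [Finset.sum_congr rfl (fun b _ => img_card_inj (hιinj b) K), Finset.sum_const, hKc,
        Finset.card_univ, Fintype.card_fin, smul_eq_mul]
    · intro b _ b' _ hbb'
      refine Finset.disjoint_left.2 ?_
      intro f hf hf'
      obtain ⟨g, hg, hgf⟩ := Finset.mem_image.1 hf
      obtain ⟨g', hg', hgf'⟩ := Finset.mem_image.1 hf'
      have hgc : g.card = r := (Finset.mem_powersetCard.1 hg).2
      obtain ⟨x, hx⟩ := Finset.card_pos.1 (by omega : 0 < g.card)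
      have hx' : ι b x ∈ g'.image (ι b') := by
        have h3 : g'.image (ι b') = g.image (ι b) := hgf'.trans hgf.symm
        rw [h3]
        exact Finset.mem_image_of_mem _ hx
      obtain ⟨x', _, hx''⟩ := Finset.mem_image.1 hx'
      exact hbb' (hιj b' b x' x hx'').1.symm
  have hH0r : IsRGraph r H0 := by
    intro f hf
    obtain ⟨b, _, hf⟩ := Finset.mem_biUnion.1 hf
    obtain ⟨g, hg, rfl⟩ := Finset.mem_image.1 hf
    rw [Finset.card_image_of_injective _ (hιinj b)]
    exact (Finset.mem_powersetCard.1 hg).2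
  -- the ground sets
  set Full := Finset.powersetCard r (Finset.univ : Finset (Fin n)) with hFull
  set star := Full.filter (fun f => c0 ∈ f) with hstar
  have hstarc : star.card = (n - 1).choose (r - 1) := LCS_star c0 hr1
  have hFullc : Full.card = n.choose r := by
    rw [hFull, Finset.card_powersetCard, Finset.card_fin]
  have hsF : star ⊆ Full := Finset.filter_subset _ _
  set Ω : Fin (l + 1) → Finset (Finset (Fin n)) := Fin.cons star (fun _ => Full) with hΩ
  have hΩF : ∀ i, Ω i ⊆ Full := by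
    intro i
    induction i using Fin.cases with
    | zero => simpa [hΩ] using hsF
    | succ i => simp [hΩ]
  have heN : ∀ i, e ≤ (Ω i).card := by
    intro i
    induction i using Fin.cases with
    | zero => simpa [hΩ, hstarc] using hele
    | succ i =>
      have h3 : e ≤ Full.card := (hele.trans hstarc.ge).trans (Finset.card_le_card hsF)
      simpa [hΩ] using h3
  have hΩp : ∏ i, (Ω i).card ^ T = ((n - 1).choose (r - 1)) ^ T * ((n.choose r) ^ T) ^ l := by
    rw [Fin.prod_univ_succ]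
    simp [hΩ, hstarc, hFullc]
  -- the bad families
  set J' : Finset (Fin (l + 1) → Finset (Finset (Fin n))) :=
    (Finset.univ : Finset (Fin m)).biUnion (fun x =>
      (Finset.powersetCard T (K.filter (fun f => x ∈ f)) ×ˢ
        (Finset.univ : Finset (Fin (l + 1) → Fin m → Fin n))).image
      (fun p i => img (p.2 i) p.1)) with hJ'
  set J := J'.filter (fun D => ∀ i, D i ⊆ Ω i ∧ (D i).card = T) with hJ
  have hJc : J.card ≤ m * ((((m - 1).choose (r - 1)).choose T) * (n ^ m) ^ (l + 1)) := by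
    refine le_trans (Finset.card_le_card (Finset.filter_subset _ _)) ?_
    refine le_trans Finset.card_biUnion_le ?_
    have h3 : ∀ x ∈ (Finset.univ : Finset (Fin m)),
        ((Finset.powersetCard T (K.filter (fun f => x ∈ f)) ×ˢ
        (Finset.univ : Finset (Fin (l + 1) → Fin m → Fin n))).image
        (fun p i => img (p.2 i) p.1)).card ≤
        (((m - 1).choose (r - 1)).choose T) * (n ^ m) ^ (l + 1) := by
      intro x _
      refine le_trans Finset.card_image_le ?_
      rw [Finset.card_product, Finset.card_powersetCard]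
      refine Nat.mul_le_mul (Nat.choose_le_choose T (LCS_deg x)) ?_
      rw [Finset.card_univ]
      simp
    refine le_trans (Finset.sum_le_sum h3) ?_
    rw [Finset.sum_const, Finset.card_univ, Fintype.card_fin, smul_eq_mul]
  have hlt : J.card * (e ^ T) ^ (l + 1) < ∏ i, (Ω i).card ^ T := by
    rw [hΩp]
    exact lt_of_le_of_lt (Nat.mul_le_mul_right _ hJc) hcount
  obtain ⟨G, hG1, hG2⟩ := LCS_union Ω e T heN J
    (fun D hD => (Finset.mem_filter.1 hD).2) hlt
  have hG1' : ∀ i, IsRGraph r (G i) := fun i f hf =>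
    (Finset.mem_powersetCard.1 (hΩF i ((hG1 i).1 hf))).2
  refine le_U_mul (Fin.cons H0 G) ?_ e T (Nat.succ_pos _) ?_ ?_
  · intro i
    induction i using Fin.cases with
    | zero => exact hH0r
    | succ i => exact hG1' i
  · intro i
    induction i using Fin.cases with
    | zero => simp only [Fin.cons_zero]; exact hH0c
    | succ i => exact (hG1 i).2
  · intro s hs
    by_contra hcon
    push Not at hcon
    obtain ⟨F0, σ, hF0, hσ⟩ := hs
    obtain ⟨F1, hF1, hF1c⟩ := Finset.exists_subset_card_eq (show T ≤ F0.card by omega)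
    have hz0 : img (σ 0) F1 ⊆ H0 := by
      have := hσ 0
      simp only [Fin.cons_zero] at this
      exact subset_trans (img_subset_img _ hF1) this
    have hzs : ∀ i : Fin (l + 1), img (σ i.succ) F1 ⊆ G i := by
      intro i
      have := hσ i.succ
      simp only [Fin.cons_succ] at this
      exact subset_trans (img_subset_img _ hF1) this
    -- the centre
    set y : Fin n := σ 0 ((σ (Fin.succ 0)).symm c0) with hy
    have hyf : ∀ f ∈ F1, y ∈ f.image (σ 0) := by
      intro f hf
      have h3 : f.image (σ (Fin.succ 0)) ∈ Ω 0 :=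
        (hG1 0).1 (hzs 0 (Finset.mem_image_of_mem _ hf))
      have h4 : f.image (σ (Fin.succ 0)) ∈ star := by simpa [hΩ] using h3
      obtain ⟨z, hz, hz'⟩ := Finset.mem_image.1 (Finset.mem_filter.1 h4).2
      have h5 : (σ (Fin.succ 0)).symm c0 = z := by rw [← hz', Equiv.symm_apply_apply]
      rw [hy, h5]
      exact Finset.mem_image_of_mem _ hz
    obtain ⟨f1, hf1⟩ := Finset.card_pos.1 (by omega : 0 < F1.card)
    obtain ⟨b, _, hb⟩ := Finset.mem_biUnion.1 (hz0 (Finset.mem_image_of_mem _ hf1))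
    obtain ⟨g1, hg1, hg1'⟩ := Finset.mem_image.1 hb
    have hy1 : y ∈ g1.image (ι b) := by
      have h3 : g1.image (ι b) = f1.image (σ 0) := hg1'
      rw [h3]
      exact hyf f1 hf1
    obtain ⟨x0, hx0, hx0y⟩ := Finset.mem_image.1 hy1
    -- pull back
    set F := K.filter (fun f => f.image (ι b) ∈ img (σ 0) F1) with hF
    have hFimg : img (ι b) F = img (σ 0) F1 := by
      ext f
      constructor
      · intro hf
        obtain ⟨g, hg, rfl⟩ := Finset.mem_image.1 hf
        exact (Finset.mem_filter.1 hg).2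
      · intro hf
        obtain ⟨b', _, hb'⟩ := Finset.mem_biUnion.1 (hz0 hf)
        obtain ⟨g, hg, hgf⟩ := Finset.mem_image.1 hb'
        obtain ⟨f', hf', hff'⟩ := Finset.mem_image.1 hf
        have h3 : y ∈ g.image (ι b') := by
          have h4 : g.image (ι b') = f'.image (σ 0) := hgf.trans hff'.symm
          rw [h4]
          exact hyf f' hf'
        obtain ⟨x', _, hx'⟩ := Finset.mem_image.1 h3
        have h5 := (hιj b' b x' x0 (hx'.trans hx0y.symm)).1
        subst h5
        refine Finset.mem_image.2 ⟨g, Finset.mem_filter.2 ⟨hg, ?_⟩, hgf⟩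
        have h6 : g.image (ι b') = f := hgf
        rw [h6]
        exact hf
    have hFx : F ⊆ K.filter (fun f => x0 ∈ f) := by
      intro f hf
      rw [hF, Finset.mem_filter] at hf
      rw [Finset.mem_filter]
      refine ⟨hf.1, ?_⟩
      obtain ⟨f', hf', hff'⟩ := Finset.mem_image.1 hf.2
      have h3 : y ∈ f.image (ι b) := by
        have h4 : f.image (ι b) = f'.image (σ 0) := hff'.symm
        rw [h4]
        exact hyf f' hf'
      obtain ⟨x', hx'f, hx'⟩ := Finset.mem_image.1 h3
      have h5 := (hιj b b x' x0 (hx'.trans hx0y.symm)).2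
      rwa [← h5]
    have hFc : F.card = T := by
      rw [← img_card_inj (hιinj b), hFimg, img_card_inj (σ 0).injective, hF1c]
    have hD : ∀ i : Fin (l + 1), img (fun x => σ i.succ ((σ 0).symm (ι b x))) F =
        img (σ i.succ) F1 := by
      intro i
      have e1 : (fun x => σ i.succ ((σ 0).symm (ι b x)))
          = (fun y => σ i.succ ((σ 0).symm y)) ∘ (ι b) := rfl
      rw [e1, ← img_img, hFimg, img_img]
      congr 1
      funext x
      simp
    have hmem : (fun i : Fin (l + 1) => img (σ i.succ) F1) ∈ J := by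
      rw [hJ, Finset.mem_filter]
      constructor
      · rw [hJ']
        refine Finset.mem_biUnion.2 ⟨x0, Finset.mem_univ _, ?_⟩
        refine Finset.mem_image.2 ⟨(F, fun i x => σ i.succ ((σ 0).symm (ι b x))), ?_, ?_⟩
        · rw [Finset.mem_product]
          refine ⟨Finset.mem_powersetCard.2 ⟨hFx, hFc⟩, Finset.mem_univ _⟩
        · funext i
          exact hD i
      · intro i
        constructor
        · exact subset_trans (hzs i) (hG1 i).1
        · rw [img_card_inj (σ _).injective, hF1c]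
    obtain ⟨i, hi⟩ := hG2 _ hmem
    exact hi (hzs i)

end H773Y
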