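import Pool.Agent.H773R2.UG.Defs5
import Pool.Agent.H773R2.UG.LCS

/-! Task GLU: the union bound for a random star with a kernel of size `a`. -/

set_option autoImplicit false
set_option linter.unusedVariables false

namespace H773Y

open Finset Pool.Agent.Results.MP_9dddc4_co.UkExponent H773X

/-- the number of `r`-sets which contain a given set -/
theorem GLU_star {n r : ℕ} (X : Finset (Fin n)) (hr : X.card ≤ r) :
    ((Finset.powersetCard r (Finset.univ : Finset (Fin n))).filter (fun f => X ⊆ f)).card =
      (n - X.card).choose (r - X.card) := by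
  classical
  have h1 : (Finset.powersetCard (r - X.card) (Xᶜ : Finset (Fin n))).card =
      (n - X.card).choose (r - X.card) := by
    rw [Finset.card_powersetCard, Finset.card_compl, Fintype.card_fin]
  rw [← h1]
  refine Finset.card_bij' (fun f _ => f \ X) (fun g _ => g ∪ X) ?_ ?_ ?_ ?_
  · intro f hf
    rw [Finset.mem_filter, Finset.mem_powersetCard] at hf
    rw [Finset.mem_powersetCard]
    refine ⟨?_, ?_⟩
    · intro z hz
      rw [Finset.mem_compl]
      exact (Finset.mem_sdiff.1 hz).2
    · rw [Finset.card_sdiff_of_subset hf.2, hf.1.2]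
  · intro g hg
    rw [Finset.mem_powersetCard] at hg
    rw [Finset.mem_filter, Finset.mem_powersetCard]
    have hd : Disjoint g X := by
      rw [Finset.disjoint_left]
      intro z hz hz'
      exact (Finset.mem_compl.1 (hg.1 hz)) hz'
    refine ⟨⟨Finset.subset_univ _, ?_⟩, Finset.subset_union_right⟩
    rw [Finset.card_union_of_disjoint hd, hg.2]
    omega
  · intro f hf
    rw [Finset.mem_filter] at hf
    exact Finset.sdiff_union_of_subset hf.2
  · intro g hg
    rw [Finset.mem_powersetCard] at hg
    have hd : Disjoint g X := by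
      rw [Finset.disjoint_left]
      intro z hz hz'
      exact (Finset.mem_compl.1 (hg.1 hz)) hz'
    exact Finset.union_sdiff_cancel_right hd

theorem GLU : S_GLU := by
  intro r a n m T l e X har hrm hT hX hele hcount
  classical
  set K := Finset.powersetCard r (Finset.univ : Finset (Fin m)) with hK
  set Full := Finset.powersetCard r (Finset.univ : Finset (Fin n)) with hFull
  set star := Full.filter (fun f => X ⊆ f) with hstar
  have hstarc : star.card = (n - a).choose (r - a) := by
    rw [hstar, hFull, GLU_star X (by omega), hX]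
  have hFullc : Full.card = n.choose r := by
    rw [hFull, Finset.card_powersetCard, Finset.card_fin]
  have hsF : star ⊆ Full := Finset.filter_subset _ _
  set Ω : Fin (l + 1) → Finset (Finset (Fin n)) := Fin.cons star (fun _ => Full) with hΩ
  have hΩF : ∀ i, Ω i ⊆ Full := by
    intro i
    induction i using Fin.cases with
    | zero => simpa [hΩ] using hsF
    | succ i => simp [hΩ]
  have heN : ∀ i, e ≤ (Ω i).card := by
    intro i
    induction i using Fin.cases with
    | zero => simpa [hΩ, hstarc] using hele
    | succ i =>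
      have h3 : e ≤ Full.card := (hele.trans hstarc.ge).trans (Finset.card_le_card hsF)
      simpa [hΩ] using h3
  have hΩp : ∏ i, (Ω i).card ^ T = ((n - a).choose (r - a)) ^ T * ((n.choose r) ^ T) ^ l := by
    rw [Fin.prod_univ_succ]
    simp [hΩ, hstarc, hFullc]
  set J' : Finset (Fin (l + 1) → Finset (Finset (Fin n))) :=
    (Finset.powersetCard a (Finset.univ : Finset (Fin m))).biUnion (fun x =>
      (Finset.powersetCard T (K.filter (fun f => x ⊆ f)) ×ˢ
        (Finset.univ : Finset (Fin (l + 1) → Fin m → Fin n))).image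
      (fun p i => img (p.2 i) p.1)) with hJ'
  set J := J'.filter (fun D => ∀ i, D i ⊆ Ω i ∧ (D i).card = T) with hJ
  have hJc : J.card ≤ m.choose a * ((((m - a).choose (r - a)).choose T) * (n ^ m) ^ (l + 1)) := by
    refine le_trans (Finset.card_le_card (Finset.filter_subset _ _)) ?_
    refine le_trans Finset.card_biUnion_le ?_
    have h3 : ∀ x ∈ Finset.powersetCard a (Finset.univ : Finset (Fin m)),
        ((Finset.powersetCard T (K.filter (fun f => x ⊆ f)) ×ˢ
        (Finset.univ : Finset (Fin (l + 1) → Fin m → Fin n))).image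
        (fun p i => img (p.2 i) p.1)).card ≤
        (((m - a).choose (r - a)).choose T) * (n ^ m) ^ (l + 1) := by
      intro x hx
      have hxc : x.card = a := (Finset.mem_powersetCard.1 hx).2
      refine le_trans Finset.card_image_le ?_
      rw [Finset.card_product, Finset.card_powersetCard, hK, GLU_star x (by omega), hxc]
      refine Nat.mul_le_mul le_rfl ?_
      rw [Finset.card_univ]
      simp
    refine le_trans (Finset.sum_le_sum h3) ?_
    rw [Finset.sum_const, Finset.card_powersetCard, Finset.card_fin, smul_eq_mul]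
  have hlt : J.card * (e ^ T) ^ (l + 1) < ∏ i, (Ω i).card ^ T := by
    rw [hΩp]
    exact lt_of_le_of_lt (Nat.mul_le_mul_right _ hJc) hcount
  obtain ⟨G, hG1, hG2⟩ := LCS_union Ω e T heN J
    (fun D hD => (Finset.mem_filter.1 hD).2) hlt
  refine ⟨G, ?_, fun i => (hG1 i).2, ?_, ?_⟩
  · intro i f hf
    exact (Finset.mem_powersetCard.1 (hΩF i ((hG1 i).1 hf))).2
  · intro f hf
    have h4 : f ∈ Ω 0 := (hG1 0).1 hf
    have h5 : f ∈ star := by simpa [hΩ] using h4
    exact (Finset.mem_filter.1 h5).2
  · intro x0 F τ hx0 hF hFT hτ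
    by_contra hcon
    push Not at hcon
    have hFx : F ⊆ K.filter (fun f => x0 ⊆ f) := by
      intro f hf
      rw [Finset.mem_filter, hK, Finset.mem_powersetCard]
      exact ⟨⟨Finset.subset_univ _, (hF f hf).2⟩, (hF f hf).1⟩
    have hmem : (fun i : Fin (l + 1) => img (τ i) F) ∈ J := by
      rw [hJ, Finset.mem_filter]
      constructor
      · rw [hJ']
        refine Finset.mem_biUnion.2 ⟨x0,
          Finset.mem_powersetCard.2 ⟨Finset.subset_univ _, hx0⟩, ?_⟩
        refine Finset.mem_image.2 ⟨(F, τ), ?_, rfl⟩
        rw [Finset.mem_product]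
        exact ⟨Finset.mem_powersetCard.2 ⟨hFx, hFT⟩, Finset.mem_univ _⟩
      · intro i
        exact ⟨subset_trans (hcon i) (hG1 i).1, hτ i⟩
    obtain ⟨i, hi⟩ := hG2 _ hmem
    exact hi (hcon i)

end H773Y
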