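import Pool.Agent.H773R2.UG.GRB

/-! GRE: greedy orders exist. -/

set_option linter.unusedVariables false

namespace H773Y

open Finset Pool.Agent.Results.MP_9dddc4_co.UkExponent H773X

theorem GRE_pre_congr {r : ℕ} {a a' : Fin r → Fin r} {p : ℕ}
    (h : ∀ i : Fin r, (i : ℕ) < p → a i = a' i) : pre a p = pre a' p := by
  unfold pre
  apply Finset.image_congr
  intro i hi
  simp only [Finset.coe_filter, Finset.mem_univ, true_and, Set.mem_setOf_eq] at hi
  exact h i hi

theorem GRE_aux (r : ℕ) (D : Finset (Fin r) → ℝ) (x : Fin r) (m : ℕ) (hm1 : 1 ≤ m)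
    (hm : m ≤ r) : ∃ a : Fin r → Fin r,
      (∀ i j : Fin r, (i : ℕ) < m → (j : ℕ) < m → a i = a j → i = j) ∧
      (∀ i : Fin r, (i : ℕ) = 0 → a i = x) ∧
      (∀ p : Fin r, 1 ≤ (p : ℕ) → (p : ℕ) < m → ∀ y, y ∉ pre a p →
        mg D y (pre a p) ≤ mg D (a p) (pre a p)) := by
  induction m, hm1 using Nat.le_induction with
  | base =>
    refine ⟨fun _ => x, ?_, ?_, ?_⟩
    · intro i j hi hj _
      apply Fin.ext
      omega
    · intro i _
      rfl
    · intro p h1 h2
      omega
  | succ m hm1 ih =>
    obtain ⟨a, h1, h2, h3⟩ := ih (by omega)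
    have hmr : m < r := by omega
    have hcard : (pre a m).card < r := by
      unfold pre
      refine lt_of_le_of_lt Finset.card_image_le ?_
      have : (univ.filter (fun i : Fin r => (i : ℕ) < m)) ⊂ univ := by
        rw [Finset.ssubset_univ_iff]
        intro h
        have h' : (⟨m, hmr⟩ : Fin r) ∈ univ.filter (fun i : Fin r => (i : ℕ) < m) := by
          rw [h]; exact Finset.mem_univ _
        simp at h'
      have := Finset.card_lt_card this
      simpa using this
    have hne : ((pre a m)ᶜ).Nonempty := by
      rw [← Finset.card_pos, Finset.card_compl, Fintype.card_fin]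
      omega
    obtain ⟨y, hy, hmax⟩ := Finset.exists_max_image ((pre a m)ᶜ) (fun z => mg D z (pre a m)) hne
    have hy' : y ∉ pre a m := Finset.mem_compl.1 hy
    have hcongr : ∀ p : ℕ, p ≤ m → pre (Function.update a ⟨m, hmr⟩ y) p = pre a p := by
      intro p hp
      apply GRE_pre_congr
      intro i hi
      rw [Function.update_of_ne]
      intro h
      rw [h] at hi
      simp at hi
      omega
    refine ⟨Function.update a ⟨m, hmr⟩ y, ?_, ?_, ?_⟩
    · intro i j hi hj hij
      by_cases hi' : (i : ℕ) = m
      · have e1 : i = ⟨m, hmr⟩ := Fin.ext hi'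
        by_cases hj' : (j : ℕ) = m
        · exact Fin.ext (by omega)
        · exfalso
          have e2 : j ≠ ⟨m, hmr⟩ := fun h => hj' (by rw [h])
          rw [e1, Function.update_self, Function.update_of_ne e2] at hij
          apply hy'
          unfold pre
          rw [hij]
          apply Finset.mem_image_of_mem
          simp only [Finset.mem_filter, Finset.mem_univ, true_and]
          omega
      · have e1 : i ≠ ⟨m, hmr⟩ := fun h => hi' (by rw [h])
        by_cases hj' : (j : ℕ) = m
        · exfalso
          have e2 : j = ⟨m, hmr⟩ := Fin.ext hj'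
          rw [e2, Function.update_self, Function.update_of_ne e1] at hij
          apply hy'
          unfold pre
          rw [← hij]
          apply Finset.mem_image_of_mem
          simp only [Finset.mem_filter, Finset.mem_univ, true_and]
          omega
        · have e2 : j ≠ ⟨m, hmr⟩ := fun h => hj' (by rw [h])
          rw [Function.update_of_ne e1, Function.update_of_ne e2] at hij
          exact h1 i j (by omega) (by omega) hij
    · intro i hi
      rw [Function.update_of_ne]
      · exact h2 i hi
      · intro h
        rw [h] at hi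
        simp at hi
        omega
    · intro p hp1 hp2 z hz
      rw [hcongr _ (by omega)] at hz ⊢
      by_cases hp' : (p : ℕ) = m
      · have e1 : p = ⟨m, hmr⟩ := Fin.ext hp'
        rw [e1] at hz ⊢
        rw [Function.update_self]
        exact hmax z (Finset.mem_compl.2 hz)
      · have e1 : p ≠ ⟨m, hmr⟩ := fun h => hp' (by rw [h])
        rw [Function.update_of_ne e1]
        exact h3 p hp1 (by omega) z hz

theorem GRE : S_GRE := by
  intro r D x
  have hr : 1 ≤ r := by
    have := x.2
    omega
  obtain ⟨a, h1, h2, h3⟩ := GRE_aux r D x r hr le_rfl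
  have hinj : Function.Injective a := fun i j hij => h1 i j i.2 j.2 hij
  refine ⟨a, Finite.injective_iff_bijective.1 hinj, h2, ?_⟩
  intro p j hpj hc
  by_cases hp : 1 ≤ (p : ℕ)
  · exact h3 p hp p.2 (a j) (GRB_notMem hinj (by exact_mod_cast hpj))
  · have hc' : ∀ y, D {y} ≤ D {x} := by
      rcases hc with hc | hc
      · exact absurd hc hp
      · exact hc
    have hp0 : (p : ℕ) = 0 := by omega
    have e : pre a (p : ℕ) = ∅ := by
      unfold pre
      rw [Finset.image_eq_empty, Finset.filter_eq_empty_iff]
      intro i _
      omega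
    rw [e, h2 p hp0]
    unfold mg
    have := hc' (a j)
    simpa using this

end H773Y
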