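import Pool.Agent.H773R2.UG.Defs4

set_option autoImplicit false

namespace H773Y

open Finset Pool.Agent.Results.MP_9dddc4_co.UkExponent H773X

theorem GRM : S_GRM := by
  classical
  intro r m D c hc
  have key : ∀ k : ℕ, k ≤ r → ∃ a : Fin r → Fin r, Function.Bijective a ∧
      (∀ i : Fin r, (i : ℕ) < m → a i = c i) ∧
      ∀ p j : Fin r, m ≤ (p : ℕ) → (p : ℕ) < k → p ≤ j →
        mg D (a j) (pre a p) ≤ mg D (a p) (pre a p) := by
    intro k
    induction k with
    | zero =>
      intro _
      exact ⟨c, hc, fun _ _ => rfl, fun p j _ hp _ => absurd hp (Nat.not_lt_zero _)⟩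
    | succ k ih =>
      intro hk
      obtain ⟨a, hab, hac, hag⟩ := ih (by omega)
      have hkr : k < r := by omega
      rcases lt_or_ge k m with hkm | hmk
      · exact ⟨a, hab, hac, fun p j h1 h2 _ => absurd h2 (by omega)⟩
      · set K : Fin r := ⟨k, hkr⟩ with hK
        -- the maximiser
        obtain ⟨j0, hj0, hmax⟩ := Finset.exists_max_image (Finset.Ici K)
          (fun j => mg D (a j) (pre a k)) ⟨K, Finset.mem_Ici.mpr le_rfl⟩
        have hKj0 : K ≤ j0 := Finset.mem_Ici.mp hj0
        have hsge : ∀ j : Fin r, K ≤ j → K ≤ Equiv.swap K j0 j := by
          intro j hj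
          rcases eq_or_ne j K with h | h
          · rw [h, Equiv.swap_apply_left]; exact hKj0
          · rcases eq_or_ne j j0 with h' | h'
            · rw [h', Equiv.swap_apply_right]
            · rw [Equiv.swap_apply_of_ne_of_ne h h']; exact hj
        have hslt : ∀ j : Fin r, j < K → Equiv.swap K j0 j = j := by
          intro j hj
          exact Equiv.swap_apply_of_ne_of_ne (ne_of_lt hj) (ne_of_lt (lt_of_lt_of_le hj hKj0))
        have hpre : ∀ p : ℕ, p ≤ k → pre (a ∘ Equiv.swap K j0) p = pre a p := by
          intro p hp
          unfold pre
          refine Finset.image_congr ?_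
          intro i hi
          have hi' : (i : ℕ) < p := by simpa using hi
          have : i < K := by
            rw [Fin.lt_def]
            change (i : ℕ) < k
            omega
          simp only [Function.comp, hslt i this]
        refine ⟨a ∘ Equiv.swap K j0, hab.comp (Equiv.bijective _), ?_, ?_⟩
        · intro i hi
          have : i < K := by
            rw [Fin.lt_def]
            change (i : ℕ) < k
            omega
          simp only [Function.comp, hslt i this]
          exact hac i hi
        · intro p j hmp hpk hpj
          rw [hpre p (by omega)]
          rcases Nat.lt_or_ge (p : ℕ) k with hpk' | hpk'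
          · have hpK : p < K := by
              rw [Fin.lt_def]
              exact hpk'
            have e1 : (a ∘ Equiv.swap K j0) p = a p := by
              simp only [Function.comp, hslt p hpK]
            rw [e1]
            refine hag p _ hmp hpk' ?_
            rcases lt_or_ge j K with hjK | hjK
            · rw [hslt j hjK]; exact hpj
            · exact hpK.le.trans (hsge j hjK)
          · have hpK : p = K := by
              apply Fin.ext
              change (p : ℕ) = k
              omega
            have e1 : (a ∘ Equiv.swap K j0) p = a j0 := by
              rw [hpK]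
              simp only [Function.comp, Equiv.swap_apply_left]
            rw [e1, hpK]
            exact hmax _ (Finset.mem_Ici.mpr (hsge j (hpK ▸ hpj)))
  obtain ⟨a, hab, hac, hag⟩ := key r le_rfl
  exact ⟨a, ⟨hab, fun p j h1 h2 => hag p j h1 p.2 h2⟩, hac⟩

end H773Y
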