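import Pool.Agent.H773R2.UG.Defs4

/-! KC0: no critical role. -/

set_option linter.unusedVariables false

namespace H773Y

open Finset Pool.Agent.Results.MP_9dddc4_co.UkExponent H773X


lemma k0_mono1 {r : ℕ} {D : Finset (Fin r) → ℝ} (h : SupM D) {A : Finset (Fin r)} {c b : Fin r}
    (hc : c ∉ A) (hcb : c ≠ b) : mg D c A ≤ mg D c (insert b A) := by
  by_cases hb : b ∈ A
  · rw [Finset.insert_eq_of_mem hb]
  · have := h.2.2 A c b hc hb hcb
    unfold mg
    linarith

lemma k0_mono {r : ℕ} {D : Finset (Fin r) → ℝ} (h : SupM D) {A B : Finset (Fin r)} {c : Fin r}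
    (hAB : A ⊆ B) (hc : c ∉ B) : mg D c A ≤ mg D c B := by
  have key : ∀ S : Finset (Fin r), c ∉ S → c ∉ A → mg D c A ≤ mg D c (S ∪ A) := by
    intro S
    induction S using Finset.induction_on with
    | empty => intro _ _; simp
    | insert b S hb ih =>
      intro h1 h2
      have hcb : c ≠ b := fun h => h1 (by simp [h])
      have hcS : c ∉ S := fun h => h1 (by simp [h])
      have h3 := ih hcS h2
      have h4 : c ∉ S ∪ A := by simp [hcS, h2]
      have h5 := k0_mono1 h (b := b) h4 hcb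
      rw [Finset.insert_union]
      exact h3.trans h5
  have h1 := key B hc (fun h => hc (hAB h))
  rwa [Finset.union_eq_left.mpr hAB] at h1

lemma k0_mem_pre {r : ℕ} {a : Fin r → Fin r} (ha : Function.Bijective a) (i : Fin r) (p : ℕ) :
    a i ∈ pre a p ↔ (i : ℕ) < p := by
  unfold pre
  constructor
  · intro h
    obtain ⟨k, hk, hk2⟩ := Finset.mem_image.mp h
    have := ha.1 hk2
    subst this
    simpa using hk
  · intro h
    exact Finset.mem_image.mpr ⟨i, by simpa using h, rfl⟩

lemma k0_pre_succ {r : ℕ} {a : Fin r → Fin r} (ha : Function.Bijective a) (i : Fin r) :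
    pre a ((i : ℕ) + 1) = insert (a i) (pre a (i : ℕ)) := by
  ext y
  obtain ⟨k, rfl⟩ := ha.2 y
  rw [Finset.mem_insert, k0_mem_pre ha, k0_mem_pre ha]
  constructor
  · intro h
    rcases Nat.lt_succ_iff_lt_or_eq.mp h with h | h
    · right; exact h
    · left; rw [Fin.ext h]
  · rintro (h | h)
    · have := ha.1 h; subst this; omega
    · omega

lemma k0_pre_one {r : ℕ} (hr : 5 ≤ r) {a : Fin r → Fin r} (ha : Function.Bijective a) :
    pre a 1 = {a ⟨0, by omega⟩} := by
  have h := k0_pre_succ ha (⟨0, by omega⟩ : Fin r)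
  have h0 : pre a 0 = ∅ := by
    unfold pre
    simp
  simpa [h0] using h

lemma k0_sum (h3 : S_KSH) (h4 : S_KNM) {r : ℕ} {e : ℝ} (hA : Adk r e) (p j : Fin r)
    (hp : (p : ℕ) = 1) (hj : (j : ℕ) = r - 2) :
    ∑ l ∈ Icc p j, sk r e l = 1 - rk r e := by
  have hr : 5 ≤ r := hA.1
  have hpj : p ≤ j := by
    rw [Fin.le_def]; omega
  rw [h3 r e p j hr hpj]
  have hN := (h4 r e hA).2.2.2.2.2.2.2.2.2.2
  rw [← hN, hp, hj]
  rw [if_neg (by omega), if_neg (by omega), if_pos (by omega)]
  have : ((r - 2 : ℕ) : ℝ) = (r : ℝ) - 2 := by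
    rw [Nat.cast_sub (by omega)]; norm_num
  rw [this]
  push_cast
  ring

lemma k0_fits (h2 : S_KGP) (h3 : S_KSH) (h4 : S_KNM) {r : ℕ} {e : ℝ} {D : Finset (Fin r) → ℝ}
    (hA : Adk r e) (hD : SupM D) (hU : D univ ≤ 1 + e)
    (hc : ∀ y, mg D y (univ.erase y) ≤ 1 - mk r e) {a : Fin r → Fin r} (ha : Grm D a 1)
    (hs : ∀ z s : Fin r, (z : ℕ) = 0 → (s : ℕ) = r - 2 → mg D (a s) {a z} ≤ rk r e) :
    Fits D (sk r e) := by
  have hr : 5 ≤ r := hA.1
  refine ⟨a, ha.1, ?_⟩
  have hl1 : ∀ j : Fin r, 1 ≤ (j : ℕ) → mg D (a j) (pre a j) ≤ 1 - mk r e := by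
    intro j _
    refine (k0_mono hD ?_ (by simp)).trans (hc (a j))
    intro y hy
    rw [Finset.mem_erase]
    refine ⟨?_, Finset.mem_univ _⟩
    rintro rfl
    have := (k0_mem_pre ha.1 j (j : ℕ)).mp hy
    omega
  have hG := h2 r 1 e D a hA hD hU le_rfl ha hl1
  intro p j hpj hb
  by_cases hp0 : (p : ℕ) = 0
  · exfalso
    have : sk r e p = 0 := by
      unfold sk
      rw [if_pos (Or.inl hp0)]
    rw [this] at hb
    exact lt_irrefl _ hb
  · by_cases hc1 : (p : ℕ) = 1 ∧ (j : ℕ) = r - 2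
    · obtain ⟨hp1, hj⟩ := hc1
      rw [k0_sum h3 h4 hA p j hp1 hj, hp1, k0_pre_one hr ha.1]
      have := hs ⟨0, by omega⟩ j rfl hj
      linarith
    · refine hG p j (by omega) hpj hb ?_
      intro h1 h2
      exact hc1 ⟨h1, h2⟩

/-- KC0: no critical role -/
theorem KC0 (h1 : S_GRM) (h2 : S_KGP) (h3 : S_KSH) (h4 : S_KNM) : S_KC0 := by
  intro r e D hA hD hU hc
  have hr : 5 ≤ r := hA.1
  have : Nonempty (Fin r) := ⟨⟨0, by omega⟩⟩
  obtain ⟨x, hx⟩ := Finite.exists_max (fun y : Fin r => D {y})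
  obtain ⟨a, ha, hax⟩ := h1 r 1 D (Equiv.swap ⟨0, by omega⟩ x) (Equiv.bijective _)
  have hax0 : a ⟨0, by omega⟩ = x := by
    rw [hax ⟨0, by omega⟩ (by simp)]
    simp
  by_cases hcase : mg D (a ⟨r - 2, by omega⟩) {x} ≤ rk r e
  · refine k0_fits h2 h3 h4 hA hD hU hc ha ?_
    intro z s hz hs
    have hz' : z = ⟨0, by omega⟩ := Fin.ext hz
    have hs' : s = ⟨r - 2, by omega⟩ := Fin.ext hs
    rw [hz', hs', hax0]
    exact hcase
  · push Not at hcase
    obtain ⟨w, hw⟩ : ∃ w, w = a ⟨r - 1, by omega⟩ := ⟨_, rfl⟩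
    -- the lower bound along the first order
    have hstep : ∀ k : ℕ, k ≤ r - 2 → D {x} + k * rk r e ≤ D (pre a (k + 1)) := by
      intro k
      induction k with
      | zero =>
        intro _
        rw [k0_pre_one hr ha.1, hax0]
        simp
      | succ k ih =>
        intro hk
        have h5 := ih (by omega)
        have hlt : k + 1 < r := by omega
        have h6 := k0_pre_succ ha.1 ⟨k + 1, hlt⟩
        simp only at h6
        have h7 : mg D (a ⟨r - 2, by omega⟩) (pre a (k + 1)) ≤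
            mg D (a ⟨k + 1, hlt⟩) (pre a (k + 1)) :=
          ha.2 ⟨k + 1, hlt⟩ ⟨r - 2, by omega⟩ (by simp) (by rw [Fin.le_def]; simpa using hk)
        have h8 : mg D (a ⟨r - 2, by omega⟩) {x} ≤ mg D (a ⟨r - 2, by omega⟩) (pre a (k + 1)) := by
          refine k0_mono hD ?_ ?_
          · intro y hy
            rw [Finset.mem_singleton] at hy
            rw [hy, ← hax0, k0_mem_pre ha.1]
            simp
          · rw [k0_mem_pre ha.1]
            simp only [not_lt]
            omega
        have h9 : mg D (a ⟨k + 1, hlt⟩) (pre a (k + 1)) =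
            D (pre a (k + 1 + 1)) - D (pre a (k + 1)) := by
          rw [h6]; rfl
        push_cast
        linarith
    have hlast := hstep (r - 2) le_rfl
    have hr1 : r - 2 + 1 = r - 1 := by omega
    rw [hr1] at hlast
    have hpre : pre a (r - 1) = univ.erase w := by
      ext y
      obtain ⟨k, rfl⟩ := ha.1.2 y
      rw [k0_mem_pre ha.1, Finset.mem_erase, hw]
      constructor
      · intro h
        refine ⟨?_, Finset.mem_univ _⟩
        intro h5
        have := ha.1.1 h5
        rw [this] at h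
        simp at h
      · intro h
        have h5 : k ≠ ⟨r - 1, by omega⟩ := fun h6 => h.1 (by rw [h6])
        have h6 : (k : ℕ) ≠ r - 1 := fun h7 => h5 (Fin.ext h7)
        have := k.2
        omega
    have hom : D univ = D (univ.erase w) + mg D w (univ.erase w) := by
      unfold mg
      rw [Finset.insert_erase (Finset.mem_univ w)]
      ring
    have hN := (h4 r e hA).2.2.2.2.2.2.1
    have hcast : ((r - 2 : ℕ) : ℝ) = (r : ℝ) - 2 := by
      rw [Nat.cast_sub (by omega)]; norm_num
    rw [hpre, hcast] at hlast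
    have hkey : D {x} + mg D w (univ.erase w) ≤ rk r e := by
      nlinarith
    obtain ⟨a', ha', haw⟩ := h1 r 1 D (Equiv.swap ⟨0, by omega⟩ w) (Equiv.bijective _)
    have haw0 : a' ⟨0, by omega⟩ = w := by
      rw [haw ⟨0, by omega⟩ (by simp)]
      simp
    refine k0_fits h2 h3 h4 hA hD hU hc ha' ?_
    intro z s hz hs
    have hz' : z = ⟨0, by omega⟩ := Fin.ext hz
    rw [hz', haw0]
    have hne : a' s ≠ w := by
      rw [← haw0]
      intro h
      have := ha'.1.1 h
      rw [this] at hs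
      simp at hs
      omega
    have h5 : mg D w {a' s} ≤ mg D w (univ.erase w) := by
      refine k0_mono hD ?_ (by simp)
      intro y hy
      rw [Finset.mem_singleton] at hy
      rw [hy]
      exact Finset.mem_erase.mpr ⟨hne, Finset.mem_univ _⟩
    have h6 : 0 ≤ D {w} := by
      have := hD.2.1 ∅ w
      rw [hD.1] at this
      simpa using this
    have h7 := hx (a' s)

    have h8 : (insert (a' s) {w} : Finset (Fin r)) = insert w {a' s} := Finset.pair_comm _ _
    unfold mg at h5 ⊢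
    rw [h8]
    unfold mg at hkey
    linarith

end H773Y

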