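import Pool.Agent.H773R2.UG.Defs4

/-! Task KC1 (helper605): exactly one critical role. -/

set_option autoImplicit false

namespace H773Y

open Finset Pool.Agent.Results.MP_9dddc4_co.UkExponent H773X

theorem KC1_mono {r : ℕ} {D : Finset (Fin r) → ℝ} (hD : SupM D) {A A' : Finset (Fin r)}
    (h : A ⊆ A') : D A ≤ D A' := by
  have key : ∀ T : Finset (Fin r), D A ≤ D (A ∪ T) := by
    intro T
    induction T using Finset.induction_on with
    | empty => simp
    | insert t T _ ih =>
      rw [Finset.union_insert]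
      exact ih.trans (hD.2.1 _ _)
  have := key A'
  rwa [Finset.union_eq_right.2 h] at this

theorem KC1_mg {r : ℕ} {D : Finset (Fin r) → ℝ} (hD : SupM D) {A A' : Finset (Fin r)}
    (h : A ⊆ A') {c : Fin r} (hc : c ∉ A') : mg D c A ≤ mg D c A' := by
  have key : ∀ T : Finset (Fin r), c ∉ A ∪ T → mg D c A ≤ mg D c (A ∪ T) := by
    intro T
    induction T using Finset.induction_on with
    | empty => simp
    | insert t T _ ih =>
      rw [Finset.union_insert]
      intro hcT
      rw [Finset.mem_insert, not_or] at hcT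
      have h1 := ih hcT.2
      by_cases ht : t ∈ A ∪ T
      · rw [Finset.insert_eq_of_mem ht]
        exact h1
      · refine h1.trans ?_
        have h2 := hD.2.2 (A ∪ T) c t hcT.2 ht hcT.1
        unfold mg
        linarith
  have := key A'
  rw [Finset.union_eq_right.2 h] at this
  exact this hc

theorem KC1_mem_pre {r : ℕ} {a : Fin r → Fin r} {p : ℕ} {y : Fin r} :
    y ∈ pre a p ↔ ∃ i : Fin r, (i : ℕ) < p ∧ a i = y := by
  simp [pre]

theorem KC1_pre_succ {r : ℕ} (a : Fin r → Fin r) (i : Fin r) :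
    pre a ((i : ℕ) + 1) = insert (a i) (pre a i) := by
  ext y
  rw [Finset.mem_insert, KC1_mem_pre, KC1_mem_pre]
  constructor
  · rintro ⟨j, hj, rfl⟩
    rcases Nat.lt_or_ge (j : ℕ) i with h | h
    · exact Or.inr ⟨j, h, rfl⟩
    · left
      have : j = i := Fin.ext (by omega)
      rw [this]
  · rintro (rfl | ⟨j, hj, rfl⟩)
    · exact ⟨i, by omega, rfl⟩
    · exact ⟨j, by omega, rfl⟩

theorem KC1_notMem {r : ℕ} {a : Fin r → Fin r} (ha : Function.Injective a) {p : ℕ} {j : Fin r}
    (h : p ≤ (j : ℕ)) : a j ∉ pre a p := by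
  rw [KC1_mem_pre]
  rintro ⟨i, hi, he⟩
  have := ha he
  subst this
  omega

theorem KC1_pre_one {r : ℕ} (a : Fin r → Fin r) (z : Fin r) (hz : (z : ℕ) = 0) :
    pre a 1 = {a z} := by
  have h := KC1_pre_succ a z
  rw [hz] at h
  have h0 : pre a 0 = ∅ := by
    ext y
    simp [KC1_mem_pre]
  rw [h0] at h
  simpa using h

theorem KC1_pre_last {r : ℕ} {a : Fin r → Fin r} (ha : Function.Bijective a) (z : Fin r)
    (hz : (z : ℕ) = r - 1) : pre a (r - 1) = univ.erase (a z) := by
  ext y
  rw [KC1_mem_pre, Finset.mem_erase]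
  constructor
  · rintro ⟨i, hi, rfl⟩
    refine ⟨fun h => ?_, Finset.mem_univ _⟩
    have := ha.1 h
    subst this
    omega
  · rintro ⟨h, _⟩
    obtain ⟨i, rfl⟩ := ha.2 y
    refine ⟨i, ?_, rfl⟩
    have h1 : i ≠ z := fun h' => h (by rw [h'])
    have h2 : (i : ℕ) ≠ z := fun h' => h1 (Fin.ext h')
    have := i.2
    omega

theorem KC1_sum (h3 : S_KSH) (h4 : S_KNM) {r : ℕ} {e : ℝ} (h : Adk r e) (p j : Fin r) :
    ∑ l ∈ Icc p j, sk r e l ≤ 1 - rk r e := by
  have hr : 5 ≤ r := h.1
  obtain ⟨hB, _, _, _, _, _, _, _, _, _, hT⟩ := h4 r e h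
  have hnn : ∀ l : Fin r, 0 ≤ sk r e l := by
    intro l
    unfold sk
    split_ifs
    · exact le_rfl
    · positivity
    · exact hB
  have h1 := h3 r e ⟨0, by omega⟩ ⟨r - 1, by omega⟩ hr (by simp [Fin.le_def])
  have h2 : Icc (⟨0, by omega⟩ : Fin r) ⟨r - 1, by omega⟩ = univ := by
    ext l
    simp only [Finset.mem_Icc, Fin.le_def, Finset.mem_univ, iff_true]
    have := l.2
    omega
  rw [h2] at h1
  have h5 : ∑ l, sk r e l = 1 - rk r e := by
    rw [h1, ← hT]
    have h6 : (((r - 1 : ℕ) : ℕ) : ℝ) = (r : ℝ) - 1 := by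
      rw [Nat.cast_sub (by omega)]
      simp
    have h7 : (0 : ℕ) ≤ 2 ∧ 2 ≤ r - 1 := by omega
    simp only [h6, if_true, if_pos h7]
    push_cast
    ring
  rw [← h5]
  exact Finset.sum_le_sum_of_subset_of_nonneg (Finset.subset_univ _) fun l _ _ => hnn l

/-- a permutation with prescribed first two values -/
theorem KC1_perm {r : ℕ} (hr : 5 ≤ r) {y x : Fin r} (h : y ≠ x) :
    ∃ c : Fin r → Fin r, Function.Bijective c ∧ c ⟨0, by omega⟩ = y ∧ c ⟨1, by omega⟩ = x := by
  set z0 : Fin r := ⟨0, by omega⟩ with hz0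
  set z1 : Fin r := ⟨1, by omega⟩ with hz1
  have h01 : z0 ≠ z1 := by simp [hz0, hz1]
  have hs : (Equiv.swap z0 y) z0 = y := Equiv.swap_apply_left _ _
  have h0 : z0 ≠ (Equiv.swap z0 y).symm x := by
    intro h'
    apply h
    have := congrArg (Equiv.swap z0 y) h'
    rw [Equiv.apply_symm_apply, hs] at this
    exact this
  refine ⟨(Equiv.swap z1 ((Equiv.swap z0 y).symm x)).trans (Equiv.swap z0 y),
    Equiv.bijective _, ?_, ?_⟩
  · rw [Equiv.trans_apply, Equiv.swap_apply_of_ne_of_ne h01 h0, hs]
  · rw [Equiv.trans_apply, Equiv.swap_apply_left, Equiv.apply_symm_apply]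

/-- the order `y, x, greedy` -/
theorem KC1_two (h1 : S_GRM) (h2 : S_KGP) (h3 : S_KSH) (h4 : S_KNM) {r : ℕ} {e : ℝ}
    {D : Finset (Fin r) → ℝ} {x y : Fin r} (hA : Adk r e) (hD : SupM D) (hU : D univ ≤ 1 + e)
    (hnc : ∀ y, y ≠ x → mg D y (univ.erase y) ≤ 1 - mk r e) (hyx : y ≠ x)
    (hx : mg D x {y} ≤ 1 - bk r e) (hc : ∀ c, c ≠ x → c ≠ y → mg D c {y} ≤ rk r e) :
    Fits D (sk r e) := by
  have hr : 5 ≤ r := hA.1
  obtain ⟨c, hcb, hc0, hc1⟩ := KC1_perm hr hyx
  obtain ⟨a, ha, hac⟩ := h1 r 2 D c hcb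
  have ha0 : a ⟨0, by omega⟩ = y := by rw [hac _ (by simp), hc0]
  have ha1 : a ⟨1, by omega⟩ = x := by rw [hac _ (by simp), hc1]
  refine ⟨a, ha.1, fun p j hpj hp => ?_⟩
  have hpj' : (p : ℕ) ≤ j := hpj
  rcases Nat.lt_or_ge (p : ℕ) 2 with hp2 | hp2
  · have hp0 : (p : ℕ) ≠ 0 := by
      intro h0
      unfold sk at hp
      rw [if_pos (Or.inl h0)] at hp
      exact lt_irrefl _ hp
    have hp1 : (p : ℕ) = 1 := by omega
    rw [hp1, KC1_pre_one a ⟨0, by omega⟩ rfl, ha0]
    by_cases hj : (j : ℕ) = 1
    · have hj' : j = ⟨1, by omega⟩ := Fin.ext hj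
      have hp' : p = ⟨1, by omega⟩ := Fin.ext hp1
      rw [hj', hp', ha1, Finset.Icc_self, Finset.sum_singleton]
      have : sk r e ⟨1, by omega⟩ = bk r e := by
        unfold sk
        rw [if_neg, if_neg]
        · simp
        · simp only [not_or]
          omega
      rw [this]
      exact hx
    · have hjx : a j ≠ x := by
        intro h
        rw [← ha1] at h
        exact hj (by rw [ha.1.1 h])
      have hjy : a j ≠ y := by
        intro h
        rw [← ha0] at h
        have : (j : ℕ) = 0 := by rw [ha.1.1 h]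
        omega
      have h5 := KC1_sum h3 h4 hA p j
      have h6 := hc (a j) hjx hjy
      linarith
  · refine h2 r 2 e D a hA hD hU (by norm_num) ha ?_ p j hp2 hpj hp (by omega)
    intro j hj
    have hjx : a j ≠ x := by
      intro h
      rw [← ha1] at h
      have : (j : ℕ) = 1 := by rw [ha.1.1 h]
      omega
    refine (KC1_mg hD (A' := univ.erase (a j)) ?_ (by simp)).trans (hnc _ hjx)
    intro z hz
    rw [Finset.mem_erase]
    refine ⟨?_, Finset.mem_univ _⟩
    rintro rfl
    exact KC1_notMem ha.1.1 (le_refl (j : ℕ)) hz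

theorem KC1 (h1 : S_GRM) (h2 : S_KGP) (h3 : S_KSH) (h4 : S_KNM) : S_KC1 := by
  intro r e D x hA hD hU hcr hnc
  have hr : 5 ≤ r := hA.1
  obtain ⟨hB, hM2, _, _, _, _, hN7, _, _, _, hT⟩ := h4 r e hA
  have hBM : bk r e ≤ mk r e := le_max_left _ _
  have he0 : 0 ≤ e := by
    refine le_trans ?_ hA.2.1
    have : (5 : ℝ) ≤ r := by exact_mod_cast hr
    have h' : (0 : ℝ) ≤ (r : ℝ) - 2 := by linarith
    positivity
  have hr0 : (0 : ℝ) < r := by
    have : 0 < r := by omega
    exact_mod_cast this
  have hR0 : 0 ≤ rk r e := by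
    unfold rk
    positivity
  obtain ⟨a, ha, hac⟩ := h1 r 1 D (Equiv.swap (⟨0, by omega⟩ : Fin r) x) (Equiv.bijective _)
  have ha0 : a ⟨0, by omega⟩ = x := by
    rw [hac _ (by simp), Equiv.swap_apply_left]
  have hpre1 : pre a 1 = {x} := by rw [KC1_pre_one a ⟨0, by omega⟩ rfl, ha0]
  have hsub : ∀ j : Fin r, mg D (a j) (pre a j) ≤ mg D (a j) (univ.erase (a j)) := by
    intro j
    refine KC1_mg hD ?_ (by simp)
    intro z hz
    rw [Finset.mem_erase]
    refine ⟨?_, Finset.mem_univ _⟩
    rintro rfl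
    exact KC1_notMem ha.1.1 (le_refl (j : ℕ)) hz
  by_cases hcase : mg D (a ⟨r - 2, by omega⟩) {x} ≤ rk r e
  · -- the greedy order
    refine ⟨a, ha.1, fun p j hpj hp => ?_⟩
    have hp0 : (p : ℕ) ≠ 0 := by
      intro h0
      unfold sk at hp
      rw [if_pos (Or.inl h0)] at hp
      exact lt_irrefl _ hp
    by_cases hpj2 : (p : ℕ) = 1 ∧ (j : ℕ) = r - 2
    · have hj' : j = ⟨r - 2, by omega⟩ := Fin.ext hpj2.2
      have h5 := KC1_sum h3 h4 hA p j
      rw [hpj2.1, hpre1]
      rw [hj'] at h5 ⊢
      linarith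
    · refine h2 r 1 e D a hA hD hU le_rfl ha ?_ p j (by omega) hpj hp
        (fun h h' => hpj2 ⟨h, h'⟩)
      intro j hj
      refine (hsub j).trans (hnc _ ?_)
      intro h
      rw [← ha0] at h
      have : (j : ℕ) = 0 := by rw [ha.1.1 h]
      omega
  · push Not at hcase
    set w := a ⟨r - 1, by omega⟩ with hw
    have hwx : w ≠ x := by
      rw [hw, ← ha0]
      intro h
      have := congrArg Fin.val (ha.1.1 h)
      simp only at this
      omega
    have hind : ∀ i : ℕ, 1 ≤ i → i ≤ r - 1 → D {x} + ((i : ℝ) - 1) * rk r e ≤ D (pre a i) := by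
      intro i hi
      induction i, hi using Nat.le_induction with
      | base =>
        intro _
        rw [hpre1]
        simp
      | succ i hi ih =>
        intro hir
        have h5 := ih (by omega)
        have h6 := KC1_pre_succ a ⟨i, by omega⟩
        simp only at h6
        rw [h6]
        have h7 : mg D (a ⟨r - 2, by omega⟩) (pre a i) ≤ mg D (a ⟨i, by omega⟩) (pre a i) :=
          ha.2 ⟨i, by omega⟩ ⟨r - 2, by omega⟩ hi (by simp only [Fin.le_def]; omega)
        have h8 : mg D (a ⟨r - 2, by omega⟩) {x} ≤ mg D (a ⟨r - 2, by omega⟩) (pre a i) := by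
          refine KC1_mg hD ?_ (KC1_notMem ha.1.1 (by simp only; omega))
          rw [← hpre1]
          intro z hz
          rw [KC1_mem_pre] at hz ⊢
          obtain ⟨k, hk, hk'⟩ := hz
          exact ⟨k, by omega, hk'⟩
        have h9 : mg D (a ⟨i, by omega⟩) (pre a i) =
          D (insert (a ⟨i, by omega⟩) (pre a i)) - D (pre a i) := rfl
        push_cast
        linarith
    have hlast := hind (r - 1) (by omega) le_rfl
    rw [KC1_pre_last ha.1 ⟨r - 1, by omega⟩ rfl, ← hw, Nat.cast_sub (by omega)] at hlast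
    have hins : ∀ y : Fin r, mg D y (univ.erase y) = D univ - D (univ.erase y) := by
      intro y
      unfold mg
      rw [Finset.insert_erase (Finset.mem_univ y)]
    have hom := hins w
    have hxu := hins x
    have hDx : 0 ≤ D {x} := by
      rw [← hD.1]
      exact KC1_mono hD (Finset.empty_subset _)
    have hkey : D {x} + mg D w (univ.erase w) ≤ rk r e := by
      have : ((r : ℝ) - 1) * rk r e = ((r : ℝ) - ((1 : ℕ) : ℝ) - 1) * rk r e + rk r e := by
        push_cast
        ring
      linarith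
    have hpair : ∀ b c : Fin r, mg D b {c} = D {b, c} - D {c} := fun b c => rfl
    by_cases hu : ∃ u, u ≠ x ∧ u ≠ w ∧ rk r e < mg D u {w}
    · obtain ⟨u, hux, huw, hug⟩ := hu
      have hDw : 0 ≤ D {w} := by
        rw [← hD.1]
        exact KC1_mono hD (Finset.empty_subset _)
      have e1 := hpair u w
      have e2 := hpair w u
      have e3 := hpair x u
      have e4 := hpair u x
      have e5 : D {w, u} = D {u, w} := by rw [Finset.pair_comm]
      have e6 : D {x, u} = D {u, x} := by rw [Finset.pair_comm]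
      have hwu : mg D w {u} ≤ mg D w (univ.erase w) := by
        refine KC1_mg hD ?_ (by simp)
        intro z hz
        rw [Finset.mem_singleton] at hz
        rw [hz, Finset.mem_erase]
        exact ⟨huw, Finset.mem_univ _⟩
      have hux' : mg D u {x} ≤ 1 - mk r e := by
        refine le_trans (KC1_mg hD ?_ (by simp)) (hnc u hux)
        intro z hz
        rw [Finset.mem_singleton] at hz
        rw [hz, Finset.mem_erase]
        exact ⟨hux.symm, Finset.mem_univ _⟩
      refine KC1_two h1 h2 h3 h4 hA hD hU hnc hux ?_ ?_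
      · linarith
      · intro c hcx hcu
        by_cases hcw : c = w
        · rw [hcw]
          linarith
        · have h5 : mg D c {u} ≤ mg D c {u, w} := by
            refine KC1_mg hD (by simp) ?_
            simp [hcu, hcw]
          have h6 : mg D c {u, w} = D (insert c {u, w}) - D {u, w} := rfl
          have h7 : D (insert c {u, w}) ≤ D (univ.erase x) := by
            refine KC1_mono hD ?_
            intro z hz
            rw [Finset.mem_erase]
            refine ⟨?_, Finset.mem_univ _⟩
            rintro rfl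
            simp only [Finset.mem_insert, Finset.mem_singleton] at hz
            rcases hz with h | h | h
            · exact hcx h.symm
            · exact hux h.symm
            · exact hwx h.symm
          have h8 : (2 : ℝ) / r = 1 / r + 1 / r := by ring
          have h9 : rk r e = 1 / r + e := rfl
          linarith
    · push Not at hu
      have e1 := hpair x w
      have e2 := hpair w x
      have e3 : D {w, x} = D {x, w} := by rw [Finset.pair_comm]
      have hDw : 0 ≤ D {w} := by
        rw [← hD.1]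
        exact KC1_mono hD (Finset.empty_subset _)
      have hwx' : mg D w {x} ≤ mg D w (univ.erase w) := by
        refine KC1_mg hD ?_ (by simp)
        intro z hz
        rw [Finset.mem_singleton] at hz
        rw [hz, Finset.mem_erase]
        exact ⟨hwx.symm, Finset.mem_univ _⟩
      have hs := KC1_sum h3 h4 hA ⟨1, by omega⟩ ⟨1, by omega⟩
      rw [Finset.Icc_self, Finset.sum_singleton] at hs
      have hs1 : sk r e ⟨1, by omega⟩ = bk r e := by
        unfold sk
        rw [if_neg, if_neg]
        · simp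
        · simp only [not_or]
          omega
      rw [hs1] at hs
      refine KC1_two h1 h2 h3 h4 hA hD hU hnc hwx ?_ ?_
      · linarith
      · intro c hcx hcw
        exact hu c hcx hcw

end H773Y
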