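import Pool.Agent.H773R2.UG.Defs4

/-! Two critical roles at the end of the order. -/

set_option linter.unusedVariables false

namespace H773Y

open Finset Pool.Agent.Results.MP_9dddc4_co.UkExponent H773X

theorem KC2_mono {r : ℕ} (D : Finset (Fin r) → ℝ) (hD : SupM D) (A B : Finset (Fin r))
    (h : A ⊆ B) : D A ≤ D B := by
  have key : ∀ C : Finset (Fin r), D A ≤ D (C ∪ A) := by
    intro C
    induction C using Finset.induction_on with
    | empty => simp
    | insert c C _ ih =>
      rw [Finset.insert_union]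
      exact ih.trans (hD.2.1 _ _)
  have := key B
  rwa [Finset.union_eq_left.2 h] at this

theorem KC2_nonneg {r : ℕ} (D : Finset (Fin r) → ℝ) (hD : SupM D) (A : Finset (Fin r)) :
    0 ≤ D A := by
  have := KC2_mono D hD ∅ A (Finset.empty_subset A)
  rwa [hD.1] at this

theorem KC2_perm {r : ℕ} (i0 i1 i2 x b b' : Fin r) (h01 : i0 ≠ i1) (h02 : i0 ≠ i2)
    (h12 : i1 ≠ i2) (hxb : x ≠ b) (hxb' : x ≠ b') (hbb' : b ≠ b') :
    ∃ a : Equiv.Perm (Fin r), a i0 = x ∧ a i1 = b ∧ a i2 = b' := by
  obtain ⟨s1, hs1⟩ : ∃ s : Equiv.Perm (Fin r), s i0 = x :=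
    ⟨Equiv.swap i0 x, Equiv.swap_apply_left _ _⟩
  obtain ⟨s2, hs2, hs2'⟩ : ∃ s : Equiv.Perm (Fin r), s i0 = x ∧ s i1 = b := by
    refine ⟨s1.trans (Equiv.swap (s1 i1) b), ?_, ?_⟩
    · rw [Equiv.trans_apply, hs1, Equiv.swap_apply_of_ne_of_ne _ hxb]
      intro h
      apply h01
      apply s1.injective
      rw [hs1, ← h]
    · rw [Equiv.trans_apply, Equiv.swap_apply_left]
  refine ⟨s2.trans (Equiv.swap (s2 i2) b'), ?_, ?_, ?_⟩
  · rw [Equiv.trans_apply, hs2, Equiv.swap_apply_of_ne_of_ne _ hxb']
    intro h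
    apply h02
    apply s2.injective
    rw [hs2, ← h]
  · rw [Equiv.trans_apply, hs2', Equiv.swap_apply_of_ne_of_ne _ hbb']
    intro h
    apply h12
    apply s2.injective
    rw [hs2', ← h]
  · rw [Equiv.trans_apply, Equiv.swap_apply_left]

theorem KC2 (h1 : S_KSH) (h2 : S_KNM) : S_KC2 := by
  intro r e D x b b' hA hD hDu hxb hxb' hbb' hcb hcb' hbx hb'x
  obtain ⟨n1, n2, n3, n4, n5, n6, n7, n8, n9, n10, n11⟩ := h2 r e hA
  have hr : 5 ≤ r := hA.1
  have hrR : (5 : ℝ) ≤ r := by exact_mod_cast hr
  obtain ⟨a, ha0, ha1, ha2⟩ := KC2_perm (⟨0, by omega⟩ : Fin r) ⟨r - 2, by omega⟩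
    ⟨r - 1, by omega⟩ x b b' (by intro h; have := congrArg Fin.val h; simp at this; omega)
    (by intro h; have := congrArg Fin.val h; simp at this; omega)
    (by intro h; have := congrArg Fin.val h; simp at this; omega) hxb hxb' hbb'
  have hEb : D (univ.erase b) < e + mk r e := by
    unfold mg at hcb
    rw [Finset.insert_erase (mem_univ b)] at hcb
    linarith
  have hEb' : D (univ.erase b') < e + mk r e := by
    unfold mg at hcb'
    rw [Finset.insert_erase (mem_univ b')] at hcb'
    linarith
  have hmem : ∀ (p i : Fin r), a i ∈ pre a (p : ℕ) ↔ (i : ℕ) < p := by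
    intro p i
    unfold pre
    rw [mem_image]
    constructor
    · rintro ⟨k, hk, hki⟩
      rw [a.injective hki] at hk
      exact (mem_filter.1 hk).2
    · intro h
      exact ⟨i, mem_filter.2 ⟨mem_univ _, h⟩, rfl⟩
  refine ⟨a, a.bijective, ?_⟩
  intro p j hpj hsk
  have hp0 : (p : ℕ) ≠ 0 := by
    intro h
    simp [sk, h] at hsk
  have hpr : (p : ℕ) ≠ r - 1 := by
    intro h
    simp [sk, h] at hsk
  have hp1 : 1 ≤ (p : ℕ) := by omega
  have hp2 : (p : ℕ) ≤ r - 2 := by have := p.2; omega
  have hpj' : (p : ℕ) ≤ (j : ℕ) := hpj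
  have hjr := j.2
  rw [h1 r e p j hr hpj, if_neg hp0]
  have hpjR : ((p : ℕ) : ℝ) ≤ ((j : ℕ) : ℝ) := by exact_mod_cast hpj'
  -- the general bound
  have hgen : mg D (a j) (pre a p) ≤ e + mk r e := by
    have k1 : mg D (a j) (pre a p) ≤ D (insert (a j) (pre a p)) := by
      unfold mg
      have := KC2_nonneg D hD (pre a p)
      linarith
    refine k1.trans ?_
    by_cases hj : (j : ℕ) = r - 1
    · refine (KC2_mono D hD _ (univ.erase b) ?_).trans hEb.le
      intro y hy
      rw [mem_erase]
      refine ⟨?_, mem_univ _⟩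
      rintro rfl
      rw [mem_insert] at hy
      rcases hy with hy | hy
      · rw [← ha1] at hy
        have := a.injective hy
        have := congrArg Fin.val this
        simp at this
        omega
      · rw [← ha1, hmem] at hy
        simp at hy
        omega
    · refine (KC2_mono D hD _ (univ.erase b') ?_).trans hEb'.le
      intro y hy
      rw [mem_erase]
      refine ⟨?_, mem_univ _⟩
      rintro rfl
      rw [mem_insert] at hy
      rcases hy with hy | hy
      · rw [← ha2] at hy
        have := a.injective hy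
        have := congrArg Fin.val this
        simp at this
        omega
      · rw [← ha2, hmem] at hy
        simp at hy
        omega
  have hRB : e + mk r e ≤ rk r e + bk r e := by
    unfold rk
    linarith
  set B := bk r e with hB
  have hpre1 : (p : ℕ) = 1 → pre a (p : ℕ) = {x} := by
    intro hp
    ext y
    rw [mem_singleton]
    obtain ⟨i, rfl⟩ := a.surjective y
    rw [hmem, hp, ← ha0]
    constructor
    · intro h
      congr 1
      apply Fin.ext
      show (i : ℕ) = 0
      omega
    · intro h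
      have := congrArg Fin.val (a.injective h)
      simp at this
      omega
  by_cases hp : (p : ℕ) = 1
  · by_cases hj2 : (j : ℕ) = r - 2
    · have haj : a j = b := by
        rw [← ha1]
        congr 1
        exact Fin.ext hj2
      rw [hpre1 hp, haj, if_neg (by omega), if_pos ⟨by omega, by omega⟩, hp, hj2]
      have e1 : ((r - 2 : ℕ) : ℝ) = (r : ℝ) - 2 := by
        rw [Nat.cast_sub (by omega)]
        norm_num
      rw [e1]
      push_cast
      nlinarith
    · by_cases hj1 : (j : ℕ) = r - 1
      · have haj : a j = b' := by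
          rw [← ha2]
          congr 1
          exact Fin.ext hj1
        rw [hpre1 hp, haj, if_pos hj1, if_pos ⟨by omega, by omega⟩, hp, hj1]
        have e1 : ((r - 1 : ℕ) : ℝ) = (r : ℝ) - 1 := by
          rw [Nat.cast_sub (by omega)]
          norm_num
        rw [e1]
        push_cast
        nlinarith
      · have hj3 : (j : ℕ) ≤ r - 3 := by omega
        have hj3R : ((j : ℕ) : ℝ) ≤ (r : ℝ) - 3 := by
          have : ((j : ℕ) : ℝ) ≤ ((r - 3 : ℕ) : ℝ) := by exact_mod_cast hj3
          rwa [Nat.cast_sub (by omega), show ((3 : ℕ) : ℝ) = 3 by norm_num] at this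
        refine hgen.trans (hRB.trans ?_)
        rw [if_neg hj1, hp]
        have e0 : (0 : ℝ) ≤ 1 / r := by positivity
        split_ifs with h
        · push_cast
          nlinarith [mul_nonneg (sub_nonneg.2 hj3R) n1]
        · have hj1' : (j : ℕ) = 1 := by omega
          rw [hj1']
          push_cast
          nlinarith [mul_nonneg (sub_nonneg.2 hrR) n1]
  · have hp3 : 2 ≤ (p : ℕ) := by omega
    have hp3R : (2 : ℝ) ≤ ((p : ℕ) : ℝ) := by exact_mod_cast hp3
    refine hgen.trans (hRB.trans ?_)
    have e0 : (0 : ℝ) ≤ 1 / r := by positivity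
    by_cases hj1 : (j : ℕ) = r - 1
    · rw [if_pos hj1, hj1]
      have e1 : ((r - 1 : ℕ) : ℝ) = (r : ℝ) - 1 := by
        rw [Nat.cast_sub (by omega)]
        norm_num
      rw [e1]
      split_ifs with h
      · have : (p : ℕ) = 2 := by omega
        rw [this]
        push_cast
        nlinarith
      · have hp4 : 3 ≤ (p : ℕ) := by omega
        have hp4R : (3 : ℝ) ≤ ((p : ℕ) : ℝ) := by exact_mod_cast hp4
        nlinarith [mul_nonneg (sub_nonneg.2 hp4R) n1]
    · have hj2R : ((j : ℕ) : ℝ) ≤ (r : ℝ) - 2 := by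
        have hj2 : (j : ℕ) ≤ r - 2 := by omega
        have : ((j : ℕ) : ℝ) ≤ ((r - 2 : ℕ) : ℝ) := by exact_mod_cast hj2
        rwa [Nat.cast_sub (by omega), show ((2 : ℕ) : ℝ) = 2 by norm_num] at this
      rw [if_neg hj1]
      split_ifs with h
      · have : (p : ℕ) = 2 := by omega
        rw [this]
        push_cast
        nlinarith [mul_nonneg (sub_nonneg.2 hj2R) n1]
      · have hp4 : 3 ≤ (p : ℕ) := by omega
        have hp4R : (3 : ℝ) ≤ ((p : ℕ) : ℝ) := by exact_mod_cast hp4
        nlinarith [mul_nonneg (sub_nonneg.2 hp4R) n1, mul_nonneg (sub_nonneg.2 hj2R) n1]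

end H773Y
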