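import Pool.Agent.H773R2.UG.Defs4

/-! KC3: two critical roles at the positions `1, 2` -/

set_option linter.unusedVariables false

namespace H773Y

open Finset Pool.Agent.Results.MP_9dddc4_co.UkExponent H773X

theorem KC3_mono {r : ℕ} {D : Finset (Fin r) → ℝ} (h : SupM D) {A B : Finset (Fin r)}
    (hAB : A ⊆ B) : D A ≤ D B := by
  have key : ∀ C : Finset (Fin r), D A ≤ D (A ∪ C) := by
    intro C
    induction C using Finset.induction_on with
    | empty => simp
    | insert c C hc ih =>
      rw [Finset.union_insert]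
      exact ih.trans (h.2.1 _ _)
  have h2 := key B
  rwa [Finset.union_eq_right.mpr hAB] at h2

theorem KC3_nonneg {r : ℕ} {D : Finset (Fin r) → ℝ} (h : SupM D) (A : Finset (Fin r)) :
    0 ≤ D A := by
  have := KC3_mono h (Finset.empty_subset A)
  rwa [h.1] at this

theorem KC3_mem_pre {r : ℕ} (a : Fin r → Fin r) (p : ℕ) (c : Fin r) :
    c ∈ pre a p ↔ ∃ i : Fin r, (i : ℕ) < p ∧ a i = c := by
  simp [pre]

theorem KC3_perm {r : ℕ} (i j k x y z : Fin r) (hij : i ≠ j) (hik : i ≠ k) (hjk : j ≠ k)
    (hxy : x ≠ y) (hxz : x ≠ z) (hyz : y ≠ z) :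
    ∃ a : Fin r → Fin r, Function.Bijective a ∧ a i = x ∧ a j = y ∧ a k = z := by
  let e1 : Equiv.Perm (Fin r) := Equiv.swap i x
  let e2 : Equiv.Perm (Fin r) := Equiv.swap (e1 j) y
  let e3 : Equiv.Perm (Fin r) := Equiv.swap (e2 (e1 k)) z
  have h1 : e1 i = x := Equiv.swap_apply_left i x
  have h2 : x ≠ e1 j := by
    rw [← h1]
    intro h
    exact hij (e1.injective h)
  have h3 : e2 (e1 i) = x := by
    rw [h1]
    exact Equiv.swap_apply_of_ne_of_ne h2 hxy
  have h4 : e2 (e1 j) = y := Equiv.swap_apply_left _ _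
  have h5 : x ≠ e2 (e1 k) := by
    rw [← h3]
    intro h
    exact hik (e1.injective (e2.injective h))
  have h6 : y ≠ e2 (e1 k) := by
    rw [← h4]
    intro h
    exact hjk (e1.injective (e2.injective h))
  refine ⟨fun l => e3 (e2 (e1 l)), e3.bijective.comp ((e2.bijective).comp e1.bijective),
    ?_, ?_, ?_⟩
  · show e3 (e2 (e1 i)) = x
    rw [h3]
    exact Equiv.swap_apply_of_ne_of_ne h5 hxz
  · show e3 (e2 (e1 j)) = y
    rw [h4]
    exact Equiv.swap_apply_of_ne_of_ne h6 hyz
  · show e3 (e2 (e1 k)) = z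
    exact Equiv.swap_apply_left _ _

theorem KC3 (h1 : S_GRM) (h2 : S_KGP) (h3 : S_KSH) (h4 : S_KNM) : S_KC3 := by
  intro r e D w b b' hadk hS hD hwb hwb' hbb' hcb hcb' hR hlast
  have hr : 5 ≤ r := hadk.1
  have hrR : (5 : ℝ) ≤ r := by exact_mod_cast hr
  obtain ⟨n1, n2, n3, n4, n5, n6, n7, n8, n9, n10, n11⟩ := h4 r e hadk
  have he : 0 ≤ e := by
    refine le_trans ?_ hadk.2.1
    have : 0 < (r : ℝ) * ((r : ℝ) - 2) := mul_pos (by linarith) (by linarith)
    positivity
  let i0 : Fin r := ⟨0, by omega⟩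
  let i1 : Fin r := ⟨1, by omega⟩
  let i2 : Fin r := ⟨2, by omega⟩
  have h01 : i0 ≠ i1 := by intro h; have := congrArg Fin.val h; simp [i0, i1] at this
  have h02 : i0 ≠ i2 := by intro h; have := congrArg Fin.val h; simp [i0, i2] at this
  have h12 : i1 ≠ i2 := by intro h; have := congrArg Fin.val h; simp [i1, i2] at this
  obtain ⟨c, hc, hc0, hc1, hc2⟩ := KC3_perm i0 i1 i2 w b b' h01 h02 h12 hwb hwb' hbb'
  obtain ⟨a, haG, hac⟩ := h1 r 3 D c hc
  have ha := haG.1
  have ha0 : a i0 = w := (hac i0 (by simp [i0])).trans hc0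
  have ha1 : a i1 = b := (hac i1 (by simp [i1])).trans hc1
  have ha2 : a i2 = b' := (hac i2 (by simp [i2])).trans hc2
  have hi0 : (i0 : ℕ) = 0 := rfl
  have hi1 : (i1 : ℕ) = 1 := rfl
  have hi2 : (i2 : ℕ) = 2 := rfl
  -- critical bounds
  have hDb : D (univ.erase b) < e + mk r e := by
    unfold mg at hcb
    rw [Finset.insert_erase (Finset.mem_univ b)] at hcb
    linarith
  have hDb' : D (univ.erase b') < e + mk r e := by
    unfold mg at hcb'
    rw [Finset.insert_erase (Finset.mem_univ b')] at hcb'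
    linarith
  have hbw : rk r e < D {b, w} := by
    unfold mg at hR
    have := KC3_nonneg hS {w}
    linarith
  -- prefixes
  have hp1 : pre a 1 = {w} := by
    ext x
    rw [KC3_mem_pre, Finset.mem_singleton]
    constructor
    · rintro ⟨i, hi, rfl⟩
      have : i = i0 := Fin.ext (by rw [hi0]; omega)
      rw [this, ha0]
    · rintro rfl
      exact ⟨i0, by rw [hi0]; omega, ha0⟩
  have hp2 : pre a 2 = {b, w} := by
    ext x
    rw [KC3_mem_pre, Finset.mem_insert, Finset.mem_singleton]
    constructor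
    · rintro ⟨i, hi, rfl⟩
      rcases Nat.lt_or_ge (i : ℕ) 1 with h | h
      · right
        have : i = i0 := Fin.ext (by rw [hi0]; omega)
        rw [this, ha0]
      · left
        have : i = i1 := Fin.ext (by rw [hi1]; omega)
        rw [this, ha1]
    · rintro (rfl | rfl)
      · exact ⟨i1, by rw [hi1]; omega, ha1⟩
      · exact ⟨i0, by rw [hi0]; omega, ha0⟩
  -- late roles are different from w, b, b'
  have hne : ∀ j : Fin r, 3 ≤ (j : ℕ) → a j ≠ w ∧ a j ≠ b ∧ a j ≠ b' := by
    intro j hj
    refine ⟨?_, ?_, ?_⟩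
    · intro h
      have : j = i0 := ha.1 (h.trans ha0.symm)
      rw [this, hi0] at hj; omega
    · intro h
      have : j = i1 := ha.1 (h.trans ha1.symm)
      rw [this, hi1] at hj; omega
    · intro h
      have : j = i2 := ha.1 (h.trans ha2.symm)
      rw [this, hi2] at hj; omega
  -- numbers
  have hr1 : 1 / (r : ℝ) + 0 ≤ rk r e := by unfold rk; linarith
  have hMR : mk r e - 1 / r ≤ rk r e := by
    have : (2 : ℝ) / r = 1 / r + 1 / r := by ring
    linarith
  -- late marginals
  have hlate : ∀ j : Fin r, 3 ≤ (j : ℕ) → mg D (a j) {b, w} < rk r e := by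
    intro j hj
    obtain ⟨hjw, hjb, hjb'⟩ := hne j hj
    have hsub : insert (a j) {b, w} ⊆ univ.erase b' := by
      intro x hx
      rw [Finset.mem_erase]
      refine ⟨?_, Finset.mem_univ _⟩
      rintro rfl
      simp only [Finset.mem_insert, Finset.mem_singleton] at hx
      rcases hx with h | h | h
      · exact hjb' h.symm
      · exact hbb' h.symm
      · exact hwb' h.symm
    have := KC3_mono hS hsub
    unfold mg
    have hRdef : rk r e = 1 / r + e := rfl
    linarith
  have hlate1 : ∀ j : Fin r, 3 ≤ (j : ℕ) → mg D (a j) {w} < rk r e := by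
    intro j hj
    obtain ⟨hjw, hjb, hjb'⟩ := hne j hj
    have hsm := hS.2.2 {w} (a j) b (by simpa using hjw) (by simpa using hwb.symm) hjb
    have h5 := hlate j hj
    unfold mg at h5 ⊢
    linarith
  refine ⟨a, ha, ?_⟩
  intro p j hpj hp
  have hpj' : (p : ℕ) ≤ (j : ℕ) := hpj
  have hjr : (j : ℕ) < r := j.2
  have hsum := h3 r e p j hr hpj
  have hp0 : (p : ℕ) ≠ 0 := by
    intro h
    unfold sk at hp
    rw [if_pos (Or.inl h)] at hp
    exact lt_irrefl _ hp
  have hpr : (p : ℕ) ≠ r - 1 := by
    intro h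
    unfold sk at hp
    rw [if_pos (Or.inr h)] at hp
    exact lt_irrefl _ hp
  rw [if_neg hp0] at hsum
  by_cases hp3 : 3 ≤ (p : ℕ)
  · refine h2 r 3 e D a hadk hS hD (by omega) haG ?_ p j hp3 hpj hp (by omega)
    intro l hl
    obtain ⟨hjw, hjb, hjb'⟩ := hne l hl
    refine hlast (a l) hjw hjb hjb' (pre a l) ?_ ?_ ?_ ?_
    · rw [KC3_mem_pre]; exact ⟨i0, by rw [hi0]; omega, ha0⟩
    · rw [KC3_mem_pre]; exact ⟨i1, by rw [hi1]; omega, ha1⟩
    · rw [KC3_mem_pre]; exact ⟨i2, by rw [hi2]; omega, ha2⟩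
    · rw [KC3_mem_pre]
      rintro ⟨i, hi, hil⟩
      have : i = l := ha.1 hil
      rw [this] at hi
      omega
  · -- total bound of the partial sums for `j ≥ 3`
    have hbd : 3 ≤ (j : ℕ) → ∑ l ∈ Icc p j, sk r e l ≤ 1 - rk r e := by
      intro hj3
      rw [hsum, if_pos (⟨by omega, by omega⟩ : (p : ℕ) ≤ 2 ∧ 2 ≤ (j : ℕ)), ← n11]
      have hp1R : (1 : ℝ) ≤ ((p : ℕ) : ℝ) := by exact_mod_cast Nat.one_le_iff_ne_zero.2 hp0
      by_cases hjr1 : (j : ℕ) = r - 1
      · rw [if_pos hjr1]
        have : ((j : ℕ) : ℝ) = (r : ℝ) - 1 := by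
          rw [hjr1, Nat.cast_sub (by omega)]; simp
        rw [this]
        nlinarith
      · rw [if_neg hjr1]
        have : ((j : ℕ) : ℝ) ≤ (r : ℝ) - 2 := by
          have h6 : (j : ℕ) + 2 ≤ r := by omega
          have h7 : (((j : ℕ) : ℝ)) + 2 ≤ r := by exact_mod_cast h6
          linarith
        nlinarith
    rcases (by omega : (p : ℕ) = 1 ∨ (p : ℕ) = 2) with hp1' | hp2'
    · have hppre : pre a p = {w} := by rw [hp1', hp1]
      rw [hppre]
      rcases (by omega : (j : ℕ) = 1 ∨ (j : ℕ) = 2 ∨ 3 ≤ (j : ℕ)) with hj | hj | hj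
      · have hjeq : j = i1 := Fin.ext (by rw [hj])
        rw [hjeq, ha1]
        rw [hjeq] at hsum
        rw [hsum, hi1, hp1', if_neg (by omega), if_neg (by omega)]
        have hsub : ({b, w} : Finset (Fin r)) ⊆ univ.erase b' := by
          intro x hx
          rw [Finset.mem_erase]
          refine ⟨?_, Finset.mem_univ _⟩
          rintro rfl
          simp only [Finset.mem_insert, Finset.mem_singleton] at hx
          rcases hx with h | h
          · exact hbb' h.symm
          · exact hwb' h.symm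
        have h5 := KC3_mono hS hsub
        have h6 := KC3_nonneg hS {w}
        unfold mg
        have h7 : (0 : ℝ) ≤ 1 / r := by positivity
        push_cast
        linarith
      · have hjeq : j = i2 := Fin.ext (by rw [hj])
        rw [hjeq, ha2]
        rw [hjeq] at hsum
        rw [hsum, hi2, hp1', if_neg (by omega), if_pos (⟨by omega, by omega⟩)]
        have hsub : ({b', w} : Finset (Fin r)) ⊆ univ.erase b := by
          intro x hx
          rw [Finset.mem_erase]
          refine ⟨?_, Finset.mem_univ _⟩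
          rintro rfl
          simp only [Finset.mem_insert, Finset.mem_singleton] at hx
          rcases hx with h | h
          · exact hbb' h
          · exact hwb h.symm
        have h5 := KC3_mono hS hsub
        have h6 := KC3_nonneg hS {w}
        unfold mg
        push_cast
        linarith
      · have h5 := hlate1 j hj
        have h6 := hbd hj
        linarith
    · have hppre : pre a p = {b, w} := by rw [hp2', hp2]
      rw [hppre]
      rcases (by omega : (j : ℕ) = 2 ∨ 3 ≤ (j : ℕ)) with hj | hj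
      · have hjeq : j = i2 := Fin.ext (by rw [hj])
        rw [hjeq, ha2]
        rw [hjeq] at hsum
        rw [hsum, hi2, hp2', if_neg (by omega), if_pos (⟨by omega, by omega⟩)]
        have h5 := KC3_mono hS (Finset.subset_univ (insert b' {b, w}))
        unfold mg
        have hRdef : rk r e = 1 / r + e := rfl
        push_cast
        linarith
      · have h5 := hlate j hj
        have h6 := hbd hj
        linarith

end H773Y
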