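import Pool.Agent.H773R2.UG.Defs4

/-! At least two critical roles. -/

set_option linter.unusedVariables false

namespace H773Y

open Finset Pool.Agent.Results.MP_9dddc4_co.UkExponent H773X

theorem KCX_mono {r : ℕ} (D : Finset (Fin r) → ℝ) (hD : SupM D) (A B : Finset (Fin r))
    (h : A ⊆ B) : D A ≤ D B := by
  have key : ∀ C : Finset (Fin r), D A ≤ D (C ∪ A) := by
    intro C
    induction C using Finset.induction_on with
    | empty => simp
    | insert c C _ ih =>
      rw [Finset.insert_union]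
      exact ih.trans (hD.2.1 _ _)
  have := key B
  rwa [Finset.union_eq_left.2 h] at this

theorem KCX_nonneg {r : ℕ} (D : Finset (Fin r) → ℝ) (hD : SupM D) (A : Finset (Fin r)) :
    0 ≤ D A := by
  have := KCX_mono D hD ∅ A (Finset.empty_subset A)
  rwa [hD.1] at this

theorem KCX_mg_mono {r : ℕ} (D : Finset (Fin r) → ℝ) (hD : SupM D) (c : Fin r)
    (A : Finset (Fin r)) (hc : c ∉ A) :
    ∀ C : Finset (Fin r), c ∉ C → mg D c A ≤ mg D c (C ∪ A) := by
  intro C
  induction C using Finset.induction_on with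
  | empty => intro _; simp
  | insert y C hy ih =>
    intro hcC
    rw [mem_insert, not_or] at hcC
    refine (ih hcC.2).trans ?_
    rw [Finset.insert_union]
    by_cases hyA : y ∈ C ∪ A
    · rw [Finset.insert_eq_of_mem hyA]
    · have hcA : c ∉ C ∪ A := by
        rw [mem_union, not_or]
        exact ⟨hcC.2, hc⟩
      have := hD.2.2 (C ∪ A) c y hcA hyA hcC.1
      unfold mg
      linarith

/-- the main argument: `R < mg D b {w}`, `R < mg D b {z}` -/
theorem KCX_main (h1 : S_KC2) (h2 : S_KC3) (h3 : S_KNM) (r : ℕ) (e : ℝ)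
    (D : Finset (Fin r) → ℝ) (b b' w z : Fin r) (hA : Adk r e) (hD : SupM D)
    (hDu : D univ ≤ 1 + e) (hbb' : b ≠ b') (hcb : 1 - mk r e < mg D b (univ.erase b))
    (hcb' : 1 - mk r e < mg D b' (univ.erase b')) (hwb : w ≠ b) (hwb' : w ≠ b') (hzb : z ≠ b)
    (hzb' : z ≠ b') (hwz : w ≠ z) (hw : rk r e < mg D b {w}) (hz : rk r e < mg D b {z}) :
    Fits D (sk r e) := by
  obtain ⟨n1, n2, n3, n4, n5, n6, n7, n8, n9, n10, n11⟩ := h3 r e hA
  have hEb' : D (univ.erase b') < e + mk r e := by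
    unfold mg at hcb'
    rw [Finset.insert_erase (mem_univ b')] at hcb'
    linarith
  by_contra hcon
  -- the weight of `b`
  have hDb : 2 * rk r e - e - mk r e < D {b} := by
    have k1 := hD.2.2 {b} w z (by simpa using hwb) (by simpa using hzb) hwz
    have k2 : D (insert w (insert z {b})) ≤ D (univ.erase b') := by
      apply KCX_mono D hD
      intro y hy
      rw [mem_erase]
      refine ⟨?_, mem_univ _⟩
      rintro rfl
      simp only [mem_insert, mem_singleton] at hy
      rcases hy with hy | hy | hy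
      · exact hwb' hy.symm
      · exact hzb' hy.symm
      · exact hbb' hy.symm
    unfold mg at hw hz
    have k3 := KCX_nonneg D hD {w}
    have k4 := KCX_nonneg D hD {z}
    have k5 : insert b ({w} : Finset (Fin r)) = insert w {b} := Finset.pair_comm b w
    have k6 : insert b ({z} : Finset (Fin r)) = insert z {b} := Finset.pair_comm b z
    rw [k5] at hw
    rw [k6] at hz
    linarith
  -- KC3 does not apply
  have hex : ∃ c, c ≠ w ∧ c ≠ b ∧ c ≠ b' ∧ ∃ A : Finset (Fin r), w ∈ A ∧ b ∈ A ∧ b' ∈ A ∧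
      c ∉ A ∧ 1 - mk r e < mg D c A := by
    by_contra hne
    push Not at hne
    exact hcon (h2 r e D w b b' hA hD hDu hwb hwb' hbb' hcb hcb' hw
      (fun c c1 c2 c3 A a1 a2 a3 a4 => hne c c1 c2 c3 A a1 a2 a3 a4))
  obtain ⟨c, hcw, hcb1, hcb1', A, hwA, hbA, hb'A, hcA, hcc⟩ := hex
  have hcrit : 1 - mk r e < mg D c (univ.erase c) := by
    refine hcc.trans_le ?_
    have k1 := KCX_mg_mono D hD c A hcA (univ.erase c) (by simp)
    have k2 : univ.erase c ∪ A = univ.erase c := by
      rw [Finset.union_eq_left]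
      intro y hy
      rw [mem_erase]
      refine ⟨?_, mem_univ _⟩
      rintro rfl
      exact hcA hy
    rwa [k2] at k1
  have hno : ¬ (mg D b' {b} ≤ rk r e ∧ mg D c {b} ≤ rk r e) := by
    rintro ⟨k1, k2⟩
    exact hcon (h1 r e D b b' c hA hD hDu hbb' hcb1.symm hcb1'.symm hcb' hcrit k1 k2)
  have hc2 : mg D c {b} ≤ rk r e := by
    have k1 : D (insert c {b}) ≤ D (univ.erase b') := by
      apply KCX_mono D hD
      intro y hy
      rw [mem_erase]
      refine ⟨?_, mem_univ _⟩
      rintro rfl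
      simp only [mem_insert, mem_singleton] at hy
      rcases hy with hy | hy
      · exact hcb1' hy.symm
      · exact hbb' hy.symm
    unfold mg
    have k2 : rk r e = 1 / r + e := rfl
    have k3 : (3 : ℝ) / r = 3 * (1 / r) := by ring
    rw [k3] at n3
    linarith
  have hb'2 : rk r e < mg D b' {b} := by
    by_contra hh
    exact hno ⟨not_lt.1 hh, hc2⟩
  have k1 : D (insert b' {b}) ≤ D A := by
    apply KCX_mono D hD
    intro y hy
    simp only [mem_insert, mem_singleton] at hy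
    rcases hy with rfl | rfl
    · exact hb'A
    · exact hbA
  have k2 : D (insert c A) ≤ D univ := KCX_mono D hD _ _ (Finset.subset_univ _)
  unfold mg at hb'2 hcc
  have k3 : rk r e = 1 / r + e := rfl
  have k4 : (3 : ℝ) / r = 3 * (1 / r) := by ring
  rw [k4] at n3
  linarith

theorem KCX (h1 : S_KC2) (h2 : S_KC3) (h3 : S_KNM) : S_KCX := by
  intro r e D b b' hA hD hDu hbb' hcb hcb'
  have hr : 5 ≤ r := hA.1
  by_contra hcon
  have hu : ∀ u : Fin r, u ≠ b → u ≠ b' → rk r e < mg D b {u} ∨ rk r e < mg D b' {u} := by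
    intro u hub hub'
    by_contra hh
    push Not at hh
    exact hcon (h1 r e D u b b' hA hD hDu hub hub' hbb' hcb hcb' hh.1 hh.2)
  -- three roles
  have hcard : 3 ≤ (univ \ {b, b'} : Finset (Fin r)).card := by
    rw [Finset.card_sdiff_of_subset (Finset.subset_univ _), Finset.card_univ, Fintype.card_fin,
      Finset.card_pair hbb']
    omega
  obtain ⟨S, hS1, hS2⟩ := Finset.exists_subset_card_eq hcard
  obtain ⟨u1, u2, u3, h12, h13, h23, hSe⟩ := Finset.card_eq_three.1 hS2
  have hmem : ∀ u ∈ S, u ≠ b ∧ u ≠ b' := by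
    intro u hu
    have := hS1 hu
    simp only [mem_sdiff, mem_insert, mem_singleton, not_or] at this
    exact this.2
  have m1 := hmem u1 (by rw [hSe]; simp)
  have m2 := hmem u2 (by rw [hSe]; simp)
  have m3 := hmem u3 (by rw [hSe]; simp)
  have f1 : ∀ w z : Fin r, w ≠ b ∧ w ≠ b' → z ≠ b ∧ z ≠ b' → w ≠ z →
      rk r e < mg D b {w} → rk r e < mg D b {z} → False := by
    intro w z hw hz hwz k1 k2
    exact hcon (KCX_main h1 h2 h3 r e D b b' w z hA hD hDu hbb' hcb hcb' hw.1 hw.2 hz.1 hz.2 hwz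
      k1 k2)
  have f2 : ∀ w z : Fin r, w ≠ b ∧ w ≠ b' → z ≠ b ∧ z ≠ b' → w ≠ z →
      rk r e < mg D b' {w} → rk r e < mg D b' {z} → False := by
    intro w z hw hz hwz k1 k2
    exact hcon (KCX_main h1 h2 h3 r e D b' b w z hA hD hDu hbb'.symm hcb' hcb hw.2 hw.1 hz.2 hz.1
      hwz k1 k2)
  rcases hu u1 m1.1 m1.2 with k1 | k1 <;> rcases hu u2 m2.1 m2.2 with k2 | k2 <;>
    rcases hu u3 m3.1 m3.2 with k3 | k3
  · exact f1 u1 u2 m1 m2 h12 k1 k2
  · exact f1 u1 u2 m1 m2 h12 k1 k2
  · exact f1 u1 u3 m1 m3 h13 k1 k3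
  · exact f2 u2 u3 m2 m3 h23 k2 k3
  · exact f1 u2 u3 m2 m3 h23 k2 k3
  · exact f2 u1 u3 m1 m3 h13 k1 k3
  · exact f2 u1 u2 m1 m2 h12 k1 k2
  · exact f2 u1 u2 m1 m2 h12 k1 k2

end H773Y
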