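import Pool.Agent.H773R2.UG.Defs4

/-! KGP: the greedy range (helper501). -/

set_option linter.unusedVariables false

namespace H773Y

open Finset Pool.Agent.Results.MP_9dddc4_co.UkExponent H773X

theorem KGP_nonneg {r : ℕ} (D : Finset (Fin r) → ℝ) (h : SupM D) (A : Finset (Fin r)) :
    0 ≤ D A := by
  induction A using Finset.induction_on with
  | empty => exact h.1.ge
  | insert a A _ ih => exact ih.trans (h.2.1 A a)

theorem KGP (h1 : S_GBM) (h2 : S_KSH) (h3 : S_KNM) : S_KGP := by
  intro r m e D a hA hS hu hm hG hlast p j hmp hpj hsp hex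
  obtain ⟨n1, n2, n3, n4, n5, n6, n7, n8, n9, n10, n11⟩ := h3 r e hA
  have hr5 : 5 ≤ r := hA.1
  have hsh := h2 r e p j hr5 hpj
  have hgb := h1 r m D a hS hG p j hmp hpj
  have hD0 := KGP_nonneg D hS (pre a p)
  have hgb' : (((j : ℕ) : ℝ) - ((p : ℕ) : ℝ) + 1) * mg D (a j) (pre a p) ≤ 1 + e := by linarith
  have hpj' : (p : ℕ) ≤ (j : ℕ) := hpj
  have hjr : (j : ℕ) < r := j.2
  have hp0 : (p : ℕ) ≠ 0 := by omega
  have hp1 : (p : ℕ) ≠ r - 1 := by
    intro h
    unfold sk at hsp
    rw [if_pos (Or.inr h)] at hsp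
    exact lt_irrefl _ hsp
  by_cases hjp : j = p
  · subst hjp
    refine (hlast j hmp).trans ?_
    rw [Finset.Icc_self, Finset.sum_singleton]
    have h4 : sk r e j ≤ mk r e := by
      unfold sk mk
      rw [if_neg (by push Not; exact ⟨hp0, hp1⟩)]
      by_cases hj2 : (j : ℕ) = 2
      · rw [if_pos hj2]
        exact le_max_right _ _
      · rw [if_neg hj2]
        exact le_max_left _ _
    linarith
  · have hlt : (p : ℕ) < (j : ℕ) := by
      have h4 : (j : ℕ) ≠ (p : ℕ) := fun h => hjp (Fin.ext h)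
      omega
    obtain ⟨L, hL⟩ : ∃ L : ℕ, (j : ℕ) + 1 = (p : ℕ) + L := ⟨(j : ℕ) + 1 - (p : ℕ), by omega⟩
    have hL2 : 2 ≤ L := by omega
    have hLr : (((j : ℕ) : ℝ) - ((p : ℕ) : ℝ) + 1) = (L : ℝ) := by
      have h4 : (((j : ℕ) + 1 : ℕ) : ℝ) = (((p : ℕ) + L : ℕ) : ℝ) := by rw [hL]
      push_cast at h4
      linarith
    have hL0 : (0 : ℝ) < L := by
      have : 0 < L := by omega
      exact_mod_cast this
    rw [hLr] at hsh hgb'
    rw [hsh, if_neg hp0]
    set x := mg D (a j) (pre a p) with hx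
    set B := bk r e with hB
    have key : ∀ y : ℝ, 1 + e ≤ (L : ℝ) * y → x ≤ y := by
      intro y hy
      exact le_of_mul_le_mul_left (hgb'.trans hy) hL0
    have hrR : ((r - 1 : ℕ) : ℝ) = (r : ℝ) - 1 := by
      rw [Nat.cast_sub (by omega)]
      norm_num
    have hrR2 : ((r - 2 : ℕ) : ℝ) = (r : ℝ) - 2 := by
      rw [Nat.cast_sub (by omega)]
      norm_num
    by_cases hj1 : (j : ℕ) = r - 1
    · rw [if_pos hj1]
      by_cases hp2 : (p : ℕ) ≤ 2
      · rw [if_pos ⟨hp2, by omega⟩]
        rcases (show (p : ℕ) = 1 ∨ (p : ℕ) = 2 by omega) with hp | hp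
        · have hLe : L = r - 1 := by omega
          have hLe' : (L : ℝ) = (r : ℝ) - 1 := by rw [hLe, hrR]
          have h4 := key (rk r e) (by rw [hLe']; exact n7)
          rw [hLe']
          linarith
        · have hLe : L = r - 2 := by omega
          have hLe' : (L : ℝ) = (r : ℝ) - 2 := by rw [hLe, hrR2]
          have h4 := key (rk r e + B) (by rw [hLe']; exact n8)
          rw [hLe']
          linarith
      · rw [if_neg (fun h => hp2 h.1)]
        have h4 := key (1 - ((L : ℝ) - 1) * B) (n10 L hL2 (by omega))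
        linarith
    · rw [if_neg hj1]
      by_cases hp2 : (p : ℕ) ≤ 2
      · have hL3 : L ≤ r - 3 := by
          rcases (show (p : ℕ) = 1 ∨ (p : ℕ) = 2 by omega) with hp | hp
          · have := hex hp
            omega
          · omega
        rw [if_pos ⟨hp2, by omega⟩]
        have h4 := key (1 - 1 / r - ((L : ℝ) - 1) * B) (n6 L hL2 hL3)
        linarith
      · rw [if_neg (fun h => hp2 h.1)]
        have h4 := key (1 - (L : ℝ) * B) (n9 L hL2 (by omega))
        linarith

end H773Y
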