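import Pool.Agent.H773R2.UG.Defs4

namespace H773Y

/-- basic data: with `n = r`, `u = 1/r`, `B = bk r e` -/
theorem KNM_basic (r : ℕ) (e : ℝ) (h : Adk r e) :
    (5 : ℝ) ≤ (r : ℝ) ∧ (r : ℝ) * (1 / (r : ℝ)) = 1 ∧ 0 < 1 / (r : ℝ) ∧
    ((r : ℝ) - 3) * bk r e = 1 - 2 * (1 / (r : ℝ)) - e ∧ 0 ≤ bk r e ∧
    1 / (r : ℝ) ≤ ((r : ℝ) - 2) * e ∧ 0 ≤ e ∧
    ((r : ℝ) - 2) * bk r e ≤ ((r : ℝ) - 1) * (1 / (r : ℝ)) := by
  obtain ⟨h5, hlo, hhi⟩ := h
  have hn : (5 : ℝ) ≤ (r : ℝ) := by exact_mod_cast h5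
  have hn0 : (0 : ℝ) < (r : ℝ) := by linarith
  have hn3 : (0 : ℝ) < (r : ℝ) - 3 := by linarith
  have hn2 : (0 : ℝ) < (r : ℝ) - 2 := by linarith
  have hu : (r : ℝ) * (1 / (r : ℝ)) = 1 := by field_simp
  have hu0 : 0 < 1 / (r : ℝ) := by positivity
  have hB : ((r : ℝ) - 3) * bk r e = 1 - 2 * (1 / (r : ℝ)) - e := by
    unfold bk
    have hne : (r : ℝ) - 3 ≠ 0 := ne_of_gt hn3
    have hne0 : (r : ℝ) ≠ 0 := ne_of_gt hn0
    field_simp
  have hB0 : 0 ≤ bk r e := by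
    unfold bk
    apply div_nonneg
    · linarith
    · exact hn3.le
  have hlo' : 1 / (r : ℝ) ≤ ((r : ℝ) - 2) * e := by
    have h1 : ((r : ℝ) - 2) * (1 / ((r : ℝ) * ((r : ℝ) - 2))) ≤ ((r : ℝ) - 2) * e :=
      mul_le_mul_of_nonneg_left hlo hn2.le
    have h2 : ((r : ℝ) - 2) * (1 / ((r : ℝ) * ((r : ℝ) - 2))) = 1 / (r : ℝ) := by
      have hne : (r : ℝ) - 2 ≠ 0 := ne_of_gt hn2
      have hne0 : (r : ℝ) ≠ 0 := ne_of_gt hn0
      field_simp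
    linarith
  have he0 : 0 ≤ e := by
    by_contra hc
    push Not at hc
    nlinarith
  refine ⟨hn, hu, hu0, hB, hB0, hlo', he0, ?_⟩
  have key : ((r : ℝ) - 3) * (((r : ℝ) - 1) * (1 / (r : ℝ)) - ((r : ℝ) - 2) * bk r e) =
      ((r : ℝ) - 2) * e - 1 / (r : ℝ) := by
    generalize bk r e = B at *
    generalize 1 / (r : ℝ) = u at *
    have e1 : ((r : ℝ) - 3) * (((r : ℝ) - 1) * u - ((r : ℝ) - 2) * B) =
        ((r : ℝ) - 3) * ((r : ℝ) - 1) * u - ((r : ℝ) - 2) * (((r : ℝ) - 3) * B) := by ring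
    rw [e1, hB]
    have e2 : ((r : ℝ) - 3) * ((r : ℝ) - 1) * u = ((r : ℝ) * u) * r - 4 * ((r : ℝ) * u) + 3 * u := by
      ring
    rw [e2, hu]
    have e3 : ((r : ℝ) - 2) * (1 - 2 * u - e) = (r : ℝ) - 2 - 2 * (r * u) + 4 * u
      - ((r : ℝ) - 2) * e := by ring
    rw [e3, hu]
    ring
  have hnn : 0 ≤ ((r : ℝ) - 3) * (((r : ℝ) - 1) * (1 / (r : ℝ)) - ((r : ℝ) - 2) * bk r e) := by
    rw [key]; linarith
  have := nonneg_of_mul_nonneg_right hnn hn3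
  linarith

theorem KNM_item6 (r : ℕ) (e : ℝ) (h : Adk r e) (l : ℕ) (h2 : 2 ≤ l) (hl : l ≤ r - 3) :
    1 + e ≤ l * (1 - 1 / r - ((l : ℝ) - 1) * bk r e) := by
  obtain ⟨hn, hu, hu0, hB, hB0, hlo, he0, hBu⟩ := KNM_basic r e h
  have h5 := h.1
  have hl2 : (2 : ℝ) ≤ (l : ℝ) := by exact_mod_cast h2
  have hl3 : (l : ℝ) ≤ (r : ℝ) - 3 := by
    have : l + 3 ≤ r := by omega
    have : ((l + 3 : ℕ) : ℝ) ≤ (r : ℝ) := by exact_mod_cast this
    push_cast at this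
    linarith
  generalize bk r e = B at *
  generalize 1 / (r : ℝ) = u at *
  have key : l * (1 - u - ((l : ℝ) - 1) * B) - (1 + e) =
      ((r : ℝ) - 3 - l) * B + ((l : ℝ) - 2) * (u + e) + B * (((l : ℝ) - 2) * ((r : ℝ) - 3 - l)) := by
    have hee : e = 1 - 2 * u - ((r : ℝ) - 3) * B := by linarith
    rw [hee]; ring
  have t1 : 0 ≤ ((r : ℝ) - 3 - l) * B := mul_nonneg (by linarith) hB0
  have t2 : 0 ≤ ((l : ℝ) - 2) * (u + e) := mul_nonneg (by linarith) (by linarith)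
  have t3 : 0 ≤ B * (((l : ℝ) - 2) * ((r : ℝ) - 3 - l)) :=
    mul_nonneg hB0 (mul_nonneg (by linarith) (by linarith))
  linarith

theorem KNM_item9 (r : ℕ) (e : ℝ) (h : Adk r e) (l : ℕ) (h2 : 2 ≤ l) (hl : l ≤ r - 4) :
    1 + e ≤ l * (1 - l * bk r e) := by
  obtain ⟨hn, hu, hu0, hB, hB0, hlo, he0, hBu⟩ := KNM_basic r e h
  have h5 := h.1
  obtain ⟨a, rfl⟩ : ∃ a : ℕ, l = 2 + a := ⟨l - 2, by omega⟩
  obtain ⟨b, hb⟩ : ∃ b : ℕ, r = 6 + a + b := ⟨r - (6 + a), by omega⟩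
  have hbr : (r : ℝ) = 6 + (a : ℝ) + (b : ℝ) := by rw [hb]; push_cast; ring
  have ha0 : (0 : ℝ) ≤ (a : ℝ) := Nat.cast_nonneg a
  have hb0 : (0 : ℝ) ≤ (b : ℝ) := Nat.cast_nonneg b
  push_cast
  generalize bk r e = B at *
  generalize 1 / (r : ℝ) = u at *
  generalize (r : ℝ) = n at *
  generalize (a : ℝ) = a' at *
  generalize (b : ℝ) = b' at *
  clear hb h
  have hee : e = 1 - 2 * u - (n - 3) * B := by linarith
  -- goal : (l-2) + 2u - (l² - n + 3) B ≥ 0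
  have hgoal : 0 ≤ a' + 2 * u - ((2 + a') ^ 2 - n + 3) * B := by
    by_cases hc : (2 + a') ^ 2 - n + 3 ≤ 0
    · have : 0 ≤ (-((2 + a') ^ 2 - n + 3)) * B := mul_nonneg (by linarith) hB0
      nlinarith
    · push Not at hc
      have hn2 : 0 < n - 2 := by linarith
      have t1 : ((2 + a') ^ 2 - n + 3) * ((n - 2) * B) ≤ ((2 + a') ^ 2 - n + 3) * ((n - 1) * u) :=
        mul_le_mul_of_nonneg_left hBu hc.le
      -- (n-2) (a' + 2u) - (l²-n+3)(n-1)u ≥ 0 ; a' = a' n u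
      have hpoly : 0 ≤ a' * n * (n - 2) + 2 * (n - 2) - ((2 + a') ^ 2 - n + 3) * (n - 1) := by
        rw [hbr]
        have hab := mul_nonneg ha0 hb0
        have haa := mul_nonneg ha0 ha0
        have hbb := mul_nonneg hb0 hb0
        have haab := mul_nonneg haa hb0
        have habb := mul_nonneg hab hb0
        have e1 : a' * (6 + a' + b') * (6 + a' + b' - 2) + 2 * (6 + a' + b' - 2) -
            ((2 + a') ^ 2 - (6 + a' + b') + 3) * (6 + a' + b' - 1) =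
            4 * a' + a' * a' + 6 * (a' * b') + (a' * a' * b' + a' * b' * b') + 3 + 6 * (a' + b')
              + (a' + b') * (a' + b') := by ring
        rw [e1]
        have := mul_nonneg (add_nonneg ha0 hb0) (add_nonneg ha0 hb0)
        linarith
      have hpu := mul_nonneg hu0.le hpoly
      have e2 : u * (a' * n * (n - 2) + 2 * (n - 2) - ((2 + a') ^ 2 - n + 3) * (n - 1)) =
          a' * (n * u) * (n - 2) + 2 * u * (n - 2) - ((2 + a') ^ 2 - n + 3) * ((n - 1) * u) := by ring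
      rw [e2, hu] at hpu
      have e3 : (n - 2) * (a' + 2 * u - ((2 + a') ^ 2 - n + 3) * B) =
          a' * 1 * (n - 2) + 2 * u * (n - 2) - ((2 + a') ^ 2 - n + 3) * ((n - 2) * B) := by ring
      have hnn : 0 ≤ (n - 2) * (a' + 2 * u - ((2 + a') ^ 2 - n + 3) * B) := by
        rw [e3]; linarith
      exact nonneg_of_mul_nonneg_right hnn hn2
  have e4 : (2 + a') * (1 - (2 + a') * B) - (1 + e) =
      a' + 2 * u - ((2 + a') ^ 2 - n + 3) * B := by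
    rw [hee]; ring
  linarith

/-- KNM -/
theorem KNM : S_KNM := by
  intro r e h
  obtain ⟨hn, hu, hu0, hB, hB0, hlo, he0, hBu⟩ := KNM_basic r e h
  have h5 := h.1
  have hB2 : bk r e ≤ (4 / 3) * (1 / (r : ℝ)) := by
    -- (n-2) B ≤ (n-1) u ≤ 4/3 (n-2) u
    have hn2 : 0 < (r : ℝ) - 2 := by linarith
    have : ((r : ℝ) - 1) * (1 / (r : ℝ)) ≤ (4 / 3 * ((r : ℝ) - 2)) * (1 / (r : ℝ)) :=
      mul_le_mul_of_nonneg_right (by linarith) hu0.le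
    have h3 : ((r : ℝ) - 2) * bk r e ≤ ((r : ℝ) - 2) * ((4 / 3) * (1 / (r : ℝ))) := by
      calc _ ≤ _ := hBu
        _ ≤ _ := this
        _ = _ := by ring
    exact le_of_mul_le_mul_left h3 hn2
  have hM : mk r e ≤ (4 / 3) * (1 / (r : ℝ)) := by
    unfold mk
    exact max_le hB2 (by linarith)
  have hM5 : mk r e ≤ 1 / r + bk r e := by
    unfold mk
    exact max_le (by linarith) (by linarith)
  have e2 : (2 : ℝ) / r = 2 * (1 / (r : ℝ)) := by ring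
  have e3 : (3 : ℝ) / r = 3 * (1 / (r : ℝ)) := by ring
  have hrk : rk r e = 1 / (r : ℝ) + e := rfl
  refine ⟨hB0, ?_, ?_, ?_, hM5, KNM_item6 r e h, ?_, ?_, KNM_item9 r e h, ?_, ?_⟩
  · rw [e2]; linarith
  · rw [e3]; linarith
  · have : bk r e ≤ ((r : ℝ) - 4) * bk r e := by nlinarith
    have h4 : ((r : ℝ) - 4) * bk r e = ((r : ℝ) - 3) * bk r e - bk r e := by ring
    linarith
  · rw [hrk]
    have e4 : ((r : ℝ) - 1) * (1 / (r : ℝ) + e) =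
        (r : ℝ) * (1 / (r : ℝ)) - 1 / (r : ℝ) + ((r : ℝ) - 2) * e + e := by ring
    rw [e4, hu]; linarith
  · rw [hrk]
    have h3 : 2 ≤ r - 3 := by omega
    have h6 := KNM_item6 r e h (r - 3) h3 le_rfl
    have hc : (((r - 3 : ℕ) : ℕ) : ℝ) = (r : ℝ) - 3 := by
      rw [Nat.cast_sub (by omega)]; norm_num
    rw [hc] at h6
    have e5 : ((r : ℝ) - 3) * (1 - 1 / (r : ℝ) - ((r : ℝ) - 3 - 1) * bk r e) =
        ((r : ℝ) - 3) * (1 - 1 / (r : ℝ) - ((r : ℝ) - 3) * bk r e + bk r e) := by ring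
    rw [e5, hB] at h6
    have e6 : (1 : ℝ) - 1 / (r : ℝ) - (1 - 2 * (1 / (r : ℝ)) - e) + bk r e =
        1 / (r : ℝ) + e + bk r e := by ring
    rw [e6] at h6
    have h7 : 0 ≤ 1 / (r : ℝ) + e + bk r e := by linarith
    have e7 : ((r : ℝ) - 2) * (1 / (r : ℝ) + e + bk r e) =
        ((r : ℝ) - 3) * (1 / (r : ℝ) + e + bk r e) + (1 / (r : ℝ) + e + bk r e) := by ring
    rw [e7]; linarith
  · intro l h2 hl
    have h6 := KNM_item6 r e h l h2 hl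
    have hl0 : (0 : ℝ) ≤ (l : ℝ) := Nat.cast_nonneg l
    have : (0 : ℝ) ≤ (l : ℝ) * (1 / (r : ℝ)) := mul_nonneg hl0 hu0.le
    have e8 : (l : ℝ) * (1 - ((l : ℝ) - 1) * bk r e) =
        (l : ℝ) * (1 - 1 / (r : ℝ) - ((l : ℝ) - 1) * bk r e) + (l : ℝ) * (1 / (r : ℝ)) := by ring
    rw [e8]; linarith
  · rw [hrk, hB]; ring

end H773Y
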