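import Pool.Agent.H773R2.UG.Defs4

/-! Task KSF (helper493; following SF4 of helper329). -/

set_option autoImplicit false

namespace H773Y

open Finset H773X

lemma KSF_mono {r : ℕ} (D : Finset (Fin r) → ℝ) (h : SupM D) (A C : Finset (Fin r)) :
    D A ≤ D (C ∪ A) := by
  induction C using Finset.induction_on with
  | empty => simp
  | insert b C hb ih =>
    rw [Finset.insert_union]
    exact ih.trans (h.2.1 _ _)

lemma KSF_mg {r : ℕ} (D : Finset (Fin r) → ℝ) (h : SupM D) (a : Fin r) (A C : Finset (Fin r))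
    (haA : a ∉ A) (haC : a ∉ C) : mg D a A ≤ mg D a (C ∪ A) := by
  induction C using Finset.induction_on with
  | empty => simp
  | insert b C hb ih =>
    rw [Finset.mem_insert, not_or] at haC
    have h1 := ih haC.2
    rw [Finset.insert_union]
    refine h1.trans ?_
    by_cases hbA : b ∈ C ∪ A
    · rw [Finset.insert_eq_of_mem hbA]
    · have h2 := h.2.2 (C ∪ A) a b (by
        rw [Finset.mem_union, not_or]; exact ⟨haC.2, haA⟩) hbA haC.1
      unfold mg
      linarith

lemma KSF_ex {r : ℕ} (hr : 4 ≤ r) (e : ℝ) (D : Finset (Fin r) → ℝ)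
    (he : ((r : ℝ) - 2) / r ≤ e) (hS : SupM D) (hU : D univ ≤ 1 + e) :
    ∃ x : Fin r, ∀ c, c ≠ x → mg D c {x} ≤ 1 / r + e := by
  obtain ⟨x, -, hx⟩ := Finset.exists_max_image (Finset.univ : Finset (Fin r)) (fun c => D {c})
    ⟨⟨0, by omega⟩, Finset.mem_univ _⟩
  by_cases hall : ∀ c, c ≠ x → mg D c {x} ≤ 1 / r + e
  · exact ⟨x, hall⟩
  push Not at hall
  obtain ⟨y, hyx, hy⟩ := hall
  obtain ⟨w, hw⟩ : ∃ w : Fin r, w ∉ ({x, y} : Finset (Fin r)) := by
    by_contra hc
    push Not at hc
    have h1 : (Finset.univ : Finset (Fin r)) ⊆ {x, y} := fun c _ => hc c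
    have h2 := Finset.card_le_card h1
    have h3 : ({x, y} : Finset (Fin r)).card ≤ 2 := Finset.card_le_two
    rw [Finset.card_univ, Fintype.card_fin] at h2
    omega
  refine ⟨w, fun c hc => ?_⟩
  have hsub : (univ.erase w) ∪ ({x, y} : Finset (Fin r)) = univ.erase w := by
    rw [Finset.union_eq_left]
    intro c hc
    rw [Finset.mem_erase]
    exact ⟨fun h => hw (h ▸ hc), Finset.mem_univ _⟩
  have h1 : D {x, y} ≤ D (univ.erase w) := by
    have := KSF_mono D hS {x, y} (univ.erase w)
    rwa [hsub] at this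
  have h2 : D {x, y} = D {x} + mg D y {x} := by
    unfold mg
    rw [Finset.pair_comm x y]
    ring
  have h3 : mg D w (univ.erase w) = D univ - D (univ.erase w) := by
    unfold mg
    rw [Finset.insert_erase (Finset.mem_univ w)]
  have hsub2 : (univ.erase w) ∪ ({c} : Finset (Fin r)) = univ.erase w := by
    rw [Finset.union_eq_left]
    intro c' hc'
    rw [Finset.mem_singleton] at hc'
    rw [Finset.mem_erase, hc']
    exact ⟨hc, Finset.mem_univ _⟩
  have h4 : mg D w {c} ≤ mg D w (univ.erase w) := by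
    have := KSF_mg D hS w {c} (univ.erase w) (by
      rw [Finset.mem_singleton]; exact fun h => hc h.symm) (Finset.notMem_erase _ _)
    rwa [hsub2] at this
  have h5 : mg D c {w} = D {c} + mg D w {c} - D {w} := by
    unfold mg
    have h6 : (insert c {w} : Finset (Fin r)) = insert w {c} := Finset.pair_comm c w
    rw [h6]
    ring
  have h7 : 0 ≤ D {w} := by
    have := hS.2.1 ∅ w
    rw [hS.1] at this
    simpa using this
  have h8 := hx c (Finset.mem_univ _)
  have hr0 : (0 : ℝ) < r := by
    have : 0 < r := by omega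
    exact_mod_cast this
  have h9 : 1 - 1 / (r : ℝ) ≤ 1 / r + e := by
    have h10 : ((r : ℝ) - 2) / r = 1 - 1 / r - 1 / r := by
      field_simp
      ring
    linarith
  linarith

theorem KSF : S_KSF := by
  intro r e D hr he hS hU
  obtain ⟨x, hx⟩ := KSF_ex hr e D he hS hU
  have h0 : 0 < r := by omega
  set z : Fin r := ⟨0, h0⟩ with hz
  refine ⟨Equiv.swap z x, (Equiv.swap z x).bijective, ?_⟩
  intro p j hpj hp
  have hp1 : (p : ℕ) = 1 := by
    by_contra hc
    simp only at hp
    rw [if_neg hc] at hp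
    exact lt_irrefl _ hp
  have hpre : pre (Equiv.swap z x) (p : ℕ) = {x} := by
    unfold pre
    have : (univ.filter (fun i : Fin r => (i : ℕ) < (p : ℕ))) = {z} := by
      ext i
      rw [Finset.mem_filter, Finset.mem_singleton, hp1, Fin.ext_iff]
      simp only [Finset.mem_univ, true_and, hz]
      omega
    rw [this, Finset.image_singleton, Equiv.swap_apply_left]
  have hsum : ∑ l ∈ Icc p j, (if (l : ℕ) = 1 then ((r : ℝ) - 1) / r - e else 0) =
      ((r : ℝ) - 1) / r - e := by
    rw [Finset.sum_eq_single p]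
    · rw [if_pos hp1]
    · intro l _ hl
      rw [if_neg]
      intro hl1
      exact hl (Fin.ext (by omega))
    · intro hp'
      exact absurd (Finset.mem_Icc.2 ⟨le_refl p, hpj⟩) hp'
  have hj : (Equiv.swap z x) j ≠ x := by
    intro hc
    have h1 : (Equiv.swap z x) j = (Equiv.swap z x) z := by
      rw [hc, Equiv.swap_apply_left]
    have h2 := (Equiv.swap z x).injective h1
    have h3 : (j : ℕ) = 0 := by rw [h2]
    have h4 : (p : ℕ) ≤ (j : ℕ) := hpj
    omega
  rw [hpre, hsum]
  have h1 := hx _ hj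
  have hr0 : (0 : ℝ) < r := by exact_mod_cast h0
  have h2 : ((r : ℝ) - 1) / r = 1 - 1 / r := by
    field_simp
  linarith

end H773Y
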