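import Pool.Agent.H773R2.UG.Defs4

set_option autoImplicit false

open Finset

namespace H773Y

theorem KSH : S_KSH := by
  intro r e p j hr hpj
  have e' : ∀ l : Fin r, sk r e l = bk r e +
      (if l = (⟨0, by omega⟩ : Fin r) then - bk r e else 0) +
      (if l = (⟨r - 1, by omega⟩ : Fin r) then - bk r e else 0) +
      (if l = (⟨2, by omega⟩ : Fin r) then 1 / (r : ℝ) - bk r e else 0) := by
    intro l
    unfold sk
    simp only [Fin.ext_iff]
    by_cases h1 : (l : ℕ) = 0
    · rw [if_pos (Or.inl h1), if_pos h1, if_neg (by omega), if_neg (by omega)]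
      ring
    · by_cases h3 : (l : ℕ) = r - 1
      · rw [if_pos (Or.inr h3), if_neg h1, if_pos h3, if_neg (by omega)]
        ring
      · by_cases h4 : (l : ℕ) = 2
        · rw [if_neg (by omega), if_pos h4, if_neg h1, if_neg h3, if_pos h4]
          ring
        · rw [if_neg (by omega), if_neg h4, if_neg h1, if_neg h3, if_neg h4]
          ring
  simp only [e']
  rw [sum_add_distrib, sum_add_distrib, sum_add_distrib, sum_ite_eq', sum_ite_eq', sum_ite_eq',
    sum_const, Fin.card_Icc, nsmul_eq_mul]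
  have hpj' : (p : ℕ) ≤ (j : ℕ) := hpj
  have hj := j.2
  have e1 : ((((j : ℕ) + 1 - (p : ℕ) : ℕ) : ℝ)) = ((j : ℕ) : ℝ) - ((p : ℕ) : ℝ) + 1 := by
    have h5 : (j : ℕ) + 1 - (p : ℕ) + (p : ℕ) = (j : ℕ) + 1 := by omega
    have h6 : (((j : ℕ) + 1 - (p : ℕ) : ℕ) : ℝ) + ((p : ℕ) : ℝ) = ((j : ℕ) : ℝ) + 1 := by
      exact_mod_cast h5
    linarith
  rw [e1]
  simp only [mem_Icc, Fin.le_def]
  congr 1
  · congr 1
    · congr 1
      by_cases h8 : (p : ℕ) = 0
      · rw [if_pos h8, if_pos (by omega)]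
      · rw [if_neg h8, if_neg (by omega)]
    · by_cases h8 : (j : ℕ) = r - 1
      · rw [if_pos h8, if_pos (by omega)]
      · rw [if_neg h8, if_neg (by omega)]

end H773Y
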