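import Pool.Agent.H773R2.UG.Defs

set_option autoImplicit false

namespace H773Y

open Finset Pool.Agent.Results.MP_9dddc4_co.UkExponent H773X

theorem LOGG_BB {r n : ℕ} (hn : 2 ≤ n) : (BB r n : ℝ) ≤ (2 * r + 2) * Real.log n := by
  have h2 : (0.6931471803 : ℝ) < Real.log 2 := Real.log_two_gt_d9
  have hn' : (2 : ℝ) ≤ n := by exact_mod_cast hn
  have hlog : Real.log 2 ≤ Real.log n := Real.log_le_log (by norm_num) hn'
  have h1 : ((2 : ℕ) : ℝ) ^ (Nat.log 2 (n ^ r)) ≤ (n : ℝ) ^ r := by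
    have := Nat.pow_log_le_self 2 (x := n ^ r) (by positivity)
    exact_mod_cast this
  have h3 : (Nat.log 2 (n ^ r) : ℝ) * Real.log 2 ≤ r * Real.log n := by
    have h4 := Real.log_le_log (by positivity) h1
    rw [Real.log_pow, Real.log_pow] at h4
    push_cast at h4
    exact h4
  have h5 : (0 : ℝ) ≤ Nat.log 2 (n ^ r) := Nat.cast_nonneg _
  have h6 : (Nat.log 2 (n ^ r) : ℝ) * 0.69 ≤ r * Real.log n := by nlinarith
  have h7 : (0 : ℝ) ≤ (r : ℝ) * Real.log n := mul_nonneg (Nat.cast_nonneg _) (by linarith)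
  unfold BB
  push_cast
  nlinarith

theorem LOGG : S_LOGG := by
  intro r hr
  refine ⟨(2 ^ r * ((r : ℝ) ^ r * (2 ^ (r + 2)) ^ (3 * r ^ 2) * (2 * (r : ℝ) ^ 2 * 2 ^ (r + 2)) ^ r)) *
    ((2 * (r:ℝ) + 2) ^ (2 ^ r * (1 + 3 * r ^ 2 + r))) * (r + 2),
    2 ^ r * (1 + 3 * r ^ 2 + r) + 1, by positivity, ?_⟩
  intro n hn
  have h2 : (0.6931471803 : ℝ) < Real.log 2 := Real.log_two_gt_d9
  have hn' : (2 : ℝ) ≤ n := by exact_mod_cast hn
  have hlog : Real.log 2 ≤ Real.log n := Real.log_le_log (by norm_num) hn'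
  have hl0 : 0 ≤ Real.log n := by linarith
  have h1 := LOGG_BB (r := r) hn
  have hr0 : (0 : ℝ) ≤ r := Nat.cast_nonneg r
  have h3 : (LamB r n : ℝ) ^ (1 + 3 * r ^ 2 + r) ≤
      ((2 * r + 2) * Real.log n) ^ (2 ^ r * (1 + 3 * r ^ 2 + r)) := by
    unfold LamB
    push_cast
    rw [← pow_mul]
    exact pow_le_pow_left₀ (Nat.cast_nonneg _) h1 _
  have h4 : 1 + (r:ℝ) * Real.log n ≤ (r + 2) * Real.log n := by nlinarith
  have h5 : (ZG r n : ℝ) = ((r : ℝ) ^ r * (2 ^ (r + 2)) ^ (3 * r ^ 2) *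
      (2 * (r : ℝ) ^ 2 * 2 ^ (r + 2)) ^ r) * (LamB r n : ℝ) ^ (1 + 3 * r ^ 2 + r) := by
    unfold ZG GG KK
    push_cast
    generalize (LamB r n : ℝ) = L
    generalize ((2 : ℝ) ^ (r + 2)) = A
    rw [mul_pow A L, show 2 * (r : ℝ) ^ 2 * (A * L) = (2 * (r : ℝ) ^ 2 * A) * L by ring,
      mul_pow (2 * (r : ℝ) ^ 2 * A) L, pow_add, pow_add, pow_one]
    ring
  rw [h5]
  have hW : 0 ≤ ((r : ℝ) ^ r * (2 ^ (r + 2)) ^ (3 * r ^ 2) * (2 * (r : ℝ) ^ 2 * 2 ^ (r + 2)) ^ r) := by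
    positivity
  generalize ((r : ℝ) ^ r * (2 ^ (r + 2)) ^ (3 * r ^ 2) * (2 * (r : ℝ) ^ 2 * 2 ^ (r + 2)) ^ r) = W at *
  calc 2 ^ r * (W * (LamB r n : ℝ) ^ (1 + 3 * r ^ 2 + r)) * (1 + r * Real.log n)
      = (2 ^ r * W) * ((LamB r n : ℝ) ^ (1 + 3 * r ^ 2 + r) * (1 + r * Real.log n)) := by ring
    _ ≤ (2 ^ r * W) *
          (((2 * r + 2) * Real.log n) ^ (2 ^ r * (1 + 3 * r ^ 2 + r)) * ((r + 2) * Real.log n)) := by
        refine mul_le_mul_of_nonneg_left (mul_le_mul h3 h4 (by positivity) (by positivity))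
          (by positivity)
    _ = _ := by rw [mul_pow (2 * (r:ℝ) + 2), pow_succ (Real.log n)]; ring

end H773Y
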