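import Pool.Agent.H773R2.UG.Defs6

/-! MON: `U_k(n,r)` is monotone in `k` (helper675). -/

namespace H773Y

open Finset Pool.Agent.Results.MP_9dddc4_co.UkExponent H773X

theorem MON (n r k l : ℕ) (hk : 1 ≤ k) (hkl : k ≤ l) : U k n r ≤ U l n r := by
  apply Nat.sInf_le
  intro H hH hc
  obtain ⟨P, h1, h2, h3⟩ := U_spec l n r
    (fun i : Fin l => H (if h : (i : ℕ) < k then ⟨i, h⟩ else ⟨0, hk⟩))
    (fun i => hH _) (fun i i' => hc _ _)
  refine ⟨fun i => P (Fin.castLE hkl i), fun i => ?_, fun i j j' hj => h2 _ j j' hj,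
    fun j i i' => h3 j _ _⟩
  have h := h1 (Fin.castLE hkl i)
  simp only at h
  have hi : ((Fin.castLE hkl i : Fin l) : ℕ) < k := i.2
  rw [dif_pos hi] at h
  exact h

end H773Y
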