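import Pool.Agent.H773R2.UG.Defs3

set_option autoImplicit false

namespace H773Y

open Finset H773X

theorem OA3_perm (x y : Fin 4) (h : x ≠ y) :
    ∃ a : Fin 4 → Fin 4, Function.Bijective a ∧ a 0 = x ∧ a 1 = y := by
  refine ⟨fun i => Equiv.swap 0 x (Equiv.swap 1 ((Equiv.swap 0 x).symm y) i), ?_, ?_, ?_⟩
  · exact (Equiv.swap 0 x).bijective.comp (Equiv.swap 1 ((Equiv.swap 0 x).symm y)).bijective
  · have h1 : (0 : Fin 4) ≠ (Equiv.swap 0 x).symm y := by
      intro h'
      have := congrArg (Equiv.swap 0 x) h'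
      rw [Equiv.apply_symm_apply, Equiv.swap_apply_left] at this
      exact h this
    change Equiv.swap 0 x (Equiv.swap 1 ((Equiv.swap 0 x).symm y) 0) = x
    rw [Equiv.swap_apply_of_ne_of_ne (by decide) h1, Equiv.swap_apply_left]
  · change Equiv.swap 0 x (Equiv.swap 1 ((Equiv.swap 0 x).symm y) 1) = y
    rw [Equiv.swap_apply_left, Equiv.apply_symm_apply]

theorem OA3_pre1 (a : Fin 4 → Fin 4) : pre a ((1 : Fin 4) : ℕ) = {a 0} := by
  have : (univ.filter (fun i : Fin 4 => (i : ℕ) < ((1 : Fin 4) : ℕ))) = {0} := by decide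
  rw [pre, this, image_singleton]

theorem OA3_pre2 (a : Fin 4 → Fin 4) : pre a ((2 : Fin 4) : ℕ) = {a 0, a 1} := by
  have : (univ.filter (fun i : Fin 4 => (i : ℕ) < ((2 : Fin 4) : ℕ))) = {0, 1} := by decide
  rw [pre, this, image_insert, image_singleton]

theorem OA3 (h1 : S_A40) (h2 : S_A41) (h3 : S_A42) (h4 : S_SF4) : S_OA3 := by
  intro d hd1 hd2
  by_cases hd : d ≤ 3 / 2
  · refine ⟨![0, 1 / 4, 3 / 2 - d, 0], ?_, ?_, ?_⟩
    · intro l
      fin_cases l
      · exact le_rfl
      · change (0 : ℝ) ≤ 1 / 4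
        norm_num
      · change (0 : ℝ) ≤ 3 / 2 - d
        linarith
      · exact le_rfl
    · rw [Fin.sum_univ_four]
      change (0 : ℝ) + 1 / 4 + (3 / 2 - d) + 0 = 7 / 4 - d
      ring
    · intro D hD hDd
      have hg : Goal4 d D := by
        by_cases hc : ∀ c, mg D c (univ.erase c) ≤ d - 1 / 2
        · exact h1 d D hd1 hd hD hDd hc
        · push Not at hc
          obtain ⟨b, hb⟩ := hc
          by_cases hc' : ∀ c, c ≠ b → mg D c (univ.erase c) ≤ d - 1 / 2
          · exact h2 d D b hd1 hd hD hDd hb hc'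
          · push Not at hc'
            obtain ⟨b', hbb, hb'⟩ := hc'
            exact h3 d D b b' hd1 hd hD hDd hbb.symm hb hb'
      obtain ⟨x, y, hxy, hy, hc⟩ := hg
      obtain ⟨a, ha, ha0, ha1⟩ := OA3_perm x y hxy
      have n2x : a 2 ≠ x := by
        rw [← ha0]
        exact fun h => absurd (ha.1 h) (by decide)
      have n2y : a 2 ≠ y := by
        rw [← ha1]
        exact fun h => absurd (ha.1 h) (by decide)
      have n3x : a 3 ≠ x := by
        rw [← ha0]
        exact fun h => absurd (ha.1 h) (by decide)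
      have n3y : a 3 ≠ y := by
        rw [← ha1]
        exact fun h => absurd (ha.1 h) (by decide)
      have c2 := hc _ n2x n2y
      have c3 := hc _ n3x n3y
      refine ⟨a, ha, ?_⟩
      intro p j hpj hp
      have hpc : p = 0 ∨ p = 1 ∨ p = 2 ∨ p = 3 := by fin_cases p <;> simp
      have hjc : j = 0 ∨ j = 1 ∨ j = 2 ∨ j = 3 := by fin_cases j <;> simp
      rcases hpc with rfl | rfl | rfl | rfl
      · exact absurd hp (lt_irrefl _)
      · rw [OA3_pre1, ha0]
        rcases hjc with rfl | rfl | rfl | rfl
        · exact absurd hpj (by decide)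
        · have e : Icc (1 : Fin 4) 1 = {1} := by decide
          rw [e, sum_singleton, ha1]
          change mg D y {x} ≤ 1 - 1 / 4
          linarith
        · have e : Icc (1 : Fin 4) 2 = {1, 2} := by decide
          rw [e, sum_pair (by decide)]
          change mg D (a 2) {x} ≤ 1 - (1 / 4 + (3 / 2 - d))
          linarith [c2.1]
        · have e : Icc (1 : Fin 4) 3 = {1, 2, 3} := by decide
          rw [e, sum_insert (by decide), sum_pair (by decide)]
          change mg D (a 3) {x} ≤ 1 - (1 / 4 + ((3 / 2 - d) + 0))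
          linarith [c3.1]
      · rw [OA3_pre2, ha0, ha1]
        rcases hjc with rfl | rfl | rfl | rfl
        · exact absurd hpj (by decide)
        · exact absurd hpj (by decide)
        · have e : Icc (2 : Fin 4) 2 = {2} := by decide
          rw [e, sum_singleton]
          change mg D (a 2) {x, y} ≤ 1 - (3 / 2 - d)
          linarith [c2.2]
        · have e : Icc (2 : Fin 4) 3 = {2, 3} := by decide
          rw [e, sum_pair (by decide)]
          change mg D (a 3) {x, y} ≤ 1 - ((3 / 2 - d) + 0)
          linarith [c3.2]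
      · exact absurd hp (lt_irrefl _)
  · push Not at hd
    refine ⟨![0, 7 / 4 - d, 0, 0], ?_, ?_, ?_⟩
    · intro l
      fin_cases l
      · exact le_rfl
      · change (0 : ℝ) ≤ 7 / 4 - d
        linarith
      · exact le_rfl
      · exact le_rfl
    · rw [Fin.sum_univ_four]
      change (0 : ℝ) + (7 / 4 - d) + 0 + 0 = 7 / 4 - d
      ring
    · intro D hD hDd
      obtain ⟨x, hx⟩ := h4 d D hd.le hD hDd
      obtain ⟨y, hxy⟩ : ∃ y : Fin 4, x ≠ y := by
        fin_cases x
        · exact ⟨1, by decide⟩
        · exact ⟨0, by decide⟩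
        · exact ⟨0, by decide⟩
        · exact ⟨0, by decide⟩
      obtain ⟨a, ha, ha0, ha1⟩ := OA3_perm x y hxy
      have hne : ∀ j : Fin 4, j ≠ 0 → a j ≠ x := by
        intro j hj
        rw [← ha0]
        exact fun h => hj (ha.1 h)
      have c1 := hx _ (hne 1 (by decide))
      have c2 := hx _ (hne 2 (by decide))
      have c3 := hx _ (hne 3 (by decide))
      refine ⟨a, ha, ?_⟩
      intro p j hpj hp
      have hpc : p = 0 ∨ p = 1 ∨ p = 2 ∨ p = 3 := by fin_cases p <;> simp
      have hjc : j = 0 ∨ j = 1 ∨ j = 2 ∨ j = 3 := by fin_cases j <;> simp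
      rcases hpc with rfl | rfl | rfl | rfl
      · exact absurd hp (lt_irrefl _)
      · rw [OA3_pre1, ha0]
        rcases hjc with rfl | rfl | rfl | rfl
        · exact absurd hpj (by decide)
        · have e : Icc (1 : Fin 4) 1 = {1} := by decide
          rw [e, sum_singleton]
          change mg D (a 1) {x} ≤ 1 - (7 / 4 - d)
          linarith
        · have e : Icc (1 : Fin 4) 2 = {1, 2} := by decide
          rw [e, sum_pair (by decide)]
          change mg D (a 2) {x} ≤ 1 - ((7 / 4 - d) + 0)
          linarith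
        · have e : Icc (1 : Fin 4) 3 = {1, 2, 3} := by decide
          rw [e, sum_insert (by decide), sum_pair (by decide)]
          change mg D (a 3) {x} ≤ 1 - ((7 / 4 - d) + (0 + 0))
          linarith
      · exact absurd hp (lt_irrefl _)
      · exact absurd hp (lt_irrefl _)

end H773Y
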