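import Pool.Agent.H773R2.UG.Defs

/-! OC2: the middle range with two critical roles -/

set_option linter.unusedVariables false

namespace H773Y

open Finset Pool.Agent.Results.MP_9dddc4_co.UkExponent H773X

theorem OC2_mono {r : ℕ} {D : Finset (Fin r) → ℝ} (h : SupM D) {A B : Finset (Fin r)}
    (hAB : A ⊆ B) : D A ≤ D B := by
  have key : ∀ C : Finset (Fin r), D A ≤ D (A ∪ C) := by
    intro C
    induction C using Finset.induction_on with
    | empty => simp
    | insert c C hc ih =>
      rw [Finset.union_insert]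
      exact ih.trans (h.2.1 _ _)
  have h2 := key B
  rwa [Finset.union_eq_right.mpr hAB] at h2

theorem OC2_nonneg {r : ℕ} {D : Finset (Fin r) → ℝ} (h : SupM D) (A : Finset (Fin r)) :
    0 ≤ D A := by
  have := OC2_mono h (Finset.empty_subset A)
  rwa [h.1] at this

theorem OC2_perm {r : ℕ} (i j x y : Fin r) (hij : i ≠ j) (hxy : x ≠ y) :
    ∃ a : Fin r → Fin r, Function.Bijective a ∧ a i = x ∧ a j = y := by
  let e1 : Equiv.Perm (Fin r) := Equiv.swap i x
  let e2 : Equiv.Perm (Fin r) := Equiv.swap (e1 j) y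
  have h1 : e1 i = x := Equiv.swap_apply_left i x
  have h2 : x ≠ e1 j := by
    rw [← h1]
    intro h
    exact hij (e1.injective h)
  refine ⟨fun l => e2 (e1 l), (e2.bijective).comp e1.bijective, ?_, ?_⟩
  · show e2 (e1 i) = x
    rw [h1]
    exact Equiv.swap_apply_of_ne_of_ne h2 hxy
  · show e2 (e1 j) = y
    exact Equiv.swap_apply_left _ _

theorem OC2_mem_pre {r : ℕ} (a : Fin r → Fin r) (p : ℕ) (c : Fin r) :
    c ∈ pre a p ↔ ∃ i : Fin r, (i : ℕ) < p ∧ a i = c := by
  simp [pre]

theorem OC2_shp_nonneg {r : ℕ} {θ η : ℝ} (h : 0 ≤ be r θ η) (l : Fin r) : 0 ≤ shp r θ η l := by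
  unfold shp
  split_ifs
  · exact le_max_right _ _
  · exact h

theorem OC2_total (h2 : S_SHP) {r : ℕ} {θ η : ℝ} (hr : 4 ≤ r) (hbe : 0 ≤ be r θ η)
    (p j : Fin r) : ∑ l ∈ Icc p j, shp r θ η l ≤ θ + η := by
  have hr0 : 0 < r := by omega
  let z : Fin r := ⟨0, hr0⟩
  let w : Fin r := ⟨r - 1, by omega⟩
  have hzw : z ≤ w := by
    rw [Fin.le_def]; exact Nat.zero_le _
  have hsub : Icc p j ⊆ Icc z w := by
    intro l hl
    rw [Finset.mem_Icc] at hl ⊢
    constructor
    · rw [Fin.le_def]; exact Nat.zero_le _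
    · rw [Fin.le_def]; show (l : ℕ) ≤ r - 1; have := l.2; omega
  have hle : ∑ l ∈ Icc p j, shp r θ η l ≤ ∑ l ∈ Icc z w, shp r θ η l :=
    Finset.sum_le_sum_of_subset_of_nonneg hsub (fun l _ _ => OC2_shp_nonneg hbe l)
  have htot := h2 r θ η z w hr hzw
  have hz : ((z : Fin r) : ℕ) = 0 := rfl
  have hw : ((w : Fin r) : ℕ) = r - 1 := rfl
  rw [if_pos hz, if_pos hw, hz, hw] at htot
  have hcast : ((r - 1 : ℕ) : ℝ) = (r : ℝ) - 1 := by
    rw [Nat.cast_sub (by omega)]; simp
  rw [hcast] at htot
  have hbeq : ((r : ℝ) - 2) * be r θ η = η - |θ| := by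
    unfold be
    have : (r : ℝ) - 2 ≠ 0 := by
      have : (4 : ℝ) ≤ r := by exact_mod_cast hr
      linarith
    field_simp
  have habs : 2 * max θ 0 - |θ| = θ := by
    rcases le_total 0 θ with h | h
    · rw [max_eq_left h, abs_of_nonneg h]; ring
    · rw [max_eq_right h, abs_of_nonpos h]; ring
  have : ∑ l ∈ Icc z w, shp r θ η l = θ + η := by
    rw [htot]
    push_cast
    linarith
  linarith

theorem OC2 (h1 : S_ONM) (h2 : S_SHP) : S_OC2 := by
  intro r θ η D x y hadm hS hD hxy hx hy
  obtain ⟨hbe, hbeη, -, -, -, -, -⟩ := h1 r θ η hadm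
  have hr : 4 ≤ r := hadm.1
  let u : Fin r := ⟨r - 2, by omega⟩
  let w : Fin r := ⟨r - 1, by omega⟩
  have huw : u ≠ w := by
    intro h
    have : (u : ℕ) = (w : ℕ) := by rw [h]
    have h3 : r - 2 = r - 1 := this
    omega
  obtain ⟨a, ha, hau, haw⟩ := OC2_perm u w x y huw hxy
  have hmgx : D (univ.erase x) < be r θ η - θ := by
    unfold mg at hx
    rw [Finset.insert_erase (Finset.mem_univ x)] at hx
    linarith
  have hmgy : D (univ.erase y) < be r θ η - θ := by
    unfold mg at hy
    rw [Finset.insert_erase (Finset.mem_univ y)] at hy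
    linarith
  refine ⟨a, ha, ?_⟩
  intro p j hpj hp
  have hpj' : (p : ℕ) ≤ (j : ℕ) := hpj
  have hjr : (j : ℕ) < r := j.2
  have hpr : (p : ℕ) < r := p.2
  have hpre0 := OC2_nonneg hS (pre a p)
  by_cases hp2 : (p : ℕ) ≤ r - 2
  · have hsum := OC2_total h2 hr hbe p j (θ := θ) (η := η)
    have hxpre : x ∉ pre a p := by
      rw [OC2_mem_pre]
      rintro ⟨i, hi, hix⟩
      have : i = u := ha.1 (hix.trans hau.symm)
      rw [this] at hi
      have : r - 2 < (p : ℕ) := hi
      omega
    have hypre : y ∉ pre a p := by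
      rw [OC2_mem_pre]
      rintro ⟨i, hi, hiy⟩
      have : i = w := ha.1 (hiy.trans haw.symm)
      rw [this] at hi
      have : r - 1 < (p : ℕ) := hi
      omega
    have hmain : D (insert (a j) (pre a p)) < be r θ η - θ := by
      by_cases hj : (j : ℕ) ≤ r - 2
      · have hsub : insert (a j) (pre a p) ⊆ univ.erase y := by
          intro c hc
          rw [Finset.mem_erase]
          refine ⟨?_, Finset.mem_univ _⟩
          rintro rfl
          rcases Finset.mem_insert.1 hc with hc | hc
          · have : j = w := ha.1 (hc.symm.trans haw.symm)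
            rw [this] at hj
            have : r - 1 ≤ r - 2 := hj
            omega
          · exact hypre hc
        exact (OC2_mono hS hsub).trans_lt hmgy
      · have hjw : j = w := by
          apply Fin.ext
          show (j : ℕ) = r - 1
          omega
        have hsub : insert (a j) (pre a p) ⊆ univ.erase x := by
          intro c hc
          rw [Finset.mem_erase]
          refine ⟨?_, Finset.mem_univ _⟩
          rintro rfl
          rcases Finset.mem_insert.1 hc with hc | hc
          · rw [hjw, haw] at hc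
            exact hxy hc
          · exact hxpre hc
        exact (OC2_mono hS hsub).trans_lt hmgx
    unfold mg
    linarith
  · have hpw : p = w := by
      apply Fin.ext
      show (p : ℕ) = r - 1
      omega
    have hjw : j = w := by
      apply Fin.ext
      show (j : ℕ) = r - 1
      omega
    have hpj2 : j = p := hjw.trans hpw.symm
    have hshp : shp r θ η p = max θ 0 := by
      unfold shp
      rw [if_pos]
      right
      omega
    rw [hpj2, Finset.Icc_self, Finset.sum_singleton, hshp]
    rw [hshp] at hp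
    have hθ : max θ 0 = θ := by
      apply max_eq_left
      by_contra hneg
      push Not at hneg
      rw [max_eq_right hneg.le] at hp
      exact lt_irrefl _ hp
    rw [hθ]
    unfold mg
    have := OC2_mono hS (Finset.subset_univ (insert (a p) (pre a p)))
    linarith

end H773Y
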