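import Pool.Agent.H773R2.UG.GRB
import Pool.Agent.H773R2.UG.GRE

/-! OCG: at most one critical role, the greedy order fits. -/

set_option linter.unusedVariables false

namespace H773Y

open Finset Pool.Agent.Results.MP_9dddc4_co.UkExponent H773X

theorem OCG_div {l m s t : ℝ} (hl : 0 < l) (h1 : l * m ≤ t) (h2 : t ≤ l * s) : m ≤ s :=
  le_of_mul_le_mul_left (h1.trans h2) hl

theorem OCG (h1 : S_GRB) (h2 : S_SHP) (h3 : S_ONM) : S_OCG := by
  intro r θ η D x a hA hD hu hg hnc hc h4
  obtain ⟨n1, n2, n3, n4, n5, n6, n7⟩ := h3 r θ η hA
  obtain ⟨hr4, hη0, hη1, hθη, hθr⟩ := hA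
  refine ⟨a, hg.1, ?_⟩
  intro p j hpj hsp
  have hpj' : (p : ℕ) ≤ (j : ℕ) := by exact_mod_cast hpj
  have hinj := hg.1.injective
  have haj : a j ∉ pre a p := GRB_notMem hinj hpj'
  have hpos : ∀ A : Finset (Fin r), 0 ≤ D A := by
    intro A
    have := GRB_mono hD ∅ A
    rw [hD.1, Finset.empty_union] at this
    exact this
  have hle : ∀ A : Finset (Fin r), D A ≤ D univ := by
    intro A
    have := GRB_mono hD A univ
    rwa [Finset.union_eq_right.2 (Finset.subset_univ A)] at this
  have hmgu : mg D (a j) (pre a p) ≤ 1 - θ := by
    unfold mg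
    linarith [hpos (pre a p), hle (insert (a j) (pre a p))]
  have hr' : (r : ℝ) - 2 > 0 := by
    have : (4 : ℝ) ≤ r := by exact_mod_cast hr4
    linarith
  have hj2 : (j : ℕ) < r := j.2
  have ha0 : a ⟨0, by omega⟩ = x := hg.2.1 _ rfl
  rw [h2 r θ η p j hr4 hpj]
  by_cases hp : 1 ≤ (p : ℕ)
  · have hp0 : ¬ ((p : ℕ) = 0) := by omega
    have hG := h1 r D a x hD hg p j hpj (Or.inl hp)
    have hG' : (((j : ℕ) : ℝ) - ((p : ℕ) : ℝ) + 1) * mg D (a j) (pre a p) ≤ 1 - θ := by
      linarith [hpos (pre a p)]
    rw [if_neg hp0]
    by_cases hj : (j : ℕ) = r - 1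
    · rw [if_pos hj]
      by_cases hp' : (p : ℕ) = r - 1
      · have hs : shp r θ η p = max θ 0 := by
          unfold shp
          rw [if_pos (Or.inr hp')]
        rw [hs] at hsp
        have hθ : max θ 0 = θ := by
          rcases max_choice θ 0 with h | h
          · exact h
          · rw [h] at hsp
            exact absurd hsp (lt_irrefl _)
        have e : (((j : ℕ) : ℝ) - ((p : ℕ) : ℝ) + 1) = 1 := by
          rw [hj, hp']
          ring
        rw [e, hθ]
        linarith
      · have hl : (((r - (p : ℕ)) : ℕ) : ℝ) = ((j : ℕ) : ℝ) - ((p : ℕ) : ℝ) + 1 := by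
          rw [hj]
          have e1 : (p : ℕ) ≤ r := by omega
          have e2 : 1 ≤ r := by omega
          push_cast [Nat.cast_sub e1, Nat.cast_sub e2]
          ring
        have hn := n5 (r - (p : ℕ)) (by omega) (by omega)
        rw [hl] at hn
        have hpos' : 0 < ((j : ℕ) : ℝ) - ((p : ℕ) : ℝ) + 1 := by
          rw [← hl]
          have : 0 < r - (p : ℕ) := by omega
          exact_mod_cast this
        have := OCG_div hpos' hG' hn
        linarith
    · rw [if_neg hj]
      by_cases hpe : (p : ℕ) = (j : ℕ)
      · have hpe' : p = j := Fin.ext hpe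
        have hne : a j ≠ x := by
          intro h
          rw [← ha0] at h
          have := hinj h
          rw [Fin.ext_iff] at this
          simp at this
          omega
        have hb := hnc (a j) hne
        have hm := GRB_mg' hD (a j) (A := pre a p) (B := univ.erase (a j)) (by
          intro z hz
          rw [Finset.mem_erase]
          exact ⟨fun h => haj (h ▸ hz), Finset.mem_univ _⟩) (Finset.notMem_erase _ _)
        rw [hpe]
        rw [hpe] at hm
        linarith
      · by_cases hr5 : 5 ≤ r
        · have hl : ((((j : ℕ) - (p : ℕ) + 1) : ℕ) : ℝ) = ((j : ℕ) : ℝ) - ((p : ℕ) : ℝ) + 1 := by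
            push_cast [Nat.cast_sub hpj']
            ring
          have hn := n4 ((j : ℕ) - (p : ℕ) + 1) hr5 (by omega) (by omega)
          rw [hl] at hn
          have hpos' : 0 < ((j : ℕ) : ℝ) - ((p : ℕ) : ℝ) + 1 := by
            rw [← hl]
            exact_mod_cast Nat.succ_pos _
          have := OCG_div hpos' hG' hn
          linarith
        · have hr : r = 4 := by omega
          have h4' := h4.resolve_left hr5
          have hp1 : (p : ℕ) = 1 := by omega
          have hj1 : (j : ℕ) = 2 := by omega
          have hx := h4' j hj1
          have e : pre a (p : ℕ) = {x} := by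
            rw [hp1]
            have := GRB_pre a ⟨0, by omega⟩
            simp only [Nat.zero_add] at this
            rw [this, ha0]
            have e0 : pre a 0 = ∅ := by
              unfold pre
              rw [Finset.image_eq_empty, Finset.filter_eq_empty_iff]
              intro i _
              omega
            rw [e0]
            rfl
          rw [e, hp1, hj1]
          push_cast
          linarith
  · have hp0 : (p : ℕ) = 0 := by omega
    have hs : shp r θ η p = max θ 0 := by
      unfold shp
      rw [if_pos (Or.inl hp0)]
    rw [hs] at hsp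
    have hθm : max θ 0 = θ := by
      rcases max_choice θ 0 with h | h
      · exact h
      · rw [h] at hsp
        exact absurd hsp (lt_irrefl _)
    rw [hθm] at hsp
    have e0 : pre a (p : ℕ) = ∅ := by
      unfold pre
      rw [Finset.image_eq_empty, Finset.filter_eq_empty_iff]
      intro i _
      omega
    have hmg0 : mg D (a j) (pre a p) = D {a j} := by
      rw [e0]
      unfold mg
      rw [hD.1]
      simp
    have hbe : ((r : ℝ) - 2) * be r θ η = η - θ := by
      unfold be
      rw [abs_of_pos hsp]
      field_simp
    rw [if_pos hp0, hθm, hp0]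
    rw [hp0] at hmg0 hmgu
    by_cases hj0 : (j : ℕ) = 0
    · rw [hj0, if_neg (by omega)]
      push_cast
      linarith
    · rcases hc with hc | hc
      · -- `x` critical
        have hne : a j ≠ x := by
          intro h
          rw [← ha0] at h
          have := hinj h
          rw [Fin.ext_iff] at this
          exact hj0 this
        have hm : D {a j} ≤ D (univ.erase x) := by
          have := GRB_mono hD {a j} (univ.erase x)
          rwa [Finset.union_eq_right.2] at this
          intro z hz
          rw [Finset.mem_singleton] at hz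
          rw [hz, Finset.mem_erase]
          exact ⟨hne, Finset.mem_univ _⟩
        have he : mg D x (univ.erase x) = D univ - D (univ.erase x) := by
          unfold mg
          rw [Finset.insert_erase (Finset.mem_univ _)]
        rw [he] at hc
        rw [hmg0]
        by_cases hj : (j : ℕ) = r - 1
        · rw [if_pos hj]
          have : (((j : ℕ)) : ℝ) = (r : ℝ) - 1 := by
            rw [hj]
            have e2 : 1 ≤ r := by omega
            push_cast [Nat.cast_sub e2]
            ring
          rw [this]
          push_cast
          nlinarith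
        · rw [if_neg hj]
          have : (((j : ℕ)) : ℝ) ≤ (r : ℝ) - 2 := by
            have : (j : ℕ) + 2 ≤ r := by omega
            have : (((j : ℕ) : ℝ)) + 2 ≤ r := by exact_mod_cast this
            linarith
          push_cast
          nlinarith
      · have hG := h1 r D a x hD hg p j hpj (Or.inr hc)
        have hG' : (((j : ℕ) : ℝ) - ((p : ℕ) : ℝ) + 1) * mg D (a j) (pre a p) ≤ 1 - θ := by
          linarith [hpos (pre a p)]
        rw [hp0] at hG'
        rw [Nat.cast_zero] at hG' ⊢
        have hJ : (0 : ℝ) < ((j : ℕ) : ℝ) - 0 + 1 := by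
          have : (0 : ℝ) ≤ ((j : ℕ) : ℝ) := Nat.cast_nonneg _
          linarith
        refine OCG_div hJ hG' ?_
        by_cases hj : (j : ℕ) = r - 1
        · rw [if_pos hj]
          have hjr : (((j : ℕ)) : ℝ) = (r : ℝ) - 1 := by
            rw [hj]
            have e2 : 1 ≤ r := by omega
            push_cast [Nat.cast_sub e2]
            ring
          rw [hjr]
          have := n7 hsp.le
          nlinarith
        · rw [if_neg hj]
          have hjr : (((j : ℕ)) : ℝ) ≤ (r : ℝ) - 2 := by
            have : (j : ℕ) + 2 ≤ r := by omega
            have : (((j : ℕ) : ℝ)) + 2 ≤ r := by exact_mod_cast this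
            linarith
          have h6 := n6 hsp.le
          have hj1 : (1 : ℝ) ≤ ((j : ℕ) : ℝ) := by
            have : 1 ≤ (j : ℕ) := by omega
            exact_mod_cast this
          have e : (((j : ℕ) : ℝ) - 0 + 1) * (1 - ((((j : ℕ) : ℝ) - 0 + 1) * be r θ η +
              (θ - be r θ η) + 0)) = (((j : ℕ) : ℝ) + 1) * (1 - θ - ((j : ℕ) : ℝ) * be r θ η) := by
            ring
          rw [e]
          have h7 : (((j : ℕ) : ℝ) + 1) * be r θ η ≤ 1 - θ := by
            refine le_trans (mul_le_mul_of_nonneg_right (by linarith) n1) h6
          nlinarith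

end H773Y
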