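import Pool.Agent.H773R2.UG.Defs

/-! Task OF4 (MP_9dddc4_co): at most one critical role, `r = 4`, the greedy order does not fit. -/

set_option linter.unusedVariables false

namespace H773Y

open Finset Pool.Agent.Results.MP_9dddc4_co.UkExponent H773X

theorem OF4_core (θ η b tp : ℝ) (D : Finset (Fin 4) → ℝ) (hη : 0 ≤ η) (hη1 : η ≤ 3 / 5)
    (hθ : -η ≤ θ) (hθ1 : 3 * θ ≤ η) (hS : SupM D) (hD : D {0, 1, 2, 3} ≤ 1 - θ)
    (hc : (0 ≤ θ ∧ tp = θ ∧ b = (η - θ) / 2) ∨ (θ ≤ 0 ∧ tp = 0 ∧ b = (η + θ) / 2))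
    (g1 : D {0, 2} ≤ D {0, 1}) (g2 : D {0, 3} ≤ D {0, 1}) (g3 : D {0, 1, 3} ≤ D {0, 1, 2})
    (h1 : 1 - b < D {0, 1, 2, 3} - D {1, 2, 3} ∨
      (D {1} ≤ D {0} ∧ D {2} ≤ D {0} ∧ D {3} ≤ D {0}))
    (h2 : 1 - 2 * b < D {0, 2} - D {0}) :
    ((0 < tp → D {3} ≤ 1 - tp) ∧ (0 < tp → D {0} ≤ 1 - tp - b) ∧
      (0 < tp → D {1} ≤ 1 - tp - 2 * b) ∧ (0 < tp → D {2} ≤ 1 - 2 * tp - 2 * b)) ∧
    (D {0, 3} - D {3} ≤ 1 - b ∧ D {1, 3} - D {3} ≤ 1 - 2 * b ∧
      D {2, 3} - D {3} ≤ 1 - 2 * b - tp) ∧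
    (D {0, 1, 3} - D {0, 3} ≤ 1 - b ∧ D {0, 2, 3} - D {0, 3} ≤ 1 - b - tp) ∧
    (0 < tp → D {0, 1, 2, 3} - D {0, 1, 3} ≤ 1 - tp) := by
  have h0 : D ∅ = 0 := hS.1
  have s1 : D {0} + D {1} ≤ D {0, 1} + D ∅ := by
    have h := hS.2.2 ∅ 0 1 (by decide) (by decide) (by decide)
    convert h using 3 <;> decide
  have s2 : D {0} + D {2} ≤ D {0, 2} + D ∅ := by
    have h := hS.2.2 ∅ 0 2 (by decide) (by decide) (by decide)
    convert h using 3 <;> decide
  have s3 : D {0} + D {3} ≤ D {0, 3} + D ∅ := by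
    have h := hS.2.2 ∅ 0 3 (by decide) (by decide) (by decide)
    convert h using 3 <;> decide
  have s4 : D {1} + D {2} ≤ D {1, 2} + D ∅ := by
    have h := hS.2.2 ∅ 1 2 (by decide) (by decide) (by decide)
    convert h using 3 <;> decide
  have s5 : D {1} + D {3} ≤ D {1, 3} + D ∅ := by
    have h := hS.2.2 ∅ 1 3 (by decide) (by decide) (by decide)
    convert h using 3 <;> decide
  have s6 : D {2} + D {3} ≤ D {2, 3} + D ∅ := by
    have h := hS.2.2 ∅ 2 3 (by decide) (by decide) (by decide)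
    convert h using 3 <;> decide
  have s7 : D {0, 1} + D {0, 2} ≤ D {0, 1, 2} + D {0} := by
    have h := hS.2.2 {0} 1 2 (by decide) (by decide) (by decide)
    convert h using 3 <;> decide
  have s8 : D {0, 1} + D {0, 3} ≤ D {0, 1, 3} + D {0} := by
    have h := hS.2.2 {0} 1 3 (by decide) (by decide) (by decide)
    convert h using 3 <;> decide
  have s9 : D {0, 2} + D {0, 3} ≤ D {0, 2, 3} + D {0} := by
    have h := hS.2.2 {0} 2 3 (by decide) (by decide) (by decide)
    convert h using 3 <;> decide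
  have s10 : D {0, 1} + D {1, 2} ≤ D {0, 1, 2} + D {1} := by
    have h := hS.2.2 {1} 0 2 (by decide) (by decide) (by decide)
    convert h using 3 <;> decide
  have s11 : D {0, 1} + D {1, 3} ≤ D {0, 1, 3} + D {1} := by
    have h := hS.2.2 {1} 0 3 (by decide) (by decide) (by decide)
    convert h using 3 <;> decide
  have s12 : D {1, 2} + D {1, 3} ≤ D {1, 2, 3} + D {1} := by
    have h := hS.2.2 {1} 2 3 (by decide) (by decide) (by decide)
    convert h using 3 <;> decide
  have s13 : D {0, 2} + D {1, 2} ≤ D {0, 1, 2} + D {2} := by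
    have h := hS.2.2 {2} 0 1 (by decide) (by decide) (by decide)
    convert h using 3 <;> decide
  have s14 : D {0, 2} + D {2, 3} ≤ D {0, 2, 3} + D {2} := by
    have h := hS.2.2 {2} 0 3 (by decide) (by decide) (by decide)
    convert h using 3 <;> decide
  have s15 : D {1, 2} + D {2, 3} ≤ D {1, 2, 3} + D {2} := by
    have h := hS.2.2 {2} 1 3 (by decide) (by decide) (by decide)
    convert h using 3 <;> decide
  have s16 : D {0, 3} + D {1, 3} ≤ D {0, 1, 3} + D {3} := by
    have h := hS.2.2 {3} 0 1 (by decide) (by decide) (by decide)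
    convert h using 3 <;> decide
  have s17 : D {0, 3} + D {2, 3} ≤ D {0, 2, 3} + D {3} := by
    have h := hS.2.2 {3} 0 2 (by decide) (by decide) (by decide)
    convert h using 3 <;> decide
  have s18 : D {1, 3} + D {2, 3} ≤ D {1, 2, 3} + D {3} := by
    have h := hS.2.2 {3} 1 2 (by decide) (by decide) (by decide)
    convert h using 3 <;> decide
  have s19 : D {0, 1, 2} + D {0, 1, 3} ≤ D {0, 1, 2, 3} + D {0, 1} := by
    have h := hS.2.2 {0, 1} 2 3 (by decide) (by decide) (by decide)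
    convert h using 3 <;> decide
  have s20 : D {0, 1, 2} + D {0, 2, 3} ≤ D {0, 1, 2, 3} + D {0, 2} := by
    have h := hS.2.2 {0, 2} 1 3 (by decide) (by decide) (by decide)
    convert h using 3 <;> decide
  have s21 : D {0, 1, 3} + D {0, 2, 3} ≤ D {0, 1, 2, 3} + D {0, 3} := by
    have h := hS.2.2 {0, 3} 1 2 (by decide) (by decide) (by decide)
    convert h using 3 <;> decide
  have s22 : D {0, 1, 2} + D {1, 2, 3} ≤ D {0, 1, 2, 3} + D {1, 2} := by
    have h := hS.2.2 {1, 2} 0 3 (by decide) (by decide) (by decide)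
    convert h using 3 <;> decide
  have s23 : D {0, 1, 3} + D {1, 2, 3} ≤ D {0, 1, 2, 3} + D {1, 3} := by
    have h := hS.2.2 {1, 3} 0 2 (by decide) (by decide) (by decide)
    convert h using 3 <;> decide
  have s24 : D {0, 2, 3} + D {1, 2, 3} ≤ D {0, 1, 2, 3} + D {2, 3} := by
    have h := hS.2.2 {2, 3} 0 1 (by decide) (by decide) (by decide)
    convert h using 3 <;> decide
  have m1 : D ∅ ≤ D {0} := by
    have h := hS.2.1 ∅ 0
    convert h using 2 <;> decide
  have m2 : D ∅ ≤ D {1} := by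
    have h := hS.2.1 ∅ 1
    convert h using 2 <;> decide
  have m3 : D ∅ ≤ D {2} := by
    have h := hS.2.1 ∅ 2
    convert h using 2 <;> decide
  have m4 : D ∅ ≤ D {3} := by
    have h := hS.2.1 ∅ 3
    convert h using 2 <;> decide
  have m5 : D {0} ≤ D {0, 1} := by
    have h := hS.2.1 {0} 1
    convert h using 2 <;> decide
  have m6 : D {0} ≤ D {0, 2} := by
    have h := hS.2.1 {0} 2
    convert h using 2 <;> decide
  have m7 : D {0} ≤ D {0, 3} := by
    have h := hS.2.1 {0} 3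
    convert h using 2 <;> decide
  have m8 : D {1} ≤ D {0, 1} := by
    have h := hS.2.1 {1} 0
    convert h using 2 <;> decide
  have m9 : D {1} ≤ D {1, 2} := by
    have h := hS.2.1 {1} 2
    convert h using 2 <;> decide
  have m10 : D {1} ≤ D {1, 3} := by
    have h := hS.2.1 {1} 3
    convert h using 2 <;> decide
  have m11 : D {2} ≤ D {0, 2} := by
    have h := hS.2.1 {2} 0
    convert h using 2 <;> decide
  have m12 : D {2} ≤ D {1, 2} := by
    have h := hS.2.1 {2} 1
    convert h using 2 <;> decide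
  have m13 : D {2} ≤ D {2, 3} := by
    have h := hS.2.1 {2} 3
    convert h using 2 <;> decide
  have m14 : D {3} ≤ D {0, 3} := by
    have h := hS.2.1 {3} 0
    convert h using 2 <;> decide
  have m15 : D {3} ≤ D {1, 3} := by
    have h := hS.2.1 {3} 1
    convert h using 2 <;> decide
  have m16 : D {3} ≤ D {2, 3} := by
    have h := hS.2.1 {3} 2
    convert h using 2 <;> decide
  have m17 : D {0, 1} ≤ D {0, 1, 2} := by
    have h := hS.2.1 {0, 1} 2
    convert h using 2 <;> decide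
  have m18 : D {0, 1} ≤ D {0, 1, 3} := by
    have h := hS.2.1 {0, 1} 3
    convert h using 2 <;> decide
  have m19 : D {0, 2} ≤ D {0, 1, 2} := by
    have h := hS.2.1 {0, 2} 1
    convert h using 2 <;> decide
  have m20 : D {0, 2} ≤ D {0, 2, 3} := by
    have h := hS.2.1 {0, 2} 3
    convert h using 2 <;> decide
  have m21 : D {0, 3} ≤ D {0, 1, 3} := by
    have h := hS.2.1 {0, 3} 1
    convert h using 2 <;> decide
  have m22 : D {0, 3} ≤ D {0, 2, 3} := by
    have h := hS.2.1 {0, 3} 2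
    convert h using 2 <;> decide
  have m23 : D {1, 2} ≤ D {0, 1, 2} := by
    have h := hS.2.1 {1, 2} 0
    convert h using 2 <;> decide
  have m24 : D {1, 2} ≤ D {1, 2, 3} := by
    have h := hS.2.1 {1, 2} 3
    convert h using 2 <;> decide
  have m25 : D {1, 3} ≤ D {0, 1, 3} := by
    have h := hS.2.1 {1, 3} 0
    convert h using 2 <;> decide
  have m26 : D {1, 3} ≤ D {1, 2, 3} := by
    have h := hS.2.1 {1, 3} 2
    convert h using 2 <;> decide
  have m27 : D {2, 3} ≤ D {0, 2, 3} := by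
    have h := hS.2.1 {2, 3} 0
    convert h using 2 <;> decide
  have m28 : D {2, 3} ≤ D {1, 2, 3} := by
    have h := hS.2.1 {2, 3} 1
    convert h using 2 <;> decide
  have m29 : D {0, 1, 2} ≤ D {0, 1, 2, 3} := by
    have h := hS.2.1 {0, 1, 2} 3
    convert h using 2 <;> decide
  have m30 : D {0, 1, 3} ≤ D {0, 1, 2, 3} := by
    have h := hS.2.1 {0, 1, 3} 2
    convert h using 2 <;> decide
  have m31 : D {0, 2, 3} ≤ D {0, 1, 2, 3} := by
    have h := hS.2.1 {0, 2, 3} 1
    convert h using 2 <;> decide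
  have m32 : D {1, 2, 3} ≤ D {0, 1, 2, 3} := by
    have h := hS.2.1 {1, 2, 3} 0
    convert h using 2 <;> decide
  clear hS
  rcases hc with ⟨c1, c2, c3⟩ | ⟨c1, c2, c3⟩
  · subst c2 c3
    rcases h1 with h1 | ⟨h1, h1', h1''⟩
    · refine ⟨⟨fun _ => ?_, fun _ => ?_, fun _ => ?_, fun _ => ?_⟩, ⟨?_, ?_, ?_⟩, ⟨?_, ?_⟩,
        fun _ => ?_⟩ <;> linarith
    · refine ⟨⟨fun _ => ?_, fun _ => ?_, fun _ => ?_, fun _ => ?_⟩, ⟨?_, ?_, ?_⟩, ⟨?_, ?_⟩,
        fun _ => ?_⟩ <;> linarith
  · subst c2 c3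
    rcases h1 with h1 | ⟨h1, h1', h1''⟩
    · refine ⟨⟨fun h => absurd h (lt_irrefl _), fun h => absurd h (lt_irrefl _),
        fun h => absurd h (lt_irrefl _), fun h => absurd h (lt_irrefl _)⟩, ⟨?_, ?_, ?_⟩, ⟨?_, ?_⟩,
        fun h => absurd h (lt_irrefl _)⟩ <;> linarith
    · refine ⟨⟨fun h => absurd h (lt_irrefl _), fun h => absurd h (lt_irrefl _),
        fun h => absurd h (lt_irrefl _), fun h => absurd h (lt_irrefl _)⟩, ⟨?_, ?_, ?_⟩, ⟨?_, ?_⟩,
        fun h => absurd h (lt_irrefl _)⟩ <;> linarith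

theorem OF4_sum (f : Fin 4 → ℝ) (p j : Fin 4) : ∑ l ∈ Icc p j, f l =
    (if p ≤ 0 ∧ 0 ≤ j then f 0 else 0) + (if p ≤ 1 ∧ 1 ≤ j then f 1 else 0) +
      (if p ≤ 2 ∧ 2 ≤ j then f 2 else 0) + (if p ≤ 3 ∧ 3 ≤ j then f 3 else 0) := by
  rw [← Fin.sum_univ_four (fun l => if p ≤ l ∧ l ≤ j then f l else 0), ← Finset.sum_filter]
  congr 1
  ext l
  simp

theorem OF4_mg (D : Finset (Fin 4) → ℝ) (a c : Fin 4 → Fin 4) (p : ℕ) (j : Fin 4) :
    mg D ((a ∘ c) j) (pre (a ∘ c) p) =
      D ((insert (c j) ((univ.filter (fun i : Fin 4 => (i : ℕ) < p)).image c)).image a) -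
        D (((univ.filter (fun i : Fin 4 => (i : ℕ) < p)).image c).image a) := by
  unfold mg pre
  rw [Finset.image_insert, Finset.image_image]
  rfl

theorem OF4_fin (D : Finset (Fin 4) → ℝ) (a : Fin 4 → Fin 4) (S1 S2 T1 T2 : Finset (Fin 4))
    (v r : ℝ) (e1 : S1 = T1) (e2 : S2 = T2) (h : D (T1.image a) - D (T2.image a) ≤ v)
    (hv : v = r) : D (S1.image a) - D (S2.image a) ≤ r := by
  subst e1 e2 hv
  exact h

theorem OF4 (h : S_ONM) : S_OF4 := by
  intro θ η D x a hA hS hD hG h1 h2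
  obtain ⟨ha, hx, hg⟩ := hG
  obtain ⟨-, hη, hη1, hθ, hθ1⟩ := hA
  have hx0 : x = a 0 := (hx 0 rfl).symm
  subst hx0
  have hη1' : η ≤ 3 / 5 := by
    have : (((4 : ℕ) : ℝ) - 1) / (((4 : ℕ) : ℝ) + 1) = 3 / 5 := by norm_num
    linarith
  have hθ1' : 3 * θ ≤ η := by
    have : (((4 : ℕ) : ℝ) - 1) * θ = 3 * θ := by norm_num
    linarith
  have hbe : be 4 θ η = (η - |θ|) / 2 := by
    unfold be
    norm_num
  have hS' : SupM (fun I : Finset (Fin 4) => D (I.image a)) := by
    refine ⟨?_, ?_, ?_⟩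
    · show D ((∅ : Finset (Fin 4)).image a) = 0
      rw [Finset.image_empty]
      exact hS.1
    · intro A u
      show D (A.image a) ≤ D ((insert u A).image a)
      rw [Finset.image_insert]
      exact hS.2.1 _ _
    · intro A u v hu hv huv
      show D ((insert u A).image a) + D ((insert v A).image a) ≤
        D ((insert u (insert v A)).image a) + D (A.image a)
      rw [Finset.image_insert, Finset.image_insert, Finset.image_insert, Finset.image_insert]
      refine hS.2.2 _ _ _ ?_ ?_ ?_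
      · rw [ha.1.mem_finset_image]
        exact hu
      · rw [ha.1.mem_finset_image]
        exact hv
      · exact fun h => huv (ha.1 h)
  have hU : D (({0, 1, 2, 3} : Finset (Fin 4)).image a) = D univ := by
    congr 1
    have : ({0, 1, 2, 3} : Finset (Fin 4)) = univ := by decide
    rw [this]
    exact Finset.image_univ_of_surjective ha.2
  have hgr : ∀ p j : Fin 4, p ≤ j → 1 ≤ (p : ℕ) →
      D ((insert j (univ.filter (fun i : Fin 4 => (i : ℕ) < p))).image a) ≤
        D ((insert p (univ.filter (fun i : Fin 4 => (i : ℕ) < p))).image a) := by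
    intro p j hpj hp
    have h3 := hg p j hpj (Or.inl hp)
    unfold mg pre at h3
    rw [← Finset.image_insert, ← Finset.image_insert] at h3
    linarith
  have g1 : D (({0, 2} : Finset (Fin 4)).image a) ≤ D (({0, 1} : Finset (Fin 4)).image a) := by
    have h3 := hgr 1 2 (by decide) (by decide)
    convert h3 using 3 <;> decide
  have g2 : D (({0, 3} : Finset (Fin 4)).image a) ≤ D (({0, 1} : Finset (Fin 4)).image a) := by
    have h3 := hgr 1 3 (by decide) (by decide)
    convert h3 using 3 <;> decide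
  have g3 : D (({0, 1, 3} : Finset (Fin 4)).image a) ≤
      D (({0, 1, 2} : Finset (Fin 4)).image a) := by
    have h3 := hgr 2 3 (by decide) (by decide)
    convert h3 using 3 <;> decide
  have h1' : 1 - be 4 θ η < D (({0, 1, 2, 3} : Finset (Fin 4)).image a) -
        D (({1, 2, 3} : Finset (Fin 4)).image a) ∨
      (D (({1} : Finset (Fin 4)).image a) ≤ D (({0} : Finset (Fin 4)).image a) ∧
        D (({2} : Finset (Fin 4)).image a) ≤ D (({0} : Finset (Fin 4)).image a) ∧
        D (({3} : Finset (Fin 4)).image a) ≤ D (({0} : Finset (Fin 4)).image a)) := by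
    rcases h1 with h1 | h1
    · left
      have e1 : (({1, 2, 3} : Finset (Fin 4)).image a) = univ.erase (a 0) := by
        have : ({1, 2, 3} : Finset (Fin 4)) = univ.erase 0 := by decide
        rw [this, Finset.image_erase ha.1, Finset.image_univ_of_surjective ha.2]
      rw [e1, hU]
      unfold mg at h1
      rwa [Finset.insert_erase (Finset.mem_univ _)] at h1
    · right
      simp only [Finset.image_singleton]
      exact ⟨h1 _, h1 _, h1 _⟩
  have h2' : 1 - 2 * be 4 θ η < D (({0, 2} : Finset (Fin 4)).image a) -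
      D (({0} : Finset (Fin 4)).image a) := by
    unfold mg at h2
    rw [Finset.image_insert, Finset.image_singleton, Finset.image_singleton,
      Finset.pair_comm (a 0) (a 2)]
    exact h2
  have hcase : (0 ≤ θ ∧ max θ 0 = θ ∧ be 4 θ η = (η - θ) / 2) ∨
      (θ ≤ 0 ∧ max θ 0 = 0 ∧ be 4 θ η = (η + θ) / 2) := by
    rcases le_total 0 θ with h3 | h3
    · left
      refine ⟨h3, max_eq_left h3, ?_⟩
      rw [hbe, abs_of_nonneg h3]
    · right
      refine ⟨h3, max_eq_right h3, ?_⟩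
      rw [hbe, abs_of_nonpos h3]
      ring
  obtain ⟨⟨f00, f01, f02, f03⟩, ⟨f11, f12, f13⟩, ⟨f22, f23⟩, f33⟩ :=
    OF4_core θ η (be 4 θ η) (max θ 0) (fun I => D (I.image a)) hη hη1' hθ hθ1' hS'
      (by show D (({0, 1, 2, 3} : Finset (Fin 4)).image a) ≤ 1 - θ
          rw [hU]; exact hD)
      hcase g1 g2 g3 h1' h2'
  have h0 : D ∅ = 0 := hS.1
  have b0 : shp 4 θ η 0 = max θ 0 := by simp [shp]
  have b1 : shp 4 θ η 1 = be 4 θ η := by simp [shp]
  have b2 : shp 4 θ η 2 = be 4 θ η := by simp [shp]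
  have b3 : shp 4 θ η 3 = max θ 0 := by simp [shp]
  refine ⟨a ∘ ![3, 0, 1, 2], ha.comp (by decide), ?_⟩
  intro p j hpj hb
  rw [OF4_mg, OF4_sum, b0, b1, b2, b3]
  have hE : D ((∅ : Finset (Fin 4)).image a) = 0 := by rw [Finset.image_empty]; exact h0
  fin_cases p <;> fin_cases j <;> first | (exfalso; revert hpj; decide) | skip
  · have h3 := f00 (by simpa [shp] using hb)
    exact OF4_fin D a _ _ {3} ∅ (1 - max θ 0) _ (by decide) (by decide)
      (by rw [hE]; linarith) (by simp)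
  · have h3 := f01 (by simpa [shp] using hb)
    exact OF4_fin D a _ _ {0} ∅ (1 - max θ 0 - be 4 θ η) _ (by decide) (by decide)
      (by rw [hE]; linarith) (by simp; ring)
  · have h3 := f02 (by simpa [shp] using hb)
    exact OF4_fin D a _ _ {1} ∅ (1 - max θ 0 - 2 * be 4 θ η) _ (by decide) (by decide)
      (by rw [hE]; linarith) (by simp; ring)
  · have h3 := f03 (by simpa [shp] using hb)
    exact OF4_fin D a _ _ {2} ∅ (1 - 2 * max θ 0 - 2 * be 4 θ η) _ (by decide) (by decide)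
      (by rw [hE]; linarith) (by simp; ring)
  · exact OF4_fin D a _ _ {0, 3} {3} (1 - be 4 θ η) _ (by decide) (by decide) f11 (by simp)
  · exact OF4_fin D a _ _ {1, 3} {3} (1 - 2 * be 4 θ η) _ (by decide) (by decide) f12
      (by simp; ring)
  · exact OF4_fin D a _ _ {2, 3} {3} (1 - 2 * be 4 θ η - max θ 0) _ (by decide) (by decide) f13
      (by simp; ring)
  · exact OF4_fin D a _ _ {0, 1, 3} {0, 3} (1 - be 4 θ η) _ (by decide) (by decide) f22 (by simp)
  · exact OF4_fin D a _ _ {0, 2, 3} {0, 3} (1 - be 4 θ η - max θ 0) _ (by decide) (by decide) f23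
      (by simp; ring)
  · have h3 := f33 (by simpa [shp] using hb)
    exact OF4_fin D a _ _ {0, 1, 2, 3} {0, 1, 3} (1 - max θ 0) _ (by decide) (by decide)
      h3 (by simp)

end H773Y
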