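import Pool.Agent.H773R2.UG.Defs

/-!
# ONM: numerical facts
-/

set_option autoImplicit false

namespace H773Y

/-- a concave quadratic between its values at the ends -/
theorem ONM_lin {a c l v w K : ℝ} (h1 : a ≤ l) (h2 : l ≤ c) (hac : a < c) (hv : K ≤ v)
    (hw : K ≤ w) : K * (c - a) ≤ (c - l) * v + (l - a) * w := by
  nlinarith [mul_nonneg (sub_nonneg.2 h2) (sub_nonneg.2 hv),
    mul_nonneg (sub_nonneg.2 h1) (sub_nonneg.2 hw)]

theorem ONM : S_ONM := by
  intro r θ η hadm
  obtain ⟨hr, hη0, hη1, hθ1, hθ2⟩ := hadm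
  obtain ⟨R, hR⟩ : ∃ R : ℝ, R = (r : ℝ) := ⟨_, rfl⟩
  obtain ⟨β, hβ⟩ : ∃ β : ℝ, β = be r θ η := ⟨_, rfl⟩
  rw [← hβ]
  unfold be at hβ
  rw [← hR] at hη1 hθ2 hβ ⊢
  have hR4 : (4 : ℝ) ≤ R := by rw [hR]; exact_mod_cast hr
  have hη : η * (R + 1) ≤ R - 1 := by
    rw [le_div_iff₀ (by linarith)] at hη1
    exact hη1
  obtain ⟨x, hx⟩ : ∃ x : ℝ, x = |θ| := ⟨_, rfl⟩
  rw [← hx] at hβ
  have hx0 : 0 ≤ x := by rw [hx]; exact abs_nonneg _
  have hx1 : θ ≤ x := by rw [hx]; exact le_abs_self _
  have hx2 : -θ ≤ x := by rw [hx]; exact neg_le_abs _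
  have hxη : x ≤ η := by
    rw [hx, abs_le]
    refine ⟨by linarith, ?_⟩
    by_contra hcon
    push Not at hcon
    have h1 : 0 < θ := by linarith
    nlinarith
  have hB : (R - 2) * β = η - x := by
    rw [hβ]
    have : R - 2 ≠ 0 := by linarith
    field_simp
  have hβ0 : 0 ≤ β := by
    rw [hβ]
    exact div_nonneg (by linarith) (by linarith)
  have hηle : η ≤ 1 := by
    by_contra hcon
    push Not at hcon
    nlinarith
  have hmax : 2 * max θ 0 = θ + x := by
    rw [hx]
    rcases le_total 0 θ with h | h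
    · rw [max_eq_left h, abs_of_nonneg h]; ring
    · rw [max_eq_right h, abs_of_nonpos h]; ring
  have hG : (R - 1) * η ≤ R - 2 := by
    by_contra hcon
    push Not at hcon
    have h1 : (R - 2) * (R + 1) < (R - 1) * η * (R + 1) :=
      mul_lt_mul_of_pos_right hcon (by linarith)
    have h2 : (R - 1) * (η * (R + 1)) ≤ (R - 1) * (R - 1) :=
      mul_le_mul_of_nonneg_left hη (by linarith)
    nlinarith
  have h2β : 2 * β ≤ η - x := by
    have := mul_nonneg (by linarith : 0 ≤ R - 4) hβ0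
    nlinarith
  have hinv : (1 - η) * (R + 1) ≥ 2 := by linarith
  refine ⟨hβ0, ?_, ?_, ?_, ?_, ?_, ?_⟩
  · -- (2)
    have h1 : (β + η) * (R - 2) ≤ 1 * (R - 2) := by nlinarith
    exact le_of_mul_le_mul_right h1 (by linarith)
  · -- (3)
    rcases Nat.lt_or_ge r 5 with h5 | h5
    · have hr4 : r = 4 := by omega
      have hRe : R = 4 := by rw [hR, hr4]; norm_num
      rw [hRe] at hB hη
      linarith
    · have hR5 : (5 : ℝ) ≤ R := by rw [hR]; exact_mod_cast h5
      have := mul_nonneg (by linarith : 0 ≤ R - 5) hβ0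
      nlinarith
  · -- (4)
    intro l h5 hl2 hlr
    have hR5 : (5 : ℝ) ≤ R := by rw [hR]; exact_mod_cast h5
    have hl2' : (2 : ℝ) ≤ l := by exact_mod_cast hl2
    have hlr' : (l : ℝ) ≤ R - 2 := by
      have : l + 2 ≤ r := by omega
      have h' : (l : ℝ) + 2 ≤ r := by exact_mod_cast this
      rw [hR]; linarith
    have ha : 1 - θ ≤ 2 - 4 * β := by
      rcases Nat.lt_or_ge r 6 with h6 | h6
      · have hr5 : r = 5 := by omega
        have hRe : R = 5 := by rw [hR, hr5]; norm_num
        rw [hRe] at hB hη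
        linarith
      · have hR6 : (6 : ℝ) ≤ R := by rw [hR]; exact_mod_cast h6
        have := mul_nonneg (by linarith : 0 ≤ R - 6) hβ0
        nlinarith
    have hb : 1 - θ ≤ (R - 2) * (1 - η + x) := by
      have e1 : 1 ≤ (R - 2) * (1 - η) := by
        by_contra hcon
        push Not at hcon
        have h1 : (R - 2) * (1 - η) * (R + 1) < 1 * (R + 1) :=
          mul_lt_mul_of_pos_right hcon (by linarith)
        have h2 : (R - 2) * 2 ≤ (R - 2) * ((1 - η) * (R + 1)) :=
          mul_le_mul_of_nonneg_left hinv (by linarith)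
        nlinarith
      have e2 : x ≤ (R - 2) * x := by nlinarith
      nlinarith
    have hlin := ONM_lin hl2' hlr' (by linarith) ha hb
    have hq := mul_nonneg hβ0 (mul_nonneg (sub_nonneg.2 hl2') (sub_nonneg.2 hlr'))
    have e : ((l : ℝ) * (1 - l * β)) * (R - 2 - 2) =
        (R - 2 - l) * (2 - 4 * β) + (l - 2) * ((R - 2) * (1 - η + x)) +
          (R - 4) * (β * ((l - 2) * (R - 2 - l))) := by
      have : 1 - η + x = 1 - (R - 2) * β := by linarith
      rw [this]
      ring
    have h3 : (1 - θ) * (R - 2 - 2) ≤ ((l : ℝ) * (1 - l * β)) * (R - 2 - 2) := by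
      rw [e]
      have := mul_nonneg (by linarith : 0 ≤ R - 4) hq
      linarith
    exact le_of_mul_le_mul_right h3 (by linarith)
  · -- (5)
    intro l hl2 hlr
    have hl2' : (2 : ℝ) ≤ l := by exact_mod_cast hl2
    have hlr' : (l : ℝ) ≤ R - 1 := by
      have : l + 1 ≤ r := by omega
      have h' : (l : ℝ) + 1 ≤ r := by exact_mod_cast this
      rw [hR]; linarith
    have hm0 : 0 ≤ max θ 0 := le_max_right _ _
    have ha : 1 - θ ≤ 2 * (1 - max θ 0) - 2 * β := by linarith
    have hb : 1 - θ ≤ (R - 1) * (1 - max θ 0 - η + x) := by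
      have e1 : 1 ≤ (R - 1) * (1 - η) := by
        by_contra hcon
        push Not at hcon
        have h1 : (R - 1) * (1 - η) * (R + 1) < 1 * (R + 1) :=
          mul_lt_mul_of_pos_right hcon (by linarith)
        have h2 : (R - 1) * 2 ≤ (R - 1) * ((1 - η) * (R + 1)) :=
          mul_le_mul_of_nonneg_left hinv (by linarith)
        nlinarith
      have e3 : max θ 0 = (θ + x) / 2 := by linarith
      have e2 : (x - θ) / 2 ≤ (R - 1) * ((x - θ) / 2) := by nlinarith
      have e4 : (R - 1) * (1 - max θ 0 - η + x) = (R - 1) * (1 - η) + (R - 1) * ((x - θ) / 2) := by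
        rw [e3]; ring
      rw [e4]
      rcases le_total 0 θ with h | h
      · have : 0 ≤ (R - 1) * ((x - θ) / 2) := mul_nonneg (by linarith) (by linarith)
        linarith
      · have hxe : x = -θ := by rw [hx, abs_of_nonpos h]
        rw [hxe] at e2 ⊢
        linarith
    have hlin := ONM_lin hl2' hlr' (by linarith) ha hb
    have hq := mul_nonneg hβ0 (mul_nonneg (sub_nonneg.2 hl2') (sub_nonneg.2 hlr'))
    have e : ((l : ℝ) * (1 - max θ 0 - ((l : ℝ) - 1) * β)) * (R - 1 - 2) =
        (R - 1 - l) * (2 * (1 - max θ 0) - 2 * β) +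
          (l - 2) * ((R - 1) * (1 - max θ 0 - η + x)) +
          (R - 3) * (β * ((l - 2) * (R - 1 - l))) := by
      have : 1 - max θ 0 - η + x = 1 - max θ 0 - (R - 2) * β := by linarith
      rw [this]
      ring
    have h3 : (1 - θ) * (R - 1 - 2) ≤
        ((l : ℝ) * (1 - max θ 0 - ((l : ℝ) - 1) * β)) * (R - 1 - 2) := by
      rw [e]
      have := mul_nonneg (by linarith : 0 ≤ R - 3) hq
      linarith
    exact le_of_mul_le_mul_right h3 (by linarith)
  · -- (6)
    intro h
    have hxe : x = θ := by rw [hx, abs_of_nonneg h]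
    have h1 : ((R - 1) * β) * (R - 2) ≤ (1 - θ) * (R - 2) := by
      have : ((R - 1) * β) * (R - 2) = (R - 1) * (η - θ) := by
        rw [← hxe, ← hB]; ring
      rw [this]
      nlinarith
    exact le_of_mul_le_mul_right h1 (by linarith)
  · -- (7)
    intro _
    nlinarith

end H773Y
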