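import Mathlib
import Pool.Agent.H773R2.UG.Defs

set_option autoImplicit false

open Finset

namespace H773Y

theorem ORD_sum (h3 : S_SHP) (r : ℕ) (θ η : ℝ) (hr : 4 ≤ r) : ∑ l, shp r θ η l = η + θ := by
  have hI : (Icc (⟨0, by omega⟩ : Fin r) ⟨r - 1, by omega⟩) = univ := by
    ext l
    have := l.2
    simp only [mem_Icc, mem_univ, iff_true]
    constructor
    · change (0 : ℕ) ≤ (l : ℕ)
      omega
    · change (l : ℕ) ≤ r - 1
      omega
  have h := h3 r θ η ⟨0, by omega⟩ ⟨r - 1, by omega⟩ hr (by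
    change (0 : ℕ) ≤ r - 1
    omega)
  rw [hI] at h
  rw [h]
  have hr' : (4 : ℝ) ≤ r := by exact_mod_cast hr
  have h1 : ((r - 1 : ℕ) : ℝ) = (r : ℝ) - 1 := by
    rw [Nat.cast_sub (by omega)]
    simp
  have h2 : ((r : ℝ) - 2) * be r θ η = η - |θ| := by
    unfold be
    have hr2 : (r : ℝ) - 2 ≠ 0 := by linarith
    rw [mul_div_cancel₀ _ hr2]
  simp only [if_true, h1, Nat.cast_zero]
  have h4 : 2 * max θ 0 - |θ| = θ := by
    rcases le_total θ 0 with h0 | h0
    · rw [max_eq_right h0, abs_of_nonpos h0]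
      ring
    · rw [max_eq_left h0, abs_of_nonneg h0]
      ring
  linear_combination h2 + h4

theorem ORD (h1 : S_ORM) (h2 : S_ORU) (h3 : S_SHP) (h4 : S_ONM) : S_ORD := by
  intro r k d hr hk hd hd'
  have hr' : (4 : ℝ) ≤ r := by exact_mod_cast hr
  have hk' : (r : ℝ) ≤ k := by exact_mod_cast hk
  have hrk : 0 < (r : ℝ) * k - 1 := by nlinarith
  have hη0 : 0 < et r k := by
    unfold et
    apply div_pos _ hrk
    have : (0 : ℝ) < (r : ℝ) - 1 := by linarith
    positivity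
  have hη1 : et r k ≤ ((r : ℝ) - 1) / ((r : ℝ) + 1) := by
    unfold et
    rw [div_le_div_iff₀ hrk (by linarith)]
    have e1 : (r : ℝ) ^ 2 - 1 ≤ (r : ℝ) * k - 1 := by nlinarith
    have e2 : (0 : ℝ) ≤ (r : ℝ) - 1 := by linarith
    calc ((r : ℝ) - 1) ^ 2 * ((r : ℝ) + 1) = ((r : ℝ) - 1) * ((r : ℝ) ^ 2 - 1) := by ring
      _ ≤ ((r : ℝ) - 1) * ((r : ℝ) * k - 1) := mul_le_mul_of_nonneg_left e1 e2
  have hd1 : (r : ℝ) * et r k ≤ ((r : ℝ) - 1) * d := by
    rw [div_le_iff₀ (by linarith)] at hd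
    linarith
  by_cases hc : et r k ≤ ((r : ℝ) - 1) * (1 - d)
  · refine ⟨fun _ => ((1 - d) + et r k) / r, fun _ => ?_, ?_, fun D hD hDu => ?_⟩
    · have : 0 ≤ 1 - d := by
        by_contra hneg
        push Not at hneg
        nlinarith
      positivity
    · rw [Finset.sum_const, Finset.card_univ, Fintype.card_fin, nsmul_eq_mul]
      field_simp
    · exact h2 r (1 - d) (et r k) D (by omega) hη0.le hc (by linarith) hD (by linarith)
  · push Not at hc
    have hadm : Adm r (1 - d) (et r k) := ⟨hr, hη0.le, hη1, by linarith, hc.le⟩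
    refine ⟨shp r (1 - d) (et r k), fun l => ?_, ?_, fun D hD hDu => ?_⟩
    · unfold shp
      split_ifs
      · exact le_max_right _ _
      · exact (h4 r _ _ hadm).1
    · rw [ORD_sum h3 r _ _ hr]
      ring
    · exact h1 r _ _ D hadm hD (by linarith)

end H773Y
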