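import Pool.Agent.H773R2.UG.Defs4

/-! Task ORK: the ordering lemma for `k = r-1` (by helper804, for the project of helper773). -/

set_option linter.unusedVariables false

namespace H773Y

open Finset Pool.Agent.Results.MP_9dddc4_co.UkExponent H773X

theorem ORK_sum (h5 : S_KSH) (h6 : S_KNM) (r : ℕ) (e : ℝ) (h : Adk r e) :
    ∑ l, sk r e l = 1 - rk r e := by
  have hr : 5 ≤ r := h.1
  obtain ⟨m, rfl⟩ : ∃ m, r = m + 1 := ⟨r - 1, by omega⟩
  have h1 := h5 (m + 1) e 0 (Fin.last m) hr (Fin.le_last _)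
  have h2 : Icc (0 : Fin (m + 1)) (Fin.last m) = univ := by
    ext x
    simp only [mem_Icc, mem_univ, iff_true]
    exact ⟨Fin.zero_le _, Fin.le_last _⟩
  rw [h2] at h1
  rw [h1]
  obtain ⟨-, -, -, -, -, -, -, -, -, -, h3⟩ := h6 (m + 1) e h
  have e1 : ((Fin.last m : Fin (m + 1)) : ℕ) = m + 1 - 1 := by simp
  have e2 : ((0 : Fin (m + 1)) : ℕ) = 0 := rfl
  rw [if_pos e2, if_pos e1, if_pos ⟨by rw [e2]; omega, by rw [e1]; omega⟩, ← h3, e2]
  have e3 : (((Fin.last m : Fin (m + 1)) : ℕ) : ℝ) = m := by simp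
  rw [e3]
  push_cast
  ring

theorem ORK (h1 : S_KC0) (h2 : S_KC1) (h3 : S_KCX) (h4 : S_KSF) (h5 : S_KSH) (h6 : S_KNM)
    (h7 : S_OA3) : S_ORK := by
  intro r d hr hd1 hd2
  rcases Nat.lt_or_ge r 5 with hr5 | hr5
  · have hr4 : r = 4 := by omega
    subst hr4
    obtain ⟨b, hb1, hb2, hb3⟩ := h7 d (by norm_num at hd1 ⊢; linarith)
      (by norm_num at hd2 ⊢; linarith)
    refine ⟨b, hb1, ?_, hb3⟩
    rw [hb2]
    push_cast
    ring
  · have hr0 : (5 : ℝ) ≤ r := by exact_mod_cast hr5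
    have hr1 : (r : ℝ) ≠ 0 := by linarith
    obtain ⟨e, he⟩ : ∃ e : ℝ, e = d - 1 := ⟨_, rfl⟩
    rcases le_or_gt e (((r : ℝ) - 2) / r) with hc | hc
    · have hA : Adk r e := ⟨hr5, by linarith, hc⟩
      obtain ⟨hb0, -⟩ := h6 r e hA
      refine ⟨sk r e, fun l => ?_, ?_, fun D hD hDu => ?_⟩
      · unfold sk
        split_ifs
        · exact le_rfl
        · positivity
        · exact hb0
      · rw [ORK_sum h5 h6 r e hA]
        unfold rk
        rw [he, sub_div, div_self hr1]
        ring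
      · have hDu' : D univ ≤ 1 + e := by linarith
        by_cases h0 : ∀ y, mg D y (univ.erase y) ≤ 1 - mk r e
        · exact h1 r e D hA hD hDu' h0
        · push Not at h0
          obtain ⟨x, hx⟩ := h0
          by_cases h8 : ∀ y, y ≠ x → mg D y (univ.erase y) ≤ 1 - mk r e
          · exact h2 r e D x hA hD hDu' hx h8
          · push Not at h8
            obtain ⟨y, hyx, hy⟩ := h8
            exact h3 r e D x y hA hD hDu' (Ne.symm hyx) hx hy
    · refine ⟨fun l => if (l : ℕ) = 1 then ((r : ℝ) - 1) / r - e else 0, fun l => ?_, ?_,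
        fun D hD hDu => h4 r e D hr hc.le hD (by linarith)⟩
      · simp only
        split_ifs
        · linarith
        · exact le_rfl
      · have h9 : ∀ l : Fin r, ((l : ℕ) = 1 ↔ l = ⟨1, by omega⟩) := fun l => by
          rw [Fin.ext_iff]
        simp only [h9]
        rw [Finset.sum_ite_eq' univ (⟨1, by omega⟩ : Fin r), if_pos (mem_univ _), he]
        ring

end H773Y
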