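import Pool.Agent.H773R2.UG.Defs

/-! Task ORM: the ordering lemma in the middle range. -/

set_option linter.unusedVariables false

namespace H773Y

open Finset Pool.Agent.Results.MP_9dddc4_co.UkExponent H773X

theorem ORM (h1 : S_GRE) (h2 : S_OC2) (h3 : S_OCG) (h4 : S_OF4) : S_ORM := by
  intro r θ η D hA hS hD
  by_cases hc : ∃ x y : Fin r, x ≠ y ∧ 1 - be r θ η < mg D x (univ.erase x) ∧
      1 - be r θ η < mg D y (univ.erase y)
  · obtain ⟨x, y, hxy, hx, hy⟩ := hc
    exact h2 r θ η D x y hA hS hD hxy hx hy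
  · have hx : ∃ x : Fin r, (1 - be r θ η < mg D x (univ.erase x) ∨ ∀ y, D {y} ≤ D {x}) ∧
        ∀ y, y ≠ x → mg D y (univ.erase y) ≤ 1 - be r θ η := by
      by_cases hx : ∃ x : Fin r, 1 - be r θ η < mg D x (univ.erase x)
      · obtain ⟨x, hx⟩ := hx
        refine ⟨x, Or.inl hx, fun y hy => ?_⟩
        by_contra hcon
        exact hc ⟨x, y, Ne.symm hy, hx, not_le.1 hcon⟩
      · have hr : 0 < r := by have := hA.1; omega
        obtain ⟨x, _, hx'⟩ := Finset.exists_max_image (univ : Finset (Fin r)) (fun y => D {y})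
          ⟨⟨0, hr⟩, mem_univ _⟩
        refine ⟨x, Or.inr fun y => hx' y (mem_univ _), fun y _ => ?_⟩
        by_contra hcon
        exact hx ⟨y, not_le.1 hcon⟩
    obtain ⟨x, hx1, hx2⟩ := hx
    obtain ⟨a, ha⟩ := h1 r D x
    by_cases hr : 5 ≤ r
    · exact h3 r θ η D x a hA hS hD ha hx2 hx1 (Or.inl hr)
    · have hr4 : r = 4 := by have := hA.1; omega
      subst hr4
      by_cases h5 : mg D (a 2) {x} ≤ 1 - 2 * be 4 θ η
      · refine h3 4 θ η D x a hA hS hD ha hx2 hx1 (Or.inr fun i hi => ?_)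
        have hi2 : i = 2 := Fin.ext hi
        rw [hi2]
        exact h5
      · exact h4 θ η D x a hA hS hD ha hx1 (not_le.1 h5)

end H773Y
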