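import Pool.Agent.H773R2.UG.Defs

set_option linter.unusedVariables false

namespace H773Y

open Finset Pool.Agent.Results.MP_9dddc4_co.UkExponent H773X

theorem ORU_nonneg {r : ℕ} {D : Finset (Fin r) → ℝ} (hD : SupM D) (A : Finset (Fin r)) :
    0 ≤ D A := by
  induction A using Finset.induction_on with
  | empty => rw [hD.1]
  | insert a s _ ih => exact le_trans ih (hD.2.1 s a)

theorem ORU_num {r l θ η g : ℝ} (hr : 1 ≤ r) (hl1 : 1 ≤ l) (hlr : l ≤ r) (hg : 0 ≤ g)
    (hrg : r * g = θ + η) (h1 : η ≤ (r - 1) * θ) (h2 : r * η ≤ (r - 1) * (1 - θ)) :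
    1 - θ ≤ l * (1 - l * g) := by
  have hθg : g ≤ θ := by
    by_contra hc
    push Not at hc
    have : r * θ < r * g := mul_lt_mul_of_pos_left hc (by linarith)
    linarith
  rcases eq_or_lt_of_le hr with h | h
  · have : l = 1 := by linarith
    rw [this]
    linarith
  · have hr1 : 0 < r - 1 := by linarith
    have key : (r - 1) * (l * (1 - l * g) - (1 - θ)) =
        (r - l) * (θ - g) + (l - 1) * ((r - 1) * (1 - θ) - r * η) +
          (r - 1) * ((l - 1) * (r - l) * g) := by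
      have e : η = r * g - θ := by linarith
      rw [e]
      ring
    have hnn : 0 ≤ (r - 1) * (l * (1 - l * g) - (1 - θ)) := by
      rw [key]
      have a1 : 0 ≤ (r - l) * (θ - g) := mul_nonneg (by linarith) (by linarith)
      have a2 : 0 ≤ (l - 1) * ((r - 1) * (1 - θ) - r * η) := mul_nonneg (by linarith) (by linarith)
      have a3 : 0 ≤ (r - 1) * ((l - 1) * (r - l) * g) :=
        mul_nonneg hr1.le (mul_nonneg (mul_nonneg (by linarith) (by linarith)) hg)
      linarith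
    have := nonneg_of_mul_nonneg_right hnn hr1
    linarith

theorem ORU (h1 : S_GRE) (h2 : S_GRB) : S_ORU := by
  intro r θ η D hr hη hηθ hrη hD hDu
  haveI : Nonempty (Fin r) := ⟨⟨0, by omega⟩⟩
  obtain ⟨x, hx⟩ := Finite.exists_max (fun y : Fin r => D {y})
  obtain ⟨a, ha⟩ := h1 r D x
  refine ⟨a, ha.1, fun p j hpj hb => ?_⟩
  have hG := h2 r D a x hD ha p j hpj (Or.inr hx)
  have hnn := ORU_nonneg hD (pre a (p : ℕ))
  rw [Finset.sum_const, Fin.card_Icc, nsmul_eq_mul]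
  have hpj' : (p : ℕ) ≤ (j : ℕ) := hpj
  have hjr : (j : ℕ) < r := j.2
  obtain ⟨l, hl⟩ : ∃ l : ℕ, l = (j : ℕ) + 1 - (p : ℕ) := ⟨_, rfl⟩
  rw [← hl]
  have hl1 : 1 ≤ l := by omega
  have hlr : l ≤ r := by omega
  have hlc : (l : ℝ) = ((j : ℕ) : ℝ) - ((p : ℕ) : ℝ) + 1 := by
    have e : l + (p : ℕ) = (j : ℕ) + 1 := by omega
    have e' : ((l + (p : ℕ) : ℕ) : ℝ) = (((j : ℕ) + 1 : ℕ) : ℝ) := by rw [e]
    push_cast at e'
    linarith
  rw [← hlc] at hG
  have hr' : (1 : ℝ) ≤ r := by exact_mod_cast hr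
  have hl1' : (1 : ℝ) ≤ l := by exact_mod_cast hl1
  have hlr' : (l : ℝ) ≤ r := by exact_mod_cast hlr
  have hnum := ORU_num (r := r) (l := l) (θ := θ) (η := η) (g := (θ + η) / r) hr' hl1' hlr'
    (le_of_lt hb) (by field_simp) hηθ hrη
  have hfin : (l : ℝ) * mg D (a j) (pre a (p : ℕ)) ≤ l * (1 - l * ((θ + η) / r)) := by linarith
  exact le_of_mul_le_mul_left hfin (by linarith)

end H773Y
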