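import Pool.Agent.H773R2.UG.Defs5
import Pool.Agent.H773R2.UK.GRR

/-! OVB: the overlay upper bound. -/

set_option autoImplicit false

namespace H773Y

open Finset Pool.Agent.Results.MP_9dddc4_co.UkExponent H773X

theorem OVB_step (n r k : ℕ) (M : ℝ) (hn : 1 ≤ n) (hk : 2 ≤ k) (hM0 : 0 < M)
    (hM : M ^ k = (n : ℝ) ^ (r * (k - 1))) (H : Fin k → ES n) (e : ℕ) (he : 1 ≤ e)
    (hH : ∀ i, IsRGraph r (H i)) (hc : ∀ i, (H i).card = e) :
    ∃ s : ℕ, 1 ≤ s ∧ Common H s ∧ (e : ℝ) ≤ M * s := by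
  by_cases heM : (e : ℝ) ≤ M
  · exact ⟨1, le_rfl, common_one (by omega) H hH e he hc, by simpa using heM⟩
  · rw [not_le] at heM
    obtain ⟨s, hs, hle⟩ := common_overlap (e := e) (by omega : 0 < k) H hH hc
    have hs1 : 1 ≤ s := by
      by_contra h
      have h0 : s = 0 := by omega
      rw [h0, zero_mul] at hle
      have : 0 < e ^ k := Nat.pow_pos (by omega)
      omega
    refine ⟨s, hs1, hs, ?_⟩
    have h1 : (n.choose r) ^ (k - 1) ≤ n ^ (r * (k - 1)) := by
      rw [pow_mul]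
      exact Nat.pow_le_pow_left (Nat.choose_le_pow n r) _
    have h2 : e ^ k ≤ s * n ^ (r * (k - 1)) := le_trans hle (Nat.mul_le_mul_left _ h1)
    have h3 : (e : ℝ) ^ k ≤ s * M ^ k := by
      rw [hM]
      exact_mod_cast h2
    have h4 : (e : ℝ) * M ^ (k - 1) ≤ (e : ℝ) ^ k := by
      have h5 : (e : ℝ) ^ k = e * (e : ℝ) ^ (k - 1) := by
        rw [← pow_succ']
        congr 1
        omega
      rw [h5]
      exact mul_le_mul_of_nonneg_left (pow_le_pow_left₀ hM0.le heM.le _) (Nat.cast_nonneg _)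
    have h6 : M ^ k = M * M ^ (k - 1) := by
      rw [← pow_succ']
      congr 1
      omega
    have h7 : (e : ℝ) * M ^ (k - 1) ≤ (M * s) * M ^ (k - 1) := by
      calc (e : ℝ) * M ^ (k - 1) ≤ s * M ^ k := le_trans h4 h3
        _ = (M * s) * M ^ (k - 1) := by rw [h6]; ring
    exact le_of_mul_le_mul_right h7 (pow_pos hM0 _)

theorem OVB : S_OVB := by
  intro r k hr hk
  refine ⟨(r : ℝ) + 2, by positivity, fun n hn => ?_⟩
  have hn0 : (0 : ℝ) < n := by
    have : 0 < n := by omega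
    exact_mod_cast this
  have hn1 : (1 : ℝ) ≤ n := by
    have : 1 ≤ n := by omega
    exact_mod_cast this
  have hk0 : (0 : ℝ) < k := by
    have : 0 < k := by omega
    exact_mod_cast this
  have hk1 : (0 : ℝ) ≤ (k : ℝ) - 1 := by
    have : (1 : ℝ) ≤ k := by
      have : 1 ≤ k := by omega
      exact_mod_cast this
    linarith
  set M : ℝ := (n : ℝ) ^ ((r : ℝ) * (k - 1) / k) with hMdef
  have hM1 : 1 ≤ M := Real.one_le_rpow hn1 (by positivity)
  have hM0 : 0 < M := by linarith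
  have hMk : M ^ k = (n : ℝ) ^ (r * (k - 1)) := by
    rw [hMdef, ← Real.rpow_natCast, ← Real.rpow_mul hn0.le, div_mul_cancel₀ _ hk0.ne',
      ← Real.rpow_natCast]
    congr 1
    push_cast [Nat.cast_sub (show 1 ≤ k by omega)]
    ring
  have h := GRR r n k M (by omega) (by omega) hM1
    (fun H e he hH hc => OVB_step n r k M (by omega) hk hM0 hMk H e he hH hc)
  have hlog : (1 : ℝ) / 2 ≤ Real.log n := by
    have h2 : Real.log 2 ≤ Real.log n := by
      apply Real.log_le_log (by norm_num)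
      exact_mod_cast hn
    have := Real.log_two_gt_d9
    linarith
  have h3 : 1 + (r : ℝ) * Real.log n ≤ (r + 2) * Real.log n := by nlinarith
  calc (U k n r : ℝ) ≤ M * (1 + r * Real.log n) := h
    _ ≤ M * ((r + 2) * Real.log n) := mul_le_mul_of_nonneg_left h3 hM0.le
    _ = ((r : ℝ) + 2) * M * Real.log n := by ring

end H773Y
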