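import Pool.Agent.H773R2.UG.Defs5

/-! Task PKR: a random packing of `m`-sets (union bound). -/

set_option linter.unusedVariables false

namespace H773Y

open Finset Pool.Agent.Results.MP_9dddc4_co.UkExponent H773X

/-- the point with coordinates `(i, a)` -/
def PKR_enc {n m p : ℕ} (h : m * p ≤ n) (i : Fin m) (a : Fin p) : Fin n :=
  ⟨(i : ℕ) * p + a, by
    have h1 : (a : ℕ) < p := a.2
    have h2 : ((i : ℕ) + 1) * p ≤ m * p := Nat.mul_le_mul_right _ i.2
    have h3 : ((i : ℕ) + 1) * p = (i : ℕ) * p + p := by ring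
    omega⟩

theorem PKR_enc_inj {n m p : ℕ} (h : m * p ≤ n) {i i' : Fin m} {a a' : Fin p}
    (he : PKR_enc h i a = PKR_enc h i' a') : i = i' ∧ a = a' := by
  have h1 : (i : ℕ) * p + a = (i' : ℕ) * p + a' := congrArg Fin.val he
  have ha : (a : ℕ) < p := a.2
  have ha' : (a' : ℕ) < p := a'.2
  have hp : 0 < p := by omega
  have h2 : ((i : ℕ) * p + a) / p = i := by
    rw [Nat.mul_comm, Nat.mul_add_div hp, Nat.div_eq_of_lt ha, Nat.add_zero]
  have h3 : ((i' : ℕ) * p + a') / p = i' := by
    rw [Nat.mul_comm, Nat.mul_add_div hp, Nat.div_eq_of_lt ha', Nat.add_zero]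
  have h4 : (i : ℕ) = i' := by rw [← h2, h1, h3]
  refine ⟨Fin.ext h4, ?_⟩
  rw [h4] at h1
  exact Fin.ext (by omega)

/-- the block of a function -/
def PKR_blk {n m p : ℕ} (h : m * p ≤ n) (f : Fin m → Fin p) : Finset (Fin n) :=
  univ.image (fun i : Fin m => PKR_enc h i (f i))

theorem PKR_blk_card {n m p : ℕ} (h : m * p ≤ n) (f : Fin m → Fin p) :
    (PKR_blk h f).card = m := by
  unfold PKR_blk
  rw [card_image_of_injective _ (fun i i' he => (PKR_enc_inj h he).1), card_univ,
    Fintype.card_fin]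

theorem PKR_prod {ι : Type} [Fintype ι] [DecidableEq ι] (C : Finset ι) (x y : ℕ) :
    ∏ b : ι, (if b ∈ C then x else y) = x ^ C.card * y ^ (Fintype.card ι - C.card) := by
  rw [Finset.prod_ite, Finset.prod_const, Finset.prod_const]
  have h1 : univ.filter (fun b => b ∈ C) = C := by ext b; simp
  have h2 : univ.filter (fun b => b ∉ C) = Cᶜ := by ext b; simp
  rw [h1, h2, Finset.card_compl]

/-- the functions whose block contains `Y` -/
def PKR_W {n m p : ℕ} (h : m * p ≤ n) (Y : Finset (Fin n)) : Finset (Fin m → Fin p) :=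
  univ.filter (fun f => Y ⊆ PKR_blk h f)

theorem PKR_W_card {n m p : ℕ} (h : m * p ≤ n) (Y : Finset (Fin n)) :
    (PKR_W h Y).card ≤ p ^ (m - Y.card) := by
  classical
  rcases (PKR_W h Y).eq_empty_or_nonempty with h0 | ⟨f0, hf0⟩
  · rw [h0, card_empty]; exact Nat.zero_le _
  · have hf0' : Y ⊆ PKR_blk h f0 := (mem_filter.1 hf0).2
    obtain ⟨I, hI⟩ : ∃ I : Finset (Fin m), I = univ.filter (fun i => PKR_enc h i (f0 i) ∈ Y) :=
      ⟨_, rfl⟩
    have hYI : Y = I.image (fun i => PKR_enc h i (f0 i)) := by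
      ext y
      rw [mem_image]
      constructor
      · intro hy
        obtain ⟨i, -, hi⟩ := mem_image.1 (hf0' hy)
        refine ⟨i, ?_, hi⟩
        rw [hI, mem_filter]
        exact ⟨mem_univ _, by rw [hi]; exact hy⟩
      · rintro ⟨i, hi, rfl⟩
        rw [hI, mem_filter] at hi
        exact hi.2
    have hcard : Y.card = I.card := by
      conv_lhs => rw [hYI]
      exact card_image_of_injective _ (fun i i' he => (PKR_enc_inj h he).1)
    have hsub : PKR_W h Y ⊆
        Fintype.piFinset (fun i => if i ∈ I then {f0 i} else (univ : Finset (Fin p))) := by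
      intro f hf
      rw [Fintype.mem_piFinset]
      intro i
      by_cases hi : i ∈ I
      · rw [if_pos hi, mem_singleton]
        have h1 : PKR_enc h i (f0 i) ∈ Y := by
          rw [hI, mem_filter] at hi
          exact hi.2
        obtain ⟨i', -, hi'⟩ := mem_image.1 ((mem_filter.1 hf).2 h1)
        obtain ⟨e1, e2⟩ := PKR_enc_inj h hi'
        rw [e1] at e2
        exact e2
      · rw [if_neg hi]
        exact mem_univ _
    calc (PKR_W h Y).card ≤ _ := card_le_card hsub
      _ = ∏ i : Fin m, (if i ∈ I then 1 else p) := by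
        rw [Fintype.card_piFinset]
        apply Finset.prod_congr rfl
        intro i _
        by_cases hi : i ∈ I
        · rw [if_pos hi, if_pos hi, card_singleton]
        · rw [if_neg hi, if_neg hi, card_univ, Fintype.card_fin]
      _ = p ^ (m - Y.card) := by
        rw [PKR_prod, one_pow, one_mul, Fintype.card_fin, hcard]

theorem PKR_bad {n m p q : ℕ} (h : m * p ≤ n) (Y : Finset (Fin n)) (C : Finset (Fin q)) :
    (univ.filter (fun F : Fin q → (Fin m → Fin p) => ∀ b ∈ C, Y ⊆ PKR_blk h (F b))).card ≤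
      (p ^ (m - Y.card)) ^ C.card * (p ^ m) ^ (q - C.card) := by
  classical
  have hsub : univ.filter (fun F : Fin q → (Fin m → Fin p) => ∀ b ∈ C, Y ⊆ PKR_blk h (F b)) ⊆
      Fintype.piFinset (fun b => if b ∈ C then PKR_W h Y else (univ : Finset (Fin m → Fin p))) := by
    intro F hF
    rw [Fintype.mem_piFinset]
    intro b
    by_cases hb : b ∈ C
    · rw [if_pos hb]
      exact mem_filter.2 ⟨mem_univ _, (mem_filter.1 hF).2 b hb⟩
    · rw [if_neg hb]
      exact mem_univ _
  calc _ ≤ _ := card_le_card hsub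
    _ = ∏ b : Fin q, (if b ∈ C then (PKR_W h Y).card else p ^ m) := by
      rw [Fintype.card_piFinset]
      apply Finset.prod_congr rfl
      intro b _
      by_cases hb : b ∈ C
      · rw [if_pos hb, if_pos hb]
      · rw [if_neg hb, if_neg hb, card_univ, Fintype.card_fun, Fintype.card_fin, Fintype.card_fin]
    _ = (PKR_W h Y).card ^ C.card * (p ^ m) ^ (q - C.card) := by
      rw [PKR_prod, Fintype.card_fin]
    _ ≤ _ := Nat.mul_le_mul_right _ (Nat.pow_le_pow_left (PKR_W_card h Y) _)

theorem PKR_num (n a m p lam : ℕ) (ham : a ≤ m) (hp : 1 ≤ p)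
    (hn : n ^ a < (lam + 1).factorial) (hq : lam + 1 ≤ p ^ a) :
    n.choose a * ((p ^ a).choose (lam + 1) *
      ((p ^ (m - a)) ^ (lam + 1) * (p ^ m) ^ (p ^ a - (lam + 1)))) < (p ^ m) ^ (p ^ a) := by
  have e1 : (p ^ m) ^ (p ^ a) =
      (p ^ a) ^ (lam + 1) * ((p ^ (m - a)) ^ (lam + 1) * (p ^ m) ^ (p ^ a - (lam + 1))) := by
    have e0 : p ^ a * p ^ (m - a) = p ^ m := by
      rw [← pow_add]
      congr 1
      omega
    rw [← mul_assoc, ← mul_pow, e0, ← pow_add]
    congr 1
    omega
  have h1 : 0 < (p ^ (m - a)) ^ (lam + 1) * (p ^ m) ^ (p ^ a - (lam + 1)) := by positivity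
  rw [e1, ← mul_assoc]
  apply Nat.mul_lt_mul_of_pos_right _ h1
  have h2 : (p ^ a).choose (lam + 1) * (lam + 1).factorial ≤ (p ^ a) ^ (lam + 1) := by
    have h3 := Nat.descFactorial_eq_factorial_mul_choose (p ^ a) (lam + 1)
    have h4 := Nat.descFactorial_le_pow (p ^ a) (lam + 1)
    rw [mul_comm, ← h3]
    exact h4
  have h5 : 0 < (p ^ a).choose (lam + 1) := Nat.choose_pos hq
  have h6 : n.choose a ≤ n ^ a := Nat.choose_le_pow n a
  calc n.choose a * (p ^ a).choose (lam + 1) ≤ n ^ a * (p ^ a).choose (lam + 1) :=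
        Nat.mul_le_mul_right _ h6
    _ < (lam + 1).factorial * (p ^ a).choose (lam + 1) := Nat.mul_lt_mul_of_pos_right hn h5
    _ = (p ^ a).choose (lam + 1) * (lam + 1).factorial := mul_comm _ _
    _ ≤ _ := h2

theorem PKR : S_PKR := by
  classical
  intro n a m p lam ha ham hp hmp hn
  by_cases hq : lam + 1 ≤ p ^ a
  · -- union bound
    by_contra hcon
    have hbad : ∀ F : Fin (p ^ a) → (Fin m → Fin p), ∃ Y : Finset (Fin n), Y.card = a ∧
        lam < (univ.filter (fun b => Y ⊆ PKR_blk hmp (F b))).card := by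
      intro F
      by_contra hno
      push Not at hno
      exact hcon ⟨fun b => PKR_blk hmp (F b), fun b => PKR_blk_card hmp _, hno⟩
    have hcov : (univ : Finset (Fin (p ^ a) → (Fin m → Fin p))) ⊆
        (powersetCard a (univ : Finset (Fin n))).biUnion (fun Y =>
          (powersetCard (lam + 1) (univ : Finset (Fin (p ^ a)))).biUnion (fun C =>
            univ.filter (fun F : Fin (p ^ a) → (Fin m → Fin p) =>
              ∀ b ∈ C, Y ⊆ PKR_blk hmp (F b)))) := by
      intro F _
      obtain ⟨Y, hY, hlt⟩ := hbad F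
      obtain ⟨C, hC1, hC2⟩ := Finset.exists_subset_card_eq (Nat.succ_le_of_lt hlt)
      rw [mem_biUnion]
      refine ⟨Y, mem_powersetCard.2 ⟨subset_univ _, hY⟩, ?_⟩
      rw [mem_biUnion]
      refine ⟨C, mem_powersetCard.2 ⟨subset_univ _, hC2⟩, ?_⟩
      rw [mem_filter]
      exact ⟨mem_univ _, fun b hb => (mem_filter.1 (hC1 hb)).2⟩
    have h1 := card_le_card hcov
    rw [card_univ, Fintype.card_fun, Fintype.card_fun, Fintype.card_fin, Fintype.card_fin,
      Fintype.card_fin] at h1
    have h2 : ∀ Y ∈ powersetCard a (univ : Finset (Fin n)),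
        ((powersetCard (lam + 1) (univ : Finset (Fin (p ^ a)))).biUnion (fun C =>
            univ.filter (fun F : Fin (p ^ a) → (Fin m → Fin p) =>
              ∀ b ∈ C, Y ⊆ PKR_blk hmp (F b)))).card ≤
        (p ^ a).choose (lam + 1) *
          ((p ^ (m - a)) ^ (lam + 1) * (p ^ m) ^ (p ^ a - (lam + 1))) := by
      intro Y hY
      have hYc := (mem_powersetCard.1 hY).2
      refine card_biUnion_le.trans ?_
      have h3 : ∀ C ∈ powersetCard (lam + 1) (univ : Finset (Fin (p ^ a))),
          (univ.filter (fun F : Fin (p ^ a) → (Fin m → Fin p) =>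
              ∀ b ∈ C, Y ⊆ PKR_blk hmp (F b))).card ≤
          (p ^ (m - a)) ^ (lam + 1) * (p ^ m) ^ (p ^ a - (lam + 1)) := by
        intro C hC
        have h4 := PKR_bad (q := p ^ a) hmp Y C
        rw [hYc, (mem_powersetCard.1 hC).2] at h4
        exact h4
      have h5 := Finset.sum_le_card_nsmul _ _ _ h3
      rw [card_powersetCard, card_univ, Fintype.card_fin, smul_eq_mul] at h5
      exact h5
    have h6 := card_biUnion_le.trans (Finset.sum_le_card_nsmul _ _ _ h2)
    rw [card_powersetCard, card_univ, Fintype.card_fin, smul_eq_mul] at h6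
    have h7 := PKR_num n a m p lam ham hp hn hq
    omega
  · refine ⟨fun _ => PKR_blk hmp (fun _ => ⟨0, hp⟩), fun _ => PKR_blk_card hmp _, ?_⟩
    intro Y _
    calc _ ≤ (univ : Finset (Fin (p ^ a))).card := card_filter_le _ _
      _ = p ^ a := by rw [card_univ, Fintype.card_fin]
      _ ≤ lam := by omega

end H773Y
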