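import Pool.Agent.H773R2.UG.Defs

/-! Task REA (after `H773X.RG1`): pigeonhole over the dyadic classes of all degrees. -/

namespace H773Y

open Finset H773X

/-- all statistics -/
def REA_key {r n : ℕ} (S : Tp r n) (p : Fin r → Fin n) : Finset (Fin r) → ℕ :=
  fun B => Nat.log 2 ((S.filter (fun q => pr B q = pr B p)).card)

theorem REA_lt {r n : ℕ} (T : Tp r n) : Nat.log 2 T.card < BB r n := by
  refine Nat.lt_succ_of_le (Nat.log_mono_right ((card_le_univ T).trans ?_))
  rw [Fintype.card_pi]
  simp

theorem REA (h : S_RG0) : S_REA := by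
  intro r n S hn hS
  set t : Finset (Finset (Fin r) → ℕ) := Fintype.piFinset (fun _ => range (BB r n)) with ht
  have htc : t.card = LamB r n := by
    rw [ht, Fintype.card_piFinset]
    simp [LamB]
  have hmaps : ∀ p ∈ S, REA_key S p ∈ t := by
    intro p _
    rw [ht, Fintype.mem_piFinset]
    intro B
    rw [mem_range]
    exact REA_lt _
  have htne : t.Nonempty := by
    obtain ⟨p, hp⟩ := hS
    exact ⟨_, hmaps p hp⟩
  have hsum : S.card = ∑ y ∈ t, (S.filter (fun p => REA_key S p = y)).card :=
    card_eq_sum_card_fiberwise hmaps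
  obtain ⟨y, hy, hle⟩ : ∃ y ∈ t,
      S.card ≤ LamB r n * (S.filter (fun p => REA_key S p = y)).card := by
    apply exists_le_of_sum_le htne
    rw [sum_const, ← mul_sum, ← hsum, htc, smul_eq_mul]
  set S1 := S.filter (fun p => REA_key S p = y) with hS1
  have hsub : S1 ⊆ S := filter_subset _ _
  have hne : S1.Nonempty := by
    rw [← card_pos]
    have h1 := hS.card_pos
    by_contra h0
    have h0' : S1.card = 0 := by omega
    rw [h0', mul_zero] at hle
    omega
  have hk : ∀ B, ∀ p ∈ S1, Nat.log 2 ((S.filter (fun q => pr B q = pr B p)).card) = y B := by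
    intro B p hp
    rw [hS1, mem_filter] at hp
    rw [← hp.2]
    rfl
  refine ⟨S1, hsub, hne, hle, ?_⟩
  intro B p hp
  obtain ⟨h1, h2⟩ := h _ _ inferInstance inferInstance S S1 (pr B) (y B) hsub (hk B)
  calc dB S1 B p * mB S1 B ≤ 2 ^ (y B + 1) * mB S1 B := Nat.mul_le_mul_right _ (h1 (pr B p))
    _ ≤ 2 * S.card := h2
    _ ≤ 2 * (LamB r n * S1.card) := Nat.mul_le_mul_left _ hle
    _ = 2 * LamB r n * S1.card := by ring

end H773Y
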