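import Pool.Agent.H773R2.UG.Defs

/-! Task REB: cleaning. -/

namespace H773Y

open Finset Pool.Agent.Results.MP_9dddc4_co.UkExponent H773X

theorem REB_mB_pos {r n : ℕ} {S : Tp r n} (hS : S.Nonempty) (B : Finset (Fin r)) :
    0 < mB S B := by
  unfold mB
  exact Finset.card_pos.2 (hS.image _)

theorem REB_mB_mono {r n : ℕ} {S T : Tp r n} (h : T ⊆ S) (B : Finset (Fin r)) :
    mB T B ≤ mB S B := by
  unfold mB
  exact Finset.card_le_card (Finset.image_subset_image h)

theorem REB_mB_drop {r n : ℕ} (T : Tp r n) (B : Finset (Fin r)) {p : Fin r → Fin n}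
    (hp : p ∈ T) : mB (T.filter (fun q => ¬ pr B q = pr B p)) B + 1 ≤ mB T B := by
  unfold mB
  have h1 : pr B p ∉ (T.filter (fun q => ¬ pr B q = pr B p)).image (pr B) := by
    intro h
    obtain ⟨q, hq, hqp⟩ := Finset.mem_image.1 h
    exact (Finset.mem_filter.1 hq).2 hqp
  have h2 : insert (pr B p) ((T.filter (fun q => ¬ pr B q = pr B p)).image (pr B)) ⊆
      T.image (pr B) := by
    intro x hx
    rcases Finset.mem_insert.1 hx with rfl | hx
    · exact Finset.mem_image_of_mem _ hp
    · exact Finset.image_subset_image (Finset.filter_subset _ _) hx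
  have h3 := Finset.card_le_card h2
  rw [Finset.card_insert_of_notMem h1] at h3
  exact h3

/-- the potential -/
noncomputable def REB_Phi {r n : ℕ} (S T : Tp r n) : ℝ :=
  (T.card : ℝ) - ∑ B : Finset (Fin r), (S.card : ℝ) / (2 ^ (r + 1) * mB S B) * mB T B

theorem REB_Phi_self {r n : ℕ} {S : Tp r n} (hS : S.Nonempty) :
    REB_Phi S S = (S.card : ℝ) / 2 := by
  unfold REB_Phi
  have h : ∀ B : Finset (Fin r), (S.card : ℝ) / (2 ^ (r + 1) * mB S B) * mB S B =
      (S.card : ℝ) / 2 ^ (r + 1) := by
    intro B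
    have h1 : (0 : ℝ) < mB S B := by exact_mod_cast REB_mB_pos hS B
    field_simp
  rw [Finset.sum_congr rfl (fun B _ => h B), Finset.sum_const, Finset.card_univ,
    Fintype.card_finset, Fintype.card_fin, nsmul_eq_mul]
  push_cast
  field_simp
  ring

theorem REB_Phi_empty {r n : ℕ} (S : Tp r n) : REB_Phi S (∅ : Tp r n) = 0 := by
  unfold REB_Phi
  simp [mB]

theorem REB : S_REB := by
  intro r n S hS
  classical
  have hc : (0 : ℝ) < S.card := by exact_mod_cast Finset.card_pos.2 hS
  obtain ⟨T, hT, hmin⟩ := Finset.exists_min_image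
    (S.powerset.filter (fun T => (S.card : ℝ) / 2 ≤ REB_Phi S T)) Finset.card
    ⟨S, by
      rw [Finset.mem_filter]
      exact ⟨Finset.mem_powerset_self S, (REB_Phi_self hS).ge⟩⟩
  rw [Finset.mem_filter, Finset.mem_powerset] at hT
  obtain ⟨hTS, hTP⟩ := hT
  refine ⟨T, hTS, ?_, ?_⟩
  · rw [Finset.nonempty_iff_ne_empty]
    rintro rfl
    rw [REB_Phi_empty] at hTP
    linarith
  · intro B p hp
    by_contra hlt
    rw [not_le] at hlt
    have hm : (0 : ℝ) < mB S B := by exact_mod_cast REB_mB_pos hS B
    have hlt' : (2 : ℝ) ^ (r + 1) * mB S B * dB T B p < S.card := by exact_mod_cast hlt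
    have hd : (dB T B p : ℝ) < (S.card : ℝ) / (2 ^ (r + 1) * mB S B) := by
      rw [lt_div_iff₀ (by positivity)]
      linarith
    -- remove the fibre
    set T' : Tp r n := T.filter (fun q => ¬ pr B q = pr B p) with hT'
    have hsub : T' ⊆ T := Finset.filter_subset _ _
    have hcard : T'.card + dB T B p = T.card := by
      have := Finset.card_filter_add_card_filter_not (s := T) (fun q => pr B q = pr B p)
      unfold dB
      rw [hT']
      omega
    have hcard' : (T'.card : ℝ) + dB T B p = T.card := by exact_mod_cast hcard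
    have hdpos : 0 < dB T B p := by
      unfold dB
      exact Finset.card_pos.2 ⟨p, Finset.mem_filter.2 ⟨hp, rfl⟩⟩
    have hPhi : REB_Phi S T ≤ REB_Phi S T' := by
      unfold REB_Phi
      have h1 : ∑ B' : Finset (Fin r), (S.card : ℝ) / (2 ^ (r + 1) * mB S B') * mB T' B' +
          (S.card : ℝ) / (2 ^ (r + 1) * mB S B) ≤
          ∑ B' : Finset (Fin r), (S.card : ℝ) / (2 ^ (r + 1) * mB S B') * mB T B' := by
        rw [← Finset.add_sum_erase _ _ (Finset.mem_univ B),
          ← Finset.add_sum_erase (Finset.univ : Finset (Finset (Fin r))) _ (Finset.mem_univ B)]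
        have h2 : ∑ B' ∈ Finset.univ.erase B,
            (S.card : ℝ) / (2 ^ (r + 1) * mB S B') * mB T' B' ≤
            ∑ B' ∈ Finset.univ.erase B,
            (S.card : ℝ) / (2 ^ (r + 1) * mB S B') * mB T B' := by
          apply Finset.sum_le_sum
          intro B' _
          apply mul_le_mul_of_nonneg_left _ (by positivity)
          exact_mod_cast REB_mB_mono hsub B'
        have h3 : (mB T' B : ℝ) + 1 ≤ mB T B := by exact_mod_cast REB_mB_drop T B hp
        have h4 : (S.card : ℝ) / (2 ^ (r + 1) * mB S B) * (mB T' B + 1) ≤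
            (S.card : ℝ) / (2 ^ (r + 1) * mB S B) * mB T B :=
          mul_le_mul_of_nonneg_left h3 (by positivity)
        linarith
      linarith
    have hmem : T' ∈ S.powerset.filter (fun T => (S.card : ℝ) / 2 ≤ REB_Phi S T) := by
      rw [Finset.mem_filter, Finset.mem_powerset]
      exact ⟨hsub.trans hTS, hTP.trans hPhi⟩
    have := hmin T' hmem
    omega

end H773Y
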