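import Pool.Agent.H773R2.UG.Defs

set_option autoImplicit false

namespace H773Y

open Finset H773X

theorem REG_pos {r n : ℕ} {S : Tp r n} (h : S.Nonempty) (B : Finset (Fin r)) : 1 ≤ mB S B :=
  Finset.card_pos.2 (h.image _)

theorem REG_empty {r n : ℕ} {S : Tp r n} (h : S.Nonempty) : mB S ∅ = 1 := by
  refine le_antisymm ?_ (REG_pos h ∅)
  refine Finset.card_le_one.2 fun u _ v _ => ?_
  funext i
  exact absurd i.2 (Finset.notMem_empty _)

theorem REG_univ {r n : ℕ} (S : Tp r n) : mB S univ = S.card := by
  refine Finset.card_image_of_injective S fun p q h => ?_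
  funext i
  exact congrFun h ⟨i, Finset.mem_univ i⟩

theorem REG_insert {r n : ℕ} (S : Tp r n) (A : Finset (Fin r)) (a : Fin r) :
    mB S (insert a A) ≤ n * mB S A := by
  classical
  let g : Fin n × ({x // x ∈ A} → Fin n) → ({x // x ∈ insert a A} → Fin n) :=
    fun z i => if h : i.1 ∈ A then z.2 ⟨i.1, h⟩ else z.1
  have h1 : S.image (pr (insert a A)) ⊆ ((univ : Finset (Fin n)) ×ˢ S.image (pr A)).image g := by
    intro u hu
    rw [mem_image] at hu
    obtain ⟨p, hp, rfl⟩ := hu
    rw [mem_image]
    refine ⟨(p a, pr A p), ?_, ?_⟩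
    · rw [mem_product]
      exact ⟨mem_univ _, mem_image_of_mem _ hp⟩
    · funext i
      by_cases h : i.1 ∈ A
      · simp only [g, dif_pos h]
        rfl
      · simp only [g, dif_neg h]
        have : i.1 = a := by
          rcases Finset.mem_insert.1 i.2 with h' | h'
          · exact h'
          · exact absurd h' h
        change p a = p i.1
        rw [this]
  calc mB S (insert a A) ≤ (((univ : Finset (Fin n)) ×ˢ S.image (pr A)).image g).card :=
        card_le_card h1
    _ ≤ ((univ : Finset (Fin n)) ×ˢ S.image (pr A)).card := card_image_le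
    _ = n * mB S A := by rw [card_product, card_univ, Fintype.card_fin]; rfl

theorem REG (h1 : S_REA) (h2 : S_REB) : S_REG := by
  classical
  intro r n S hn hS
  obtain ⟨S1, hS1, hne1, hc1, hd1⟩ := h1 r n S hn hS
  obtain ⟨S', hS', hne', hd'⟩ := h2 r n S1 hne1
  refine ⟨S', S1.card, mB S1, hS'.trans hS1, ⟨?_, hne', REG_pos hne1, fun B p hp => ⟨hd' B p hp, ?_⟩⟩,
    hc1, REG_empty hne1, REG_univ S1, fun A a => REG_insert S1 A a⟩
  · exact Finset.card_pos.2 hne1
  · refine le_trans (Nat.mul_le_mul_right _ ?_) (hd1 B p (hS' hp))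
    exact card_le_card (filter_subset_filter _ hS')

end H773Y
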