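import Pool.Agent.H773R2.UG.Defs3

/-! Task SF4 (helper329). -/

set_option autoImplicit false

namespace H773Y

open Finset H773X

lemma SF4_mono {r : ℕ} (D : Finset (Fin r) → ℝ) (h : SupM D) (A C : Finset (Fin r)) :
    D A ≤ D (C ∪ A) := by
  induction C using Finset.induction_on with
  | empty => simp
  | insert b C hb ih =>
    rw [Finset.insert_union]
    exact ih.trans (h.2.1 _ _)

lemma SF4_mg {r : ℕ} (D : Finset (Fin r) → ℝ) (h : SupM D) (a : Fin r) (A C : Finset (Fin r))
    (haA : a ∉ A) (haC : a ∉ C) : mg D a A ≤ mg D a (C ∪ A) := by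
  induction C using Finset.induction_on with
  | empty => simp
  | insert b C hb ih =>
    rw [Finset.mem_insert, not_or] at haC
    have h1 := ih haC.2
    rw [Finset.insert_union]
    refine h1.trans ?_
    by_cases hbA : b ∈ C ∪ A
    · rw [Finset.insert_eq_of_mem hbA]
    · have h2 := h.2.2 (C ∪ A) a b (by
        rw [Finset.mem_union, not_or]; exact ⟨haC.2, haA⟩) hbA haC.1
      unfold mg
      linarith

theorem SF4 : S_SF4 := by
  intro d D hd hS hU
  obtain ⟨x, -, hx⟩ := Finset.exists_max_image (Finset.univ : Finset (Fin 4)) (fun c => D {c})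
    ⟨0, Finset.mem_univ _⟩
  by_cases hall : ∀ c, c ≠ x → mg D c {x} ≤ d - 3 / 4
  · exact ⟨x, hall⟩
  push Not at hall
  obtain ⟨y, hyx, hy⟩ := hall
  obtain ⟨w, hw⟩ : ∃ w : Fin 4, w ∉ ({x, y} : Finset (Fin 4)) := by
    by_contra hc
    push Not at hc
    have h1 : (Finset.univ : Finset (Fin 4)) ⊆ {x, y} := fun c _ => hc c
    have h2 := Finset.card_le_card h1
    have h3 : ({x, y} : Finset (Fin 4)).card ≤ 2 := Finset.card_le_two
    rw [Finset.card_univ, Fintype.card_fin] at h2
    omega
  refine ⟨w, fun c hc => ?_⟩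
  have hsub : (univ.erase w) ∪ ({x, y} : Finset (Fin 4)) = univ.erase w := by
    rw [Finset.union_eq_left]
    intro c hc
    rw [Finset.mem_erase]
    exact ⟨fun h => hw (h ▸ hc), Finset.mem_univ _⟩
  have h1 : D {x, y} ≤ D (univ.erase w) := by
    have := SF4_mono D hS {x, y} (univ.erase w)
    rwa [hsub] at this
  have h2 : D {x, y} = D {x} + mg D y {x} := by
    unfold mg
    rw [Finset.pair_comm x y]
    ring
  have h3 : mg D w (univ.erase w) = D univ - D (univ.erase w) := by
    unfold mg
    rw [Finset.insert_erase (Finset.mem_univ w)]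
  have hsub2 : (univ.erase w) ∪ ({c} : Finset (Fin 4)) = univ.erase w := by
    rw [Finset.union_eq_left]
    intro c' hc'
    rw [Finset.mem_singleton] at hc'
    rw [Finset.mem_erase, hc']
    exact ⟨hc, Finset.mem_univ _⟩
  have h4 : mg D w {c} ≤ mg D w (univ.erase w) := by
    have := SF4_mg D hS w {c} (univ.erase w) (by
      rw [Finset.mem_singleton]; exact fun h => hc h.symm) (Finset.notMem_erase _ _)
    rwa [hsub2] at this
  have h5 : mg D c {w} = D {c} + mg D w {c} - D {w} := by
    unfold mg
    have h6 : (insert c {w} : Finset (Fin 4)) = insert w {c} := Finset.pair_comm c w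
    rw [h6]
    ring
  have h7 : 0 ≤ D {w} := by
    have := hS.2.1 ∅ w
    rw [hS.1] at this
    simpa using this
  have h8 := hx c (Finset.mem_univ _)
  linarith

end H773Y
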