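import Pool.Agent.H773R2.UG.Defs

set_option autoImplicit false

open Finset

namespace H773Y

theorem SHP : S_SHP := by
  intro r θ η p j hr hpj
  have h0 : 0 < r := by omega
  have e : ∀ l : Fin r, shp r θ η l = be r θ η +
      (if l = (⟨0, h0⟩ : Fin r) then max θ 0 - be r θ η else 0) +
      (if l = (⟨r - 1, by omega⟩ : Fin r) then max θ 0 - be r θ η else 0) := by
    intro l
    unfold shp
    by_cases h1 : (l : ℕ) = 0
    · have h2 : l = (⟨0, h0⟩ : Fin r) := Fin.ext h1
      have h3 : l ≠ (⟨r - 1, by omega⟩ : Fin r) := by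
        intro h
        have := congrArg Fin.val h
        simp only at this
        omega
      rw [if_pos (Or.inl h1), if_pos h2, if_neg h3]
      ring
    · have h2 : l ≠ (⟨0, h0⟩ : Fin r) := fun h => h1 (congrArg Fin.val h)
      by_cases h3 : (l : ℕ) = r - 1
      · have h4 : l = (⟨r - 1, by omega⟩ : Fin r) := Fin.ext h3
        rw [if_pos (Or.inr h3), if_neg h2, if_pos h4]
        ring
      · have h4 : l ≠ (⟨r - 1, by omega⟩ : Fin r) := fun h => h3 (congrArg Fin.val h)
        rw [if_neg (by tauto), if_neg h2, if_neg h4]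
        ring
  simp only [e]
  rw [sum_add_distrib, sum_add_distrib, sum_ite_eq', sum_ite_eq', sum_const, Fin.card_Icc,
    nsmul_eq_mul]
  have hpj' : (p : ℕ) ≤ (j : ℕ) := hpj
  congr 1
  · congr 1
    · congr 1
      have h5 : (j : ℕ) + 1 - (p : ℕ) + (p : ℕ) = (j : ℕ) + 1 := by omega
      have h6 : (((j : ℕ) + 1 - (p : ℕ) : ℕ) : ℝ) + ((p : ℕ) : ℝ) = ((j : ℕ) : ℝ) + 1 := by
        exact_mod_cast h5
      linarith
    · have h7 : ((⟨0, h0⟩ : Fin r) ∈ Icc p j) ↔ (p : ℕ) = 0 := by
        rw [mem_Icc, Fin.le_def, Fin.le_def]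
        constructor
        · rintro ⟨h, _⟩
          simpa using h
        · intro h
          exact ⟨by simp [h], Nat.zero_le _⟩
      by_cases h8 : (p : ℕ) = 0
      · rw [if_pos h8, if_pos (h7.2 h8)]
      · rw [if_neg h8, if_neg (fun h => h8 (h7.1 h))]
  · have hj := j.2
    have h7 : ((⟨r - 1, by omega⟩ : Fin r) ∈ Icc p j) ↔ (j : ℕ) = r - 1 := by
      rw [mem_Icc, Fin.le_def, Fin.le_def]
      constructor
      · rintro ⟨_, h⟩
        simp only at h
        omega
      · intro h
        simp only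
        omega
    by_cases h8 : (j : ℕ) = r - 1
    · rw [if_pos h8, if_pos (h7.2 h8)]
    · rw [if_neg h8, if_neg (fun h => h8 (h7.1 h))]

end H773Y
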