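import Pool.Agent.H773R2.UG.Defs

namespace H773Y

open Finset Pool.Agent.Results.MP_9dddc4_co.UkExponent H773X

theorem SUP_pr_mono {r n : ℕ} {A B : Finset (Fin r)} (h : A ⊆ B) {p q : Fin r → Fin n}
    (hpq : pr B p = pr B q) : pr A p = pr A q := by
  funext i
  exact congrFun hpq ⟨i.1, h i.2⟩

/-- the fibres of the `B`-projection inside the fibre of an `A`-projection -/
theorem SUP_fib {r n : ℕ} (S : Tp r n) (N : ℕ) (M : Finset (Fin r) → ℕ) (h : Reg S N M)
    (A B : Finset (Fin r)) (hAB : A ⊆ B) (p : Fin r → Fin n) :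
    ((S.filter (fun q => pr A q = pr A p)).image (pr B)).card * N ≤
        2 ^ (r + 1) * M B * dB S A p ∧
      dB S A p * M B ≤
        ((S.filter (fun q => pr A q = pr A p)).image (pr B)).card * (2 * LamB r n * N) := by
  classical
  obtain ⟨hN, hS, hM, hreg⟩ := h
  have hfib : ∀ b ∈ (S.filter (fun q => pr A q = pr A p)).image (pr B), ∃ q ∈ S,
      ((S.filter (fun q => pr A q = pr A p)).filter (fun q' => pr B q' = b)).card = dB S B q := by
    intro b hb
    rw [mem_image] at hb
    obtain ⟨q, hq, rfl⟩ := hb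
    rw [mem_filter] at hq
    refine ⟨q, hq.1, ?_⟩
    unfold dB
    congr 1
    ext q'
    simp only [mem_filter]
    constructor
    · rintro ⟨⟨h1, _⟩, h3⟩
      exact ⟨h1, h3⟩
    · rintro ⟨h1, h3⟩
      exact ⟨⟨h1, (SUP_pr_mono hAB h3).trans hq.2⟩, h3⟩
  have hcard : dB S A p = ∑ b ∈ (S.filter (fun q => pr A q = pr A p)).image (pr B),
      ((S.filter (fun q => pr A q = pr A p)).filter (fun q' => pr B q' = b)).card := by
    unfold dB
    exact card_eq_sum_card_image (pr B) _
  constructor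
  · rw [hcard, mul_sum, ← smul_eq_mul, ← sum_const]
    refine sum_le_sum fun b hb => ?_
    obtain ⟨q, hq, he⟩ := hfib b hb
    rw [he]
    exact (hreg B q hq).1
  · rw [hcard, sum_mul, ← smul_eq_mul (_ : ℕ) (2 * LamB r n * N), ← sum_const]
    refine sum_le_sum fun b hb => ?_
    obtain ⟨q, hq, he⟩ := hfib b hb
    rw [he]
    exact (hreg B q hq).2

theorem SUP_prod {r n : ℕ} (Y : Tp r n) (B C D : Finset (Fin r)) (hB : B ⊆ D) (hC : C ⊆ D)
    (hD : D ⊆ B ∪ C) :
    (Y.image (pr D)).card ≤ (Y.image (pr B)).card * (Y.image (pr C)).card := by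
  classical
  let R : ({x // x ∈ D} → Fin n) → ({x // x ∈ B} → Fin n) × ({x // x ∈ C} → Fin n) :=
    fun g => (fun i => g ⟨i.1, hB i.2⟩, fun i => g ⟨i.1, hC i.2⟩)
  have hR : Function.Injective R := by
    intro g g' h
    funext i
    rcases mem_union.mp (hD i.2) with hi | hi
    · exact congrFun (congrArg Prod.fst h) ⟨i.1, hi⟩
    · exact congrFun (congrArg Prod.snd h) ⟨i.1, hi⟩
  rw [← card_image_of_injective _ hR, image_image, ← card_product]
  apply card_le_card
  intro x hx
  rw [mem_image] at hx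
  obtain ⟨q, hq, rfl⟩ := hx
  rw [mem_product]
  exact ⟨mem_image.mpr ⟨q, hq, rfl⟩, mem_image.mpr ⟨q, hq, rfl⟩⟩

theorem SUP : S_SUP := by
  classical
  intro r n S N M h A a b _ _ _
  obtain ⟨hN, ⟨p, hp⟩, hM, hreg⟩ := h
  have h : Reg S N M := ⟨hN, ⟨p, hp⟩, hM, hreg⟩
  obtain ⟨X, hX⟩ : ∃ X, X = S.filter (fun q => pr A q = pr A p) := ⟨_, rfl⟩
  have hd : dB S A p = X.card := by rw [hX]; rfl
  have hXpos : 0 < X.card := by
    rw [card_pos, hX]
    exact ⟨p, mem_filter.mpr ⟨hp, rfl⟩⟩
  obtain ⟨hlow, hup⟩ := hreg A p hp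
  rw [hd] at hlow hup
  have ha := (SUP_fib S N M h A (insert a A) (subset_insert a A) p).1
  have hb := (SUP_fib S N M h A (insert b A) (subset_insert b A) p).1
  have hab := (SUP_fib S N M h A (insert a (insert b A))
    ((subset_insert b A).trans (subset_insert a _)) p).2
  rw [← hX, hd] at ha hb hab
  have hcc := SUP_prod X (insert a A) (insert b A) (insert a (insert b A))
    (insert_subset_insert a (subset_insert b A)) (subset_insert a _)
    (by
      intro x hx
      simp only [mem_insert, mem_union] at hx ⊢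
      tauto)
  set ca := (X.image (pr (insert a A))).card
  set cb := (X.image (pr (insert b A))).card
  set cab := (X.image (pr (insert a (insert b A)))).card
  set K := KK r n with hK
  have hKe : K = 2 * LamB r n * 2 ^ (r + 1) := by
    rw [hK, KK, pow_succ 2 (r + 1)]; ring
  -- `c_a M(A) ≤ K M(Aa)`
  have step : ∀ c m : ℕ, c * N ≤ 2 ^ (r + 1) * m * X.card → c * M A ≤ K * m := by
    intro c m hc
    have h1 : (c * M A) * N ≤ (K * m) * N := by
      calc (c * M A) * N = (c * N) * M A := by ring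
        _ ≤ (2 ^ (r + 1) * m * X.card) * M A := Nat.mul_le_mul_right _ hc
        _ = 2 ^ (r + 1) * m * (X.card * M A) := by ring
        _ ≤ 2 ^ (r + 1) * m * (2 * LamB r n * N) := Nat.mul_le_mul_left _ hup
        _ = (K * m) * N := by rw [hKe]; ring
    exact Nat.le_of_mul_le_mul_right h1 (by omega)
  have h1 := step ca _ ha
  have h2 := step cb _ hb
  have h3 : M (insert a (insert b A)) ≤ cab * (K * M A) := by
    have h4 : X.card * M (insert a (insert b A)) ≤ X.card * (cab * (K * M A)) := by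
      calc X.card * M (insert a (insert b A)) ≤ cab * (2 * LamB r n * N) := hab
        _ ≤ cab * (2 * LamB r n * (2 ^ (r + 1) * M A * X.card)) :=
            Nat.mul_le_mul_left _ (Nat.mul_le_mul_left _ hlow)
        _ = X.card * (cab * (K * M A)) := by rw [hKe]; ring
    exact Nat.le_of_mul_le_mul_left h4 hXpos
  calc M (insert a (insert b A)) * M A ≤ (cab * (K * M A)) * M A := Nat.mul_le_mul_right _ h3
    _ ≤ ((ca * cb) * (K * M A)) * M A :=
        Nat.mul_le_mul_right _ (Nat.mul_le_mul_right _ hcc)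
    _ = K * ((ca * M A) * (cb * M A)) := by ring
    _ ≤ K * ((K * M (insert a A)) * (K * M (insert b A))) :=
        Nat.mul_le_mul_left _ (Nat.mul_le_mul h1 h2)
    _ = K ^ 3 * (M (insert a A) * M (insert b A)) := by ring

end H773Y
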