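import Pool.Agent.H773R2.UG.Defs

/-! Task TIC of h773y_tasks (helper48): a tree in `S` is a tree in `H`. -/

namespace H773Y

open Finset

theorem TIC : S_TIC := by
  intro r n H f S a t hf hH ha hw
  obtain ⟨w, hwS, hw⟩ := hw
  refine ⟨fun j q => w q (a j), ?_, ?_, ?_⟩
  · intro j q hq q' hq' h
    exact (hw q hq q' hq' j).2 h
  · intro j j' q hq q' hq' h
    have h1 := hf (w q) (hwS q hq) (a j)
    have h2 := hf (w q') (hwS q' hq') (a j')
    have h3 : a j = a j' := by
      rw [← h1, ← h2]
      exact congrArg f h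
    have h4 : j = j' := ha.1 h3
    subst h4
    exact ⟨rfl, (hw q hq q' hq' j).1 h⟩
  · intro q hq
    have h1 : (univ.image (fun j => w q (a j)) : Finset (Fin n)) = univ.image (w q) := by
      ext x
      simp only [mem_image, mem_univ, true_and]
      constructor
      · rintro ⟨j, hj⟩
        exact ⟨a j, hj⟩
      · rintro ⟨c, hc⟩
        obtain ⟨j, rfl⟩ := ha.2 c
        exact ⟨j, hc⟩
    rw [h1]
    exact hH (w q) (hwS q hq)

end H773Y
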