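import Pool.Agent.H773R2.UG.Defs

/-! UNG: the unavoidable tree -/

namespace H773Y

open Finset Pool.Agent.Results.MP_9dddc4_co.UkExponent H773X

theorem UNG_bt (r k : ℕ) (hr : 4 ≤ r) (hk : r ≤ k) : bt r k = (r : ℝ) - 1 - et r k := by
  have h1 : (4 : ℝ) ≤ r := by exact_mod_cast hr
  have h2 : (4 : ℝ) ≤ k := by exact_mod_cast hr.trans hk
  have h3 : (r : ℝ) * k - 1 ≠ 0 := by nlinarith
  unfold bt et
  field_simp
  ring

theorem UNG_LamB (r n : ℕ) : 1 ≤ LamB r n := by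
  unfold LamB BB
  exact Nat.one_le_pow _ _ (Nat.succ_pos _)

theorem UNG_KK (r n : ℕ) : 1 ≤ KK r n := by
  unfold KK
  exact Nat.mul_pos (Nat.one_le_pow _ _ (by norm_num)) (UNG_LamB r n)

theorem UNG_GG (r n : ℕ) (hr : 1 ≤ r) : 1 ≤ GG r n := by
  unfold GG
  have h1 : 1 ≤ r ^ 2 := Nat.one_le_pow _ _ hr
  have h2 := UNG_KK r n
  exact Nat.mul_pos (by omega) h2

theorem UNG_ZG (r n : ℕ) (hr : 1 ≤ r) : 1 ≤ ZG r n := by
  unfold ZG
  have h1 : 1 ≤ r ^ r := Nat.one_le_pow _ _ hr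
  have h2 := UNG_LamB r n
  have h3 : 1 ≤ (KK r n) ^ (3 * r ^ 2) := Nat.one_le_pow _ _ (UNG_KK r n)
  have h4 : 1 ≤ (GG r n) ^ r := Nat.one_le_pow _ _ (UNG_GG r n hr)
  exact Nat.mul_pos (Nat.mul_pos (Nat.mul_pos h1 h2) h3) h4

theorem UNG_notMem {r : ℕ} (a : Fin r → Fin r) (ha : Function.Bijective a) (p j : Fin r)
    (h : p ≤ j) : a j ∉ pre a p := by
  unfold pre
  intro hm
  obtain ⟨i, hi, hij⟩ := Finset.mem_image.1 hm
  have h1 := (Finset.mem_filter.1 hi).2
  have h2 := ha.1 hij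
  rw [h2] at h1
  exact absurd h1 (not_lt.2 h)

theorem UNG_univ {r n e N : ℕ} {S : Tp r n} {M : Finset (Fin r) → ℕ} (hr : 1 ≤ r) (hn : 2 ≤ n)
    (he : 1 ≤ e) (h1 : e ≤ r ^ r * S.card) (h2 : S.card ≤ LamB r n * N) (hN : 1 ≤ N)
    (hM : M univ = N) :
    Dh r n M univ ≤ (r : ℝ) - Real.log (e / ZG r n) / Real.log n := by
  have hL : 0 < Real.log n := Real.log_pos (by exact_mod_cast hn)
  have hK : (0 : ℝ) < KK r n := by exact_mod_cast UNG_KK r n
  have hG : (0 : ℝ) < GG r n := by exact_mod_cast UNG_GG r n hr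
  have hLB : (0 : ℝ) < LamB r n := by exact_mod_cast UNG_LamB r n
  have hrR : (0 : ℝ) < r := by exact_mod_cast hr
  have hNR : (0 : ℝ) < N := by exact_mod_cast hN
  have heR : (0 : ℝ) < e := by exact_mod_cast he
  have hZR : (0 : ℝ) < ZG r n := by exact_mod_cast UNG_ZG r n hr
  have h3 : (e : ℝ) ≤ (r : ℝ) ^ r * LamB r n * N := by
    have : e ≤ r ^ r * (LamB r n * N) := h1.trans (Nat.mul_le_mul_left _ h2)
    have h4 : (e : ℝ) ≤ (r : ℝ) ^ r * (LamB r n * N) := by exact_mod_cast this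
    linarith [h4, mul_assoc ((r : ℝ) ^ r) (LamB r n : ℝ) (N : ℝ)]
  have h4 : Real.log e ≤ Real.log ((r : ℝ) ^ r * LamB r n) + Real.log N := by
    rw [← Real.log_mul (by positivity) hNR.ne']
    exact Real.log_le_log heR h3
  have h5 : Real.log (ZG r n : ℝ) = Real.log ((r : ℝ) ^ r * LamB r n) +
      (r : ℝ) ^ 2 * (3 * Real.log (KK r n)) + r * Real.log (GG r n) := by
    unfold ZG
    push_cast
    rw [Real.log_mul (by positivity) (by positivity), Real.log_mul (by positivity) (by positivity),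
      Real.log_pow, Real.log_pow]
    push_cast
    ring
  unfold Dh
  rw [hM, Finset.card_univ, Fintype.card_fin, Real.log_div heR.ne' hZR.ne']
  rw [div_le_iff₀ hL, sub_mul, div_mul_cancel₀ _ hL.ne']
  linarith

theorem UNG (h1 : S_TRI) (h2 : S_REG) (h3 : S_SUP) (h4 : S_DHA) (h5 : S_DHB) (h6 : S_ORD)
    (h7 : S_EMB) (h8 : S_TIC) : S_UNG := by
  intro r k n e hr hk hn hlow hup
  have hr1 : 1 ≤ r := by omega
  have hL : 0 < Real.log n := Real.log_pos (by exact_mod_cast hn)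
  have hn0 : (0 : ℝ) < n := by have : 0 < n := by omega
                               exact_mod_cast this
  have hn1 : (1 : ℝ) ≤ n := by have : 1 ≤ n := by omega
                               exact_mod_cast this
  have hrR : (4 : ℝ) ≤ r := by exact_mod_cast hr
  have hZ1 : (1 : ℝ) ≤ ZG r n := by exact_mod_cast UNG_ZG r n hr1
  have hZR : (0 : ℝ) < ZG r n := by linarith
  have heR : (0 : ℝ) < e := lt_of_lt_of_le (by positivity) hlow
  have he : 1 ≤ e := by exact_mod_cast heR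
  have hbt := UNG_bt r k hr hk
  set d : ℝ := (r : ℝ) - Real.log (e / ZG r n) / Real.log n with hd
  have hd1 : d ≤ 1 + et r k := by
    have g1 : bt r k * Real.log n ≤ Real.log (e / ZG r n) := by
      rw [← Real.log_rpow hn0]
      refine Real.log_le_log (by positivity) ?_
      rw [le_div_iff₀ hZR, mul_comm]; exact hlow
    have g2 : bt r k ≤ Real.log (e / ZG r n) / Real.log n := by
      rw [le_div_iff₀ hL]; exact g1
    rw [hd]; linarith
  have hd2 : r * et r k / ((r : ℝ) - 1) ≤ d := by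
    have g1 : Real.log (e / ZG r n) ≤ ((r : ℝ) * bt r k / (r - 1)) * Real.log n := by
      rw [← Real.log_rpow hn0]
      refine Real.log_le_log (by positivity) ?_
      refine le_trans ?_ hup
      exact div_le_self heR.le hZ1
    have g2 : Real.log (e / ZG r n) / Real.log n ≤ (r : ℝ) * bt r k / (r - 1) := by
      rw [div_le_iff₀ hL]; exact g1
    have g3 : (r : ℝ) - (r : ℝ) * bt r k / (r - 1) = r * et r k / ((r : ℝ) - 1) := by
      have : (r : ℝ) - 1 ≠ 0 := by linarith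
      rw [hbt]
      field_simp
      ring
    rw [hd, ← g3]; linarith
  obtain ⟨b, hb0, hbs, hb⟩ := h6 r k d hr hk hd2 hd1
  have hnb : ∀ l, (1 : ℝ) ≤ (n : ℝ) ^ (b l) := fun l => Real.one_le_rpow hn1 (hb0 l)
  set t : Fin r → ℕ := fun l => ⌊(n : ℝ) ^ (b l)⌋₊ with ht
  have ht1 : ∀ l, 1 ≤ t l := fun l => (Nat.one_le_floor_iff _).2 (hnb l)
  have htle : ∀ l, (t l : ℝ) ≤ (n : ℝ) ^ (b l) := fun l => Nat.floor_le (by positivity)
  have ht2 : ∀ l, (n : ℝ) ^ (b l) ≤ 2 * t l := by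
    intro l
    have g1 := (Nat.lt_floor_add_one ((n : ℝ) ^ (b l))).le
    have g2 : (1 : ℝ) ≤ t l := by exact_mod_cast ht1 l
    have g3 : (n : ℝ) ^ (b l) ≤ (t l : ℝ) + 1 := g1
    linarith
  refine ⟨t, ht1, ?_, ?_⟩
  · have g1 : ∏ l, (n : ℝ) ^ (b l) = (e / ZG r n) * ((n : ℝ) ^ (bt r k))⁻¹ := by
      rw [← Real.rpow_sum_of_pos hn0, hbs]
      have g2 : 1 - d + et r k = Real.log (e / ZG r n) / Real.log n - bt r k := by
        rw [hbt, hd]; ring
      rw [g2, Real.rpow_sub hn0, div_eq_mul_inv]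
      congr 1
      rw [Real.rpow_def_of_pos hn0, mul_div_cancel₀ _ hL.ne', Real.exp_log (by positivity)]
    have g3 : ∏ l, (n : ℝ) ^ (b l) ≤ 2 ^ r * ((∏ l, t l : ℕ) : ℝ) := by
      calc ∏ l, (n : ℝ) ^ (b l) ≤ ∏ l : Fin r, (2 * (t l : ℝ)) :=
            Finset.prod_le_prod (fun l _ => by positivity) (fun l _ => ht2 l)
        _ = _ := by
            rw [Finset.prod_mul_distrib, Finset.prod_const, Finset.card_univ, Fintype.card_fin]
            push_cast; rfl
    have hnb0 : (0 : ℝ) < (n : ℝ) ^ (bt r k) := by positivity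
    have g4 : (e : ℝ) = ZG r n * (n : ℝ) ^ (bt r k) * ∏ l, (n : ℝ) ^ (b l) := by
      rw [g1]; field_simp
    rw [g4]
    calc (ZG r n : ℝ) * (n : ℝ) ^ (bt r k) * ∏ l, (n : ℝ) ^ (b l) ≤
        ZG r n * (n : ℝ) ^ (bt r k) * (2 ^ r * ((∏ l, t l : ℕ) : ℝ)) :=
          mul_le_mul_of_nonneg_left g3 (by positivity)
      _ = _ := by ring
  · intro H hH hHe
    obtain ⟨f, S, hf, hS, hcard⟩ := h1 r n H hr1 hH
    rw [hHe] at hcard
    have hSne : S.Nonempty := by
      rw [Finset.nonempty_iff_ne_empty]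
      rintro rfl
      rw [Finset.card_empty, mul_zero] at hcard
      omega
    obtain ⟨S', N, M, hsub, hReg, hSN, hM0, hM1, hMn⟩ := h2 r n S (by omega) hSne
    have hMpos : ∀ B, 1 ≤ M B := hReg.2.2.1
    have hSup : SupM (Dh r n M) := h4 r n M hn hr1 hMpos hM0 hMn (h3 r n S' N M hReg)
    have huniv : Dh r n M univ ≤ d := UNG_univ hr1 hn he hcard hSN hReg.1 hM1
    obtain ⟨a, ha, hfit⟩ := hb (Dh r n M) hSup huniv
    have hT : TreeIn S' a t := by
      refine h7 r n S' N M a t hr1 hReg ha ht1 (fun p j hpj htp => ?_)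
      refine h5 r n M (pre a p) (a j) (Icc p j) t b hn hr1 hMpos (UNG_notMem a ha p j hpj) ht1
        htle (hfit p j hpj ?_)
      by_contra hbp
      rw [not_lt] at hbp
      have g1 : (n : ℝ) ^ (b p) ≤ 1 := Real.rpow_le_one_of_one_le_of_nonpos hn1 hbp
      have g2 : (2 : ℝ) ≤ t p := by exact_mod_cast htp
      linarith [htle p]
    exact h8 r n H f S' a t (fun p hp c => hf p (hsub hp) c) (fun p hp => hS p (hsub hp)) ha hT

end H773Y
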