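import Pool.Agent.H773R2.UG.Defs4
import Pool.Agent.H773R2.UG.UNG

/-! UNX: the unavoidable tree from an ordering lemma -/

namespace H773Y

open Finset Pool.Agent.Results.MP_9dddc4_co.UkExponent H773X

theorem UNX (h1 : S_TRI) (h2 : S_REG) (h3 : S_SUP) (h4 : S_DHA) (h5 : S_DHB)
    (h7 : S_EMB) (h8 : S_TIC) : S_UNX := by
  intro r n e β dl hr1 hn h6 hlow hup
  have hL : 0 < Real.log n := Real.log_pos (by exact_mod_cast hn)
  have hn0 : (0 : ℝ) < n := by have : 0 < n := by omega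
                               exact_mod_cast this
  have hn1 : (1 : ℝ) ≤ n := by have : 1 ≤ n := by omega
                               exact_mod_cast this
  have hrR : (1 : ℝ) ≤ r := by exact_mod_cast hr1
  have hZ1 : (1 : ℝ) ≤ ZG r n := by exact_mod_cast UNG_ZG r n hr1
  have hZR : (0 : ℝ) < ZG r n := by linarith
  have heR : (0 : ℝ) < e := lt_of_lt_of_le (by positivity) hlow
  have he : 1 ≤ e := by exact_mod_cast heR
  set d : ℝ := (r : ℝ) - Real.log (e / ZG r n) / Real.log n with hd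
  have hd1 : d ≤ r - β := by
    have g1 : β * Real.log n ≤ Real.log (e / ZG r n) := by
      rw [← Real.log_rpow hn0]
      refine Real.log_le_log (by positivity) ?_
      rw [le_div_iff₀ hZR, mul_comm]; exact hlow
    have g2 : β ≤ Real.log (e / ZG r n) / Real.log n := by
      rw [le_div_iff₀ hL]; exact g1
    rw [hd]; linarith
  have hd2 : dl ≤ d := by
    have g1 : Real.log (e / ZG r n) ≤ ((r : ℝ) - dl) * Real.log n := by
      rw [← Real.log_rpow hn0]
      refine Real.log_le_log (by positivity) ?_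
      refine le_trans ?_ hup
      exact div_le_self heR.le hZ1
    have g2 : Real.log (e / ZG r n) / Real.log n ≤ (r : ℝ) - dl := by
      rw [div_le_iff₀ hL]; exact g1
    rw [hd]; linarith
  obtain ⟨b, hb0, hbs, hb⟩ := h6 d hd2 hd1
  have hnb : ∀ l, (1 : ℝ) ≤ (n : ℝ) ^ (b l) := fun l => Real.one_le_rpow hn1 (hb0 l)
  set t : Fin r → ℕ := fun l => ⌊(n : ℝ) ^ (b l)⌋₊ with ht
  have ht1 : ∀ l, 1 ≤ t l := fun l => (Nat.one_le_floor_iff _).2 (hnb l)
  have htle : ∀ l, (t l : ℝ) ≤ (n : ℝ) ^ (b l) := fun l => Nat.floor_le (by positivity)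
  have ht2 : ∀ l, (n : ℝ) ^ (b l) ≤ 2 * t l := by
    intro l
    have g1 := (Nat.lt_floor_add_one ((n : ℝ) ^ (b l))).le
    have g2 : (1 : ℝ) ≤ t l := by exact_mod_cast ht1 l
    have g3 : (n : ℝ) ^ (b l) ≤ (t l : ℝ) + 1 := g1
    linarith
  refine ⟨t, ht1, ?_, ?_⟩
  · have g1 : ∏ l, (n : ℝ) ^ (b l) = (e / ZG r n) * ((n : ℝ) ^ β)⁻¹ := by
      rw [← Real.rpow_sum_of_pos hn0, hbs]
      have g2 : r - d - β = Real.log (e / ZG r n) / Real.log n - β := by
        rw [hd]; ring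
      rw [g2, Real.rpow_sub hn0, div_eq_mul_inv]
      congr 1
      rw [Real.rpow_def_of_pos hn0, mul_div_cancel₀ _ hL.ne', Real.exp_log (by positivity)]
    have g3 : ∏ l, (n : ℝ) ^ (b l) ≤ 2 ^ r * ((∏ l, t l : ℕ) : ℝ) := by
      calc ∏ l, (n : ℝ) ^ (b l) ≤ ∏ l : Fin r, (2 * (t l : ℝ)) :=
            Finset.prod_le_prod (fun l _ => by positivity) (fun l _ => ht2 l)
        _ = _ := by
            rw [Finset.prod_mul_distrib, Finset.prod_const, Finset.card_univ, Fintype.card_fin]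
            push_cast; rfl
    have hnb0 : (0 : ℝ) < (n : ℝ) ^ β := by positivity
    have g4 : (e : ℝ) = ZG r n * (n : ℝ) ^ β * ∏ l, (n : ℝ) ^ (b l) := by
      rw [g1]; field_simp
    rw [g4]
    calc (ZG r n : ℝ) * (n : ℝ) ^ β * ∏ l, (n : ℝ) ^ (b l) ≤
        ZG r n * (n : ℝ) ^ β * (2 ^ r * ((∏ l, t l : ℕ) : ℝ)) :=
          mul_le_mul_of_nonneg_left g3 (by positivity)
      _ = _ := by ring
  · intro H hH hHe
    obtain ⟨f, S, hf, hS, hcard⟩ := h1 r n H hr1 hH
    rw [hHe] at hcard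
    have hSne : S.Nonempty := by
      rw [Finset.nonempty_iff_ne_empty]
      rintro rfl
      rw [Finset.card_empty, mul_zero] at hcard
      omega
    obtain ⟨S', N, M, hsub, hReg, hSN, hM0, hM1, hMn⟩ := h2 r n S (by omega) hSne
    have hMpos : ∀ B, 1 ≤ M B := hReg.2.2.1
    have hSup : SupM (Dh r n M) := h4 r n M hn hr1 hMpos hM0 hMn (h3 r n S' N M hReg)
    have huniv : Dh r n M univ ≤ d := UNG_univ hr1 hn he hcard hSN hReg.1 hM1
    obtain ⟨a, ha, hfit⟩ := hb (Dh r n M) hSup huniv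
    have hT : TreeIn S' a t := by
      refine h7 r n S' N M a t hr1 hReg ha ht1 (fun p j hpj htp => ?_)
      refine h5 r n M (pre a p) (a j) (Icc p j) t b hn hr1 hMpos (UNG_notMem a ha p j hpj) ht1
        htle (hfit p j hpj ?_)
      by_contra hbp
      rw [not_lt] at hbp
      have g1 : (n : ℝ) ^ (b p) ≤ 1 := Real.rpow_le_one_of_one_le_of_nonpos hn1 hbp
      have g2 : (2 : ℝ) ≤ t p := by exact_mod_cast htp
      linarith [htle p]
    exact h8 r n H f S' a t (fun p hp c => hf p (hsub hp) c) (fun p hp => hS p (hsub hp)) ha hT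

end H773Y
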