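import Pool.Agent.H773R2.UG.Defs3

set_option autoImplicit false

namespace H773Y

open Finset Pool.Agent.Results.MP_9dddc4_co.UkExponent H773X

theorem UP3_ZG (r n : ℕ) (hr : 4 ≤ r) : 1 ≤ ZG r n := by
  have h1 : 0 < BB r n := Nat.succ_pos _
  have h2 : 0 < LamB r n := pow_pos h1 _
  have h3 : 0 < r := by omega
  have h4 : 0 < KK r n := Nat.mul_pos (pow_pos (by norm_num) _) h2
  have h5 : 0 < GG r n := by
    unfold GG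
    positivity
  have h6 : 0 < ZG r n := by
    unfold ZG
    positivity
  exact h6

/-- the overlay case -/
theorem UP3_ova (n e d : ℕ) (hn : 1 ≤ n) (hcase : (n : ℝ) ^ ((23 : ℝ) / 8) ≤ (e : ℝ))
    (h : e ^ 3 ≤ d * (n.choose 4) ^ 2) : (e : ℝ) ≤ (n : ℝ) ^ ((9 : ℝ) / 4) * (d : ℝ) := by
  have hn1 : (1 : ℝ) ≤ n := by exact_mod_cast hn
  have hn0 : (0 : ℝ) < n := by linarith
  have h1 : n.choose 4 ≤ n ^ 4 := Nat.choose_le_pow n 4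
  have h2 : e ^ 3 ≤ d * (n ^ 4) ^ 2 :=
    h.trans (Nat.mul_le_mul_left _ (Nat.pow_le_pow_left h1 2))
  have h3 : (e : ℝ) ^ 3 ≤ d * (n : ℝ) ^ 8 := by
    have : (e : ℝ) ^ 3 ≤ d * ((n : ℝ) ^ 4) ^ 2 := by exact_mod_cast h2
    calc (e : ℝ) ^ 3 ≤ d * ((n : ℝ) ^ 4) ^ 2 := this
      _ = _ := by ring
  have h4 : (0 : ℝ) < (n : ℝ) ^ ((23 : ℝ) / 8) := Real.rpow_pos_of_pos hn0 _
  have h5 : ((n : ℝ) ^ ((23 : ℝ) / 8)) ^ 2 ≤ (e : ℝ) ^ 2 := by gcongr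
  have h6 : ((n : ℝ) ^ ((23 : ℝ) / 8)) ^ 2 * (n : ℝ) ^ ((9 : ℝ) / 4) = (n : ℝ) ^ 8 := by
    rw [← Real.rpow_natCast, ← Real.rpow_mul hn0.le, ← Real.rpow_add hn0, ← Real.rpow_natCast]
    norm_num
  have he0 : (0 : ℝ) ≤ e := Nat.cast_nonneg _
  have hd0 : (0 : ℝ) ≤ d := Nat.cast_nonneg _
  have h7 : (0 : ℝ) < ((n : ℝ) ^ ((23 : ℝ) / 8)) ^ 2 := by positivity
  have h8 : ((n : ℝ) ^ ((23 : ℝ) / 8)) ^ 2 * e ≤
      ((n : ℝ) ^ ((23 : ℝ) / 8)) ^ 2 * ((n : ℝ) ^ ((9 : ℝ) / 4) * d) := by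
    calc ((n : ℝ) ^ ((23 : ℝ) / 8)) ^ 2 * e ≤ (e : ℝ) ^ 2 * e := by gcongr
      _ = (e : ℝ) ^ 3 := by ring
      _ ≤ d * (n : ℝ) ^ 8 := h3
      _ = _ := by rw [← h6]; ring
  exact le_of_mul_le_mul_left h8 h7

theorem UP3_core (n Z D : ℕ) (b C : ℝ) (hb0 : 0 ≤ b) (hn : 2 ≤ n) (hZ : 1 ≤ Z)
    (h1 : S_COMT) (h3 : S_GRR)
    (hun : ∀ e : ℕ, (Z : ℝ) * (n : ℝ) ^ b ≤ e → (e : ℝ) ≤ (n : ℝ) ^ ((23 : ℝ) / 8) →
      ∃ t : Fin 4 → ℕ, (∀ l, 1 ≤ t l) ∧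
      (e : ℝ) ≤ 2 ^ 4 * (Z : ℝ) * (n : ℝ) ^ b * ((∏ l, t l : ℕ) : ℝ) ∧
      ∀ H : ES n, IsRGraph 4 H → H.card = e → ContainsT H 4 t)
    (hova : ∀ e d : ℕ, (n : ℝ) ^ ((23 : ℝ) / 8) ≤ (e : ℝ) → e ^ 3 ≤ d * (n.choose 4) ^ 2 →
      (e : ℝ) ≤ (n : ℝ) ^ b * (d : ℝ))
    (hL : 2 ^ 4 * (Z : ℝ) * (1 + 4 * Real.log n) ≤ C * (Real.log n) ^ D) :
    (U 3 n 4 : ℝ) ≤ C * (n : ℝ) ^ b * (Real.log n) ^ D := by
  have hn1 : (1 : ℝ) ≤ n := by exact_mod_cast (by omega : 1 ≤ n)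
  have hZ1 : (1 : ℝ) ≤ Z := by exact_mod_cast hZ
  have hnb : (1 : ℝ) ≤ (n : ℝ) ^ b := Real.one_le_rpow hn1 hb0
  have h2r : (1 : ℝ) ≤ 2 ^ 4 := one_le_pow₀ (by norm_num)
  have hM0 : (1 : ℝ) ≤ 2 ^ 4 * (Z : ℝ) := one_le_mul_of_one_le_of_one_le h2r hZ1
  have hM1 : (1 : ℝ) ≤ 2 ^ 4 * (Z : ℝ) * (n : ℝ) ^ b :=
    one_le_mul_of_one_le_of_one_le hM0 hnb
  have hZn : 0 ≤ (Z : ℝ) * (n : ℝ) ^ b := by positivity
  have key := h3 4 n 3 (2 ^ 4 * (Z : ℝ) * (n : ℝ) ^ b) (by omega) (by omega) hM1 (by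
    intro H e he hH hcard
    by_cases hcase : (e : ℝ) ≤ (n : ℝ) ^ ((23 : ℝ) / 8)
    · by_cases hlow : (e : ℝ) ≤ (Z : ℝ) * (n : ℝ) ^ b
      · refine ⟨1, le_rfl, common_one (by omega) H hH e he hcard, ?_⟩
        push_cast
        rw [mul_one]
        refine hlow.trans ?_
        rw [mul_assoc]
        exact le_mul_of_one_le_left hZn h2r
      · push Not at hlow
        obtain ⟨t, ht, h6, h7⟩ := hun e hlow.le hcase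
        refine ⟨∏ l, t l, Nat.succ_le_of_lt (Finset.prod_pos fun l _ => ht l), ?_, h6⟩
        exact h1 3 n 4 t H (by omega) (by omega) fun i => h7 (H i) (hH i) (hcard i)
    · push Not at hcase
      obtain ⟨s, hs, hs2⟩ := common_overlap (by omega : 0 < 3) H hH hcard
      refine ⟨s, ?_, hs, ?_⟩
      · by_contra hcon
        have h0 : s = 0 := by omega
        rw [h0, zero_mul] at hs2
        have : 0 < e ^ 3 := pow_pos he 3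
        omega
      · have h8 := hova e s hcase.le hs2
        have h9 : (n : ℝ) ^ b * s ≤ 2 ^ 4 * (Z : ℝ) * ((n : ℝ) ^ b * s) :=
          le_mul_of_one_le_left (by positivity) hM0
        calc (e : ℝ) ≤ (n : ℝ) ^ b * s := h8
          _ ≤ 2 ^ 4 * (Z : ℝ) * ((n : ℝ) ^ b * s) := h9
          _ = _ := by ring)
  push_cast at key
  calc (U 3 n 4 : ℝ) ≤ 2 ^ 4 * (Z : ℝ) * (n : ℝ) ^ b * (1 + 4 * Real.log n) := key
    _ = (n : ℝ) ^ b * (2 ^ 4 * (Z : ℝ) * (1 + 4 * Real.log n)) := by ring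
    _ ≤ (n : ℝ) ^ b * (C * (Real.log n) ^ D) := by
        refine mul_le_mul_of_nonneg_left hL (by positivity)
    _ = _ := by ring

theorem UP3 (h1 : S_COMT) (h2 : S_UN3) (h3 : S_GRR) (h4 : S_LOGG) : S_UP3 := by
  obtain ⟨C, D, hC, hL⟩ := h4 4 (by norm_num)
  refine ⟨C, D, hC, fun n hn => ?_⟩
  have hL' := hL n hn
  rw [Nat.cast_ofNat] at hL'
  exact UP3_core n (ZG 4 n) D (9 / 4) C (by norm_num) hn (UP3_ZG 4 n le_rfl) h1 h3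
    (fun e he he' => h2 n e hn he he') (fun e d he h => UP3_ova n e d (by omega) he h) hL'

end H773Y
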