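import Pool.Agent.H773R2.UG.Defs

set_option autoImplicit false

namespace H773Y

open Finset Pool.Agent.Results.MP_9dddc4_co.UkExponent H773X

theorem UPG_ZG (r n : ℕ) (hr : 4 ≤ r) : 1 ≤ ZG r n := by
  have h1 : 0 < BB r n := Nat.succ_pos _
  have h2 : 0 < LamB r n := pow_pos h1 _
  have h3 : 0 < r := by omega
  have h4 : 0 < KK r n := Nat.mul_pos (pow_pos (by norm_num) _) h2
  have h5 : 0 < GG r n := by
    unfold GG
    positivity
  have h6 : 0 < ZG r n := by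
    unfold ZG
    positivity
  exact h6

theorem UPG_bt (r k : ℕ) (hr : 4 ≤ r) (hk : r ≤ k) : 0 ≤ bt r k := by
  have hr' : (4 : ℝ) ≤ r := by exact_mod_cast hr
  have hk' : (4 : ℝ) ≤ k := by exact_mod_cast hr.trans hk
  unfold bt
  have h1 : (1 : ℝ) ≤ r * k := by nlinarith
  apply div_nonneg
  · exact mul_nonneg (mul_nonneg (by linarith) (by linarith)) (by linarith)
  · linarith

theorem UPG (h1 : S_COMT) (h2 : S_UNG) (h3 : S_OVA) (h4 : S_GRR) (h5 : S_LOGG) : S_UPG := by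
  intro r k hr hk
  obtain ⟨C, D, hC, hL⟩ := h5 r (by omega)
  refine ⟨C, D, hC, ?_⟩
  intro n hn
  have hb0 := UPG_bt r k hr hk
  have hung := h2 r k n
  have hova := h3 r n k
  obtain ⟨b, hb⟩ : ∃ b : ℝ, b = bt r k := ⟨_, rfl⟩
  rw [← hb] at hb0 hung hova ⊢
  have hn1 : (1 : ℝ) ≤ n := by exact_mod_cast (by omega : 1 ≤ n)
  have hZ := UPG_ZG r n hr
  have hZ1 : (1 : ℝ) ≤ ZG r n := by exact_mod_cast hZ
  have hnb : (1 : ℝ) ≤ (n : ℝ) ^ b := Real.one_le_rpow hn1 hb0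
  have h2r : (1 : ℝ) ≤ 2 ^ r := one_le_pow₀ (by norm_num)
  have hM0 : (1 : ℝ) ≤ 2 ^ r * (ZG r n : ℝ) := one_le_mul_of_one_le_of_one_le h2r hZ1
  have hM1 : (1 : ℝ) ≤ 2 ^ r * (ZG r n : ℝ) * (n : ℝ) ^ b :=
    one_le_mul_of_one_le_of_one_le hM0 hnb
  have hZn : 0 ≤ (ZG r n : ℝ) * (n : ℝ) ^ b := by positivity
  have key := h4 r n k (2 ^ r * (ZG r n : ℝ) * (n : ℝ) ^ b) (by omega) (by omega) hM1 (by
    intro H e he hH hcard
    by_cases hcase : (e : ℝ) ≤ (n : ℝ) ^ ((r : ℝ) * b / (r - 1))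
    · by_cases hlow : (e : ℝ) ≤ (ZG r n : ℝ) * (n : ℝ) ^ b
      · refine ⟨1, le_rfl, common_one (by omega) H hH e he hcard, ?_⟩
        push_cast
        rw [mul_one]
        refine hlow.trans ?_
        rw [mul_assoc]
        exact le_mul_of_one_le_left hZn h2r
      · push Not at hlow
        obtain ⟨t, ht, h6, h7⟩ := hung e hr hk hn hlow.le hcase
        refine ⟨∏ l, t l, Nat.succ_le_of_lt (Finset.prod_pos fun l _ => ht l), ?_, h6⟩
        exact h1 k n r t H (by omega) (by omega) fun i => h7 (H i) (hH i) (hcard i)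
    · push Not at hcase
      obtain ⟨s, hs, hs2⟩ := common_overlap (by omega : 0 < k) H hH hcard
      refine ⟨s, ?_, hs, ?_⟩
      · by_contra hcon
        have h0 : s = 0 := by omega
        rw [h0, zero_mul] at hs2
        have : 0 < e ^ k := pow_pos he k
        omega
      · have h8 := hova e s (by omega) (by omega) (by omega) he hcase.le hs2
        have h9 : (n : ℝ) ^ b * s ≤ 2 ^ r * (ZG r n : ℝ) * ((n : ℝ) ^ b * s) :=
          le_mul_of_one_le_left (by positivity) hM0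
        calc (e : ℝ) ≤ (n : ℝ) ^ b * s := h8
          _ ≤ 2 ^ r * (ZG r n : ℝ) * ((n : ℝ) ^ b * s) := h9
          _ = _ := by ring)
  calc (U k n r : ℝ) ≤ 2 ^ r * (ZG r n : ℝ) * (n : ℝ) ^ b * (1 + r * Real.log n) := key
    _ = (n : ℝ) ^ b * (2 ^ r * (ZG r n : ℝ) * (1 + r * Real.log n)) := by ring
    _ ≤ (n : ℝ) ^ b * (C * (Real.log n) ^ D) := by
        refine mul_le_mul_of_nonneg_left (hL n hn) (by positivity)
    _ = _ := by ring

end H773Y
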