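import Pool.Agent.H773R2.UG.Defs4

set_option autoImplicit false

namespace H773Y

open Finset Pool.Agent.Results.MP_9dddc4_co.UkExponent H773X

theorem UPK_ZG (r n : ℕ) (hr : 4 ≤ r) : 1 ≤ ZG r n := by
  have h1 : 0 < BB r n := Nat.succ_pos _
  have h2 : 0 < LamB r n := pow_pos h1 _
  have h3 : 0 < r := by omega
  have h4 : 0 < KK r n := Nat.mul_pos (pow_pos (by norm_num) _) h2
  have h5 : 0 < GG r n := by
    unfold GG
    positivity
  have h6 : 0 < ZG r n := by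
    unfold ZG
    positivity
  exact h6

theorem UPK_over (r n e s : ℕ) (β dl : ℝ) (hr : 4 ≤ r) (hn : 1 ≤ n)
    (hβ : β = ((r : ℝ) - 1) ^ 2 / r) (hdl : dl = 1 + 1 / ((r : ℝ) * ((r : ℝ) - 2)))
    (he : (n : ℝ) ^ ((r : ℝ) - dl) < e) (hs : e ^ (r - 1) ≤ s * (n.choose r) ^ (r - 1 - 1)) :
    (e : ℝ) ≤ (n : ℝ) ^ β * s := by
  have hr' : (4 : ℝ) ≤ r := by exact_mod_cast hr
  have hn0 : (0 : ℝ) < n := by exact_mod_cast hn
  have he0 : (0 : ℝ) < e := lt_trans (Real.rpow_pos_of_pos hn0 _) he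
  have hr2 : ((r - 2 : ℕ) : ℝ) = (r : ℝ) - 2 := by
    rw [Nat.cast_sub (by omega)]
    norm_num
  have hch : n.choose r ≤ n ^ r := Nat.choose_le_pow _ _
  have h1 : e ^ (r - 2) * e ≤ s * n ^ (r * (r - 2)) := by
    have h2 : e ^ (r - 2) * e = e ^ (r - 1) := by
      rw [← pow_succ]
      congr 1
      omega
    rw [h2]
    refine hs.trans (Nat.mul_le_mul_left _ ?_)
    rw [pow_mul, show r - 1 - 1 = r - 2 by omega]
    exact Nat.pow_le_pow_left hch _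
  have h1' : (e : ℝ) ^ (r - 2) * e ≤ s * (n : ℝ) ^ (r * (r - 2)) := by exact_mod_cast h1
  have h3 : (n : ℝ) ^ (((r : ℝ) - dl) * (r - 2)) ≤ (e : ℝ) ^ (r - 2) := by
    rw [Real.rpow_mul hn0.le, ← hr2, Real.rpow_natCast]
    exact pow_le_pow_left₀ (Real.rpow_nonneg hn0.le _) he.le _
  have h4 : ((r : ℝ) - dl) * (r - 2) = r * (r - 2) - β := by
    rw [hdl, hβ]
    have : (r : ℝ) ≠ 0 := by linarith
    have : (r : ℝ) - 2 ≠ 0 := by linarith
    field_simp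
    ring
  rw [h4, Real.rpow_sub hn0] at h3
  have h5 : (n : ℝ) ^ ((r : ℝ) * ((r : ℝ) - 2)) = (n : ℝ) ^ (r * (r - 2)) := by
    rw [← hr2, ← Nat.cast_mul, Real.rpow_natCast]
  rw [h5] at h3
  set A : ℝ := (n : ℝ) ^ (r * (r - 2)) with hA
  have hA0 : 0 < A := by positivity
  set Bb : ℝ := (n : ℝ) ^ β with hBb
  have hB0 : 0 < Bb := Real.rpow_pos_of_pos hn0 _
  have h6 : A / Bb * e ≤ s * A := (mul_le_mul_of_nonneg_right h3 he0.le).trans h1'
  have h7 : A * (e : ℝ) ≤ A * (Bb * s) := by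
    have h8 : A / Bb * e = A * e / Bb := by ring
    rw [h8, div_le_iff₀ hB0] at h6
    linarith
  exact le_of_mul_le_mul_left h7 hA0

theorem UPK (h1 : S_COMT) (h2 : S_UNX) (h3 : S_ORK) (h4 : S_GRR) (h5 : S_LOGG) : S_UPK := by
  intro r hr
  obtain ⟨C, D, hC, hL⟩ := h5 r (by omega)
  refine ⟨C, D, hC, ?_⟩
  intro n hn
  have hr' : (4 : ℝ) ≤ r := by exact_mod_cast hr
  have hr0 : (r : ℝ) ≠ 0 := by linarith
  obtain ⟨b, hb⟩ : ∃ b : ℝ, b = ((r : ℝ) - 1) ^ 2 / r := ⟨_, rfl⟩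
  obtain ⟨dl, hdl⟩ : ∃ dl : ℝ, dl = 1 + 1 / ((r : ℝ) * ((r : ℝ) - 2)) := ⟨_, rfl⟩
  have hb0 : 0 ≤ b := by rw [hb]; positivity
  have hrb : (r : ℝ) - b = 1 + ((r : ℝ) - 1) / r := by
    rw [hb]
    field_simp
    ring
  have hfit : ∀ d : ℝ, dl ≤ d → d ≤ r - b → ∃ b' : Fin r → ℝ, (∀ l, 0 ≤ b' l) ∧
      ∑ l, b' l = r - d - b ∧
      ∀ D : Finset (Fin r) → ℝ, SupM D → D univ ≤ d → Fits D b' := by
    intro d hd1 hd2
    obtain ⟨b', hb1, hb2, hb3⟩ := h3 r d hr (by rw [← hdl]; exact hd1) (by rw [← hrb]; exact hd2)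
    refine ⟨b', hb1, ?_, hb3⟩
    rw [hb2]
    linarith
  rw [← hb]
  have hn1 : (1 : ℝ) ≤ n := by exact_mod_cast (by omega : 1 ≤ n)
  have hZ := UPK_ZG r n hr
  have hZ1 : (1 : ℝ) ≤ ZG r n := by exact_mod_cast hZ
  have hnb : (1 : ℝ) ≤ (n : ℝ) ^ b := Real.one_le_rpow hn1 hb0
  have h2r : (1 : ℝ) ≤ 2 ^ r := one_le_pow₀ (by norm_num)
  have hM0 : (1 : ℝ) ≤ 2 ^ r * (ZG r n : ℝ) := one_le_mul_of_one_le_of_one_le h2r hZ1
  have hM1 : (1 : ℝ) ≤ 2 ^ r * (ZG r n : ℝ) * (n : ℝ) ^ b :=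
    one_le_mul_of_one_le_of_one_le hM0 hnb
  have hZn : 0 ≤ (ZG r n : ℝ) * (n : ℝ) ^ b := by positivity
  have key := h4 r n (r - 1) (2 ^ r * (ZG r n : ℝ) * (n : ℝ) ^ b) (by omega) (by omega) hM1 (by
    intro H e he hH hcard
    by_cases hcase : (e : ℝ) ≤ (n : ℝ) ^ ((r : ℝ) - dl)
    · by_cases hlow : (e : ℝ) ≤ (ZG r n : ℝ) * (n : ℝ) ^ b
      · refine ⟨1, le_rfl, common_one (by omega) H hH e he hcard, ?_⟩
        push_cast
        rw [mul_one]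
        refine hlow.trans ?_
        rw [mul_assoc]
        exact le_mul_of_one_le_left hZn h2r
      · push Not at hlow
        obtain ⟨t, ht, h6, h7⟩ := h2 r n e b dl (by omega) hn hfit hlow.le hcase
        refine ⟨∏ l, t l, Nat.succ_le_of_lt (Finset.prod_pos fun l _ => ht l), ?_, h6⟩
        exact h1 (r - 1) n r t H (by omega) (by omega) fun i => h7 (H i) (hH i) (hcard i)
    · push Not at hcase
      obtain ⟨s, hs, hs2⟩ := common_overlap (by omega : 0 < r - 1) H hH hcard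
      refine ⟨s, ?_, hs, ?_⟩
      · by_contra hcon
        have h0 : s = 0 := by omega
        rw [h0, zero_mul] at hs2
        have : 0 < e ^ (r - 1) := pow_pos he (r - 1)
        omega
      · have h8 := UPK_over r n e s b dl hr (by omega) hb hdl hcase hs2
        have h9 : (n : ℝ) ^ b * s ≤ 2 ^ r * (ZG r n : ℝ) * ((n : ℝ) ^ b * s) :=
          le_mul_of_one_le_left (by positivity) hM0
        calc (e : ℝ) ≤ (n : ℝ) ^ b * s := h8
          _ ≤ 2 ^ r * (ZG r n : ℝ) * ((n : ℝ) ^ b * s) := h9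
          _ = _ := by ring)
  calc (U (r - 1) n r : ℝ) ≤ 2 ^ r * (ZG r n : ℝ) * (n : ℝ) ^ b * (1 + r * Real.log n) := key
    _ = (n : ℝ) ^ b * (2 ^ r * (ZG r n : ℝ) * (1 + r * Real.log n)) := by ring
    _ ≤ (n : ℝ) ^ b * (C * (Real.log n) ^ D) := by
        refine mul_le_mul_of_nonneg_left (hL n hn) (by positivity)
    _ = _ := by ring

end H773Y
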